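import Pool.Agent.CITLines.Sets
import Pool.Agent.CITLines.Spread
import Pool.Agent.CITLines.Rank

set_option autoImplicit false

/-! Package F22: the dimension over the rational numbers of a variety defined over the algebraic
numbers.

PROOF. `dm p ≤ dm (IQ p)` is `dm_le_dm_IQ`; `p = vanI V`. Conversely let `d = dm (IQ p)`. By
`exists_indep_finset` for `IQ p` there are `d` coordinates `x_i, i ∈ I`, algebraically independent
over `ℚ` modulo `IQ p`, so the `gen p i`, `i ∈ I`, are algebraically independent over `ℚ`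
(`IQ p = kr ℚ (gen p)`, `IQ_eq_kr`, `kr_gen`), hence over the field `k0 = algebraicClosure ℚ ℂ` of
algebraic numbers (`AlgebraicIndependent.extendScalars`/`adjoin_of_disjoint`..., algebraic
extension:
`AlgebraicIndependent.extendScalars_of_isIntegral`-like lemmas). We show that they are
algebraically independent over `ℂ` modulo `p`; then `d ≤ dm p` (`card_le_dm`). Let
`G ∈ MvPolynomial I ℂ`, `G ≠ 0`, and suppose that `G(x_I)` is in `p`, i.e. vanishes on `V`. Let
`φ : ℂ →ₗ[k0] k0` be a linear functional with `φ (coeff m G) ≠ 0` for some `m`;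
`G' := coefMap φ G ∈ MvPolynomial I k0`, `G' ≠ 0` (`CITLines.coefMap`). For a point `P ∈ V` with
coordinates in `k0`: `G'(P_I) = φ (G(P_I)) = 0`. Let `S' ⊆ MvPolynomial (Fin n) k0` be the set of
polynomials whose images in `MvPolynomial (Fin n) ℂ` are in `S` (all elements of `S` arise, `hS`).
So
`G'(x_I)` vanishes at all zeros of `S'` in `k0^n` with nonzero coordinates, and
`(∏ i, x_i) G'(x_I)` vanishes at all zeros of `S'` in `k0^n`. Hilbert's Nullstellensatz over `k0`
(`MvPolynomial.vanishingIdeal_zeroLocus_eq_radical`, `k0` algebraically closed) shows that a power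
of it is in the ideal generated by `S'`, so (map to `ℂ`) `G'(x_I)` vanishes on `V`, so
`G'(gen p_I) = 0`: contradiction to the independence over `k0`. -/

namespace Pool.Agent.Srf5

open MvPolynomial Pool.Agent.CITLines Pool.Agent.CITTrans

section Defined

variable {k0 : Type} [Field k0] [Algebra k0 ℂ]

private theorem dq_eval {κ : Type} (φ : ℂ →ₗ[k0] k0) (F : MvPolynomial κ ℂ) (x : κ → k0) :
    MvPolynomial.eval x (coefMap φ F) =
      φ (MvPolynomial.eval (fun i => algebraMap k0 ℂ (x i)) F) := by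
  induction F using MvPolynomial.induction_on' with
  | monomial m a =>
    rw [coefMap_monomial, eval_monomial, eval_monomial]
    have h : (m.prod fun i e => (algebraMap k0 ℂ (x i)) ^ e) =
        algebraMap k0 ℂ (m.prod fun i e => x i ^ e) := by
      simp [Finsupp.prod, map_prod]
    rw [h, mul_comm a, ← Algebra.smul_def, map_smul, smul_eq_mul, mul_comm]
  | add f g hf hg => rw [coefMap_add, map_add, map_add, map_add, hf, hg]

/-- The ideal is stable under the coefficientwise functionals. -/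
private theorem dq_mem [IsAlgClosed k0] {n : ℕ} (S' : Set (MvPolynomial (Fin n) k0))
    (V : Set (Fin n → ℂ)) (hV : V = {x | (∀ i, x i ≠ 0) ∧
      ∀ p ∈ MvPolynomial.map (algebraMap k0 ℂ) '' S', MvPolynomial.eval x p = 0})
    (φ : ℂ →ₗ[k0] k0) (F : MvPolynomial (Fin n) ℂ) (hF : F ∈ vanI V) :
    MvPolynomial.map (algebraMap k0 ℂ) (coefMap φ F) ∈ vanI V := by
  have h1 : coefMap φ F * ∏ i, X i ∈ (Ideal.span S').radical := by
    rw [← MvPolynomial.vanishingIdeal_zeroLocus_eq_radical (K := k0),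
      MvPolynomial.mem_vanishingIdeal_iff]
    intro y hy
    change MvPolynomial.eval y _ = 0
    by_cases h : ∀ i, y i ≠ 0
    · have h2 : (fun i => algebraMap k0 ℂ (y i)) ∈ V := by
        rw [hV]
        refine ⟨fun i => (map_ne_zero _).2 (h i), ?_⟩
        rintro _ ⟨q, hq, rfl⟩
        have h3 : MvPolynomial.eval y q = 0 := hy q (Ideal.subset_span hq)
        have h4 : MvPolynomial.eval (fun i => algebraMap k0 ℂ (y i))
            (MvPolynomial.map (algebraMap k0 ℂ) q) = algebraMap k0 ℂ (MvPolynomial.eval y q) := by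
          rw [MvPolynomial.eval_map]
          exact (MvPolynomial.eval₂_comp_left (algebraMap k0 ℂ) (RingHom.id k0) y q).symm
        rw [h4, h3, map_zero]
      rw [map_mul, dq_eval, mem_vanI.1 hF _ h2, map_zero, zero_mul]
    · push Not at h
      obtain ⟨i, hi⟩ := h
      rw [map_mul, map_prod, Finset.prod_eq_zero (Finset.mem_univ i), mul_zero]
      rw [eval_X, hi]
  obtain ⟨N, hN⟩ := h1
  rw [mem_vanI]
  intro x hx
  have hx' := hx
  rw [hV] at hx'
  have h3 : Ideal.span S' ≤ RingHom.ker ((MvPolynomial.eval x).comp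
      (MvPolynomial.map (algebraMap k0 ℂ))) := by
    rw [Ideal.span_le]
    intro q hq
    exact hx'.2 _ ⟨q, hq, rfl⟩
  have h4 : MvPolynomial.eval x (MvPolynomial.map (algebraMap k0 ℂ)
      ((coefMap φ F * ∏ i, X i) ^ N)) = 0 := h3 hN
  rw [map_pow, map_pow] at h4
  have h5 := eq_zero_of_pow_eq_zero h4
  rw [map_mul, map_mul, mul_eq_zero] at h5
  rcases h5 with h5 | h5
  · exact h5
  · exfalso
    rw [map_prod, map_prod, Finset.prod_eq_zero_iff] at h5
    obtain ⟨i, -, hi⟩ := h5
    rw [map_X, eval_X] at hi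
    exact hx'.1 i hi

/-- Independence over `k0` implies independence over `ℂ`. -/
private theorem dq_indep {ι : Type} (p : Ideal (MvPolynomial ι ℂ)) [p.IsPrime]
    (hp : ∀ (φ : ℂ →ₗ[k0] k0) (F : MvPolynomial ι ℂ), F ∈ p →
      MvPolynomial.map (algebraMap k0 ℂ) (coefMap φ F) ∈ p)
    {B : Type} (f : B → ι) (h : AlgebraicIndependent k0 (fun b => gen p (f b))) :
    AlgebraicIndependent ℂ (fun b => gen p (f b)) := by
  rw [algebraicIndependent_iff]
  intro F hF
  by_contra hF0
  obtain ⟨m, hm⟩ := MvPolynomial.ne_zero_iff.mp hF0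
  obtain ⟨φ, hφ⟩ : ∃ φ : ℂ →ₗ[k0] k0, φ (coeff m F) ≠ 0 := by
    by_contra hcon
    push Not at hcon
    exact hm ((Module.forall_dual_apply_eq_zero_iff k0 (coeff m F)).mp hcon)
  have h1 : rename f F ∈ p := by
    rw [← kr_gen p, mem_kr, aeval_rename]
    exact hF
  have h2 := hp φ _ h1
  have h3 := coefMap_rename φ f F
  have h4 : aeval (fun b => gen p (f b)) (coefMap φ F) = 0 := by
    rw [h3, ← kr_gen p, mem_kr, MvPolynomial.aeval_map_algebraMap, aeval_rename] at h2
    exact h2
  have h5 := (algebraicIndependent_iff.mp h) _ h4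
  apply hφ
  rw [← coeff_coefMap, h5, coeff_zero]

private theorem dq_rk {ι : Type} [Fintype ι] (p : Ideal (MvPolynomial ι ℂ)) [p.IsPrime]
    (hp : ∀ (φ : ℂ →ₗ[k0] k0) (F : MvPolynomial ι ℂ), F ∈ p →
      MvPolynomial.map (algebraMap k0 ℂ) (coefMap φ F) ∈ p) :
    rk k0 (Set.range (gen p)) ≤ dm p := by
  obtain ⟨B, hB⟩ := (AlgebraicIndependent.matroid k0 (Kf p)).exists_isBasis (Set.range (gen p))
  have h1 : AlgebraicIndependent k0 ((↑) : B → Kf p) := hB.indep
  have hsec : ∀ b : B, ∃ i, gen p i = b := fun b => hB.subset b.2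
  choose f hf using hsec
  have h2 : (fun b : B => gen p (f b)) = ((↑) : B → Kf p) := funext hf
  have h3 := dq_indep p hp f (by rw [h2]; exact h1)
  rw [h2] at h3
  have h4 : (AlgebraicIndependent.matroid ℂ (Kf p)).Indep B := h3
  rw [dm_eq_rk]
  unfold rk
  rw [← hB.encard_eq_eRk]
  exact h4.encard_le_eRk_of_subset hB.subset

end Defined

theorem dm_IQ_eq {n : ℕ} (S : Set (MvPolynomial (Fin n) ℂ))
    (hS : ∀ p ∈ S, ∀ m, IsAlgebraic ℚ (p.coeff m)) (V : Set (Fin n → ℂ))
    (hV : V = {x | (∀ i, x i ≠ 0) ∧ ∀ p ∈ S, MvPolynomial.eval x p = 0})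
    (hp : (vanI V).IsPrime) : dm (IQ (vanI V)) = dm (vanI V) := by
  refine le_antisymm ?_ (dm_le_dm_IQ _)
  haveI : IsAlgClosed (algebraicClosure ℚ ℂ) :=
    (algebraicClosure.isAlgClosure ℚ ℂ).isAlgClosed
  obtain ⟨S', hS'⟩ : ∃ S' : Set (MvPolynomial (Fin n) (algebraicClosure ℚ ℂ)),
      S = MvPolynomial.map (algebraMap (algebraicClosure ℚ ℂ) ℂ) '' S' := by
    refine ⟨MvPolynomial.map (algebraMap (algebraicClosure ℚ ℂ) ℂ) ⁻¹' S, ?_⟩
    rw [Set.image_preimage_eq_inter_range, eq_comm, Set.inter_eq_left]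
    intro p hpS
    refine (mem_range_map_iff_coeffs_subset).2 ?_
    intro c hc
    obtain ⟨m, -, rfl⟩ := mem_coeffs_iff.1 hc
    exact ⟨⟨_, mem_algebraicClosure_iff.2 (hS p hpS m)⟩, rfl⟩
  rw [hS'] at hV
  have h1 := dq_rk (k0 := algebraicClosure ℚ ℂ) (vanI V) fun φ F hF =>
    dq_mem S' V hV φ F hF
  have h2 : IQ (vanI V) = kr ℚ (gen (vanI V)) := by
    rw [← IQ_eq_kr, kr_gen]
  have h3 := dm_kr (k := ℚ) (gen (vanI V))
  have h4 : rk ℚ (Set.range (gen (vanI V))) ≤
      rk (algebraicClosure ℚ ℂ) (Set.range (gen (vanI V))) := by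
    have h := rk_union_le_of_algebraic (k := ℚ) (K := algebraicClosure ℚ ℂ)
      (L := Kf (vanI V)) ∅ ?_ (Set.range (gen (vanI V)))
    · rw [Set.empty_union] at h
      have h0 : rk ℚ (∅ : Set (Kf (vanI V))) = 0 := by
        unfold rk
        simp
      rwa [h0, zero_add] at h
    · intro z
      have h5 : IsAlgebraic ℚ (z : ℂ) := mem_algebraicClosure_iff.1 z.2
      have h6 : IsAlgebraic ℚ (algebraMap ℂ (Kf (vanI V)) z) := h5.algebraMap
      exact h6.extendScalars (FaithfulSMul.algebraMap_injective ℚ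
        (Algebra.adjoin ℚ (∅ : Set (Kf (vanI V)))))
  have h5 : dm (IQ (vanI V)) = dm (kr ℚ (gen (vanI V))) := by rw [h2]
  rw [← h5] at h3
  have h6 := h4.trans h1
  rw [← h3] at h6
  exact_mod_cast h6

end Pool.Agent.Srf5
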