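import Pool.Agent.Srf5.CpxPts
import Pool.Agent.Srf5.DefQ
import Pool.Agent.CITNF.Cover

set_option autoImplicit false

/-! Package F25: the theorem for surfaces.

PROOF. Template: `M05Full.main` (file M05Full/Final.lean), from `cover_finset` on.
`p = vanI V`, `w = gen p` (all `w i ≠ 0`), `dm p = 2` (`hdim`), `dm (kr ℚ w) = dm (IQ p) = 2`
(`dm_IQ_eq`). `Surf ℂ w`: `fine` is `hfine` with `algDep_iff`; `Surf ℚ w` by `surf_iff`. `E1` from
`curveList_exists` (over `ℚ`), `E2` from `hpts` for the first five coordinates (`sub_surf`), `Ep`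
from
`cpx_points`. `cover_finset (E1 ∪ Ep)` gives `k, L, ζ`. Let `M, η, T, X` be given, `v = gen (vanI
X)`,
`r = finrank ℚ (QS M)`; `dim T = n - r` (`dim_cos`), `kr ℂ w = p ≤ vanI X = kr ℂ v`
(`X ⊆ V`), hence `kr ℚ w ≤ kr ℚ v`. The hypothesis is `2 + (n - r) < dm (vanI X) + n`, i.e.
`2 < dm (vanI X) + r`; `dm (vanI X) ≤ 2`. For `a ∈ M` `mon v a` is a root of unity.
`dm (vanI X) = 2`: then `kr ℂ v = p` and `r ≥ 1`: a nonzero `a ∈ M` (`M05Full.fin_ne` for `Fin n`,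
reprove) contradicts `Surf.trans`.
`dm (vanI X) = 1`: `r ≥ 2`, two independent vectors of `M` (`M05Full.fin_ind2` for `Fin n`), some
`v i` is transcendental over `ℂ`; `CurveList` gives `a ∈ E1` with `mon v a = 1`, so `x^a = 1` on
`X`.
`dm (vanI X) = 0`: `X` is one point `P` (all `v i` are algebraic over `ℂ`, so constant), and `r ≥
3`. If
`n = 5` then `dim T ≤ 2`; the second case of `hc` is excluded; so `dim T ≤ 2` in all cases, i.e.
`n ≤ r + 2`, and `RankLe 2 P` with `U = QS M` (as `LThree/Cover.lean`, `cv_rank`);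
`kr ℚ w ≤ kr ℚ P`. `cpx_points` gives `a ∈ Ep`. -/

namespace Pool.Agent.Srf5

open MvPolynomial Pool.Agent.CITLines Pool.Agent.CITTrans

/-- A nonzero vector in a lattice of positive rank. -/
private theorem fz_ne {n : ℕ} {M : Submodule ℤ (Fin n → ℤ)} (h : 0 < Module.finrank ℚ (QS M)) :
    ∃ l ∈ M, l ≠ 0 := by
  by_contra hcon
  push Not at hcon
  have : QS M = ⊥ := by
    unfold QS
    rw [Submodule.span_eq_bot]
    rintro _ ⟨a, ha, rfl⟩
    rw [cst_eq_zero]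
    exact hcon a ha
  rw [this, finrank_bot] at h
  exact lt_irrefl _ h

/-- Two independent vectors in a lattice of rank at least two. -/
private theorem fz_ind2 {n : ℕ} {M : Submodule ℤ (Fin n → ℤ)}
    (h : 1 < Module.finrank ℚ (QS M)) :
    ∃ l ∈ M, ∃ m ∈ M, LinearIndependent ℤ ![l, m] := by
  have hnt : Nontrivial (QS M) := Module.nontrivial_of_finrank_pos (R := ℚ) (by omega)
  obtain ⟨v, hv⟩ := exists_ne (0 : QS M)
  obtain ⟨w, hw⟩ := exists_linearIndependent_pair_of_one_lt_finrank (R := ℚ) h hv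
  rw [LinearIndependent.pair_iff] at hw
  obtain ⟨k1, hk1, l, hl, hl2⟩ := exists_mult_mem v.2
  obtain ⟨k2, hk2, m, hm, hm2⟩ := exists_mult_mem w.2
  refine ⟨l, hl, m, hm, ?_⟩
  rw [LinearIndependent.pair_iff]
  intro s t hst
  have h1 : ((s : ℚ) * k1) • v + ((t : ℚ) * k2) • w = 0 := by
    apply Subtype.ext
    funext i
    have h2 := congrFun hst i
    simp only [Pi.add_apply, Pi.smul_apply, smul_eq_mul, Pi.zero_apply] at h2
    have h3 : (s : ℚ) * l i + t * m i = 0 := by exact_mod_cast h2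
    rw [hl2, hm2] at h3
    change (s : ℚ) * k1 * (v : Fin n → ℚ) i + (t : ℚ) * k2 * (w : Fin n → ℚ) i = 0
    linear_combination h3
  obtain ⟨h2, h3⟩ := hw _ _ h1
  have hk1' : (k1 : ℚ) ≠ 0 := by exact_mod_cast hk1
  have hk2' : (k2 : ℚ) ≠ 0 := by exact_mod_cast hk2
  constructor
  · have := (mul_eq_zero.mp h2).resolve_right hk1'
    exact_mod_cast this
  · have := (mul_eq_zero.mp h3).resolve_right hk2'
    exact_mod_cast this

/-- The rank of a point whose monomials with exponents in `M` are roots of unity. -/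
private theorem fz_rank {n : ℕ} (M : Submodule ℤ (Fin n → ℤ)) {F : Type} [Field F]
    (z : Fin n → F) (hz : ∀ a ∈ M, RU (mon z a)) (d : ℕ)
    (hd : n ≤ Module.finrank ℚ (QS M) + d) : LThree.RankLe d z := by
  refine ⟨QS M, by rwa [Fintype.card_fin], fun a ha => ?_⟩
  obtain ⟨l, hl, c, hcM, hc⟩ := exists_mult_mem ha
  have h1 : c = l • a := by
    funext i
    have := hc i
    rw [Pi.smul_apply, smul_eq_mul]
    exact_mod_cast this
  have h2 := hz c hcM
  rw [h1, mon_smul] at h2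
  exact h2.of_zpow hl

/-- Algebraic elements over the complex numbers are constants. -/
private theorem fz_const {Ω : Type} [Field Ω] [Algebra ℂ Ω] {x : Ω} (hx : IsAlgebraic ℂ x) :
    ∃ c : ℂ, algebraMap ℂ Ω c = x :=
  minpoly.mem_range_of_degree_eq_one ℂ x
    (IsAlgClosed.degree_eq_one_of_irreducible ℂ (minpoly.irreducible hx.isIntegral))

/-- All coordinates are algebraic iff the dimension is zero. -/
private theorem fz_zero {Ω : Type} [Field Ω] [Algebra ℂ Ω] {n : ℕ} (v : Fin n → Ω) :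
    dm (kr ℂ v) = 0 ↔ ∀ i, IsAlgebraic ℂ (v i) := by
  constructor
  · intro h i
    by_contra hi
    have h1 : AlgebraicIndependent ℂ ![v i] := algebraicIndependent_unique_type_iff.mpr hi
    have h2 := rk_range_of_indep _ h1
    have h3 : rk ℂ (Set.range ![v i]) ≤ rk ℂ (Set.range v) := by
      refine rk_mono ?_
      rintro _ ⟨j, rfl⟩
      exact ⟨i, by rw [Subsingleton.elim j 0]; rfl⟩
    rw [h2, ← dm_kr, h] at h3
    simp at h3
  · intro h
    have h1 : rk ℂ (Set.range v) ≤ rk ℂ (∅ : Set Ω) := by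
      apply rk_le_of_algebraic
      rintro _ ⟨i, rfl⟩
      obtain ⟨c, hc⟩ := fz_const (h i)
      rw [← hc]
      exact isAlgebraic_algebraMap (algebraMap ℂ (Algebra.adjoin ℂ (∅ : Set Ω)) c)
    have h2 := h1.trans (rk_le_encard _)
    rw [Set.encard_empty, ← dm_kr] at h2
    have h3 : (dm (kr ℂ v) : ℕ∞) = 0 := le_antisymm h2 bot_le
    exact_mod_cast h3

/-- The two properties `Surf`. -/
private theorem fz_surf {F : Type} [Field F] [Algebra ℂ F] [CharZero F] {n : ℕ} (w : Fin n → F)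
    (hw : ∀ i, w i ≠ 0) (hC : dm (kr ℂ w) = 2) (hQ : dm (IQ (kr ℂ w)) = 2)
    (hfine : ∀ a b c : Fin n → ℤ, LinearIndependent ℤ ![a, b, c] →
      ¬ (Dep ℂ w a b ∧ Dep ℂ w a c)) : Surf ℂ w ∧ Surf ℚ w := by
  rw [IQ_eq_kr] at hQ
  have h1 : Surf ℂ w := ⟨hw, hC, fun a b c h h2 h3 => hfine a b c h ⟨h2, h3⟩⟩
  exact ⟨h1, (surf_iff w hw hQ hC).mp h1⟩

private theorem fz_le {F Ω : Type} [Field F] [Algebra ℂ F] [CharZero F] [Field Ω] [Algebra ℂ Ω]
    [CharZero Ω] {n : ℕ} {w : Fin n → F} {v : Fin n → Ω} (h : kr ℂ w ≤ kr ℂ v) :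
    kr ℚ w ≤ kr ℚ v := by
  rw [← IQ_eq_kr, ← IQ_eq_kr]
  exact IQ_mono h

/-- The relation at the generic point `v` of a subvariety of positive dimension. -/
private theorem fz_pos {F Ω : Type} [Field F] [Algebra ℂ F] [CharZero F] [Field Ω] [Algebra ℂ Ω]
    [CharZero Ω] {n : ℕ} (hn : 3 ≤ n) {w : Fin n → F} (hw : Surf ℂ w) {E : Finset (Fin n → ℤ)}
    (hE : CurveList w E) {v : Fin n → Ω} (hv : ∀ i, v i ≠ 0) (h : kr ℂ w ≤ kr ℂ v)
    (M : Submodule ℤ (Fin n → ℤ)) (hM : ∀ a ∈ M, RU (mon v a)) (hd : dm (kr ℂ v) ≠ 0)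
    (hr : 2 < dm (kr ℂ v) + Module.finrank ℚ (QS M)) : ∃ a ∈ E, mon v a = 1 := by
  by_cases h2 : dm (kr ℂ v) = 2
  · exfalso
    have h3 : kr ℂ v ≤ kr ℂ w := by
      by_contra hcon
      have h4 : kr ℂ w < kr ℂ v := lt_of_le_not_ge h hcon
      have h5 := dm_strictAnti h4
      rw [h2, hw.dim] at h5
      exact lt_irrefl _ h5
    obtain ⟨a, ha, ha0⟩ := fz_ne (M := M) (by omega)
    have h6 : RU (mon w a) := relZ_mono hv hw.ne h3 (hM a ha)
    obtain ⟨m, hm, h7⟩ := h6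
    refine hw.trans hn a ha0 (IsAlgebraic.of_pow hm ?_)
    rw [h7]
    exact isAlgebraic_one
  · have h3 : dm (kr ℂ v) ≤ 2 := by
      have := dm_anti h
      rwa [hw.dim] at this
    obtain ⟨l, hl, m, hm, hlm⟩ := fz_ind2 (M := M) (by omega)
    have h4 : ∃ i, Transcendental ℂ (v i) := by
      by_contra hcon
      push Not at hcon
      exact hd ((fz_zero v).mpr fun i => by
        by_contra hi
        exact hcon i hi)
    exact hE.2 Ω v hv (fz_le h) h4 l m hlm (hM l hl) (hM m hm)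

theorem main (hpts : ∀ (F : Type) [Field F] [CharZero F] (w : Fin 5 → F), Surf ℚ w →
      ∀ Ec : Finset (Fin 5 → ℤ), CurveList w Ec → ∃ E : Finset (Fin 5 → ℤ), PointList w E)
    {n : ℕ} (hn : 5 ≤ n) (S : Set (MvPolynomial (Fin n) ℂ))
    (hS : ∀ p ∈ S, ∀ m, IsAlgebraic ℚ (p.coeff m)) (V : Set (Fin n → ℂ))
    (hV : V = {x : Fin n → ℂ | (∀ i, x i ≠ 0) ∧ ∀ p ∈ S, MvPolynomial.eval x p = 0})
    (hprime : (⨅ x ∈ V, RingHom.ker (MvPolynomial.eval x :
      MvPolynomial (Fin n) ℂ →+* ℂ)).IsPrime)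
    (hdim : ringKrullDim (MvPolynomial (Fin n) ℂ ⧸
      (⨅ x ∈ V, RingHom.ker (MvPolynomial.eval x : MvPolynomial (Fin n) ℂ →+* ℂ))) = 2)
    (hfine : ∀ a b c : Fin n → ℤ, LinearIndependent ℤ ![a, b, c] →
      ¬ (AlgDep V a b ∧ AlgDep V a c)) :
    ∃ (k : ℕ) (L : Fin k → Submodule ℤ (Fin n → ℤ)) (ζ : Fin k → Fin n → ℂ),
      (∀ j, L j ≠ ⊥ ∧
        (∀ a : Fin n → ℤ, ∀ m : ℤ, m ≠ 0 → m • a ∈ L j → a ∈ L j) ∧
        ∃ m : ℕ, 0 < m ∧ ∀ i, ζ j i ^ m = 1) ∧
      ∀ (M : Submodule ℤ (Fin n → ℤ)) (η : Fin n → ℂ) (T : Set (Fin n → ℂ)),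
        (∀ a : Fin n → ℤ, ∀ m : ℤ, m ≠ 0 → m • a ∈ M → a ∈ M) →
        (∃ m : ℕ, 0 < m ∧ ∀ i, η i ^ m = 1) →
        T = {y : Fin n → ℂ | (∀ i, y i ≠ 0) ∧
              ∀ a ∈ M, ∏ i, y i ^ a i = ∏ i, η i ^ a i} →
        ∀ X : Set (Fin n → ℂ), X ⊆ V → X ⊆ T →
          (⨅ x ∈ X, RingHom.ker (MvPolynomial.eval x :
            MvPolynomial (Fin n) ℂ →+* ℂ)).IsPrime →
          ringKrullDim (MvPolynomial (Fin n) ℂ ⧸
              (⨅ x ∈ V, RingHom.ker (MvPolynomial.eval x : MvPolynomial (Fin n) ℂ →+* ℂ)))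
            + ringKrullDim (MvPolynomial (Fin n) ℂ ⧸
              (⨅ x ∈ T, RingHom.ker (MvPolynomial.eval x : MvPolynomial (Fin n) ℂ →+* ℂ)))
            < ringKrullDim (MvPolynomial (Fin n) ℂ ⧸
              (⨅ x ∈ X, RingHom.ker (MvPolynomial.eval x : MvPolynomial (Fin n) ℂ →+* ℂ)))
              + (n : WithBot ℕ∞) →
          (n = 5 ∨
            1 ≤ ringKrullDim (MvPolynomial (Fin n) ℂ ⧸
              (⨅ x ∈ X, RingHom.ker (MvPolynomial.eval x : MvPolynomial (Fin n) ℂ →+* ℂ))) ∨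
            ringKrullDim (MvPolynomial (Fin n) ℂ ⧸
              (⨅ x ∈ T, RingHom.ker (MvPolynomial.eval x :
                MvPolynomial (Fin n) ℂ →+* ℂ))) ≤ 2) →
          ∃ j, X ⊆ {y : Fin n → ℂ | (∀ i, y i ≠ 0) ∧
              ∀ a ∈ L j, ∏ i, y i ^ a i = ∏ i, ζ j i ^ a i} := by
  classical
  have hV0 : ∀ x ∈ V, ∀ i, x i ≠ 0 := by
    rw [hV]
    exact fun x hx => hx.1
  have hpp : (vanI V).IsPrime := hprime
  have hTPV : TP (vanI V) := TP_vanI hV0 hpp
  have hp2 : dm (vanI V) = 2 := by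
    have h1 : ringKrullDim (MvPolynomial (Fin n) ℂ ⧸ vanI V) = 2 := hdim
    rw [ringKrullDim_eq_dm] at h1
    exact_mod_cast h1
  have : CharZero (Kf (vanI V)) :=
    charZero_of_injective_algebraMap (algebraMap ℂ (Kf (vanI V))).injective
  obtain ⟨hwC, hwQ⟩ := fz_surf (gen (vanI V)) hTPV.gen_ne_zero
    (by rw [kr_gen, hp2]) (by rw [kr_gen, dm_IQ_eq S hS V hV hpp, hp2])
    (fun a b c habc hab => hfine a b c habc
      ⟨(algDep_iff V hV0 a b).mp hab.1, (algDep_iff V hV0 a c).mp hab.2⟩)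
  obtain ⟨E1, hE1⟩ := curveList_exists (by omega) (gen (vanI V)) hwQ
  obtain ⟨E0, hE0⟩ := curveList_exists (by omega) _ (sub_surf hn (gen (vanI V)) hwQ)
  obtain ⟨E2, hE2⟩ := hpts _ _ (sub_surf hn (gen (vanI V)) hwQ) E0 hE0
  obtain ⟨Ep, hEp0, hEp⟩ := cpx_points hn (gen (vanI V)) hE1 hE2
  obtain ⟨k, L, ζ, hfam, hcov⟩ := CITNF.cover_finset (E1 ∪ Ep) (by
    rw [Finset.mem_union]
    exact fun h => h.elim hE1.1 hEp0)
  refine ⟨k, L, ζ, hfam, ?_⟩
  intro M η T hsat hη hTd X hXV hXT hX hdimX hc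
  have h0 : ∀ P ∈ X, ∀ i, P i ≠ 0 := fun P hP => hV0 P (hXV hP)
  have hXp : (vanI X).IsPrime := hX
  have hTP : TP (vanI X) := TP_vanI h0 hXp
  suffices hrel : ∃ a ∈ E1 ∪ Ep, ∀ y ∈ X, ∏ i, y i ^ a i = 1 by
    obtain ⟨a, ha, hy⟩ := hrel
    by_contra hcon
    push Not at hcon
    have hb : ∀ j, ∃ b ∈ L j, binom ℂ b (mon (ζ j) b) ∉ vanI X := by
      intro j
      by_contra hcon2
      push Not at hcon2
      apply hcon j
      intro y hyZ
      refine ⟨h0 y hyZ, ?_⟩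
      intro b hb
      exact (binom_mem_vanI h0 b _).mp (hcon2 b hb) y hyZ
    choose b hbL hbn using hb
    have hprod : ∏ j, binom ℂ (b j) (mon (ζ j) (b j)) ∈ vanI X := by
      rw [mem_vanI]
      intro y hyZ
      obtain ⟨j, hj⟩ := hcov y (h0 y hyZ) ⟨a, ha, hy y hyZ⟩
      rw [map_prod]
      exact Finset.prod_eq_zero (Finset.mem_univ j)
        ((eval_binom (h0 y hyZ) _ _).mpr (hj _ (hbL j)))
    obtain ⟨j, _, hj⟩ := hXp.prod_mem_iff.mp hprod
    exact hbn j hj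
  -- dimensions
  obtain ⟨d, hd, hdd⟩ := dim_cos M η hη
  have hTcos : T = cos M η := hTd
  have hdT : ringKrullDim (MvPolynomial (Fin n) ℂ ⧸ vanI T) = d := by rw [hTcos, hdd]
  have hlt : 2 + d < dm (vanI X) + n := by
    have h1 : ringKrullDim (MvPolynomial (Fin n) ℂ ⧸ vanI V) +
        ringKrullDim (MvPolynomial (Fin n) ℂ ⧸ vanI T) <
        ringKrullDim (MvPolynomial (Fin n) ℂ ⧸ vanI X) + (n : WithBot ℕ∞) := hdimX
    rw [hdT, ringKrullDim_eq_dm (vanI X), ringKrullDim_eq_dm (vanI V), hp2] at h1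
    exact_mod_cast h1
  have : CharZero (Kf (vanI X)) :=
    charZero_of_injective_algebraMap (algebraMap ℂ (Kf (vanI X))).injective
  have hle : kr ℂ (gen (vanI V)) ≤ kr ℂ (gen (vanI X)) := by
    rw [kr_gen, kr_gen]
    exact vanI_anti hXV
  have hmonM : ∀ a ∈ M, RU (mon (gen (vanI X)) a) := by
    intro a ha
    have h1 : mon (gen (vanI X)) a = algebraMap ℂ (Kf (vanI X)) (mon η a) := by
      rw [← hTP.binom_mem, binom_mem_vanI h0]
      intro y hy
      have h2 : y ∈ cos M η := by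
        rw [← hTcos]
        exact hXT hy
      exact h2.2 a ha
    obtain ⟨m, hm, h⟩ := RU_mon hη a
    exact ⟨m, hm, by rw [h1, ← map_pow, h, map_one]⟩
  by_cases hX0 : dm (vanI X) = 0
  · -- the set `X` is a point
    have halg := (fz_zero (gen (vanI X))).mp (by rw [kr_gen, hX0])
    choose P hP using fun i => fz_const (halg i)
    have hyP : ∀ y ∈ X, y = P := by
      intro y hy
      funext i
      have h1 : (MvPolynomial.X i - C (P i) : MvPolynomial (Fin n) ℂ) ∈ vanI X := by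
        rw [← kr_gen (vanI X), mem_kr, map_sub, aeval_X, aeval_C, hP, sub_self]
      have h2 := mem_vanI.mp h1 y hy
      rw [map_sub, eval_X, eval_C] at h2
      exact sub_eq_zero.mp h2
    have hne : X.Nonempty := by
      rw [Set.nonempty_iff_ne_empty]
      rintro rfl
      apply hXp.ne_top
      rw [Ideal.eq_top_iff_one, mem_vanI]
      intro x hx
      exact absurd hx (Set.notMem_empty x)
    obtain ⟨y, hy⟩ := hne
    have hPX : P ∈ X := hyP y hy ▸ hy
    have hd2 : d ≤ 2 := by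
      rcases hc with hc | hc | hc
      · omega
      · exfalso
        have h1 : (1 : WithBot ℕ∞) ≤ ringKrullDim (MvPolynomial (Fin n) ℂ ⧸ vanI X) := hc
        rw [ringKrullDim_eq_dm, hX0] at h1
        have h2 : 1 ≤ 0 := by exact_mod_cast h1
        omega
      · have h1 : ringKrullDim (MvPolynomial (Fin n) ℂ ⧸ vanI T) ≤ 2 := hc
        rw [hdT] at h1
        exact_mod_cast h1
    have hrank : LThree.RankLe 2 P := by
      refine fz_rank M P (fun a ha => ?_) 2 (by omega)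
      have h1 : P ∈ cos M η := by
        rw [← hTcos]
        exact hXT hPX
      have h2 : mon P a = mon η a := h1.2 a ha
      rw [h2]
      exact RU_mon hη a
    have hPle : kr ℂ (gen (vanI V)) ≤ kr ℂ P := by
      rw [kr_gen]
      intro f hf
      exact mem_kr.mpr (mem_vanI.mp hf P (hXV hPX))
    obtain ⟨a, ha, h1⟩ := hEp P (h0 P hPX) (fz_le hPle) hrank
    refine ⟨a, Finset.mem_union_right _ ha, fun z hz => ?_⟩
    rw [hyP z hz]
    exact h1
  · obtain ⟨a, ha, h1⟩ := fz_pos (by omega) hwC hE1 hTP.gen_ne_zero hle M hmonM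
      (by rwa [kr_gen]) (by rw [kr_gen]; omega)
    refine ⟨a, Finset.mem_union_left _ ha, ?_⟩
    have h2 : binom ℂ a 1 ∈ vanI X := by
      rw [hTP.binom_mem, map_one]
      exact h1
    exact (binom_mem_vanI h0 a 1).mp h2

end Pool.Agent.Srf5
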