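import Pool.Agent.Srf5.TorsList
import Pool.Agent.CITLines.Sets

set_option autoImplicit false

/-! Package F21: dependence over `ℚ`, over `ℂ` and on a set.

PROOF of `dep_iff`. `Dep ℚ → Dep ℂ`: algebraic independence over `ℂ` restricts to `ℚ`
(`AlgebraicIndependent.restrictScalars`). Conversely let `mon w a, mon w b` be algebraically
independent over `ℚ`. As `rk ℚ (range w) = dm (kr ℚ w) = 2` (`dm_kr`), every `w i` is algebraic over
`ℚ(mon w a, mon w b)` (otherwise the three would be independent; `Matroid` closure), hence over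
`ℂ(mon w a, mon w b)`, so `2 = rk ℂ (range w) ≤ rk ℂ {mon w a, mon w b}` (`rk_le_of_algebraic`), so
the two are algebraically independent over `ℂ`.
`surf_iff`: from `dep_iff`.
`algDep_iff`: clear denominators: for `f ∈ MvPolynomial (Fin 2) ℂ` there are `H ∈ MvPolynomial (Fin
n) ℂ` and an exponent `u ≥ 0` with `H(y) = y^u f(y^a, y^b)` for all points `y` with nonzero
coordinates, over all fields containing `ℂ`. `f(x^a, x^b) = 0` on `V` iff `H` vanishes on `V` iff
`H ∈ vanI V` iff
`aeval (gen (vanI V)) H = 0` iff `f(w^a, w^b) = 0` for `w = gen (vanI V)` (all `w i ≠ 0`: the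
coordinates do not vanish on the nonempty set `V`; `TP_vanI`, `TP.gen_ne_zero`). -/

namespace Pool.Agent.Srf5

open MvPolynomial Pool.Agent.CITLines Pool.Agent.CITTrans

/-- Two elements of rank two are algebraically independent. -/
private theorem ai_of_rk {k K : Type} [Field k] [Field K] [Algebra k K] (x : Fin 2 → K)
    (h : 2 ≤ rk k (Set.range x)) : AlgebraicIndependent k x := by
  have h1 : (Set.range x).encard ≤ 2 := by
    rw [← Set.image_univ]
    refine (Set.encard_image_le _ _).trans ?_
    rw [Set.encard_univ]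
    simp
  have h2 := rk_le_encard (k := k) (Set.range x)
  have h3 : (Set.range x).encard = 2 := le_antisymm h1 (h.trans h2)
  have h4 : rk k (Set.range x) = (Set.range x).encard :=
    le_antisymm h2 (by rw [h3]; exact h)
  have hfin : (Set.range x).Finite := Set.finite_range x
  have hind : (AlgebraicIndependent.matroid k K).Indep (Set.range x) :=
    (Matroid.indep_iff_eRk_eq_encard_of_finite hfin).2 h4
  have hinj : Function.Injective x := by
    have h5 : ({0, 1} : Set (Fin 2)) = Set.univ := by
      ext i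
      fin_cases i <;> simp
    have h6 : x 0 ≠ x 1 := by
      intro h7
      have h8 : Set.range x = {x 0} := by
        ext z
        constructor
        · rintro ⟨i, rfl⟩
          fin_cases i
          · rfl
          · exact h7.symm
        · rintro rfl
          exact ⟨0, rfl⟩
      rw [h8, Set.encard_singleton] at h3
      exact absurd h3 (by norm_num)
    intro i j hij
    fin_cases i <;> fin_cases j
    · rfl
    · exact absurd hij h6
    · exact absurd hij.symm h6
    · rfl
  rw [AlgebraicIndependent.matroid_indep_iff] at hind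
  exact (algebraicIndependent_subtype_range hinj).1 hind

private theorem ai_iff {k : Type} {ι F : Type} [Fintype ι] [Field k] [Field F] [Algebra k F]
    (w : ι → F) (a b : ι → ℤ) :
    Dep k w a b ↔ ∃ f : MvPolynomial (Fin 2) k, f ≠ 0 ∧ aeval ![mon w a, mon w b] f = 0 := by
  unfold Dep
  rw [algebraicIndependent_iff]
  push Not
  exact exists_congr fun f => and_comm

theorem dep_iff {F : Type} [Field F] [Algebra ℂ F] [CharZero F] {n : ℕ} (w : Fin n → F)
    (hw : ∀ i, w i ≠ 0) (hQ : dm (kr ℚ w) = 2) (hC : dm (kr ℂ w) = 2) (a b : Fin n → ℤ) :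
    Dep ℂ w a b ↔ Dep ℚ w a b := by
  obtain ⟨x, hx⟩ : ∃ x : Fin 2 → F, x = ![mon w a, mon w b] := ⟨_, rfl⟩
  unfold Dep
  rw [not_iff_not, ← hx]
  constructor
  · intro h
    exact h.restrictScalars (FaithfulSMul.algebraMap_injective ℚ ℂ)
  · intro h
    refine ai_of_rk x ?_
    have hQ' := dm_kr (k := ℚ) w
    have hC' := dm_kr (k := ℂ) w
    rw [hQ] at hQ'
    rw [hC] at hC'
    have hrx : rk ℚ (Set.range x) = 2 := by
      rw [rk_range_of_indep x h]
      simp
    have hxw : ∀ z ∈ Set.range x, IsAlgebraic (Algebra.adjoin ℚ (Set.range w)) z := by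
      rintro _ ⟨i, rfl⟩
      rw [hx]
      fin_cases i
      · exact isAlgebraic_mon w a
      · exact isAlgebraic_mon w b
    have hunion : rk ℚ (Set.range x ∪ Set.range w) ≤ rk ℚ (Set.range w) := by
      refine rk_le_of_algebraic ?_
      rintro z (hz | hz)
      · exact hxw z hz
      · exact isAlgebraic_of_mem _ hz
    have hcl := (Matroid.isRkFinite_of_finite (M := AlgebraicIndependent.matroid ℚ F)
      (Set.finite_range x)).closure_eq_closure_of_subset_of_eRk_ge_eRk
      (Set.subset_union_left (t := Set.range w)) (by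
        change rk ℚ (Set.range x ∪ Set.range w) ≤ rk ℚ (Set.range x)
        rw [hrx]
        refine hunion.trans ?_
        rw [← hQ']
        exact le_rfl)
    have halg : ∀ z ∈ Set.range w, IsAlgebraic (Algebra.adjoin ℚ (Set.range x)) z := by
      intro z hz
      have h1 : z ∈ (AlgebraicIndependent.matroid ℚ F).closure (Set.range x) := by
        rw [hcl]
        exact Matroid.mem_closure_of_mem' _ (Or.inr hz) (Set.mem_univ z)
      rw [AlgebraicIndependent.matroid_closure_eq] at h1
      exact h1
    have halg' : ∀ z ∈ Set.range w, IsAlgebraic (Algebra.adjoin ℂ (Set.range x)) z := by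
      intro z hz
      have hle : ∀ y ∈ Algebra.adjoin ℚ (Set.range x), y ∈ Algebra.adjoin ℂ (Set.range x) := by
        intro y hy
        refine Algebra.adjoin_induction
          (p := fun y _ => y ∈ Algebra.adjoin ℂ (Set.range x))
          (fun y hy => Algebra.subset_adjoin hy) (fun r => ?_)
          (fun _ _ _ _ h h' => add_mem h h') (fun _ _ _ _ h h' => mul_mem h h') hy
        rw [IsScalarTower.algebraMap_apply ℚ ℂ F]
        exact Subalgebra.algebraMap_mem _ _
      let f : Algebra.adjoin ℚ (Set.range x) →+* Algebra.adjoin ℂ (Set.range x) :=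
        { toFun := fun y => ⟨y.1, hle _ y.2⟩
          map_one' := rfl
          map_mul' := fun _ _ => rfl
          map_zero' := rfl
          map_add' := fun _ _ => rfl }
      refine (halg z hz).ringHom_of_comp_eq f (RingHom.id F) ?_ ?_
      · intro y y' hy
        have h6 : (f y : F) = (f y' : F) := congrArg Subtype.val hy
        exact Subtype.ext h6
      · rfl
    have h7 := rk_le_of_algebraic halg'
    rw [← hC'] at h7
    exact h7

theorem surf_iff {F : Type} [Field F] [Algebra ℂ F] [CharZero F] {n : ℕ} (w : Fin n → F)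
    (hw : ∀ i, w i ≠ 0) (hQ : dm (kr ℚ w) = 2) (hC : dm (kr ℂ w) = 2) :
    Surf ℂ w ↔ Surf ℚ w := by
  constructor
  · intro h
    refine ⟨hw, hQ, fun a b c hli h1 h2 => ?_⟩
    exact h.fine a b c hli ((dep_iff w hw hQ hC a b).2 h1) ((dep_iff w hw hQ hC a c).2 h2)
  · intro h
    refine ⟨hw, hC, fun a b c hli h1 h2 => ?_⟩
    exact h.fine a b c hli ((dep_iff w hw hQ hC a b).1 h1) ((dep_iff w hw hQ hC a c).1 h2)

/-- Clearing denominators, uniformly in the point. -/
private theorem exists_clear {k : Type} [Field k] {n : ℕ} {S : Type} (β : S → Fin n → ℤ)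
    (f : MvPolynomial S k) : ∃ H g : MvPolynomial (Fin n) k, ∀ (K : Type) [Field K] [Algebra k K]
      (y : Fin n → K), (∀ i, y i ≠ 0) → aeval y g ≠ 0 ∧
        aeval (pm β y) f * aeval y g = aeval y H := by
  induction f using MvPolynomial.induction_on with
  | C c =>
    refine ⟨C c, 1, fun K _ _ y _ => ⟨?_, ?_⟩⟩
    · rw [map_one]
      exact one_ne_zero
    · rw [map_one, mul_one, aeval_C, aeval_C]
  | add p q hp hq =>
    obtain ⟨H₁, g₁, h₁⟩ := hp
    obtain ⟨H₂, g₂, h₂⟩ := hq
    refine ⟨H₁ * g₂ + H₂ * g₁, g₁ * g₂, fun K _ _ y hy => ?_⟩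
    obtain ⟨a1, a2⟩ := h₁ K y hy
    obtain ⟨b1, b2⟩ := h₂ K y hy
    refine ⟨?_, ?_⟩
    · rw [map_mul]
      exact mul_ne_zero a1 b1
    · rw [map_add, map_mul, map_add, map_mul, map_mul, ← a2, ← b2]
      ring
  | mul_X p j hp =>
    obtain ⟨H₁, g₁, h₁⟩ := hp
    refine ⟨H₁ * ∏ i, X i ^ (β j i).toNat, g₁ * ∏ i, X i ^ (-β j i).toNat,
      fun K _ _ y hy => ?_⟩
    obtain ⟨a1, a2⟩ := h₁ K y hy
    have h3 : (∏ i, y i ^ (-β j i).toNat) ≠ 0 :=
      Finset.prod_ne_zero_iff.mpr fun i _ => pow_ne_zero _ (hy i)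
    refine ⟨?_, ?_⟩
    · rw [map_mul, map_prod]
      simp only [map_pow, aeval_X]
      exact mul_ne_zero a1 h3
    · rw [map_mul, map_mul, map_mul, ← a2, map_prod, map_prod]
      simp only [map_pow, aeval_X]
      have h4 : pm β y j * ∏ i, y i ^ (-β j i).toNat = ∏ i, y i ^ (β j i).toNat := by
        unfold pm
        rw [mon_eq_div hy, div_mul_cancel₀ _ h3]
      rw [← h4]
      ring

private theorem pm_two {K : Type} [Field K] {n : ℕ} (w : Fin n → K) (a b : Fin n → ℤ) :
    pm ![a, b] w = ![mon w a, mon w b] := by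
  funext i
  fin_cases i <;> rfl

theorem algDep_iff {n : ℕ} (V : Set (Fin n → ℂ)) (hV : ∀ x ∈ V, ∀ i, x i ≠ 0)
    [hp : (vanI V).IsPrime] (a b : Fin n → ℤ) :
    Dep ℂ (gen (vanI V)) a b ↔ AlgDep V a b := by
  have hT : TP (vanI V) := TP_vanI hV hp
  have key : ∀ f : MvPolynomial (Fin 2) ℂ,
      aeval ![mon (gen (vanI V)) a, mon (gen (vanI V)) b] f = 0 ↔
        ∀ x ∈ V, eval ![∏ i, x i ^ a i, ∏ i, x i ^ b i] f = 0 := by
    intro f
    obtain ⟨H, g, h⟩ := exists_clear ![a, b] f
    obtain ⟨h1, h2⟩ := h _ (gen (vanI V)) hT.gen_ne_zero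
    rw [pm_two] at h2
    have hH : aeval (gen (vanI V)) H = 0 ↔ H ∈ vanI V := by
      rw [← mem_kr, kr_gen]
    have h3 : ∀ x ∈ V, eval ![∏ i, x i ^ a i, ∏ i, x i ^ b i] f * eval x g = eval x H := by
      intro x hx
      have h4 := (h ℂ x (hV x hx)).2
      rw [pm_two] at h4
      exact h4
    constructor
    · intro hf x hx
      rw [hf, zero_mul] at h2
      have h5 := mem_vanI.1 (hH.1 h2.symm) x hx
      have h6 := h3 x hx
      rw [h5] at h6
      exact (mul_eq_zero.1 h6).resolve_right (h ℂ x (hV x hx)).1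
    · intro hf
      have h5 : H ∈ vanI V := by
        rw [mem_vanI]
        intro x hx
        rw [← h3 x hx, hf x hx, zero_mul]
      rw [hH.2 h5] at h2
      exact (mul_eq_zero.1 h2).resolve_right h1
  rw [ai_iff]
  exact exists_congr fun f => and_congr_right fun _ => key f

end Pool.Agent.Srf5
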