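import Pool.Agent.Srf5.Defs

set_option autoImplicit false

/-! Laurent polynomials: relations between monomials pass to special points. -/

namespace Pool.Agent.Srf5

open MvPolynomial Pool.Agent.CITLines

variable {k ι : Type} [Field k] [Fintype ι]

/-- A polynomial in monomials, times a power of the product of the coordinates, is a polynomial in
the coordinates.

Proof. Induction on `f` (`MvPolynomial.induction_on`): for `C c` take `g = C c`, `L = 0`; for a sum,
with `(g, L)` for `f` and `(g', L')` for `f'`, take `(∏ X_i) ^ L' * g + (∏ X_i) ^ L * g'` and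
`L + L'`; for `f * X j` take `g * ∏ i, X i ^ (A + a j i).toNat` and `L + A` where `A` is a natural
number with `|a j i| ≤ A` for all `i`, since `(∏ P_i) ^ A * mon P (a j) = ∏ P_i ^ (A + a j i)`. -/
theorem laurent {m : ℕ} (a : Fin m → ι → ℤ) (f : MvPolynomial (Fin m) k) :
    ∃ (g : MvPolynomial ι k) (L : ℕ), ∀ (F : Type) [Field F] [Algebra k F] (P : ι → F),
      (∀ i, P i ≠ 0) → aeval P g = (∏ i, P i) ^ L * aeval (fun j => mon P (a j)) f := by
  induction f using MvPolynomial.induction_on with
  | C c =>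
    refine ⟨C c, 0, fun F _ _ P hP => ?_⟩
    rw [pow_zero, one_mul, ← MvPolynomial.algebraMap_eq, AlgHom.commutes,
      ← MvPolynomial.algebraMap_eq, AlgHom.commutes]
  | add f f' hf hf' =>
    obtain ⟨g, L, hg⟩ := hf
    obtain ⟨g', L', hg'⟩ := hf'
    refine ⟨(∏ i, X i) ^ L' * g + (∏ i, X i) ^ L * g', L + L', fun F _ _ P hP => ?_⟩
    have h1 : aeval P (∏ i : ι, (X i : MvPolynomial ι k)) = ∏ i, P i := by
      rw [map_prod]
      exact Finset.prod_congr rfl fun i _ => aeval_X P i
    rw [map_add, map_mul, map_mul, map_pow, map_pow, h1, hg F P hP, hg' F P hP, map_add]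
    ring
  | mul_X f j hf =>
    obtain ⟨g, L, hg⟩ := hf
    obtain ⟨A, hA⟩ : ∃ A : ℕ, ∀ i, |a j i| ≤ A := by
      refine ⟨∑ i, (a j i).natAbs, fun i => ?_⟩
      rw [← Int.natCast_natAbs]
      exact_mod_cast Finset.single_le_sum (f := fun i => (a j i).natAbs)
        (fun i _ => Nat.zero_le _) (Finset.mem_univ i)
    refine ⟨g * ∏ i, X i ^ ((A : ℤ) + a j i).toNat, L + A, fun F _ _ P hP => ?_⟩
    have h1 : aeval P (∏ i : ι, (X i : MvPolynomial ι k) ^ ((A : ℤ) + a j i).toNat) =
        (∏ i, P i) ^ A * mon P (a j) := by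
      rw [map_prod, mon, ← Finset.prod_pow, ← Finset.prod_mul_distrib]
      refine Finset.prod_congr rfl fun i _ => ?_
      rw [map_pow, aeval_X, ← zpow_natCast, ← zpow_natCast, ← zpow_add₀ (hP i),
        Int.toNat_of_nonneg (by have := neg_abs_le (a j i); have := hA i; omega)]
    rw [map_mul, h1, hg F P hP, map_mul, aeval_X, pow_add]
    ring

/-- Relations between monomials pass from `w` to its specialisations `P`.

Proof. `laurent` and `mem_kr`. -/
theorem spec {F F' : Type} [Field F] [Algebra k F] [Field F'] [Algebra k F'] {w : ι → F}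
    {P : ι → F'} (hw : ∀ i, w i ≠ 0) (hP : ∀ i, P i ≠ 0) (h : kr k w ≤ kr k P) {m : ℕ}
    (a : Fin m → ι → ℤ) (f : MvPolynomial (Fin m) k) (hf : aeval (fun j => mon w (a j)) f = 0) :
    aeval (fun j => mon P (a j)) f = 0 := by
  obtain ⟨g, L, hg⟩ := laurent (k := k) a f
  have h1 : g ∈ kr k w := by
    rw [mem_kr, hg F w hw, hf, mul_zero]
  have h2 := h h1
  rw [mem_kr, hg F' P hP] at h2
  exact (mul_eq_zero.mp h2).resolve_left
    (pow_ne_zero _ (Finset.prod_ne_zero_iff.mpr fun i _ => hP i))

/-- The exact relations pass from `w` to its specialisations `P`. -/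
theorem spec_one {F F' : Type} [Field F] [Algebra k F] [Field F'] [Algebra k F'] {w : ι → F}
    {P : ι → F'} (hw : ∀ i, w i ≠ 0) (hP : ∀ i, P i ≠ 0) (h : kr k w ≤ kr k P) (a : ι → ℤ)
    (ha : mon w a = 1) : mon P a = 1 := by
  have h1 := h ((binom_mem_kr hw a (1 : k)).mpr (by rw [ha, map_one]))
  rw [binom_mem_kr hP, map_one] at h1
  exact h1

end Pool.Agent.Srf5
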