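import Pool.Agent.Srf5.StdMon

set_option autoImplicit false

/-! Package F8: upper bound for the Hilbert function.

PROOF. `finite_Mn`: the set of the exponents is finite. `finrank_Mn_le`: let `d = dm (kr k w)` and
`a` as
in `std_mon`. Multiply `Mn k w N` by the nonzero element `∏ i, w i ^ N`: it becomes a subspace of
`{aeval w f | totalDegree f ≤ 2 n N}` (the monomial `w^e` becomes `w^(e + N)`, exponents in `[0,
2N]`),
which by `std_mon` is contained in the span of the `w^c`, `c` with `∑ c_i ≤ 2 n N` and at most `d`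
coordinates `≥ a`. The number of these `c` is at most the number of pairs (set `I` of coordinates of
cardinality `≤ d`, `c` with `c_i ≤ 2nN` for `i ∈ I` and `c_i < a` otherwise), i.e. at most
`2^n * (2 n N + 1)^d * (a + 1)^n ≤ C (N + 1)^d` with `C = 2^n (2 n + 1)^d (a + 1)^n`. -/

namespace Pool.Agent.Srf5

open MvPolynomial Pool.Agent.CITLines Module

theorem finite_Mn (k : Type) {F : Type} [Field k] [Field F] [Algebra k F] {n : ℕ}
    (w : Fin n → F) (N : ℕ) : FiniteDimensional k (Mn k w N) := by
  refine FiniteDimensional.span_of_finite k (Set.Finite.image _ ?_)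
  refine (Set.finite_Icc (fun _ : Fin n => (-(N : ℤ))) (fun _ => (N : ℤ))).subset ?_
  intro e he
  exact ⟨fun i => (abs_le.1 (he i)).1, fun i => (abs_le.1 (he i)).2⟩

/-- the exponents with entries at most `M` and at most `d` entries at least `a` -/
private noncomputable def expSet (n M a d : ℕ) : Finset (Fin n → ℕ) :=
  (Fintype.piFinset fun _ : Fin n => Finset.range (M + 1)).filter fun c =>
    (Finset.univ.filter fun i => a ≤ c i).card ≤ d

private theorem card_expSet (n M a d : ℕ) :
    (expSet n M a d).card ≤ 2 ^ n * ((M + 1) ^ d * (a + 1) ^ n) := by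
  classical
  have h1 : expSet n M a d ⊆ (Finset.univ.powerset.filter fun I : Finset (Fin n) =>
      I.card ≤ d).biUnion fun I => Fintype.piFinset fun i =>
        if i ∈ I then Finset.range (M + 1) else Finset.range a := by
    intro c hc
    unfold expSet at hc
    rw [Finset.mem_filter, Fintype.mem_piFinset] at hc
    rw [Finset.mem_biUnion]
    refine ⟨Finset.univ.filter fun i => a ≤ c i, ?_, ?_⟩
    · rw [Finset.mem_filter, Finset.mem_powerset]
      exact ⟨Finset.subset_univ _, hc.2⟩
    · rw [Fintype.mem_piFinset]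
      intro i
      by_cases hi : a ≤ c i
      · rw [if_pos (by simpa using hi)]
        exact hc.1 i
      · rw [if_neg (by simpa using hi), Finset.mem_range]
        omega
  refine (Finset.card_le_card h1).trans (Finset.card_biUnion_le.trans ?_)
  have h2 : ∀ I ∈ (Finset.univ.powerset.filter fun I : Finset (Fin n) => I.card ≤ d),
      (Fintype.piFinset fun i => if i ∈ I then Finset.range (M + 1) else Finset.range a).card ≤
        (M + 1) ^ d * (a + 1) ^ n := by
    intro I hI
    rw [Finset.mem_filter] at hI
    rw [Fintype.card_piFinset]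
    calc ∏ i, (if i ∈ I then Finset.range (M + 1) else Finset.range a).card
        ≤ ∏ i, ((if i ∈ I then M + 1 else 1) * (a + 1)) := by
          refine Finset.prod_le_prod' fun i _ => ?_
          split_ifs
          · rw [Finset.card_range]
            exact Nat.le_mul_of_pos_right _ (Nat.succ_pos a)
          · rw [Finset.card_range, one_mul]
            exact Nat.le_succ a
      _ = (M + 1) ^ I.card * (a + 1) ^ n := by
          rw [Finset.prod_mul_distrib, Finset.prod_const, Finset.card_univ, Fintype.card_fin]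
          congr 1
          rw [Finset.prod_ite_mem, Finset.univ_inter, Finset.prod_const]
      _ ≤ (M + 1) ^ d * (a + 1) ^ n := by
          refine Nat.mul_le_mul_right _ ?_
          exact Nat.pow_le_pow_right (Nat.succ_pos M) hI.2
  refine (Finset.sum_le_card_nsmul _ _ _ h2).trans ?_
  rw [smul_eq_mul]
  refine Nat.mul_le_mul_right _ ?_
  refine (Finset.card_filter_le _ _).trans (le_of_eq ?_)
  rw [Finset.card_powerset, Finset.card_univ, Fintype.card_fin]

private theorem finrank_Mn_le_card {k F : Type} [Field k] [Field F] [Algebra k F] {n : ℕ}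
    (w : Fin n → F) (hw : ∀ i, w i ≠ 0) (a : ℕ)
    (ha : ∀ f : MvPolynomial (Fin n) k, ∃ r : MvPolynomial (Fin n) k,
      aeval w r = aeval w f ∧ r.totalDegree ≤ f.totalDegree ∧
      ∀ c ∈ r.support, (Finset.univ.filter fun i => a ≤ c i).card ≤ dm (kr k w)) (N : ℕ) :
    finrank k (Mn k w N) ≤ (expSet n (n * (2 * N)) a (dm (kr k w))).card := by
  classical
  set μ : F := ∏ i, w i ^ N with hμ
  have hμ0 : μ ≠ 0 := Finset.prod_ne_zero_iff.2 fun i _ => pow_ne_zero _ (hw i)
  set L : F →ₗ[k] F := LinearMap.mulLeft k μ with hL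
  have hLi : Function.Injective L := by
    intro x y h
    exact mul_left_cancel₀ hμ0 h
  set T : Finset F := (expSet n (n * (2 * N)) a (dm (kr k w))).image fun c => ∏ i, w i ^ c i
    with hT
  have hmap : (Mn k w N).map L ≤ Submodule.span k (T : Set F) := by
    unfold Mn
    rw [Submodule.map_span, Submodule.span_le]
    rintro _ ⟨_, ⟨e, he, rfl⟩, rfl⟩
    have he' : ∀ i, 0 ≤ e i + N ∧ e i + N ≤ 2 * N := by
      intro i
      have := abs_le.1 (he i)
      omega
    set c : Fin n →₀ ℕ := Finsupp.equivFunOnFinite.symm fun i => (e i + N).toNat with hc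
    have hci : ∀ i, ((c i : ℕ) : ℤ) = e i + N := by
      intro i
      change (((e i + N).toNat : ℕ) : ℤ) = _
      exact Int.toNat_of_nonneg (he' i).1
    have h1 : L (mon w e) = aeval w (monomial c (1 : k)) := by
      rw [hL, LinearMap.mulLeft_apply, aeval_monomial, map_one, one_mul, Finsupp.prod_fintype _ _
        (fun i => pow_zero _), hμ, mon, ← Finset.prod_mul_distrib]
      refine Finset.prod_congr rfl fun i _ => ?_
      rw [← zpow_natCast, ← zpow_natCast, hci, ← zpow_add₀ (hw i), add_comm]
    change L (mon w e) ∈ Submodule.span k (T : Set F)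
    rw [h1]
    obtain ⟨r, hr1, hr2, hr3⟩ := ha (monomial c (1 : k))
    rw [← hr1, aeval_def, eval₂_eq']
    refine Submodule.sum_mem _ fun c' hc' => ?_
    rw [← Algebra.smul_def]
    refine Submodule.smul_mem _ _ (Submodule.subset_span ?_)
    rw [hT, Finset.coe_image]
    refine ⟨fun i => c' i, ?_, rfl⟩
    rw [Finset.mem_coe, expSet, Finset.mem_filter, Fintype.mem_piFinset]
    refine ⟨fun i => ?_, hr3 c' hc'⟩
    rw [Finset.mem_range, Nat.lt_succ_iff]
    have h2 : c' i ≤ (c'.sum fun _ e => e) := by
      rw [Finsupp.sum_fintype _ _ fun _ => rfl]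
      exact Finset.single_le_sum (f := fun i => c' i) (fun _ _ => Nat.zero_le _)
        (Finset.mem_univ i)
    have h3 : (c'.sum fun _ e => e) ≤ r.totalDegree := le_totalDegree hc'
    have h4 : (monomial c (1 : k)).totalDegree ≤ n * (2 * N) := by
      rw [totalDegree_monomial _ one_ne_zero, Finsupp.sum_fintype _ _ fun _ => rfl]
      refine (Finset.sum_le_card_nsmul _ _ (2 * N) fun i _ => ?_).trans (le_of_eq ?_)
      · have := he' i
        have := hci i
        omega
      · rw [Finset.card_univ, Fintype.card_fin, smul_eq_mul]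
    exact h2.trans (h3.trans (hr2.trans h4))
  have h1 : finrank k (Mn k w N) = finrank k ((Mn k w N).map L) :=
    (Submodule.equivMapOfInjective L hLi _).finrank_eq
  have h2 : FiniteDimensional k (Submodule.span k (T : Set F)) :=
    FiniteDimensional.span_of_finite k T.finite_toSet
  rw [h1]
  refine (Submodule.finrank_mono hmap).trans ?_
  refine (finrank_span_finset_le_card T).trans ?_
  exact Finset.card_image_le

theorem finrank_Mn_le {k F : Type} [Field k] [Field F] [Algebra k F] {n : ℕ} (w : Fin n → F)
    (hw : ∀ i, w i ≠ 0) :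
    ∃ C : ℕ, ∀ N : ℕ, finrank k (Mn k w N) ≤ C * (N + 1) ^ dm (kr k w) := by
  obtain ⟨a, ha⟩ := std_mon (k := k) w
  refine ⟨2 ^ n * (2 * n + 1) ^ dm (kr k w) * (a + 1) ^ n, fun N => ?_⟩
  refine (finrank_Mn_le_card w hw a ha N).trans ((card_expSet _ _ _ _).trans ?_)
  have h1 : n * (2 * N) + 1 ≤ (2 * n + 1) * (N + 1) := by nlinarith
  calc 2 ^ n * ((n * (2 * N) + 1) ^ dm (kr k w) * (a + 1) ^ n)
      ≤ 2 ^ n * (((2 * n + 1) * (N + 1)) ^ dm (kr k w) * (a + 1) ^ n) :=
        Nat.mul_le_mul_left _ (Nat.mul_le_mul_right _ (Nat.pow_le_pow_left h1 _))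
    _ = 2 ^ n * (2 * n + 1) ^ dm (kr k w) * (a + 1) ^ n * (N + 1) ^ dm (kr k w) := by
        rw [mul_pow]
        ring

end Pool.Agent.Srf5
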