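import Pool.Agent.Srf5.Defs
import Pool.Agent.Srf5.HilbUp

set_option autoImplicit false

/-! The spaces of Laurent monomials. -/

namespace Pool.Agent.Srf5

open MvPolynomial Module Pool.Agent.CITLines
open LThree (nrm)

variable {k : Type} [Field k] {n : ℕ} {F : Type} [Field F] [Algebra k F]

/-- Monomials are in the spaces. -/
theorem mon_mem_Mn (w : Fin n → F) {N : ℕ} {e : Fin n → ℤ} (he : ∀ i, |e i| ≤ N) :
    mon w e ∈ Mn k w N :=
  Submodule.subset_span ⟨e, he, rfl⟩

/-- Products.

Proof. `Submodule.span_induction` twice (or `Submodule.mul_le`/`Submodule.span_mul_span`), with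
`mon_add'`. -/
theorem mul_mem_Mn (w : Fin n → F) (hw : ∀ i, w i ≠ 0) {N N' : ℕ} {x y : F} (hx : x ∈ Mn k w N)
    (hy : y ∈ Mn k w N') : x * y ∈ Mn k w (N + N') := by
  unfold Mn at hx
  induction hx using Submodule.span_induction with
  | mem x hx =>
    obtain ⟨e, he, rfl⟩ := hx
    unfold Mn at hy
    induction hy using Submodule.span_induction with
    | mem y hy =>
      obtain ⟨e', he', rfl⟩ := hy
      change mon w e * mon w e' ∈ Mn k w (N + N')
      rw [← mon_add' hw]
      refine mon_mem_Mn w fun i => ?_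
      rw [Pi.add_apply]
      refine (abs_add_le _ _).trans ?_
      push_cast
      exact add_le_add (he i) (he' i)
    | zero => rw [mul_zero]; exact Submodule.zero_mem _
    | add u v _ _ hu hv => rw [mul_add]; exact Submodule.add_mem _ hu hv
    | smul c u _ hu => rw [mul_smul_comm]; exact Submodule.smul_mem _ _ hu
  | zero => rw [zero_mul]; exact Submodule.zero_mem _
  | add u v _ _ hu hv => rw [add_mul]; exact Submodule.add_mem _ hu hv
  | smul c u _ hu => rw [smul_mul_assoc]; exact Submodule.smul_mem _ _ hu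

/-- The spaces increase. -/
theorem Mn_mono (w : Fin n → F) {N N' : ℕ} (h : N ≤ N') : Mn k w N ≤ Mn k w N' := by
  refine Submodule.span_mono (Set.image_mono fun e he i => (he i).trans ?_)
  exact_mod_cast h

/-- Powers.

Proof. Induction on `r`, `mul_mem_Mn`; for `r = 0`, `1 = mon w 0`. -/
theorem pow_mem_Mn (w : Fin n → F) (hw : ∀ i, w i ≠ 0) {N : ℕ} {x : F} (hx : x ∈ Mn k w N) (r : ℕ) :
    x ^ r ∈ Mn k w (r * N) := by
  induction r with
  | zero =>
    rw [pow_zero, ← mon_zero w]
    exact mon_mem_Mn w fun i => by simp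
  | succ r ih =>
    rw [pow_succ, Nat.succ_mul]
    exact mul_mem_Mn w hw ih hx

/-- More elements of a space than its dimension are linearly dependent.

Proof. If the family `f`, seen in `Mn k w N`, were linearly independent then
`LinearIndependent.fintype_card_le_finrank` (with `finite_Mn`); otherwise `Fintype.not_linearIndependent_iff`. -/
theorem exists_dep (w : Fin n → F) {N : ℕ} {κ : Type} [Fintype κ] (f : κ → F)
    (hf : ∀ x, f x ∈ Mn k w N) (hcard : finrank k (Mn k w N) < Fintype.card κ) :
    ∃ c : κ → k, c ≠ 0 ∧ ∑ x, c x • f x = 0 := by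
  have := finite_Mn k w N
  let g : κ → Mn k w N := fun x => ⟨f x, hf x⟩
  have h1 : ¬ LinearIndependent k g := by
    intro h
    exact absurd h.fintype_card_le_finrank (not_le.2 hcard)
  rw [Fintype.not_linearIndependent_iff] at h1
  obtain ⟨c, hc, i, hi⟩ := h1
  refine ⟨c, fun h0 => hi (by rw [h0]; rfl), ?_⟩
  have h2 := congrArg (Submodule.subtype (Mn k w N)) hc
  rw [map_sum, map_zero] at h2
  rw [← h2]
  refine Finset.sum_congr rfl fun x _ => ?_
  rw [map_smul]
  rfl

end Pool.Agent.Srf5
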