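import Pool.Agent.Srf5.Defs
import Pool.Agent.MinHt.PF

set_option autoImplicit false

/-! The height of a root of a polynomial. -/

namespace Pool.Agent.Srf5

open MvPolynomial Module Height NumberField

/-- A common denominator. -/
private theorem exists_den {m J : ℕ} (c : Fin (J + 1) → MvPolynomial (Fin m) ℚ) :
    ∃ (N : ℕ) (c' : Fin (J + 1) → (Fin m →₀ ℕ) → ℤ), 0 < N ∧
      ∀ j e, ((c' j e : ℤ) : ℚ) = N * (c j).coeff e := by
  classical
  let N : ℕ := ∏ j, ∏ e ∈ (c j).support, ((c j).coeff e).den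
  have hN : 0 < N := Finset.prod_pos fun j _ => Finset.prod_pos fun e _ => ((c j).coeff e).den_pos
  have h : ∀ j e, ∃ z : ℤ, ((z : ℤ) : ℚ) = N * (c j).coeff e := by
    intro j e
    by_cases he : e ∈ (c j).support
    · have h1 : ((c j).coeff e).den ∣ N :=
        (Finset.dvd_prod_of_mem (fun e => ((c j).coeff e).den) he).trans
          (Finset.dvd_prod_of_mem (fun j => ∏ e ∈ (c j).support, ((c j).coeff e).den)
            (Finset.mem_univ j))
      obtain ⟨q, hq⟩ := h1
      refine ⟨q * ((c j).coeff e).num, ?_⟩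
      have h2 := Rat.den_mul_eq_num ((c j).coeff e)
      rw [hq]
      push_cast
      rw [← h2]
      ring
    · rw [MvPolynomial.notMem_support_iff.1 he]
      exact ⟨0, by simp⟩
  choose c' hc' using h
  exact ⟨N, c', hN, hc'⟩

/-- A common bound. -/
private theorem exists_bd {m J : ℕ} (c : Fin (J + 1) → MvPolynomial (Fin m) ℚ)
    (c' : Fin (J + 1) → (Fin m →₀ ℕ) → ℤ) : ∃ B : ℝ, 1 ≤ B ∧
      (∀ j, ((c j).support.card : ℝ) ≤ B) ∧
      ∀ j, ∀ e ∈ (c j).support, (|(c' j e : ℤ)| : ℝ) ≤ B := by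
  classical
  refine ⟨1 + ∑ j, (((c j).support.card : ℝ) + ∑ e ∈ (c j).support, (|(c' j e : ℤ)| : ℝ)), ?_,
    ?_, ?_⟩
  · have h : (0 : ℝ) ≤ ∑ j, (((c j).support.card : ℝ) +
        ∑ e ∈ (c j).support, (|(c' j e : ℤ)| : ℝ)) :=
      Finset.sum_nonneg fun j _ => by positivity
    linarith
  · intro j
    have h := Finset.single_le_sum (f := fun j => ((c j).support.card : ℝ) +
      ∑ e ∈ (c j).support, (|(c' j e : ℤ)| : ℝ)) (fun j _ => by positivity) (Finset.mem_univ j)
    have h1 : (0 : ℝ) ≤ ∑ e ∈ (c j).support, (|(c' j e : ℤ)| : ℝ) := by positivity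
    linarith
  · intro j e he
    have h := Finset.single_le_sum (f := fun j => ((c j).support.card : ℝ) +
      ∑ e ∈ (c j).support, (|(c' j e : ℤ)| : ℝ)) (fun j _ => by positivity) (Finset.mem_univ j)
    have h1 := Finset.single_le_sum (f := fun e => (|(c' j e : ℤ)| : ℝ))
      (fun e _ => abs_nonneg _) he
    have h2 : (0 : ℝ) ≤ ((c j).support.card : ℝ) := Nat.cast_nonneg _
    linarith

/-- The values of the coefficients. -/
private theorem val_eq {m J : ℕ} {c : Fin (J + 1) → MvPolynomial (Fin m) ℚ} {N : ℕ}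
    {c' : Fin (J + 1) → (Fin m →₀ ℕ) → ℤ} (hc' : ∀ j e, ((c' j e : ℤ) : ℚ) = N * (c j).coeff e)
    {K : Type} [Field K] [Algebra ℚ K] (s : Fin m → K) (j : Fin (J + 1)) :
    (N : K) * aeval s (c j) = ∑ e ∈ (c j).support, ((c' j e : ℤ) : K) * ∏ i, s i ^ e i := by
  rw [aeval_def, eval₂_eq', Finset.mul_sum]
  refine Finset.sum_congr rfl fun e _ => ?_
  have h := congrArg (algebraMap ℚ K) (hc' j e)
  rw [map_intCast, map_mul, map_natCast] at h
  rw [h, mul_assoc]

/-- (1) -/
private theorem val_le {K : Type} [Field K] [NumberField K] {ι : Type} [Fintype ι]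
    (P : MinHt.PF K ι) (v : ι) {m : ℕ} (s : Fin m → K) (S : Finset (Fin m →₀ ℕ))
    (c' : (Fin m →₀ ℕ) → ℤ) {B : ℝ} (hB : 1 ≤ B) (h1 : (S.card : ℝ) ≤ B)
    (h2 : ∀ e ∈ S, (|(c' e : ℤ)| : ℝ) ≤ B) (D : Fin m → ℕ) (hD : ∀ e ∈ S, ∀ i, e i ≤ D i) :
    P.av v (∑ e ∈ S, ((c' e : ℤ) : K) * ∏ i, s i ^ e i) ≤
      (B * B) ^ P.wt v * ∏ i, max 1 (P.av v (s i)) ^ D i := by
  have h3 : ∀ i, (1 : ℝ) ≤ max 1 (P.av v (s i)) := fun i => le_max_left _ _
  have h4 : (0 : ℝ) ≤ ∏ i, max 1 (P.av v (s i)) ^ D i :=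
    Finset.prod_nonneg fun i _ => pow_nonneg (zero_le_one.trans (h3 i)) _
  have h := P.sum_le v S (fun e => ((c' e : ℤ) : K) * ∏ i, s i ^ e i)
    (B ^ P.wt v * ∏ i, max 1 (P.av v (s i)) ^ D i) (by positivity) (by
      intro e he
      rw [map_mul, map_prod]
      refine mul_le_mul ((P.int_le v _).trans (pow_le_pow_left₀ (abs_nonneg _) (h2 e he) _)) ?_
        (Finset.prod_nonneg fun i _ => P.nonneg v _) (by positivity)
      refine Finset.prod_le_prod (fun i _ => P.nonneg v _) fun i _ => ?_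
      rw [map_pow]
      exact (pow_le_pow_left₀ (P.nonneg v _) (le_max_right _ _) _).trans
        (pow_le_pow_right₀ (h3 i) (hD e he i)))
  refine h.trans ?_
  rw [mul_pow, mul_assoc]
  exact mul_le_mul_of_nonneg_right (pow_le_pow_left₀ (Nat.cast_nonneg _) h1 _) (by positivity)

/-- (2) -/
private theorem root_le {K : Type} [Field K] [NumberField K] {ι : Type} [Fintype ι]
    (P : MinHt.PF K ι) (v : ι) {J : ℕ} (d : Fin (J + 1) → K) (x : K) {R : ℝ}
    (h0 : ∑ j, d j * x ^ (j : ℕ) = 0) (hd : d (Fin.last J) ≠ 0) (hR : ∀ j, P.av v (d j) ≤ R) :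
    Real.posLog (P.av v x) ≤ P.wt v * Real.log (J + 1) + Real.log R -
      Real.log (P.av v (d (Fin.last J))) := by
  have hp : 0 < P.av v (d (Fin.last J)) := P.av_pos v hd
  have hR0 : 0 < R := hp.trans_le (hR _)
  have hJ0 : (0 : ℝ) ≤ Real.log (J + 1) :=
    Real.log_nonneg (by have : (0 : ℝ) ≤ J := Nat.cast_nonneg J; linarith)
  have h1 : Real.log (P.av v (d (Fin.last J))) ≤ Real.log R := Real.log_le_log hp (hR _)
  have h2 : (0 : ℝ) ≤ P.wt v * Real.log (J + 1) := mul_nonneg (Nat.cast_nonneg _) hJ0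
  rcases le_or_gt (P.av v x) 1 with hx | hx
  · have h3 : Real.posLog (P.av v x) = 0 :=
      (Real.posLog_eq_zero_iff _).2 (by rw [abs_of_nonneg (P.nonneg v x)]; exact hx)
    rw [h3]
    linarith
  · have hx0 : 0 < P.av v x := zero_lt_one.trans hx
    rw [Real.posLog_eq_log (by rw [abs_of_pos hx0]; exact hx.le)]
    rw [Fin.sum_univ_castSucc] at h0
    have h3 : d (Fin.last J) * x ^ J = -∑ j : Fin J, d j.castSucc * x ^ (j : ℕ) := by
      rw [eq_neg_iff_add_eq_zero, add_comm]
      exact h0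
    have hJ : J ≠ 0 := by
      rintro rfl
      rw [Fin.sum_univ_zero, neg_zero, pow_zero, mul_one] at h3
      exact hd h3
    obtain ⟨L, rfl⟩ := Nat.exists_eq_succ_of_ne_zero hJ
    have h4 := P.sum_le v (Finset.univ : Finset (Fin (L + 1)))
      (fun j => d j.castSucc * x ^ (j : ℕ)) (R * P.av v x ^ L) (by positivity) (by
        intro j _
        rw [map_mul, map_pow]
        refine mul_le_mul (hR _) (pow_le_pow_right₀ hx.le (Nat.lt_succ_iff.1 j.2))
          (by positivity) hR0.le)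
    have h5 : P.av v (-∑ j : Fin (L + 1), d j.castSucc * x ^ (j : ℕ)) ≤
        ((L : ℝ) + 1) ^ P.wt v * (R * P.av v x ^ L) := by
      have e1 : P.av v (-∑ j : Fin (L + 1), d j.castSucc * x ^ (j : ℕ)) =
          P.av v (∑ j : Fin (L + 1), d j.castSucc * x ^ (j : ℕ)) := by
        have e2 : P.av v (-1) = 1 := by
          have e3 : P.av v (-1) * P.av v (-1) = 1 := by
            rw [← map_mul, neg_mul_neg, one_mul, map_one]
          nlinarith [P.nonneg v (-1), e3]
        rw [← neg_one_mul, map_mul, e2, one_mul]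
      rw [e1]
      rw [Finset.card_univ, Fintype.card_fin] at h4
      push_cast at h4
      exact h4
    rw [← h3, map_mul, map_pow, pow_succ, ← mul_assoc] at h5
    have h6 : P.av v (d (Fin.last (L + 1))) * P.av v x ≤
        (((L + 1 : ℕ) : ℝ) + 1) ^ P.wt v * R := by
      have h7 : P.av v (d (Fin.last (L + 1))) * P.av v x * P.av v x ^ L ≤
          ((L : ℝ) + 1) ^ P.wt v * R * P.av v x ^ L := by
        calc P.av v (d (Fin.last (L + 1))) * P.av v x * P.av v x ^ L
            = P.av v (d (Fin.last (L + 1))) * P.av v x ^ L * P.av v x := by ring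
          _ ≤ ((L : ℝ) + 1) ^ P.wt v * (R * P.av v x ^ L) := h5
          _ = ((L : ℝ) + 1) ^ P.wt v * R * P.av v x ^ L := by ring
      have h8 := le_of_mul_le_mul_right h7 (pow_pos hx0 L)
      refine h8.trans (mul_le_mul_of_nonneg_right ?_ hR0.le)
      refine pow_le_pow_left₀ (by positivity) ?_ _
      push_cast
      linarith
    have h9 := Real.log_le_log (mul_pos hp hx0) h6
    rw [Real.log_mul hp.ne' hx0.ne', Real.log_mul (by positivity) hR0.ne', Real.log_pow] at h9
    linarith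

/-- The height of a root of a polynomial with coefficients polynomials in `s`.

Proof. Multiplying all `c j` by a common denominator we may assume that `c j` is the image of
`c' j : MvPolynomial (Fin m) ℤ` (same `degreeOf`), so `aeval s (c j) = ∑ e ∈ support, (c' j).coeff e *
∏ s_i ^ e_i`. Let `B ≥ 1` be an upper bound for the absolute values of all coefficients and for the
numbers of terms of the `c' j` (`j ≤ J`), and put `C = log (B * B * (J + 1))`. Let
`d_j = aeval s (c j)`. If `x = 0` there is nothing to prove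
(`logHeight₁ 0 = 0`, and the right side is nonnegative). Otherwise take `P : PF K` from
`MinHt.exists_PF` for the finite set of the nonzero elements among `x`, the `s_i` and
`d_J`. For every index `v` of `P`, with `a = P.av v`, `w = P.wt v`:
(1) `a (d_j) ≤ (B * B) ^ w * ∏ max 1 (a (s_i)) ^ D_i` for all `j` (`P.sum_le`, `P.int_le`;
`a (s_i) ^ e_i ≤ max 1 (a s_i) ^ D_i` since `e_i ≤ degreeOf i (c j) ≤ D_i`). Call the right side `R`.
(2) `a x ≤ (J + 1) ^ w * max 1 (R / a (d_J))`: if `a x > 1`, from `d_J x = - ∑_{j<J} d_j x^(j+1-J)`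
(divide the equation by `x^(J-1)`), `a (d_J) a (x) ≤ J ^ w * max_j a (d_j) ≤ (J+1)^w R` as
`a (x) ^ (j+1-J) ≤ 1` for `j < J`. (If `J = 0` the hypotheses are contradictory.) Since `a (d_J) ≤ R`
(by (1)) the maximum is `R / a (d_J)`, in all cases
`log⁺ (a x) ≤ w log (J+1) + log R - log (a (d_J))`, the right side being `≥ 0`.
(3) Sum over `v`: `∑ log (a (d_J)) = 0` (`P.sum_log`), `∑ w = finrank` (`P.sum_wt`),
`∑ log (max 1 (a s_i)) = h (s_i)` (`P.height` if `s_i ≠ 0`; for `s_i = 0` both are `0`), so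
`h x ≤ ∑ D_i h (s_i) + finrank * (log (B * B) + log (J + 1))`. -/
theorem height_root {m J : ℕ} (c : Fin (J + 1) → MvPolynomial (Fin m) ℚ) (D : Fin m → ℕ)
    (hD : ∀ j i, degreeOf i (c j) ≤ D i) : ∃ C : ℝ, 0 ≤ C ∧
      ∀ (K : Type) [Field K] [NumberField K] (s : Fin m → K) (x : K),
        ∑ j, aeval s (c j) * x ^ (j : ℕ) = 0 → aeval s (c (Fin.last J)) ≠ 0 →
        logHeight₁ x ≤ ∑ i, D i * logHeight₁ (s i) + C * finrank ℚ K := by
  classical
  obtain ⟨N, c', hN, hc'⟩ := exists_den c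
  obtain ⟨B, hB1, hBc, hBz⟩ := exists_bd c c'
  have hJ0 : (0 : ℝ) ≤ Real.log (J + 1) :=
    Real.log_nonneg (by have : (0 : ℝ) ≤ J := Nat.cast_nonneg J; linarith)
  have hBB : (1 : ℝ) ≤ B * B := by nlinarith
  have hC : 0 ≤ Real.log (B * B) + Real.log (J + 1) :=
    add_nonneg (Real.log_nonneg hBB) hJ0
  refine ⟨Real.log (B * B) + Real.log (J + 1), hC, ?_⟩
  intro K _ _ s x h0 hd
  by_cases hx : x = 0
  · rw [hx, logHeight₁_zero]
    refine add_nonneg (Finset.sum_nonneg fun i _ =>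
      mul_nonneg (Nat.cast_nonneg _) (zero_le_logHeight₁ _)) (mul_nonneg hC (Nat.cast_nonneg _))
  have hNK : (N : K) ≠ 0 := Nat.cast_ne_zero.2 hN.ne'
  let d : Fin (J + 1) → K := fun j => (N : K) * aeval s (c j)
  have hd0 : d (Fin.last J) ≠ 0 := mul_ne_zero hNK hd
  have hsum : ∑ j, d j * x ^ (j : ℕ) = 0 := by
    have h1 : ∑ j, d j * x ^ (j : ℕ) = (N : K) * ∑ j, aeval s (c j) * x ^ (j : ℕ) := by
      rw [Finset.mul_sum]
      exact Finset.sum_congr rfl fun j _ => mul_assoc _ _ _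
    rw [h1, h0, mul_zero]
  let Z : Finset K := (insert x (insert (d (Fin.last J)) (Finset.univ.image s))).filter (· ≠ 0)
  obtain ⟨ι, _, P, hP⟩ := MinHt.exists_PF K Z fun z hz => (Finset.mem_filter.1 hz).2
  have hxg : x ∈ P.good := hP x (Finset.mem_filter.2 ⟨Finset.mem_insert_self _ _, hx⟩)
  have hdg : d (Fin.last J) ∈ P.good := hP _ (Finset.mem_filter.2
    ⟨Finset.mem_insert_of_mem (Finset.mem_insert_self _ _), hd0⟩)
  have hsg : ∀ i, s i ≠ 0 → s i ∈ P.good := fun i hi => hP _ (Finset.mem_filter.2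
    ⟨Finset.mem_insert_of_mem (Finset.mem_insert_of_mem
      (Finset.mem_image_of_mem s (Finset.mem_univ i))), hi⟩)
  let R : ι → ℝ := fun v => (B * B) ^ P.wt v * ∏ i, max 1 (P.av v (s i)) ^ D i
  have hR : ∀ v j, P.av v (d j) ≤ R v := by
    intro v j
    have h1 : d j = ∑ e ∈ (c j).support, ((c' j e : ℤ) : K) * ∏ i, s i ^ e i := val_eq hc' s j
    rw [h1]
    exact val_le P v s _ _ hB1 (hBc j) (hBz j) D fun e he i =>
      (degreeOf_le_iff.1 (hD j i)) e he
  have hpt : ∀ v, Real.posLog (P.av v x) ≤ P.wt v * Real.log (J + 1) + Real.log (R v) -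
      Real.log (P.av v (d (Fin.last J))) := fun v => root_le P v d x hsum hd0 (hR v)
  have hlogR : ∀ v, Real.log (R v) = P.wt v * Real.log (B * B) +
      ∑ i, D i * Real.posLog (P.av v (s i)) := by
    intro v
    have h1 : ∀ i, (0 : ℝ) < max 1 (P.av v (s i)) := fun i =>
      zero_lt_one.trans_le (le_max_left _ _)
    simp only [R]
    rw [Real.log_mul (by positivity) (Finset.prod_pos fun i _ => pow_pos (h1 i) _).ne',
      Real.log_pow, Real.log_prod fun i _ => (pow_pos (h1 i) _).ne']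
    congr 1
    refine Finset.sum_congr rfl fun i _ => ?_
    rw [Real.log_pow, Real.posLog_eq_log_max_one (P.nonneg v _)]
  have hsi : ∀ i, ∑ v, Real.posLog (P.av v (s i)) = logHeight₁ (s i) := by
    intro i
    by_cases hi : s i = 0
    · rw [hi, logHeight₁_zero]
      refine Finset.sum_eq_zero fun v _ => ?_
      rw [map_zero]
      simp
    · exact (P.height _ (hsg i hi)).symm
  have hw : ∑ v, (P.wt v : ℝ) = (finrank ℚ K : ℝ) := by
    rw [← P.sum_wt]
    push_cast
    rfl
  calc logHeight₁ x = ∑ v, Real.posLog (P.av v x) := P.height x hxg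
    _ ≤ ∑ v, (P.wt v * Real.log (J + 1) + Real.log (R v) -
        Real.log (P.av v (d (Fin.last J)))) := Finset.sum_le_sum fun v _ => hpt v
    _ = (∑ v, (P.wt v : ℝ)) * Real.log (J + 1) + ((∑ v, (P.wt v : ℝ)) * Real.log (B * B) +
        ∑ i, D i * ∑ v, Real.posLog (P.av v (s i))) -
        ∑ v, Real.log (P.av v (d (Fin.last J))) := by
      rw [Finset.sum_sub_distrib, Finset.sum_add_distrib]
      simp only [hlogR]
      rw [Finset.sum_add_distrib, Finset.sum_mul, Finset.sum_mul, Finset.sum_comm]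
      simp only [Finset.mul_sum]
    _ = _ := by
      simp only [hsi]
      rw [P.sum_log _ hdg, hw]
      ring

end Pool.Agent.Srf5
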