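import Pool.Agent.Srf5.Defs
import Pool.Agent.RelC.Alg
import Pool.Agent.RelC.PairsOne

set_option autoImplicit false

/-! Points of bounded degree and height; descent to the field generated by the coordinates. -/

namespace Pool.Agent.Srf5

open MvPolynomial Module Height NumberField Pool.Agent.CITLines

/-- Points of bounded degree and height satisfy one of finitely many relations.

Proof. As `RelC.finite_relations` (same proof with `z` instead of `co x`): `RelC.northcott` gives a
finite set `Z ⊆ ℂ`; for every `p : Fin 5 → ℂ` with coordinates in `Z` choose a relation. -/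
theorem finite_rel (D : ℕ) (H : ℝ) : ∃ E : Finset (Fin 5 → ℤ), 0 ∉ E ∧
    ∀ (K : Type) [Field K] [NumberField K] (z : Fin 5 → K), finrank ℚ K ≤ D →
      (∀ i, logHeight₁ (z i) ≤ H) → (∃ u, u ≠ 0 ∧ mon z u = 1) → ∃ u ∈ E, mon z u = 1 := by
  classical
  obtain ⟨Z, hZ, hZK⟩ := RelC.northcott D H
  have hT : (Set.univ.pi fun _ : Fin 5 => Z).Finite := Set.Finite.pi fun _ => hZ
  have hch : ∀ p : Fin 5 → ℂ, ∃ w : Fin 5 → ℤ,
      (∃ w, w ≠ 0 ∧ mon p w = 1) → w ≠ 0 ∧ mon p w = 1 := by
    intro p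
    by_cases h : ∃ w : Fin 5 → ℤ, w ≠ 0 ∧ mon p w = 1
    · obtain ⟨w, hw⟩ := h
      exact ⟨w, fun _ => hw⟩
    · exact ⟨0, fun h' => absurd h' h⟩
  choose r hr using hch
  refine ⟨(hT.toFinset.image r).erase 0, Finset.notMem_erase _ _, ?_⟩
  intro K _ _ x hD hh hw
  obtain ⟨φ⟩ : Nonempty (K →+* ℂ) := inferInstance
  have hmap : ∀ w : Fin 5 → ℤ, mon (fun i => φ (x i)) w = φ (mon x w) := by
    intro w
    unfold mon
    rw [map_prod]
    exact Finset.prod_congr rfl fun i _ => (map_zpow₀ φ _ _).symm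
  obtain ⟨w, hw0, hw⟩ := hw
  obtain ⟨h1, h2⟩ := hr (fun i => φ (x i)) ⟨w, hw0, by rw [hmap, hw, map_one]⟩
  refine ⟨r fun i => φ (x i), Finset.mem_erase.2 ⟨h1, Finset.mem_image_of_mem _ ?_⟩, ?_⟩
  · rw [Set.Finite.mem_toFinset, Set.mem_univ_pi]
    exact fun i => hZK K hD (x i) (hh i) φ
  · rw [hmap] at h2
    exact φ.injective (by rw [h2, map_one])

/-- It is enough to consider points whose coordinates generate the field.

Proof. `RelC.adjoin_top` gives `y` over `L = ℚ(P)` with `(y i : K) = P i`. Then `y i ≠ 0`;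
`kr ℚ w ≤ kr ℚ y` because `algebraMap L K (aeval y f) = aeval P f` is zero for `f ∈ kr ℚ w` and the
map is injective; `mono y a` maps to `mono P a` (`map_prod`, `map_zpow₀`), so `RankLe 2 y` with the
same subspace; and `mon y a = 1` implies `mon P a = 1`. -/
theorem pointList_of_top {F : Type} [Field F] [CharZero F] (w : Fin 5 → F)
    {E : Finset (Fin 5 → ℤ)} (h0 : 0 ∉ E)
    (h : ∀ (K : Type) [Field K] [NumberField K] (P : Fin 5 → K), (∀ i, P i ≠ 0) →
      kr ℚ w ≤ kr ℚ P → LThree.RankLe 2 P → IntermediateField.adjoin ℚ (Set.range P) = ⊤ →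
      ∃ a ∈ E, mon P a = 1) : PointList w E := by
  refine ⟨h0, ?_⟩
  intro K _ _ P hP hle hrk
  obtain ⟨y, hy, htop⟩ := RelC.adjoin_top P
  have hmon : ∀ a : Fin 5 → ℤ, ((mon y a : IntermediateField.adjoin ℚ (Set.range P)) : K) =
      mon P a := by
    intro a
    have h3 : ((mon y a : IntermediateField.adjoin ℚ (Set.range P)) : K) =
      (IntermediateField.adjoin ℚ (Set.range P)).val (mon y a) := rfl
    rw [h3]
    unfold mon
    rw [map_prod]
    refine Finset.prod_congr rfl fun i _ => ?_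
    rw [map_zpow₀, ← hy]
    rfl
  have hy0 : ∀ i, y i ≠ 0 := by
    intro i h1
    refine hP i ?_
    rw [← hy i, h1]
    rfl
  have hley : kr ℚ w ≤ kr ℚ y := by
    intro f hf
    have h1 := mem_kr.mp (hle hf)
    rw [mem_kr]
    have h2 := MvPolynomial.comp_aeval_apply y
      (IntermediateField.adjoin ℚ (Set.range P)).val f
    have h3 : (fun i => (IntermediateField.adjoin ℚ (Set.range P)).val (y i)) = P :=
      funext fun i => hy i
    rw [h3, h1] at h2
    exact (map_eq_zero _).mp h2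
  have hrky : LThree.RankLe 2 y := by
    obtain ⟨U, hU, htor⟩ := hrk
    refine ⟨U, hU, fun a ha => ?_⟩
    obtain ⟨m, hm, h1⟩ := htor a ha
    refine ⟨m, hm, ?_⟩
    apply Subtype.val_injective
    have h2 : ((LThree.mono y a : IntermediateField.adjoin ℚ (Set.range P)) : K) =
        LThree.mono P a := hmon a
    change ((LThree.mono y a : IntermediateField.adjoin ℚ (Set.range P)) : K) ^ m = 1
    rw [h2, h1]
  obtain ⟨a, ha, h1⟩ := h _ y hy0 hley hrky htop
  refine ⟨a, ha, ?_⟩
  rw [← hmon a, h1]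
  rfl

end Pool.Agent.Srf5
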