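import Pool.Agent.Srf5.AIso
import Pool.Agent.Srf5.AFin
import Pool.Agent.Srf5.ALau
import Pool.Agent.RelC.Orbit
import Pool.Agent.RelC.Counts

set_option autoImplicit false

/-! Points of bounded height of the surface. -/

namespace Pool.Agent.Srf5

open MvPolynomial Module Height NumberField Pool.Agent.CITLines
open LThree (nrm)

/-- The degree of the equation of a relation.

Proof. `binom k u 1 = ∏ X_i^(u_i)⁺ - C 1 * ∏ X_i^(-u_i)⁺`; `totalDegree_sub`,
`totalDegree_finset_prod_le`, `(u i).natAbs ≤ nrm u`. -/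
theorem totalDegree_binom {k : Type} [Field k] (u : Fin 5 → ℤ) :
    (binom k u 1 : MvPolynomial (Fin 5) k).totalDegree ≤ 5 * nrm u := by
  have key : ∀ e : Fin 5 → ℕ, (∀ i, e i ≤ nrm u) →
      (∏ i, X i ^ e i : MvPolynomial (Fin 5) k).totalDegree ≤ 5 * nrm u := by
    intro e he
    refine (totalDegree_finsetProd _ _).trans ?_
    calc ∑ i, (X i ^ e i : MvPolynomial (Fin 5) k).totalDegree = ∑ i, e i :=
          Finset.sum_congr rfl fun i _ => totalDegree_X_pow i (e i)
      _ ≤ ∑ _i : Fin 5, nrm u := Finset.sum_le_sum fun i _ => he i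
      _ = 5 * nrm u := by simp
  have hn : ∀ i, (u i).natAbs ≤ nrm u := fun i =>
    Finset.le_sup (f := fun i => (u i).natAbs) (Finset.mem_univ i)
  unfold binom
  refine (totalDegree_sub _ _).trans (max_le ?_ ?_)
  · exact key _ fun i => by
      have := hn i
      omega
  · rw [map_one, one_mul]
    exact key _ fun i => by
      have := hn i
      omega

private theorem alg_bound {C D t : ℝ} (hD : 1 ≤ D) (ht : t < 1) (h : D ≤ C * D ^ t) :
    D ≤ C ^ (1 / (1 - t)) := by
  have hD0 : 0 < D := by linarith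
  have h1 : 0 < D ^ t := Real.rpow_pos_of_pos hD0 t
  have h2 : D ^ (1 - t) ≤ C := by
    rw [Real.rpow_sub hD0, Real.rpow_one, div_le_iff₀ h1]
    exact h
  have h3 : 0 < 1 - t := by linarith
  calc D = (D ^ (1 - t)) ^ (1 / (1 - t)) := by
        rw [← Real.rpow_mul hD0.le, mul_one_div_cancel h3.ne', Real.rpow_one]
    _ ≤ C ^ (1 / (1 - t)) := Real.rpow_le_rpow (by positivity) h2 (by positivity)

private theorem nrm_pos {u : Fin 5 → ℤ} (h : u ≠ 0) : 1 ≤ nrm u := by
  by_contra hcon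
  push Not at hcon
  have h1 : RelC.nrm u = 0 := by
    rw [RelC.nrm_eq]
    omega
  exact h (RelC.nrm_eq_zero.1 h1)

/-- **Points of bounded height of the surface.**

Proof. Take `g, g0` from `exists_eqs` for `w`. Let `P` be a point as in the statement, `D = finrank`.
`RelC.two_relations'` (`k = 2`, `RelC.count_two`, `ε = 1/8`, each `h(P_i) ≤ B D`) gives
linearly independent `u, v` with `mono P u = mono P v = 1` and `nrm u * nrm v ≤ C D^(3/4)`. Apply
`RelC.orbit_or_generic` to the polynomials `![g 0, g 1, g 2, binom ℚ u 1, binom ℚ v 1]` (they vanish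
at `P`: `binom_mem_kr`) and the numbers `deg g_j + 1`, `5 nrm u + 1`, `5 nrm v + 1`. First case:
`D ≤ G (5 nrm u + 1) (5 nrm v + 1) ≤ 36 G nrm u nrm v ≤ 36 G C D^(3/4)` (`nrm u, nrm v ≥ 1`), so
`D ≤ (36 G C)^4 ≤ D0`, and the list of `finite_rel D0 (max B 0 * D0)` contains a relation of `P`.
Second case: there is `ξ : Fin 5 → Ω` (`Ω ⊇ ℂ`), a common zero of the five polynomials, not all coordinates
algebraic over `ℂ`, such that every polynomial over `ℂ` vanishing at `ξ` vanishes at `φ P`. All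
`ξ i ≠ 0` (as `P i ≠ 0`; use the polynomial `X i`). `Q = kr ℚ ξ` is a prime containing the `g j`. If
`g0 ∈ Q` then `g0` vanishes at `φ P`, so `aeval P g0 = 0` (`φ` injective). Otherwise `kr ℚ w ≤ Q`
and `hE` gives `a ∈ Ec` with `mon ξ a = 1` (`mon ξ u = 1` is `binom_mem_kr`; `RU` with `m = 1`), and
`binom ℂ a 1` vanishes at `ξ`, hence at `φ P`, so `mon P a = 1`. (For `Algebra ℚ Ω` use
`DivisionRing.toRatAlgebra`; `Ω` has characteristic zero as a `ℂ`-algebra.) -/
theorem bounded_points {F : Type} [Field F] [CharZero F] (w : Fin 5 → F)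
    (hdim : dm (kr ℚ w) = 2) {Ec : Finset (Fin 5 → ℤ)} (hE : CurveList w Ec) (B : ℝ) :
    ∃ (E : Finset (Fin 5 → ℤ)) (g0 : MvPolynomial (Fin 5) ℚ), 0 ∉ E ∧ g0 ∉ kr ℚ w ∧
      ∀ (K : Type) [Field K] [NumberField K] (P : Fin 5 → K), (∀ i, P i ≠ 0) →
        kr ℚ w ≤ kr ℚ P → LThree.RankLe 2 P → IntermediateField.adjoin ℚ (Set.range P) = ⊤ →
        ∑ i, logHeight₁ (P i) ≤ B * finrank ℚ K → (∃ a ∈ E, mon P a = 1) ∨ aeval P g0 = 0 := by
  classical
  obtain ⟨g, g0, hg, hg0, hQ⟩ := exists_eqs w hdim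
  obtain ⟨C, hC1, hrel⟩ := RelC.two_relations' RelC.count_two (ε := 1 / 8) (by norm_num) B
  set G : ℕ := ((g 0).totalDegree + 1) * ((g 1).totalDegree + 1) * ((g 2).totalDegree + 1)
    with hG
  set D0 : ℕ := ⌈((36 * G : ℕ) * C : ℝ) ^ (4 : ℝ)⌉₊ with hD0
  obtain ⟨E1, h1, hE1⟩ := finite_rel D0 (max B 0 * D0)
  refine ⟨Ec ∪ E1, g0, by simp [hE.1, h1], hg0, ?_⟩
  intro K _ _ P hP hwP hrk hgen hht
  have hD : (1 : ℝ) ≤ finrank ℚ K := by exact_mod_cast (finrank_pos (R := ℚ) (M := K))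
  have hhi : ∀ i, logHeight₁ (P i) ≤ B * finrank ℚ K := fun i =>
    (Finset.single_le_sum (f := fun i => logHeight₁ (P i))
      (fun j _ => zero_le_logHeight₁ (P j)) (Finset.mem_univ i)).trans hht
  obtain ⟨u, v, hind, hu, hv, hle⟩ := hrel K (Fin 5) P hP (by simp) hrk hhi
  have hu0 : u ≠ 0 := hind.ne_zero 0
  have hv0 : v ≠ 0 := hind.ne_zero 1
  have hu1 := nrm_pos hu0
  have hv1 := nrm_pos hv0
  have hmu : mon P u = 1 := hu
  have hmv : mon P v = 1 := hv
  have hbu : aeval P (binom ℚ u 1) = 0 :=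
    mem_kr.1 ((binom_mem_kr hP u (1 : ℚ)).2 (by rw [hmu, map_one]))
  have hbv : aeval P (binom ℚ v 1) = 0 :=
    mem_kr.1 ((binom_mem_kr hP v (1 : ℚ)).2 (by rw [hmv, map_one]))
  rcases RelC.orbit_or_generic K P hgen ![g 0, g 1, g 2, binom ℚ u 1, binom ℚ v 1] (fun j => by
      fin_cases j
      · exact mem_kr.1 (hwP (hg 0))
      · exact mem_kr.1 (hwP (hg 1))
      · exact mem_kr.1 (hwP (hg 2))
      · exact hbu
      · exact hbv)
    ![(g 0).totalDegree + 1, (g 1).totalDegree + 1, (g 2).totalDegree + 1,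
      5 * nrm u + 1, 5 * nrm v + 1] (fun j => by
      fin_cases j
      · exact Nat.lt_succ_self _
      · exact Nat.lt_succ_self _
      · exact Nat.lt_succ_self _
      · exact Nat.lt_succ_of_le (totalDegree_binom u)
      · exact Nat.lt_succ_of_le (totalDegree_binom v)) with h | ⟨φ, Ω, _, _, ξ, hξ, htr, hsp⟩
  · -- bounded degree
    left
    have h0 : finrank ℚ K ≤ G * (5 * nrm u + 1) * (5 * nrm v + 1) := by
      refine h.trans (le_of_eq ?_)
      rw [Fin.prod_univ_five, hG]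
      rfl
    have h2 : (finrank ℚ K : ℝ) ≤ (36 * G : ℕ) * (nrm u * nrm v) := by
      have h3 : finrank ℚ K ≤ 36 * G * (nrm u * nrm v) := by
        refine h0.trans ?_
        calc G * (5 * nrm u + 1) * (5 * nrm v + 1) ≤ G * (6 * nrm u) * (6 * nrm v) := by
              refine Nat.mul_le_mul (Nat.mul_le_mul_left _ ?_) ?_ <;> omega
          _ = _ := by ring
      exact_mod_cast h3
    have h3 : (finrank ℚ K : ℝ) ≤ ((36 * G : ℕ) * C) * (finrank ℚ K : ℝ) ^ (3 / 4 : ℝ) := by
      have e3 : (1 + 1 / 8 : ℝ) * (2 / 3) = 3 / 4 := by norm_num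
      rw [e3] at hle
      calc (finrank ℚ K : ℝ) ≤ (36 * G : ℕ) * (nrm u * nrm v) := h2
        _ ≤ (36 * G : ℕ) * (C * (finrank ℚ K : ℝ) ^ (3 / 4 : ℝ)) := by gcongr
        _ = _ := by ring
    have h4 := alg_bound hD (by norm_num) h3
    have h5 : finrank ℚ K ≤ D0 := by
      have e4 : (1 / (1 - 3 / 4) : ℝ) = 4 := by norm_num
      rw [e4] at h4
      exact Nat.cast_le.1 (h4.trans (Nat.le_ceil _))
    obtain ⟨a, ha, ha1⟩ := hE1 K P h5 (fun i => by
      have h6 := hhi i
      have h7 : (finrank ℚ K : ℝ) ≤ D0 := by exact_mod_cast h5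
      calc logHeight₁ (P i) ≤ B * finrank ℚ K := h6
        _ ≤ max B 0 * finrank ℚ K := by gcongr; exact le_max_left _ _
        _ ≤ max B 0 * D0 := by gcongr) ⟨u, hu0, hmu⟩
    exact ⟨a, Finset.mem_union_right _ ha, ha1⟩
  · -- a curve
    have : CharZero Ω := charZero_of_injective_algebraMap (algebraMap ℂ Ω).injective
    have hmap : ∀ p : MvPolynomial (Fin 5) ℚ,
        aeval ξ (map (algebraMap ℚ ℂ) p) = aeval ξ p := fun p => by
      exact aeval_map_algebraMap ℂ ξ p
    have hspQ : ∀ p : MvPolynomial (Fin 5) ℚ, aeval ξ p = 0 → aeval P p = 0 := by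
      intro p hp
      have h2 := hsp _ ((hmap p).trans hp)
      rw [eval_map] at h2
      apply φ.injective
      rw [map_zero, ← h2, aeval_def, ← coe_eval₂Hom, ← RingHom.comp_apply, ← coe_eval₂Hom]
      congr 1
      apply MvPolynomial.ringHom_ext
      · intro a
        rw [RingHom.comp_apply, eval₂Hom_C, eval₂Hom_C]
        simp
      · intro j
        rw [RingHom.comp_apply, eval₂Hom_X', eval₂Hom_X']
    have hξ0 : ∀ i, ξ i ≠ 0 := by
      intro i hi
      apply hP i
      have h2 := hspQ (X i) (by rw [aeval_X, hi])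
      rwa [aeval_X] at h2
    have hz : ∀ j, aeval ξ ((![g 0, g 1, g 2, binom ℚ u 1, binom ℚ v 1] :
        Fin 5 → MvPolynomial (Fin 5) ℚ) j) = 0 := fun j => (hmap _).symm.trans (hξ j)
    rcases hQ (kr ℚ ξ) inferInstance (fun j => by
        rw [mem_kr]
        fin_cases j
        · exact hz 0
        · exact hz 1
        · exact hz 2) with h2 | h2
    · left
      have hru : ∀ y : Fin 5 → ℤ, aeval ξ (binom ℚ y 1) = 0 → RU (mon ξ y) := by
        intro y hy
        have h3 := (binom_mem_kr hξ0 y (1 : ℚ)).1 (mem_kr.2 hy)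
        rw [map_one] at h3
        rw [h3]
        exact RU.one
      obtain ⟨a, ha, ha1⟩ := hE.2 Ω ξ hξ0 h2 htr u v hind (hru u (hz 3)) (hru v (hz 4))
      refine ⟨a, Finset.mem_union_left _ ha, ?_⟩
      have h3 := (binom_mem_kr hξ0 a (1 : ℚ)).2 (by rw [ha1, map_one])
      have h4 := hspQ _ (mem_kr.1 h3)
      have h5 := (binom_mem_kr hP a (1 : ℚ)).1 (mem_kr.2 h4)
      rwa [map_one] at h5
    · right
      exact hspQ g0 (mem_kr.1 h2)

end Pool.Agent.Srf5
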