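import Pool.Agent.Srf5.AGDefs

set_option autoImplicit false

/-! Compactness: finitely many vectors suffice. -/

namespace Pool.Agent.Srf5

open LThree (nrm)

/-- The weight is a continuous function of `α, β`. -/
theorem continuous_nn (u : Fin 5 → ℤ) :
    Continuous fun z : (Fin 5 → ℝ) × (Fin 5 → ℝ) => nn z.1 z.2 u := by
  unfold nn
  fun_prop

/-- Compactness of the box.

Proof. `IsCompact.elim_finite_subcover` for the compact set of all pairs `(α, β)` with coordinates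
in
`[-1, 1]` (`isCompact_univ_pi`, `IsCompact.prod`) and the open sets `{z | G s z < κ}` for the `s`
with `P s` (the cover is indexed by the subtype `{s // P s}`). -/
theorem compact_box {I : Type} (G : I → (Fin 5 → ℝ) × (Fin 5 → ℝ) → ℝ)
    (hG : ∀ s, Continuous (G s)) (P : I → Prop) (κ : ℝ) (h : ∀ z, ∃ s, P s ∧ G s z < κ) :
    ∃ S : Finset I, (∀ s ∈ S, P s) ∧ ∀ α β : Fin 5 → ℝ, (∀ i, |α i| ≤ 1) → (∀ i, |β i| ≤ 1) →
      ∃ s ∈ S, G s (α, β) < κ := by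
  have hK : IsCompact ((Set.univ.pi fun _ : Fin 5 => Set.Icc (-1 : ℝ) 1) ×ˢ
      (Set.univ.pi fun _ : Fin 5 => Set.Icc (-1 : ℝ) 1)) :=
    (isCompact_univ_pi fun _ => isCompact_Icc).prod (isCompact_univ_pi fun _ => isCompact_Icc)
  obtain ⟨T, hT⟩ := hK.elim_finite_subcover (fun s : {s // P s} => {z | G s.1 z < κ})
    (fun s => isOpen_lt (hG s.1) continuous_const) (fun z _ => by
      obtain ⟨s, hs, hz⟩ := h z
      exact Set.mem_iUnion.2 ⟨⟨s, hs⟩, hz⟩)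
  classical
  refine ⟨T.image Subtype.val, ?_, fun α β hα hβ => ?_⟩
  · intro s hs
    obtain ⟨t, -, rfl⟩ := Finset.mem_image.1 hs
    exact t.2
  · have hm : (α, β) ∈ (Set.univ.pi fun _ : Fin 5 => Set.Icc (-1 : ℝ) 1) ×ˢ
        (Set.univ.pi fun _ : Fin 5 => Set.Icc (-1 : ℝ) 1) :=
      ⟨fun i _ => abs_le.1 (hα i), fun i _ => abs_le.1 (hβ i)⟩
    obtain ⟨t, ht⟩ := Set.mem_iUnion.1 (hT hm)
    obtain ⟨ht1, ht2⟩ := Set.mem_iUnion.1 ht
    exact ⟨t.1, Finset.mem_image.2 ⟨t, ht1, rfl⟩, ht2⟩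

/-- Finitely many pairs of vectors.

Proof. `compact_box` for `I` the pairs of integer vectors and
`G (a, b) z = nrm b * nn z.1 z.2 a + nrm a * nn z.1 z.2 b`. -/
theorem compact_pairs (R : (Fin 5 → ℤ) → (Fin 5 → ℤ) → Prop) {κ : ℝ}
    (h : ∀ α β : Fin 5 → ℝ, ∃ a b, ¬ R a b ∧ (nrm b : ℝ) * nn α β a + nrm a * nn α β b < κ) :
    ∃ S : Finset ((Fin 5 → ℤ) × (Fin 5 → ℤ)), (∀ s ∈ S, ¬ R s.1 s.2) ∧
      ∀ α β : Fin 5 → ℝ, (∀ i, |α i| ≤ 1) → (∀ i, |β i| ≤ 1) →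
      ∃ s ∈ S, (nrm s.2 : ℝ) * nn α β s.1 + nrm s.1 * nn α β s.2 < κ := by
  exact compact_box (fun (s : (Fin 5 → ℤ) × (Fin 5 → ℤ)) z =>
      (nrm s.2 : ℝ) * nn z.1 z.2 s.1 + nrm s.1 * nn z.1 z.2 s.2)
    (fun s => (continuous_const.mul (continuous_nn s.1)).add
      (continuous_const.mul (continuous_nn s.2))) (fun s => ¬ R s.1 s.2) κ (fun z => by
      obtain ⟨a, b, h1, h2⟩ := h z.1 z.2
      exact ⟨(a, b), h1, h2⟩)

/-- Finitely many vectors.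

Proof. `compact_box` for `I` the integer vectors and `G u z = nn z.1 z.2 u`. -/
theorem compact_vecs (Q : (Fin 5 → ℤ) → Prop) {κ : ℝ}
    (h : ∀ α β : Fin 5 → ℝ, ∃ u, Q u ∧ nn α β u < κ) :
    ∃ S : Finset (Fin 5 → ℤ), (∀ u ∈ S, Q u) ∧
      ∀ α β : Fin 5 → ℝ, (∀ i, |α i| ≤ 1) → (∀ i, |β i| ≤ 1) → ∃ u ∈ S, nn α β u < κ := by
  exact compact_box (fun u z => nn z.1 z.2 u) continuous_nn Q κ (fun z => h z.1 z.2)

end Pool.Agent.Srf5
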