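import Pool.Agent.Srf5.AMinor

set_option autoImplicit false

/-! Heights of the monomials at a point of rank two. -/

namespace Pool.Agent.Srf5

open Module Height NumberField Pool.Agent.CITLines

/-- At a point of rank at most two the height of a monomial is at most `|α · u| + |β · u|` times the
height of the point.

Proof. Let `U` be the subspace of `RankLe 2 z`; the quotient `(Fin 5 → ℚ) ⧸ U` has
`finrank ≤ 2`, so there is an injective linear map from it to `Fin 2 → ℚ`
(`LinearMap.exists_...` or a basis indexed by `Fin d`, `d ≤ 2`, extended by zero); let `φ` be the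
composition with `U.mkQ`, so `ker φ ≤ U`. Take `i, j, α, β` from `minor`. For an integer vector `u`
put `s = ∑ α_k u_k`, `t = ∑ β_k u_k` (rational) and let `q > 0` be a common denominator of `s, t`.
Then `φ (q u - q s e_i - q t e_j) = 0`, so the integer vector `v = q u - (q s) e_i - (q t) e_j` is in
`U` and `mono z v ^ m = 1` for some `m > 0`. Hence `mon z u ^ q = mon z v * z_i ^ (q s) * z_j ^ (q t)`
and `q h(mon z u) ≤ h (mon z v) + |q s| h(z_i) + |q t| h(z_j)` with `h (mon z v) = 0` (root of unity: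
`m h = h (1) = 0`), by `logHeight₁_pow`, `logHeight₁_mul_le`, `logHeight₁_zpow`. Divide by `q` and use
`h (z_i) ≤ ∑ h (z_k)` (`zero_le_logHeight₁`). -/
theorem rank_two {K : Type} [Field K] [NumberField K] (z : Fin 5 → K) (hz : ∀ i, z i ≠ 0)
    (h : LThree.RankLe 2 z) : ∃ α β : Fin 5 → ℝ, (∀ i, |α i| ≤ 1) ∧ (∀ i, |β i| ≤ 1) ∧
      ∀ u : Fin 5 → ℤ, logHeight₁ (mon z u) ≤ nn α β u * ∑ i, logHeight₁ (z i) := by
  classical
  obtain ⟨U, hU, hrel⟩ := h
  have hfin : finrank ℚ ((Fin 5 → ℚ) ⧸ U) ≤ finrank ℚ (Fin 2 → ℚ) := by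
    have h1 := Submodule.finrank_quotient_add_finrank U
    rw [Module.finrank_fin_fun] at h1 ⊢
    rw [Fintype.card_fin] at hU
    omega
  obtain ⟨f, hf⟩ := finrank_le_iff_exists_linearMap.1 hfin
  obtain ⟨i, j, α, β, hα, hβ, hφ⟩ := minor (f ∘ₗ U.mkQ)
  set φ := f ∘ₗ U.mkQ with hφdef
  have hα' : ∀ k, |(α k : ℝ)| ≤ 1 := fun k => by exact_mod_cast hα k
  have hβ' : ∀ k, |(β k : ℝ)| ≤ 1 := fun k => by exact_mod_cast hβ k
  refine ⟨fun k => (α k : ℝ), fun k => (β k : ℝ), hα', hβ', fun u => ?_⟩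
  set s : ℚ := ∑ k, α k * u k with hs
  set t : ℚ := ∑ k, β k * u k with ht
  have hφu : φ (fun k => (u k : ℚ)) = s • φ (Pi.single i 1) + t • φ (Pi.single j 1) := by
    have e1 : (fun k => (u k : ℚ)) = ∑ k, (u k : ℚ) • (Pi.single k (1 : ℚ) : Fin 5 → ℚ) := by
      rw [← pi_eq_sum_univ' (fun k => (u k : ℚ))]
    rw [e1, map_sum, hs, ht, Finset.sum_smul, Finset.sum_smul, ← Finset.sum_add_distrib]
    refine Finset.sum_congr rfl fun k _ => ?_
    rw [map_smul, hφ k, smul_add, smul_smul, smul_smul, mul_comm (α k), mul_comm (β k)]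
  -- the common denominator
  set q : ℕ := s.den * t.den with hq
  have hq0 : 0 < q := Nat.mul_pos s.den_pos t.den_pos
  set S : ℤ := s.num * t.den with hS
  set T : ℤ := t.num * s.den with hT
  have hSq : (S : ℚ) = q * s := by
    have h1 := Rat.mul_den_eq_num s
    rw [hS, hq]
    push_cast
    rw [← h1]
    ring
  have hTq : (T : ℚ) = q * t := by
    have h1 := Rat.mul_den_eq_num t
    rw [hT, hq]
    push_cast
    rw [← h1]
    ring
  set v : Fin 5 → ℤ := (q : ℤ) • u - S • (Pi.single i 1 : Fin 5 → ℤ) -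
    T • (Pi.single j 1 : Fin 5 → ℤ) with hv
  have hcast : (fun k => (v k : ℚ)) = (q : ℚ) • (fun k => (u k : ℚ)) -
      (S : ℚ) • (Pi.single i 1 : Fin 5 → ℚ) - (T : ℚ) • (Pi.single j 1 : Fin 5 → ℚ) := by
    funext k
    simp only [hv, Pi.sub_apply, Pi.smul_apply, smul_eq_mul, Pi.single_apply]
    push_cast
    split_ifs <;> simp
  have hvU : (fun k => (v k : ℚ)) ∈ U := by
    have h1 : φ (fun k => (v k : ℚ)) = 0 := by
      rw [hcast, map_sub, map_sub, map_smul, map_smul, map_smul, hφu, hSq, hTq]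
      module
    have h2 : f (U.mkQ (fun k => (v k : ℚ))) = f 0 := by
      rw [map_zero]
      exact h1
    have h3 := hf h2
    rwa [Submodule.mkQ_apply, Submodule.Quotient.mk_eq_zero] at h3
  obtain ⟨m, hm0, hm⟩ := hrel v hvU
  have hm' : mon z v ^ m = 1 := hm
  have hv0 : logHeight₁ (mon z v) = 0 := by
    have h1 := logHeight₁_pow (mon z v) m
    rw [hm', logHeight₁_one] at h1
    have hmr : (m : ℝ) ≠ 0 := by exact_mod_cast hm0.ne'
    rcases mul_eq_zero.1 h1.symm with h2 | h2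
    · exact absurd h2 hmr
    · exact h2
  have hsingle : ∀ k : Fin 5, mon z (Pi.single k 1) = z k := by
    intro k
    unfold mon
    rw [Finset.prod_eq_single k]
    · simp
    · intro b _ hb
      simp [hb]
    · simp
  have hmonu : mon z u ^ q = mon z v * z i ^ S * z j ^ T := by
    have e1 : (q : ℤ) • u = v + S • (Pi.single i 1 : Fin 5 → ℤ) +
        T • (Pi.single j 1 : Fin 5 → ℤ) := by
      rw [hv]
      abel
    have e2 := mon_smul z (q : ℤ) u
    rw [zpow_natCast] at e2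
    rw [← e2, e1, mon_add' hz, mon_add' hz, mon_smul, mon_smul, hsingle, hsingle]
  have hh := logHeight₁_pow (mon z u) q
  rw [hmonu] at hh
  have h4 : logHeight₁ (mon z v * z i ^ S * z j ^ T) ≤
      (S.natAbs : ℝ) * logHeight₁ (z i) + (T.natAbs : ℝ) * logHeight₁ (z j) := by
    refine (logHeight₁_mul_le _ _).trans ?_
    have h5 := logHeight₁_mul_le (mon z v) (z i ^ S)
    rw [hv0, logHeight₁_zpow] at h5
    rw [logHeight₁_zpow]
    linarith
  have hqr : (0 : ℝ) < q := by exact_mod_cast hq0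
  have hSr : (S.natAbs : ℝ) = q * |(s : ℝ)| := by
    have h5 : (S : ℝ) = q * (s : ℝ) := by exact_mod_cast hSq
    rw [Nat.cast_natAbs, Int.cast_abs, h5, abs_mul, abs_of_pos hqr]
  have hTr : (T.natAbs : ℝ) = q * |(t : ℝ)| := by
    have h5 : (T : ℝ) = q * (t : ℝ) := by exact_mod_cast hTq
    rw [Nat.cast_natAbs, Int.cast_abs, h5, abs_mul, abs_of_pos hqr]
  have hle : logHeight₁ (mon z u) ≤ |(s : ℝ)| * logHeight₁ (z i) + |(t : ℝ)| * logHeight₁ (z j) := by
    rw [hh, hSr, hTr] at h4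
    have h6 : (q : ℝ) * logHeight₁ (mon z u) ≤
        q * (|(s : ℝ)| * logHeight₁ (z i) + |(t : ℝ)| * logHeight₁ (z j)) := by linarith
    exact le_of_mul_le_mul_left h6 hqr
  have hsum : ∀ k, logHeight₁ (z k) ≤ ∑ k, logHeight₁ (z k) := fun k =>
    Finset.single_le_sum (f := fun k => logHeight₁ (z k)) (fun k _ => zero_le_logHeight₁ _)
      (Finset.mem_univ k)
  have hnn : nn (fun k => (α k : ℝ)) (fun k => (β k : ℝ)) u = |(s : ℝ)| + |(t : ℝ)| := by
    unfold nn
    rw [hs, ht]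
    push_cast
    rfl
  rw [hnn, add_mul]
  exact hle.trans (add_le_add (mul_le_mul_of_nonneg_left (hsum i) (abs_nonneg _))
    (mul_le_mul_of_nonneg_left (hsum j) (abs_nonneg _)))

end Pool.Agent.Srf5
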