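import Pool.Agent.Srf5.AMn

set_option autoImplicit false

/-! Relations of small degree on a curve, by counting monomials. -/

namespace Pool.Agent.Srf5

open MvPolynomial Module Pool.Agent.CITLines
open LThree (nrm)

variable {k : Type} [Field k] {F : Type} [Field F] [Algebra k F]

private theorem arel1_nrm (u : Fin 5 → ℤ) (l : Fin 5) : |u l| ≤ (nrm u : ℤ) := by
  rw [Int.abs_eq_natAbs]
  exact_mod_cast Finset.le_sup (f := fun i => (u i).natAbs) (Finset.mem_univ l)

private theorem arel1_mon (w : Fin 5 → F) (hw : ∀ i, w i ≠ 0) (u : Fin 5 → ℤ) (i : Fin 5)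
    (s j : ℕ) : mon w ((s : ℤ) • u + (j : ℤ) • Pi.single i 1) = mon w u ^ s * w i ^ j := by
  rw [mon_add' hw, mon_smul, mon_smul, zpow_natCast, zpow_natCast]
  congr 2
  unfold mon
  rw [Finset.prod_eq_single i]
  · rw [Pi.single_eq_same, zpow_one]
  · intro b _ hb
    rw [Pi.single_eq_of_ne hb, zpow_zero]
  · intro h
    exact absurd (Finset.mem_univ i) h

/-- the polynomial with the coefficients `a` -/
private noncomputable def arel1_pol {N : ℕ} (a : Fin N → k) : MvPolynomial (Fin 1) k :=
  ∑ s : Fin N, monomial (Finsupp.single 0 (s : ℕ)) (a s)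

private theorem arel1_coeff {N : ℕ} (a : Fin N → k) (s : Fin N) :
    coeff (Finsupp.single 0 (s : ℕ)) (arel1_pol a) = a s := by
  classical
  unfold arel1_pol
  rw [coeff_sum, Finset.sum_eq_single s]
  · rw [coeff_monomial, if_pos rfl]
  · intro b _ hb
    rw [coeff_monomial, if_neg]
    intro h
    apply hb
    have := DFunLike.congr_fun h 0
    simp only [Finsupp.single_eq_same] at this
    exact Fin.ext this
  · intro h
    exact absurd (Finset.mem_univ s) h

private theorem arel1_degree {N : ℕ} (a : Fin (N + 1) → k) :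
    degreeOf (0 : Fin 1) (arel1_pol a) ≤ N := by
  classical
  unfold arel1_pol
  refine (degreeOf_sum_le 0 _ _).trans (Finset.sup_le fun s _ => ?_)
  rw [degreeOf_le_iff]
  intro m hm
  have := support_monomial_subset hm
  rw [Finset.mem_singleton] at this
  rw [this, Finsupp.single_eq_same]
  exact Nat.lt_succ_iff.1 s.2

private theorem arel1_aeval {N : ℕ} (a : Fin N → k) (t : F) :
    aeval (fun _ => t) (arel1_pol a) = ∑ s : Fin N, a s • t ^ (s : ℕ) := by
  unfold arel1_pol
  rw [map_sum]
  refine Finset.sum_congr rfl fun s _ => ?_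
  rw [aeval_monomial, Algebra.smul_def]
  congr 1
  exact Finsupp.prod_single_index (pow_zero t)

/-- **Relations of small degree on a curve.**

Proof. As `rel_two`: `C` from `finrank_Mn_le` (`dm = 1`), `M = 3 C + 1`, `α = nrm u ≥ 1` (since
`u ∉ Lam`, `u ≠ 0`); the monomials `w^(s u + j e_i)`, `s ≤ M`, `j ≤ M α` are in `Mn k w (2 M α)`
of dimension at most `C (2 M α + 1) ≤ 3 C M α < M^2 α < (M + 1) (M α + 1)`. The polynomial `c_J` is
nonzero and `w^u` is transcendental over `k`. -/
theorem rel_one (w : Fin 5 → F) (hw : ∀ i, w i ≠ 0) (hdim : dm (kr k w) = 1) :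
    ∃ M : ℕ, 1 ≤ M ∧ ∀ u : Fin 5 → ℤ, u ∉ Lam k w → ∀ i : Fin 5,
      ∃ (J : ℕ) (c : Fin (J + 1) → MvPolynomial (Fin 1) k),
        (∀ j, degreeOf 0 (c j) ≤ M) ∧
        aeval (fun _ => mon w u) (c (Fin.last J)) ≠ 0 ∧
        ∑ j, aeval (fun _ => mon w u) (c j) * w i ^ (j : ℕ) = 0 := by
  classical
  obtain ⟨C, hC⟩ := finrank_Mn_le (k := k) w hw
  refine ⟨3 * C + 1, by omega, fun u hu i => ?_⟩
  set M := 3 * C + 1 with hM
  set α := nrm u with hα
  have hα1 : 1 ≤ α := by
    by_contra hcon
    apply hu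
    have h0 : u = 0 := by
      funext l
      have h1 := arel1_nrm u l
      rw [← hα] at h1
      have h2 : α = 0 := by omega
      rw [h2] at h1
      exact abs_nonpos_iff.1 (by exact_mod_cast h1)
    change IsAlgebraic k (mon w u)
    rw [h0, mon_zero]
    exact isAlgebraic_one
  -- the relation
  let f : Fin (M + 1) × Fin (M * α + 1) → F := fun x =>
    mon w (((x.1 : ℕ) : ℤ) • u + ((x.2 : ℕ) : ℤ) • Pi.single i 1)
  have hf : ∀ x, f x ∈ Mn k w (2 * (M * α)) := by
    intro x
    refine mon_mem_Mn w fun l => ?_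
    have h1 := arel1_nrm u l
    rw [← hα] at h1
    have h2 : ((x.1 : ℕ) : ℤ) ≤ M := by exact_mod_cast Nat.lt_succ_iff.1 x.1.2
    have h3 : ((x.2 : ℕ) : ℤ) ≤ M * α := by exact_mod_cast Nat.lt_succ_iff.1 x.2.2
    have h4 : |(Pi.single i 1 : Fin 5 → ℤ) l| ≤ 1 := by
      by_cases h : l = i
      · subst h
        rw [Pi.single_eq_same]
        simp
      · rw [Pi.single_eq_of_ne h]
        simp
    rw [Pi.add_apply, Pi.smul_apply, Pi.smul_apply, smul_eq_mul, smul_eq_mul]
    refine (abs_add_le _ _).trans ?_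
    rw [abs_mul, abs_mul, Nat.abs_cast, Nat.abs_cast]
    have h5 : ((x.1 : ℕ) : ℤ) * |u l| ≤ M * α :=
      mul_le_mul h2 h1 (abs_nonneg _) (by positivity)
    have h6 : ((x.2 : ℕ) : ℤ) * |(Pi.single i 1 : Fin 5 → ℤ) l| ≤ M * α * 1 :=
      mul_le_mul h3 h4 (abs_nonneg _) (by positivity)
    push_cast
    linarith
  have hcard : finrank k (Mn k w (2 * (M * α))) <
      Fintype.card (Fin (M + 1) × Fin (M * α + 1)) := by
    have h1 := hC (2 * (M * α))
    rw [hdim, pow_one] at h1
    rw [Fintype.card_prod, Fintype.card_fin, Fintype.card_fin]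
    have h2 : 1 ≤ M * α := Nat.mul_pos (by omega) hα1
    refine lt_of_le_of_lt h1 ?_
    have h3 : C * (2 * (M * α) + 1) ≤ 3 * C * (M * α) := by nlinarith
    have h4 : 3 * C * (M * α) < (M + 1) * (M * α + 1) := by nlinarith
    exact lt_of_le_of_lt h3 h4
  obtain ⟨c, hc0, hc⟩ := exists_dep w f hf hcard
  -- the coefficients of the powers of `w i`
  let g : ℕ → MvPolynomial (Fin 1) k := fun j =>
    if h : j < M * α + 1 then arel1_pol fun s => c (s, ⟨j, h⟩) else 0
  obtain ⟨x, hx⟩ := Function.ne_iff.1 hc0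
  have hgx : g x.2 ≠ 0 := by
    intro h0
    apply hx
    have h1 : g x.2 = arel1_pol fun s => c (s, x.2) := dif_pos x.2.2
    have h2 := arel1_coeff (fun s => c (s, x.2)) x.1
    rw [← h1, h0, coeff_zero] at h2
    exact h2.symm
  set S := (Finset.range (M * α + 1)).filter fun j => g j ≠ 0 with hS
  have hSne : S.Nonempty := ⟨x.2, Finset.mem_filter.2 ⟨Finset.mem_range.2 x.2.2, hgx⟩⟩
  set J := S.max' hSne with hJ
  have hJS : J ∈ S := Finset.max'_mem _ _
  rw [hS, Finset.mem_filter, Finset.mem_range] at hJS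
  have hzero : ∀ j, J < j → g j = 0 := by
    intro j hj
    by_contra hcon
    by_cases h : j < M * α + 1
    · have h1 : j ∈ S := Finset.mem_filter.2 ⟨Finset.mem_range.2 h, hcon⟩
      exact absurd (Finset.le_max' S j h1) (not_le.2 hj)
    · exact hcon (dif_neg h)
  refine ⟨J, fun j => g j, fun j => ?_, ?_, ?_⟩
  · by_cases h : (j : ℕ) < M * α + 1
    · change degreeOf 0 (g j) ≤ M
      have h1 : g j = arel1_pol fun s => c (s, ⟨j, h⟩) := dif_pos h
      rw [h1]
      exact arel1_degree _
    · change degreeOf 0 (g j) ≤ M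
      have h1 : g j = 0 := dif_neg h
      rw [h1, degreeOf_zero]
      exact Nat.zero_le _
  · change aeval (fun _ => mon w u) (g (Fin.last J : ℕ)) ≠ 0
    rw [Fin.val_last]
    intro h0
    have h1 : AlgebraicIndependent k fun _ : Fin 1 => mon w u :=
      algebraicIndependent_unique_type_iff.2 hu
    exact hJS.2 (algebraicIndependent_iff.1 h1 _ h0)
  · change ∑ j : Fin (J + 1), aeval (fun _ => mon w u) (g j) * w i ^ (j : ℕ) = 0
    rw [Fin.sum_univ_eq_sum_range (fun j => aeval (fun _ => mon w u) (g j) * w i ^ j)]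
    have h1 : ∑ j ∈ Finset.range (J + 1), aeval (fun _ => mon w u) (g j) * w i ^ j =
        ∑ j ∈ Finset.range (M * α + 1), aeval (fun _ => mon w u) (g j) * w i ^ j := by
      refine Finset.sum_subset ?_ ?_
      · intro j hj
        rw [Finset.mem_range] at hj ⊢
        omega
      · intro j _ hj
        rw [Finset.mem_range, not_lt] at hj
        rw [hzero j (by omega), map_zero, zero_mul]
    rw [h1, ← Fin.sum_univ_eq_sum_range (fun j => aeval (fun _ => mon w u) (g j) * w i ^ j),
      ← hc, Fintype.sum_prod_type_right]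
    refine Finset.sum_congr rfl fun j _ => ?_
    have h2 : g j = arel1_pol fun s => c (s, j) := dif_pos j.2
    rw [h2, arel1_aeval, Finset.sum_mul]
    refine Finset.sum_congr rfl fun s _ => ?_
    change c (s, j) • mon w u ^ (s : ℕ) * w i ^ (j : ℕ) = c (s, j) • mon w _
    rw [arel1_mon w hw, smul_mul_assoc]

end Pool.Agent.Srf5
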