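import Pool.Agent.Srf5.ADir
import Pool.Agent.Srf5.ACpt
import Pool.Agent.Srf5.ARank
import Pool.Agent.Srf5.ARoot
import Pool.Agent.Srf5.ARel1
import Pool.Agent.Srf5.ALau

set_option autoImplicit false

/-! Bounded height on a curve, outside finitely many points. -/

namespace Pool.Agent.Srf5

open MvPolynomial Module Height NumberField Pool.Agent.CITLines

private theorem mon_single_one {K : Type} [Field K] (w : Fin 5 → K) (i : Fin 5) :
    mon w (Pi.single i 1) = w i := by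
  unfold mon
  rw [Finset.prod_eq_single i]
  · rw [Pi.single_eq_same, zpow_one]
  · intro b _ hb
    rw [Pi.single_eq_of_ne hb, zpow_zero]
  · intro h
    exact absurd (Finset.mem_univ i) h

private theorem aeval_rel {K : Type} [Field K] [Algebra ℚ K] (w : Fin 5 → K) (u : Fin 5 → ℤ)
    (i : Fin 5) {J : ℕ} (c : Fin (J + 1) → MvPolynomial (Fin 1) ℚ) :
    aeval (fun j => mon w ((![u, Pi.single i 1] : Fin 2 → Fin 5 → ℤ) j))
      (∑ j, rename (fun _ : Fin 1 => (0 : Fin 2)) (c j) * X 1 ^ (j : ℕ)) =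
      ∑ j, aeval (fun _ : Fin 1 => mon w u) (c j) * w i ^ (j : ℕ) := by
  rw [map_sum]
  refine Finset.sum_congr rfl fun j _ => ?_
  rw [map_mul, map_pow, aeval_X, aeval_rename]
  have h1 : mon w ((![u, Pi.single i 1] : Fin 2 → Fin 5 → ℤ) 1) = w i := by
    simpa using mon_single_one w i
  rw [h1]
  rfl

private theorem bound_one {F : Type} [Field F] [CharZero F] (w : Fin 5 → F) (hw : ∀ i, w i ≠ 0)
    {M : ℕ} (u : Fin 5 → ℤ) (i : Fin 5)
    (hM : ∃ (J : ℕ) (c : Fin (J + 1) → MvPolynomial (Fin 1) ℚ),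
        (∀ j, degreeOf 0 (c j) ≤ M) ∧
        aeval (fun _ => mon w u) (c (Fin.last J)) ≠ 0 ∧
        ∑ j, aeval (fun _ => mon w u) (c j) * w i ^ (j : ℕ) = 0) :
    ∃ (C : ℝ) (g : MvPolynomial (Fin 5) ℚ), 0 ≤ C ∧ g ∉ kr ℚ w ∧
      ∀ (K : Type) [Field K] [NumberField K] (P : Fin 5 → K), (∀ i, P i ≠ 0) →
        kr ℚ w ≤ kr ℚ P → aeval P g ≠ 0 →
        logHeight₁ (P i) ≤ M * logHeight₁ (mon P u) + C * finrank ℚ K := by
  obtain ⟨J, c, hdeg, hlast, hrel⟩ := hM
  obtain ⟨C, hC0, hC⟩ := height_root c (fun _ => M) (by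
    intro j k
    have : k = 0 := Subsingleton.elim _ _
    rw [this]
    exact hdeg j)
  obtain ⟨g, L, hg⟩ := laurent (k := ℚ) (ι := Fin 5) (fun _ : Fin 1 => u) (c (Fin.last J))
  refine ⟨C, g, hC0, ?_, ?_⟩
  · rw [mem_kr, hg F w hw]
    exact mul_ne_zero (pow_ne_zero _ (Finset.prod_ne_zero_iff.mpr fun i _ => hw i)) hlast
  · intro K _ _ P hP hle hgP
    rw [hg K P hP] at hgP
    have h1 := right_ne_zero_of_mul hgP
    have h2 : ∑ j, aeval (fun _ : Fin 1 => mon P u) (c j) * P i ^ (j : ℕ) = 0 := by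
      rw [← aeval_rel P u i c]
      refine spec hw hP hle _ _ ?_
      rw [aeval_rel w u i c]
      exact hrel
    have h3 := hC K (fun _ => mon P u) (P i) h2 h1
    simpa using h3

/-- **Bounded height on a curve, outside finitely many points.**

Proof. `M` from `rel_one`, `κ = 1 / (10 M)`. By `exists_small_outside` for `S` and `compact_vecs` (with
`Q u = (u ∉ Lam ℚ w)`, using `hS'`) there is a finite set `T` of vectors `u ∉ Lam ℚ w`, one of which has
`nn α β u < κ`, for every `(α, β)` in the box. For every `u ∈ T` and every `i` take `J, c` from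
`rel_one`, the constant `C_{u,i} ≥ 0` from `height_root` (`m = 1`, `D 0 = M`) and `g_{u,i}` from
`laurent` for the exponent `u` and the polynomial `c (last)`: `g_{u,i} ∉ kr ℚ w`. Let `g` be the product of
all `g_{u,i}`, `C` the sum of the constants. For `P` as in the statement let `H = ∑ h(P_i)`,
`D = finrank`; `rank_two` gives `α, β` in the box with `h (mon P u) ≤ nn α β u * H`; take `u ∈ T`
for them. By `spec` (the polynomial `∑ c_j X_1^j` in two variables, exponents `![u, e_i]`) the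
relation holds at `P`, and `aeval (mon P u) (c last) ≠ 0`, so
`h(P_i) ≤ M h(mon P u) + C D ≤ H / 10 + C D`; sum over `i`: `H ≤ 10 C D`. -/
theorem bdd_curve {F : Type} [Field F] [CharZero F] (w : Fin 5 → F) (hw : ∀ i, w i ≠ 0)
    (hdim : dm (kr ℚ w) = 1) (S : Submodule ℚ (Fin 5 → ℚ)) (hS : finrank ℚ S ≤ 2)
    (hS' : ∀ u : Fin 5 → ℤ, cst u ∈ S ↔ u ∈ Lam ℚ w) :
    ∃ (B : ℝ) (g : MvPolynomial (Fin 5) ℚ), g ∉ kr ℚ w ∧
      ∀ (K : Type) [Field K] [NumberField K] (P : Fin 5 → K), (∀ i, P i ≠ 0) →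
        kr ℚ w ≤ kr ℚ P → LThree.RankLe 2 P → aeval P g ≠ 0 →
        ∑ i, logHeight₁ (P i) ≤ B * finrank ℚ K := by
  obtain ⟨M, hM1, hM⟩ := rel_one (k := ℚ) w hw hdim
  have hMpos : (0 : ℝ) < M := by exact_mod_cast hM1
  have hκpos : (0 : ℝ) < 1 / (10 * M) := by positivity
  obtain ⟨T, hT, hTbox⟩ := compact_vecs (fun u => u ∉ Lam ℚ w) (κ := 1 / (10 * (M : ℝ))) (by
    intro α β
    obtain ⟨b, hb, hb2⟩ := exists_small_outside α β S hS hκpos
    exact ⟨b, fun h => hb ((hS' b).mpr h), hb2⟩)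
  have key : ∀ q : T × Fin 5, ∃ (C : ℝ) (g : MvPolynomial (Fin 5) ℚ), 0 ≤ C ∧ g ∉ kr ℚ w ∧
      ∀ (K : Type) [Field K] [NumberField K] (P : Fin 5 → K), (∀ i, P i ≠ 0) →
        kr ℚ w ≤ kr ℚ P → aeval P g ≠ 0 →
        logHeight₁ (P q.2) ≤ M * logHeight₁ (mon P q.1.1) + C * finrank ℚ K := fun q =>
    bound_one w hw q.1.1 q.2 (hM q.1.1 (hT q.1.1 q.1.2) q.2)
  choose C g hC0 hg hCg using key
  refine ⟨10 * ∑ q, C q, ∏ q, g q, ?_, ?_⟩
  · rw [mem_kr, map_prod]
    exact Finset.prod_ne_zero_iff.mpr fun q _ h => hg q (mem_kr.mpr h)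
  · intro K _ _ P hP hle hrk hgP
    rw [map_prod] at hgP
    have hgq : ∀ q, aeval P (g q) ≠ 0 := fun q =>
      Finset.prod_ne_zero_iff.mp hgP q (Finset.mem_univ q)
    obtain ⟨α, β, hα, hβ, hαβ⟩ := rank_two P hP hrk
    obtain ⟨u, huT, hu⟩ := hTbox α β hα hβ
    set H : ℝ := ∑ i, logHeight₁ (P i) with hH
    have hH0 : 0 ≤ H := Finset.sum_nonneg fun i _ => zero_le_logHeight₁ _
    have hD0 : (0 : ℝ) ≤ finrank ℚ K := Nat.cast_nonneg _
    have h1 : ∀ i : Fin 5, logHeight₁ (P i) ≤ H / 10 + (∑ q, C q) * finrank ℚ K := by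
      intro i
      have h2 := hCg (⟨u, huT⟩, i) K P hP hle (hgq _)
      have h3 : C (⟨u, huT⟩, i) ≤ ∑ q, C q :=
        Finset.single_le_sum (fun q _ => hC0 q) (Finset.mem_univ _)
      have h4 : (M : ℝ) * logHeight₁ (mon P u) ≤ H / 10 := by
        have h5 : logHeight₁ (mon P u) ≤ 1 / (10 * M) * H :=
          (hαβ u).trans (mul_le_mul_of_nonneg_right hu.le hH0)
        calc (M : ℝ) * logHeight₁ (mon P u) ≤ M * (1 / (10 * M) * H) :=
              mul_le_mul_of_nonneg_left h5 hMpos.le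
          _ = H / 10 := by field_simp
      have h6 := mul_le_mul_of_nonneg_right h3 hD0
      have h7 : logHeight₁ (P i) ≤ M * logHeight₁ (mon P u) + C (⟨u, huT⟩, i) * finrank ℚ K := h2
      linarith
    have h8 : H ≤ ∑ _i : Fin 5, (H / 10 + (∑ q, C q) * finrank ℚ K) :=
      Finset.sum_le_sum fun i _ => h1 i
    rw [Finset.sum_const, Finset.card_univ, Fintype.card_fin, nsmul_eq_mul] at h8
    push_cast at h8
    linarith

end Pool.Agent.Srf5
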