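import Pool.Agent.Srf5.Defs

set_option autoImplicit false

/-! Algebraic dependence of monomials is transitive. -/

namespace Pool.Agent.Srf5

open MvPolynomial Module Pool.Agent.CITLines

private theorem adep_indep {k F : Type} [Field k] [Field F] [Algebra k F] {x y : F}
    (h : (AlgebraicIndependent.matroid k F).Indep {x, y}) (hxy : x ≠ y) :
    AlgebraicIndependent k ![x, y] := by
  rw [AlgebraicIndependent.matroid_indep_iff] at h
  have h2 := h.comp (fun i : Fin 2 => (⟨![x, y] i, by fin_cases i <;> simp⟩ : ({x, y} : Set F))) (by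
    intro i j hij
    have hij' : ![x, y] i = ![x, y] j := congrArg Subtype.val hij
    fin_cases i <;> fin_cases j
    · rfl
    · exact absurd hij' hxy
    · exact absurd hij'.symm hxy
    · rfl)
  exact h2

private theorem adep_mem {k F : Type} [Field k] [Field F] [Algebra k F] {x y : F}
    (hy : Transcendental k y)
    (h : ¬ AlgebraicIndependent k ![x, y] ∨ ¬ AlgebraicIndependent k ![y, x]) :
    x ∈ (AlgebraicIndependent.matroid k F).closure {y} := by
  by_contra hx
  have hI : (AlgebraicIndependent.matroid k F).Indep {y} := by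
    rw [AlgebraicIndependent.matroid_indep_iff]
    exact (algebraicIndependent_singleton_iff (⟨y, rfl⟩ : ({y} : Set F))).2 hy
  obtain ⟨h1, h2⟩ := (hI.notMem_closure_iff (by simp)).1 hx
  have h3 : x ≠ y := fun h => h2 (by rw [h]; rfl)
  rcases h with h | h
  · exact h (adep_indep h1 h3)
  · rw [Set.pair_comm] at h1
    exact h (adep_indep h1 h3.symm)

/-- A monomial which is not constant is transcendental. -/
theorem mon_transc {F : Type} [Field F] [CharZero F] (w : Fin 5 → F) (hw : Surf ℚ w)
    (b : Fin 5 → ℤ) (hb : b ≠ 0) : Transcendental ℚ (mon w b) := by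
  intro halg
  have hdep : ∀ a, Dep ℚ w b a := by
    intro a hind
    exact (hind.transcendental 0) halg
  obtain ⟨i, hi⟩ : ∃ i, b i ≠ 0 := by
    by_contra h
    push Not at h
    exact hb (funext h)
  have hthree : ∀ i : Fin 5, ∃ j l : Fin 5, j ≠ i ∧ l ≠ i ∧ j ≠ l := by decide
  obtain ⟨j, l, hji, hli, hjl⟩ := hthree i
  refine hw.fine b (Pi.single j 1) (Pi.single l 1) ?_ (hdep _) (hdep _)
  rw [Fintype.linearIndependent_iff]
  intro g hg
  rw [Fin.sum_univ_three] at hg
  have e1 := congrFun hg i
  have e2 := congrFun hg j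
  have e3 := congrFun hg l
  simp only [Matrix.cons_val_zero, Matrix.cons_val_one, Matrix.cons_val, Pi.add_apply,
    Pi.smul_apply, smul_eq_mul, Pi.zero_apply, Pi.single_apply] at e1 e2 e3
  have g0 : g 0 = 0 := by
    simp only [hji.symm, hli.symm, if_false, mul_zero, add_zero] at e1
    exact (mul_eq_zero.1 e1).resolve_right hi
  have g1 : g 1 = 0 := by
    rw [g0] at e2
    simpa [hjl] using e2
  have g2 : g 2 = 0 := by
    rw [g0, g1] at e3
    simpa using e3
  intro t
  fin_cases t
  · exact g0
  · exact g1
  · exact g2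

/-- Algebraic dependence of monomials is transitive.

Proof. `mon w b` is transcendental over `k` for `b ≠ 0` (`hfine`: otherwise `Dep k w b a` for all `a`, and
three linearly independent vectors `b, a, c` exist). If `mon w a, mon w b` are algebraically dependent
then `mon w a` is algebraic over `k(mon w b)`, the same for `mon w c`, so `mon w a, mon w c` are in a field of transcendence
degree one. In terms of the matroid `AlgebraicIndependent.matroid k F` / `rk` of CITLines: with
`x, y, z` the three monomials, `rk {x, y} ≤ 1` and `rk {y, z} ≤ 1`, `rk {y} = 1`, so `x, z` are in the closure of `{y}`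
and `rk {x, z} ≤ 1`. -/
theorem dep_trans {F : Type} [Field F] [CharZero F] (w : Fin 5 → F) (hw : Surf ℚ w)
    (a b c : Fin 5 → ℤ) (hb : b ≠ 0) (h1 : Dep ℚ w a b) (h2 : Dep ℚ w b c) : Dep ℚ w a c := by
  have hy := mon_transc w hw b hb
  have hx := adep_mem hy (Or.inl h1)
  have hz := adep_mem hy (Or.inr h2)
  intro hind
  have h3 := rk_range_of_indep _ hind
  have h4 : rk ℚ (Set.range ![mon w a, mon w c]) ≤ rk ℚ {mon w b} := by
    unfold rk
    rw [← Matroid.eRk_closure_eq _ {mon w b}]
    refine Matroid.eRk_mono _ ?_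
    rintro _ ⟨i, rfl⟩
    fin_cases i
    · exact hx
    · exact hz
  have h5 : rk ℚ {mon w b} ≤ 1 := (rk_le_encard _).trans (by rw [Set.encard_singleton])
  rw [h3] at h4
  have h6 := h4.trans h5
  simp at h6

end Pool.Agent.Srf5
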