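import Pool.Agent.Srf5.AMn

set_option autoImplicit false

/-! Relations of small degree on a surface, by counting monomials. -/

namespace Pool.Agent.Srf5

open MvPolynomial Module Pool.Agent.CITLines
open LThree (nrm)

variable {k : Type} [Field k] {F : Type} [Field F] [Algebra k F]

/-- the exponent of `X_0^s X_1^t` -/
private noncomputable def ex (s t : ℕ) : Fin 2 →₀ ℕ := Finsupp.equivFunOnFinite.symm ![s, t]

private theorem ex_inj {s t s' t' : ℕ} (h : ex s t = ex s' t') : s = s' ∧ t = t' := by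
  have h0 := DFunLike.congr_fun h 0
  have h1 := DFunLike.congr_fun h 1
  exact ⟨h0, h1⟩

private theorem aeval_ex (x y : F) (s t : ℕ) (c : k) :
    aeval ![x, y] (monomial (ex s t) c) = algebraMap k F c * (x ^ s * y ^ t) := by
  rw [aeval_monomial, Finsupp.prod_fintype _ _ (fun i => pow_zero _), Fin.prod_univ_two]
  rfl

private theorem nrm_pos {a : Fin 5 → ℤ} (h : a ≠ 0) : 1 ≤ nrm a := by
  by_contra hcon
  apply h
  funext i
  have h1 : (a i).natAbs ≤ nrm a := Finset.le_sup (f := fun i => (a i).natAbs) (Finset.mem_univ i)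
  have h2 : (a i).natAbs = 0 := by omega
  exact Int.natAbs_eq_zero.1 h2

private theorem abs_le_nrm (a : Fin 5 → ℤ) (i : Fin 5) : |a i| ≤ (nrm a : ℤ) := by
  have h1 : (a i).natAbs ≤ nrm a := Finset.le_sup (f := fun i => (a i).natAbs) (Finset.mem_univ i)
  rw [Int.abs_eq_natAbs]
  exact_mod_cast h1

private theorem supp_sum {κ : Type} [Fintype κ] (e : κ → Fin 2 →₀ ℕ) (c : κ → k)
    {m : Fin 2 →₀ ℕ} (hm : m ∈ (∑ p, monomial (e p) (c p)).support) : ∃ p, m = e p := by
  classical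
  by_contra h
  push Not at h
  rw [MvPolynomial.mem_support_iff, coeff_sum] at hm
  exact hm (Finset.sum_eq_zero fun p _ => by rw [coeff_monomial, if_neg fun h' => h p h'.symm])

/-- The polynomials in two variables given by a linear relation between products of powers. -/
private theorem extract (x y u : F)
    (hind : ∀ g : MvPolynomial (Fin 2) k, g ≠ 0 → aeval ![x, y] g ≠ 0) {S T L : ℕ}
    (c : Fin (S + 1) × Fin (T + 1) × Fin (L + 1) → k) (hc0 : c ≠ 0)
    (hc : ∑ z, c z • (x ^ (z.1 : ℕ) * y ^ (z.2.1 : ℕ) * u ^ (z.2.2 : ℕ)) = 0) :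
    ∃ (J : ℕ) (d : Fin (J + 1) → MvPolynomial (Fin 2) k),
      (∀ j, degreeOf 0 (d j) ≤ S ∧ degreeOf 1 (d j) ≤ T) ∧
      aeval ![x, y] (d (Fin.last J)) ≠ 0 ∧ ∑ j, aeval ![x, y] (d j) * u ^ (j : ℕ) = 0 := by
  classical
  let D : Fin (L + 1) → MvPolynomial (Fin 2) k := fun j =>
    ∑ p : Fin (S + 1) × Fin (T + 1), monomial (ex (p.1 : ℕ) (p.2 : ℕ)) (c (p.1, p.2, j))
  have hD : ∀ j, D j =
      ∑ p : Fin (S + 1) × Fin (T + 1), monomial (ex (p.1 : ℕ) (p.2 : ℕ)) (c (p.1, p.2, j)) :=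
    fun j => rfl
  have hcoeff : ∀ (p : Fin (S + 1) × Fin (T + 1)) (j : Fin (L + 1)),
      coeff (ex (p.1 : ℕ) (p.2 : ℕ)) (D j) = c (p.1, p.2, j) := by
    intro p j
    rw [hD, coeff_sum, Finset.sum_eq_single p]
    · rw [coeff_monomial, if_pos rfl]
    · intro q _ hq
      rw [coeff_monomial, if_neg]
      intro h
      have h1 := ex_inj h
      exact hq (Prod.ext (Fin.ext h1.1) (Fin.ext h1.2))
    · intro h
      exact absurd (Finset.mem_univ p) h
  have hdeg : ∀ j, degreeOf 0 (D j) ≤ S ∧ degreeOf 1 (D j) ≤ T := by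
    intro j
    have key : ∀ m ∈ (D j).support, m 0 ≤ S ∧ m 1 ≤ T := by
      intro m hm
      rw [hD] at hm
      obtain ⟨p, rfl⟩ := supp_sum _ _ hm
      exact ⟨Nat.lt_succ_iff.1 p.1.2, Nat.lt_succ_iff.1 p.2.2⟩
    exact ⟨degreeOf_le_iff.2 fun m hm => (key m hm).1, degreeOf_le_iff.2 fun m hm => (key m hm).2⟩
  have hne : ∃ j, D j ≠ 0 := by
    by_contra hcon
    push Not at hcon
    apply hc0
    funext z
    have h1 := hcoeff (z.1, z.2.1) z.2.2
    rw [hcon, coeff_zero] at h1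
    exact h1.symm
  have hsum : ∑ j, aeval ![x, y] (D j) * u ^ (j : ℕ) = 0 := by
    rw [← hc, Fintype.sum_prod_type]
    simp only [Fintype.sum_prod_type, hD, map_sum, aeval_ex, Finset.sum_mul]
    rw [Finset.sum_comm]
    refine Finset.sum_congr rfl fun a _ => ?_
    rw [Finset.sum_comm]
    refine Finset.sum_congr rfl fun b _ => Finset.sum_congr rfl fun j _ => ?_
    rw [Algebra.smul_def]
    ring
  let d : ℕ → MvPolynomial (Fin 2) k := fun j => if h : j < L + 1 then D ⟨j, h⟩ else 0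
  have hdD : ∀ j : Fin (L + 1), d j = D j := fun j => dif_pos j.2
  have hsum' : ∑ j ∈ Finset.range (L + 1), aeval ![x, y] (d j) * u ^ j = 0 := by
    rw [← Fin.sum_univ_eq_sum_range (fun j => aeval ![x, y] (d j) * u ^ j), ← hsum]
    exact Finset.sum_congr rfl fun j _ => by rw [hdD]
  obtain ⟨j₀, hj₀⟩ := hne
  set J := Nat.findGreatest (fun j => d j ≠ 0) L with hJ
  have hJL : J ≤ L := Nat.findGreatest_le L
  have hJ0 : d J ≠ 0 := Nat.findGreatest_spec (P := fun j => d j ≠ 0)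
    (Nat.lt_succ_iff.1 j₀.2) (by rw [hdD]; exact hj₀)
  have hJ1 : ∀ j, J < j → j ≤ L → d j = 0 := by
    intro j h1 h2
    by_contra h3
    exact Nat.findGreatest_is_greatest (P := fun j => d j ≠ 0) h1 h2 h3
  have hdj : ∀ j : ℕ, degreeOf 0 (d j) ≤ S ∧ degreeOf 1 (d j) ≤ T := by
    intro j
    by_cases h : j < L + 1
    · have h1 : d j = D ⟨j, h⟩ := dif_pos h
      rw [h1]
      exact hdeg _
    · have h1 : d j = 0 := dif_neg h
      rw [h1, degreeOf_zero, degreeOf_zero]
      exact ⟨Nat.zero_le _, Nat.zero_le _⟩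
  refine ⟨J, fun j => d j, fun j => hdj j, hind _ hJ0, ?_⟩
  rw [Fin.sum_univ_eq_sum_range (fun j => aeval ![x, y] (d j) * u ^ j), ← hsum']
  refine Finset.sum_subset ?_ ?_
  · intro j hj
    rw [Finset.mem_range] at hj ⊢
    omega
  · intro j hj hj'
    rw [Finset.mem_range] at hj hj'
    rw [hJ1 j (by omega) (by omega), map_zero, zero_mul]

/-- **Relations of small degree on a surface.** The coordinate `w_i` is a root of a polynomial whose
coefficients are polynomials in `w^a`, `w^b` of degrees at most `M |b|`, `M |a|`.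

Proof. Let `C` be the constant of `finrank_Mn_le` (with `dm = 2`) and `M = 16 C + 1`. Let `α = nrm
a`,
`β = nrm b`; both are `≥ 1` because `w^0 = 1` is algebraic (`Dep`). For `s ≤ M β`, `t ≤ M α`,
`j ≤ M α β` the monomials `w^(s a + t b + j e_i)` are in `Mn k w (3 M α β)`, which has dimension at
most `C (3 M α β + 1)^2 ≤ 16 C M^2 α^2 β^2 < M^3 α^2 β^2 < (M β + 1) (M α + 1) (M α β + 1)`. So the
family
of these monomials (indexed by `Fin (M β + 1) × Fin (M α + 1) × Fin (M α β + 1)`) is linearly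
dependent over `k`
(`exists_dep`):
`∑ c(s,t,j) (w^a)^s (w^b)^t w_i^j = 0` with `c ≠ 0`. Let `c_j = ∑ c(s,t,j) X_0^s X_1^t ∈ k[X_0,
X_1]`
and let `J` be the largest `j` with `c_j ≠ 0`. By the algebraic independence of `w^a, w^b`,
`aeval ![w^a, w^b] (c_J) ≠ 0`. -/
theorem rel_two (w : Fin 5 → F) (hw : ∀ i, w i ≠ 0) (hdim : dm (kr k w) = 2) :
    ∃ M : ℕ, 1 ≤ M ∧ ∀ a b : Fin 5 → ℤ, ¬ Dep k w a b → ∀ i : Fin 5,
      ∃ (J : ℕ) (c : Fin (J + 1) → MvPolynomial (Fin 2) k),
        (∀ j, degreeOf 0 (c j) ≤ M * nrm b ∧ degreeOf 1 (c j) ≤ M * nrm a) ∧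
        aeval (fun r => mon w (![a, b] r)) (c (Fin.last J)) ≠ 0 ∧
        ∑ j, aeval (fun r => mon w (![a, b] r)) (c j) * w i ^ (j : ℕ) = 0 := by
  obtain ⟨C, hC⟩ := finrank_Mn_le (k := k) w hw
  rw [hdim] at hC
  refine ⟨16 * C + 1, by omega, fun a b hab i => ?_⟩
  set M : ℕ := 16 * C + 1 with hM
  have hind : AlgebraicIndependent k ![mon w a, mon w b] := by
    by_contra hcon
    exact hab hcon
  have hone : ¬ Transcendental k (1 : F) := by
    intro h
    exact h isAlgebraic_one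
  have ha0 : a ≠ 0 := by
    rintro rfl
    have h1 := hind.transcendental 0
    rw [Matrix.cons_val_zero, mon_zero] at h1
    exact hone h1
  have hb0 : b ≠ 0 := by
    rintro rfl
    have h1 := hind.transcendental 1
    rw [Matrix.cons_val_one, Matrix.cons_val_fin_one, mon_zero] at h1
    exact hone h1
  have hα := nrm_pos ha0
  have hβ := nrm_pos hb0
  have hla := abs_le_nrm a
  have hlb := abs_le_nrm b
  generalize nrm a = α at hα hla ⊢
  generalize nrm b = β at hβ hlb ⊢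
  let f : Fin (M * β + 1) × Fin (M * α + 1) × Fin (M * α * β + 1) → F := fun x =>
    mon w (((x.1 : ℕ) : ℤ) • a + ((x.2.1 : ℕ) : ℤ) • b + ((x.2.2 : ℕ) : ℤ) • Pi.single i 1)
  have hf : ∀ x, f x ∈ Mn k w (3 * (M * α * β)) := by
    intro x
    refine mon_mem_Mn w fun l => ?_
    have h1 : ((x.1 : ℕ) : ℤ) ≤ (M : ℤ) * β := by
      have := x.1.2
      exact_mod_cast Nat.lt_succ_iff.1 this
    have h2 : ((x.2.1 : ℕ) : ℤ) ≤ (M : ℤ) * α := by
      have := x.2.1.2
      exact_mod_cast Nat.lt_succ_iff.1 this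
    have h3 : ((x.2.2 : ℕ) : ℤ) ≤ (M : ℤ) * α * β := by
      have := x.2.2.2
      exact_mod_cast Nat.lt_succ_iff.1 this
    have h6 : |(Pi.single i 1 : Fin 5 → ℤ) l| ≤ 1 := by
      rw [Pi.single_apply]
      split_ifs <;> simp
    have e1 : |((x.1 : ℕ) : ℤ) * a l| ≤ (M : ℤ) * α * β := by
      rw [abs_mul, Nat.abs_cast]
      calc ((x.1 : ℕ) : ℤ) * |a l| ≤ (M : ℤ) * β * α :=
            mul_le_mul h1 (hla l) (abs_nonneg _) (by positivity)
        _ = (M : ℤ) * α * β := by ring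
    have e2 : |((x.2.1 : ℕ) : ℤ) * b l| ≤ (M : ℤ) * α * β := by
      rw [abs_mul, Nat.abs_cast]
      exact mul_le_mul h2 (hlb l) (abs_nonneg _) (by positivity)
    have e3 : |((x.2.2 : ℕ) : ℤ) * (Pi.single i 1 : Fin 5 → ℤ) l| ≤ (M : ℤ) * α * β := by
      rw [abs_mul, Nat.abs_cast]
      calc ((x.2.2 : ℕ) : ℤ) * |(Pi.single i 1 : Fin 5 → ℤ) l| ≤ (M : ℤ) * α * β * 1 :=
            mul_le_mul h3 h6 (abs_nonneg _) (by positivity)
        _ = (M : ℤ) * α * β := mul_one _
    simp only [Pi.add_apply, Pi.smul_apply, smul_eq_mul]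
    refine (abs_add_three _ _ _).trans ?_
    push_cast
    linarith
  have hcard : finrank k (Mn k w (3 * (M * α * β))) <
      Fintype.card (Fin (M * β + 1) × Fin (M * α + 1) × Fin (M * α * β + 1)) := by
    rw [Fintype.card_prod, Fintype.card_prod, Fintype.card_fin, Fintype.card_fin, Fintype.card_fin]
    refine (hC _).trans_lt ?_
    have hP : 1 ≤ M * α * β := Nat.mul_pos (Nat.mul_pos (by omega) hα) hβ
    calc C * (3 * (M * α * β) + 1) ^ 2 ≤ C * (4 * (M * α * β)) ^ 2 :=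
          Nat.mul_le_mul_left _ (Nat.pow_le_pow_left (by omega) 2)
      _ = 16 * C * (M * α * β) ^ 2 := by ring
      _ ≤ M * (M * α * β) ^ 2 := Nat.mul_le_mul_right _ (by omega)
      _ = (M * β) * ((M * α) * (M * α * β)) := by ring
      _ < (M * β + 1) * ((M * α + 1) * (M * α * β + 1)) := by
          refine Nat.mul_lt_mul_of_lt_of_le (Nat.lt_succ_self _) ?_ (by positivity)
          exact Nat.mul_le_mul (Nat.le_succ _) (Nat.le_succ _)
  obtain ⟨c, hc0, hc⟩ := exists_dep w f hf hcard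
  have hfx : ∀ x, f x = mon w a ^ (x.1 : ℕ) * mon w b ^ (x.2.1 : ℕ) * w i ^ (x.2.2 : ℕ) := by
    intro x
    have h1 : mon w (Pi.single i 1 : Fin 5 → ℤ) = w i := by
      unfold mon
      rw [Finset.prod_eq_single i]
      · rw [Pi.single_eq_same, zpow_one]
      · intro j _ hj
        rw [Pi.single_eq_of_ne hj, zpow_zero]
      · intro h
        exact absurd (Finset.mem_univ i) h
    change mon w _ = _
    rw [mon_add' hw, mon_add' hw, mon_smul, mon_smul, mon_smul, h1, zpow_natCast, zpow_natCast,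
      zpow_natCast]
  have hv : (fun r : Fin 2 => mon w (![a, b] r)) = ![mon w a, mon w b] := by
    funext r
    fin_cases r <;> rfl
  rw [hv]
  refine extract (k := k) (mon w a) (mon w b) (w i) (fun g hg h0 => hg ?_) c hc0 ?_
  · exact (map_eq_zero_iff _ hind).1 h0
  · rw [← hc]
    exact Finset.sum_congr rfl fun x _ => by rw [hfx]

end Pool.Agent.Srf5
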