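import Pool.Agent.Srf5.AGeo
import Pool.Agent.Srf5.ACpt
import Pool.Agent.Srf5.ARank
import Pool.Agent.Srf5.ARoot
import Pool.Agent.Srf5.ARel2
import Pool.Agent.Srf5.ALau
import Pool.Agent.Srf5.ADep

set_option autoImplicit false

/-! Bounded height on the surface, outside a curve. -/

namespace Pool.Agent.Srf5

open MvPolynomial Module Height NumberField Pool.Agent.CITLines
open LThree (nrm)

private theorem mon_single_one {K : Type} [Field K] (w : Fin 5 → K) (i : Fin 5) :
    mon w (Pi.single i 1) = w i := by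
  unfold mon
  rw [Finset.prod_eq_single i]
  · rw [Pi.single_eq_same, zpow_one]
  · intro j _ hj
    rw [Pi.single_eq_of_ne hj, zpow_zero]
  · intro h
    exact absurd (Finset.mem_univ i) h

/-- the relation of `rel_two` as a polynomial in three variables -/
private theorem aeval_three {K : Type} [Field K] [Algebra ℚ K] (w : Fin 5 → K)
    (a b : Fin 5 → ℤ) (i : Fin 5) {J : ℕ} (c : Fin (J + 1) → MvPolynomial (Fin 2) ℚ) :
    aeval (fun r => mon w ((![a, b, Pi.single i 1] : Fin 3 → Fin 5 → ℤ) r))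
      (∑ j, rename Fin.castSucc (c j) * X (Fin.last 2) ^ (j : ℕ) : MvPolynomial (Fin 3) ℚ) =
    ∑ j, aeval (fun r => mon w ((![a, b] : Fin 2 → Fin 5 → ℤ) r)) (c j) * w i ^ (j : ℕ) := by
  rw [map_sum]
  refine Finset.sum_congr rfl fun j _ => ?_
  rw [map_mul, map_pow, aeval_X, aeval_rename]
  congr 1
  · congr 2
    funext r
    fin_cases r <;> rfl
  · congr 1
    exact mon_single_one w i

/-- One pair of exponents and one coordinate. -/
private theorem bdd_pair {F : Type} [Field F] [CharZero F] (w : Fin 5 → F)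
    (hw : ∀ i, w i ≠ 0) {M : ℕ} (hM : ∀ a b : Fin 5 → ℤ, ¬ Dep ℚ w a b → ∀ i : Fin 5,
      ∃ (J : ℕ) (c : Fin (J + 1) → MvPolynomial (Fin 2) ℚ),
        (∀ j, degreeOf 0 (c j) ≤ M * nrm b ∧ degreeOf 1 (c j) ≤ M * nrm a) ∧
        aeval (fun r => mon w (![a, b] r)) (c (Fin.last J)) ≠ 0 ∧
        ∑ j, aeval (fun r => mon w (![a, b] r)) (c j) * w i ^ (j : ℕ) = 0)
    (a b : Fin 5 → ℤ) (i : Fin 5) :
    ∃ (C : ℝ) (g : MvPolynomial (Fin 5) ℚ), 0 ≤ C ∧ g ∉ kr ℚ w ∧ (¬ Dep ℚ w a b →
      ∀ (K : Type) [Field K] [NumberField K] (P : Fin 5 → K), (∀ i, P i ≠ 0) →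
        kr ℚ w ≤ kr ℚ P → aeval P g ≠ 0 → logHeight₁ (P i) ≤
          (M * nrm b : ℝ) * logHeight₁ (mon P a) + (M * nrm a : ℝ) * logHeight₁ (mon P b) +
            C * finrank ℚ K) := by
  by_cases hab : Dep ℚ w a b
  · refine ⟨0, 1, le_refl _, ?_, fun h => absurd hab h⟩
    rw [mem_kr, map_one]
    exact one_ne_zero
  · obtain ⟨J, c, hdeg, hlast, hrel⟩ := hM a b hab i
    obtain ⟨C, hC0, hC⟩ := height_root c ![M * nrm b, M * nrm a] (by
      intro j r
      fin_cases r
      · exact (hdeg j).1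
      · exact (hdeg j).2)
    obtain ⟨g, L, hg⟩ := laurent (![a, b] : Fin 2 → Fin 5 → ℤ) (c (Fin.last J))
    refine ⟨C, g, hC0, ?_, fun _ K _ _ P hP hker hgP => ?_⟩
    · rw [mem_kr, hg F w hw]
      exact mul_ne_zero (pow_ne_zero _ (Finset.prod_ne_zero_iff.mpr fun i _ => hw i)) hlast
    · rw [hg K P hP] at hgP
      have h1 : aeval (fun j => mon P ((![a, b] : Fin 2 → Fin 5 → ℤ) j)) (c (Fin.last J)) ≠ 0 :=
        right_ne_zero_of_mul hgP
      have h2 := spec hw hP hker (![a, b, Pi.single i 1] : Fin 3 → Fin 5 → ℤ)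
        (∑ j, rename Fin.castSucc (c j) * X (Fin.last 2) ^ (j : ℕ)) (by
          rw [aeval_three]
          exact hrel)
      rw [aeval_three] at h2
      have h3 := hC K (fun j => mon P ((![a, b] : Fin 2 → Fin 5 → ℤ) j)) (P i) h2 h1
      rw [Fin.sum_univ_two] at h3
      have e0 : (((![M * nrm b, M * nrm a] : Fin 2 → ℕ) 0 : ℕ) : ℝ) = M * nrm b := by
        change ((M * nrm b : ℕ) : ℝ) = _
        push_cast
        rfl
      have e1 : (((![M * nrm b, M * nrm a] : Fin 2 → ℕ) 1 : ℕ) : ℝ) = M * nrm a := by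
        change ((M * nrm a : ℕ) : ℝ) = _
        push_cast
        rfl
      rw [e0, e1] at h3
      exact h3

/-- **Bounded height on the surface, outside a curve.**

Proof. `M` from `rel_two`, `κ = 1 / (10 M)`. By `geo` (for `R = Dep ℚ w`, with `dep_trans`; `hfine` is
`hw.fine`) and `compact_pairs` there is a finite set `S` of pairs `(a, b)` with `¬ Dep ℚ w a b`, one
of which has `|b| nn a + |a| nn b < κ`, for every `(α, β)` in the box. For every `(a, b) ∈ S` and every `i` take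
`J, c` from `rel_two`, the constant `C_{a,b,i} ≥ 0` from `height_root` (with `D 0 = M |b|`,
`D 1 = M |a|`) and `g_{a,b,i}` from `laurent` for the exponents `![a, b]` and the polynomial
`c (last)`: `g_{a,b,i} ∉ kr ℚ w`. Let `g` be the product of all the `g_{a,b,i}` (a prime ideal does
not contain it), `C` the sum of the constants. Let `P` be a point as in the statement,
`H = ∑ h(P_i)`, `D = finrank`. By `rank_two` there are `α, β` in the box with
`h (mon P u) ≤ nn α β u * H`; take `(a, b) ∈ S` for them. By `spec` (applied to the polynomial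
`∑ c_j X_2^j` in three variables and the exponents `![a, b, e_i]`) the relation of `rel_two` holds at
`P`, and `aeval (mon P a, mon P b) (c last) ≠ 0` because `g_{a,b,i}(P) ≠ 0`. So `height_root` gives
`h(P_i) ≤ M |b| h(mon P a) + M |a| h(mon P b) + C D ≤ M κ H + C D = H / 10 + C D` for all `i`; the sum over
the five `i` gives `H ≤ H / 2 + 5 C D`, so `H ≤ 10 C D`. -/
theorem bdd_surf {F : Type} [Field F] [CharZero F] (w : Fin 5 → F) (hw : Surf ℚ w) :
    ∃ (B : ℝ) (g : MvPolynomial (Fin 5) ℚ), g ∉ kr ℚ w ∧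
      ∀ (K : Type) [Field K] [NumberField K] (P : Fin 5 → K), (∀ i, P i ≠ 0) →
        kr ℚ w ≤ kr ℚ P → LThree.RankLe 2 P → aeval P g ≠ 0 →
        ∑ i, logHeight₁ (P i) ≤ B * finrank ℚ K := by
  obtain ⟨M, hM1, hM⟩ := rel_two w hw.ne hw.dim
  have hM0 : (0 : ℝ) < M := by exact_mod_cast hM1
  have hκ : (0 : ℝ) < 1 / (10 * M) := by positivity
  obtain ⟨S, hS, hcov⟩ := compact_pairs (Dep ℚ w)
    (fun α β => geo (R := Dep ℚ w) (dep_trans w hw) hw.fine α β hκ)
  choose C g hC hg hb using bdd_pair w hw.ne hM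
  set Ct : ℝ := ∑ s ∈ S, ∑ i, C s.1 s.2 i with hCt
  refine ⟨10 * Ct, ∏ s ∈ S, ∏ i, g s.1 s.2 i, ?_, ?_⟩
  · rw [mem_kr, map_prod]
    refine Finset.prod_ne_zero_iff.mpr fun s _ => ?_
    rw [map_prod]
    refine Finset.prod_ne_zero_iff.mpr fun i _ => ?_
    have := hg s.1 s.2 i
    rwa [mem_kr] at this
  · intro K _ _ P hP hker hrank hgP
    obtain ⟨α, β, hα, hβ, hu⟩ := rank_two P hP hrank
    obtain ⟨s, hs, hlt⟩ := hcov α β hα hβ
    set H : ℝ := ∑ i, logHeight₁ (P i) with hH
    have hH0 : 0 ≤ H := Finset.sum_nonneg fun i _ => zero_le_logHeight₁ _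
    have hD0 : (0 : ℝ) ≤ finrank ℚ K := Nat.cast_nonneg _
    have hCle : ∀ i, C s.1 s.2 i ≤ Ct := by
      intro i
      calc C s.1 s.2 i ≤ ∑ i, C s.1 s.2 i :=
            Finset.single_le_sum (f := fun i => C s.1 s.2 i) (fun i _ => hC _ _ _)
              (Finset.mem_univ i)
        _ ≤ Ct := Finset.single_le_sum (f := fun s => ∑ i, C s.1 s.2 i)
              (fun s _ => Finset.sum_nonneg fun i _ => hC _ _ _) hs
    have hgi : ∀ i, aeval P (g s.1 s.2 i) ≠ 0 := by
      intro i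
      rw [map_prod] at hgP
      have h1 := Finset.prod_ne_zero_iff.mp hgP s hs
      rw [map_prod] at h1
      exact Finset.prod_ne_zero_iff.mp h1 i (Finset.mem_univ i)
    have hPi : ∀ i, logHeight₁ (P i) ≤ H / 10 + Ct * finrank ℚ K := by
      intro i
      have h1 := hb s.1 s.2 i (hS s hs) K P hP hker (hgi i)
      have h2 := hu s.1
      have h3 := hu s.2
      have h4 : (M * nrm s.2 : ℝ) * logHeight₁ (mon P s.1) ≤
          (M * nrm s.2 : ℝ) * (nn α β s.1 * H) :=
        mul_le_mul_of_nonneg_left h2 (by positivity)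
      have h5 : (M * nrm s.1 : ℝ) * logHeight₁ (mon P s.2) ≤
          (M * nrm s.1 : ℝ) * (nn α β s.2 * H) :=
        mul_le_mul_of_nonneg_left h3 (by positivity)
      have h6 : (M : ℝ) * ((nrm s.2 : ℝ) * nn α β s.1 + nrm s.1 * nn α β s.2) * H ≤
          M * (1 / (10 * M)) * H :=
        mul_le_mul_of_nonneg_right (mul_le_mul_of_nonneg_left hlt.le hM0.le) hH0
      have h7 : (M : ℝ) * (1 / (10 * M)) * H = H / 10 := by
        field_simp
      have h8 : C s.1 s.2 i * finrank ℚ K ≤ Ct * finrank ℚ K :=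
        mul_le_mul_of_nonneg_right (hCle i) hD0
      nlinarith
    have hsum : H ≤ ∑ _i : Fin 5, (H / 10 + Ct * finrank ℚ K) :=
      Finset.sum_le_sum fun i _ => hPi i
    rw [Finset.sum_const, Finset.card_univ, Fintype.card_fin, nsmul_eq_mul] at hsum
    push_cast at hsum
    linarith

end Pool.Agent.Srf5
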