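import Pool.Agent.Srf5.AGDefs

set_option autoImplicit false

/-! The pigeonhole principle for vectors of small weight. -/

namespace Pool.Agent.Srf5

open LThree (nrm)

/-- There are integer vectors of norm at most `X` with `(X + 1) * nn` small.

Proof. Let `A = 1 + ∑ (|α_i| + |β_i|)`, let `k` be a natural number with `4 A < k κ`, and
`X0 = (k + 1)^2`. Let `X ≥ X0` and `m = k (X + 1)^2`. The `(X + 1)^5` integer vectors `u ∈ [0, X]^5`
have `α·u, β·u ∈ [-A X, A X]`; attach to `u` the two numbers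
`floor ((α·u + A X) m / (2 A X))`, `floor ((β·u + A X) m / (2 A X))` in `{0, ..., m}`. There are
`(m + 1)^2 ≤ (k + 1)^2 (X + 1)^4 < (X + 1)^5` possible pairs (as `(k+1)^2 ≤ X < X + 1`), so two
different vectors `u, u'` have the same pair (`Finset.exists_ne_map_eq_of_card_lt_of_maps_to`), and
for `a = u - u' ≠ 0` we have `nrm a ≤ X`, `|α·a| ≤ 2 A X / m`, `|β·a| ≤ 2 A X / m`, so
`(X + 1) * nn α β a ≤ 4 A (X + 1)^2 / m = 4 A / k < κ`. -/
theorem exists_box (α β : Fin 5 → ℝ) {κ : ℝ} (hκ : 0 < κ) : ∃ X0 : ℕ, 1 ≤ X0 ∧ ∀ X : ℕ, X0 ≤ X →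
    ∃ a : Fin 5 → ℤ, a ≠ 0 ∧ nrm a ≤ X ∧ ((X : ℝ) + 1) * nn α β a < κ := by
  set A : ℝ := 1 + ∑ i, (|α i| + |β i|) with hA
  have hAα : ∑ i, |α i| ≤ A := by
    rw [hA, Finset.sum_add_distrib]
    have : 0 ≤ ∑ i, |β i| := Finset.sum_nonneg fun i _ => abs_nonneg _
    linarith
  have hAβ : ∑ i, |β i| ≤ A := by
    rw [hA, Finset.sum_add_distrib]
    have : 0 ≤ ∑ i, |α i| := Finset.sum_nonneg fun i _ => abs_nonneg _
    linarith
  have hA1 : 1 ≤ A := by
    have : 0 ≤ ∑ i, (|α i| + |β i|) :=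
      Finset.sum_nonneg fun i _ => add_nonneg (abs_nonneg _) (abs_nonneg _)
    linarith
  obtain ⟨k, hk⟩ := exists_nat_gt (4 * A / κ)
  have hk' : 4 * A < k * κ := by rwa [div_lt_iff₀ hκ] at hk
  have hk0 : 0 < k := by
    rcases Nat.eq_zero_or_pos k with h | h
    · rw [h, Nat.cast_zero, zero_mul] at hk'
      linarith
    · exact h
  have hkR : (0 : ℝ) < k := by exact_mod_cast hk0
  refine ⟨(k + 1) ^ 2, Nat.one_le_pow _ _ (by omega), fun X hX => ?_⟩
  have hX1 : 1 ≤ X := (Nat.one_le_pow _ _ (by omega)).trans hX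
  have hXR : (1 : ℝ) ≤ X := by exact_mod_cast hX1
  set m : ℕ := k * (X + 1) ^ 2 with hm
  have hm0 : 0 < m := by positivity
  have hmR : (0 : ℝ) < m := by exact_mod_cast hm0
  have hAX : 0 < 2 * A * X := by positivity
  -- the two numbers
  have hrange : ∀ (γ : Fin 5 → ℝ), ∑ i, |γ i| ≤ A → ∀ u : Fin 5 → Fin (X + 1),
      0 ≤ (∑ i, γ i * ((u i : ℕ) : ℝ) + A * X) * m / (2 * A * X) ∧
        (∑ i, γ i * ((u i : ℕ) : ℝ) + A * X) * m / (2 * A * X) ≤ m := by
    intro γ hγ u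
    have h1 : |∑ i, γ i * ((u i : ℕ) : ℝ)| ≤ A * X := by
      refine (Finset.abs_sum_le_sum_abs _ _).trans ?_
      refine le_trans (Finset.sum_le_sum (g := fun i => |γ i| * X) fun i _ => ?_) ?_
      · rw [abs_mul, Nat.abs_cast]
        refine mul_le_mul_of_nonneg_left ?_ (abs_nonneg _)
        have : (u i : ℕ) ≤ X := Nat.lt_succ_iff.1 (u i).2
        exact_mod_cast this
      · rw [← Finset.sum_mul]
        exact mul_le_mul_of_nonneg_right hγ (by linarith)
    rw [abs_le] at h1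
    constructor
    · apply div_nonneg _ hAX.le
      exact mul_nonneg (by linarith) hmR.le
    · rw [div_le_iff₀ hAX, mul_comm (m : ℝ)]
      exact mul_le_mul_of_nonneg_right (by linarith) hmR.le
  let fl : (Fin 5 → ℝ) → (Fin 5 → Fin (X + 1)) → ℕ := fun γ u =>
    ⌊(∑ i, γ i * ((u i : ℕ) : ℝ) + A * X) * m / (2 * A * X)⌋₊
  have hfl : ∀ (γ : Fin 5 → ℝ), ∑ i, |γ i| ≤ A → ∀ u, fl γ u ∈ Finset.range (m + 1) := by
    intro γ hγ u
    rw [Finset.mem_range, Nat.lt_succ_iff]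
    exact Nat.floor_le_of_le (hrange γ hγ u).2
  have hclose : ∀ (γ : Fin 5 → ℝ), ∑ i, |γ i| ≤ A → ∀ u u' : Fin 5 → Fin (X + 1),
      fl γ u = fl γ u' →
      |∑ i, γ i * ((((u i : ℕ) : ℤ) - ((u' i : ℕ) : ℤ) : ℤ) : ℝ)| < 2 * A * X / m := by
    intro γ hγ u u' h
    have h1 := Nat.floor_le (hrange γ hγ u).1
    have h2 := Nat.floor_le (hrange γ hγ u').1
    have h3 := Nat.lt_floor_add_one ((∑ i, γ i * ((u i : ℕ) : ℝ) + A * X) * m / (2 * A * X))
    have h4 := Nat.lt_floor_add_one ((∑ i, γ i * ((u' i : ℕ) : ℝ) + A * X) * m / (2 * A * X))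
    have h5 : (⌊(∑ i, γ i * ((u i : ℕ) : ℝ) + A * X) * m / (2 * A * X)⌋₊ : ℝ) =
        ⌊(∑ i, γ i * ((u' i : ℕ) : ℝ) + A * X) * m / (2 * A * X)⌋₊ := by
      exact_mod_cast h
    rw [h5] at h1 h3
    have e : ∑ i, γ i * ((((u i : ℕ) : ℤ) - ((u' i : ℕ) : ℤ) : ℤ) : ℝ) =
        (∑ i, γ i * ((u i : ℕ) : ℝ) + A * X) - (∑ i, γ i * ((u' i : ℕ) : ℝ) + A * X) := by
      rw [add_sub_add_right_eq_sub, ← Finset.sum_sub_distrib]
      refine Finset.sum_congr rfl fun i _ => ?_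
      push_cast
      ring
    set S := ∑ i, γ i * ((u i : ℕ) : ℝ) + A * X
    set S' := ∑ i, γ i * ((u' i : ℕ) : ℝ) + A * X
    have h6 : |S * m / (2 * A * X) - S' * m / (2 * A * X)| < 1 := by
      rw [abs_lt]
      constructor <;> linarith
    have h7 : S * m / (2 * A * X) - S' * m / (2 * A * X) = (S - S') * (m / (2 * A * X)) := by
      ring
    rw [h7, abs_mul, abs_of_pos (div_pos hmR hAX)] at h6
    rw [e, lt_div_iff₀ hmR]
    have h8 : |S - S'| * (m / (2 * A * X)) = |S - S'| * m / (2 * A * X) := by ring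
    rw [h8, div_lt_one hAX] at h6
    exact h6
  -- pigeonhole
  have hcard : ((Finset.range (m + 1)) ×ˢ (Finset.range (m + 1))).card <
      (Finset.univ : Finset (Fin 5 → Fin (X + 1))).card := by
    rw [Finset.card_product, Finset.card_range, Finset.card_univ, Fintype.card_fun,
      Fintype.card_fin, Fintype.card_fin]
    have h1 : m + 1 ≤ (k + 1) * (X + 1) ^ 2 := by
      rw [hm, add_mul, one_mul]
      have : 1 ≤ (X + 1) ^ 2 := Nat.one_le_pow _ _ (by omega)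
      omega
    calc (m + 1) * (m + 1) ≤ ((k + 1) * (X + 1) ^ 2) * ((k + 1) * (X + 1) ^ 2) :=
          Nat.mul_le_mul h1 h1
      _ = (k + 1) ^ 2 * (X + 1) ^ 4 := by ring
      _ ≤ X * (X + 1) ^ 4 := Nat.mul_le_mul_right _ hX
      _ < (X + 1) * (X + 1) ^ 4 := by
          apply Nat.mul_lt_mul_of_pos_right (by omega)
          positivity
      _ = (X + 1) ^ 5 := by ring
  obtain ⟨u, -, u', -, hne, heq⟩ := Finset.exists_ne_map_eq_of_card_lt_of_maps_to hcard
    (f := fun u => (fl α u, fl β u)) (fun u _ => by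
      simp only [Finset.coe_product, Set.mem_prod, Finset.mem_coe]
      exact ⟨hfl α hAα u, hfl β hAβ u⟩)
  rw [Prod.mk.injEq] at heq
  refine ⟨fun i => ((u i : ℕ) : ℤ) - ((u' i : ℕ) : ℤ), ?_, ?_, ?_⟩
  · intro h
    apply hne
    funext i
    have := congrFun h i
    simp only [Pi.zero_apply] at this
    apply Fin.ext
    omega
  · unfold nrm
    refine Finset.sup_le fun i _ => ?_
    have h1 := (u i).2
    have h2 := (u' i).2
    simp only
    omega
  · have h1 := hclose α hAα u u' heq.1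
    have h2 := hclose β hAβ u u' heq.2
    unfold nn
    have h3 : |∑ i, α i * ((((u i : ℕ) : ℤ) - ((u' i : ℕ) : ℤ) : ℤ) : ℝ)| +
        |∑ i, β i * ((((u i : ℕ) : ℤ) - ((u' i : ℕ) : ℤ) : ℤ) : ℝ)| < 4 * A * X / m := by
      have : 4 * A * X / m = 2 * A * X / m + 2 * A * X / m := by ring
      rw [this]
      exact add_lt_add h1 h2
    have h4 : ((X : ℝ) + 1) * (4 * A * X / m) ≤ 4 * A / k := by
      have hmR' : (m : ℝ) = k * (X + 1) ^ 2 := by
        rw [hm]
        push_cast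
        ring
      rw [hmR', mul_div_assoc', div_le_div_iff₀ (by positivity) hkR]
      have : 4 * A * (k * ((X : ℝ) + 1) ^ 2) - (X + 1) * (4 * A * X) * k =
          4 * A * k * (X + 1) := by ring
      have h5 : 0 ≤ 4 * A * k * ((X : ℝ) + 1) := by positivity
      linarith
    have h5 : 4 * A / k < κ := by
      rw [div_lt_iff₀ hkR]
      linarith
    have h6 : ((X : ℝ) + 1) * (|∑ i, α i * ((((u i : ℕ) : ℤ) - ((u' i : ℕ) : ℤ) : ℤ) : ℝ)| +
        |∑ i, β i * ((((u i : ℕ) : ℤ) - ((u' i : ℕ) : ℤ) : ℤ) : ℝ)|) <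
        ((X : ℝ) + 1) * (4 * A * X / m) :=
      mul_lt_mul_of_pos_left h3 (by linarith)
    linarith

end Pool.Agent.Srf5
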