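import Pool.Agent.Srf5.Defs

set_option autoImplicit false

/-! Closed subsets defined by one more equation. -/

namespace Pool.Agent.Srf5

open MvPolynomial Pool.Agent.CITLines

/-- The closed subset `g = 0` of a variety is a finite union of varieties of smaller dimension.

Proof. `Q` = the minimal primes of `kr k w ⊔ span {g}` (finitely many,
`Ideal.finite_minimalPrimes_of_isNoetherianRing`). Each is a prime `q ≥ kr k w` containing `g`, so
`kr k w < q` and `dm q < dm (kr k w)` (`dm_strictAnti`). If `kr k w ≤ kr k P` and `aeval P g = 0` then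
`kr k w ⊔ span {g} ≤ kr k P`, a prime, which contains a minimal prime
(`Ideal.exists_minimalPrimes_le`). -/
theorem exists_components {k ι : Type} [Field k] [Fintype ι] {F : Type} [Field F] [Algebra k F]
    (w : ι → F) {g : MvPolynomial ι k} (hg : g ∉ kr k w) :
    ∃ Q : Finset (Ideal (MvPolynomial ι k)),
      (∀ q ∈ Q, q.IsPrime ∧ kr k w ≤ q ∧ dm q < dm (kr k w)) ∧
      ∀ (L : Type) [Field L] [Algebra k L] (P : ι → L), kr k w ≤ kr k P → aeval P g = 0 →
        ∃ q ∈ Q, q ≤ kr k P := by
  set I : Ideal (MvPolynomial ι k) := kr k w ⊔ Ideal.span {g} with hI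
  have hfin : I.minimalPrimes.Finite := Ideal.finite_minimalPrimes_of_isNoetherianRing _ I
  refine ⟨hfin.toFinset, ?_, ?_⟩
  · intro q hq
    rw [Set.Finite.mem_toFinset] at hq
    have hqp : q.IsPrime := hq.1.1
    have hIq : I ≤ q := hq.1.2
    have hkq : kr k w ≤ q := le_sup_left.trans hIq
    have hgq : g ∈ q := hIq (Ideal.mem_sup_right (Ideal.mem_span_singleton_self g))
    refine ⟨hqp, hkq, dm_strictAnti (lt_of_le_of_ne hkq ?_)⟩
    intro h
    rw [h] at hg
    exact hg hgq
  · intro L _ _ P hP hgP
    have hle : I ≤ kr k P := by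
      refine sup_le hP ?_
      rw [Ideal.span_singleton_le_iff_mem]
      exact hgP
    obtain ⟨q, hq, hqP⟩ := Ideal.exists_minimalPrimes_le hle
    exact ⟨q, hfin.mem_toFinset.2 hq, hqP⟩

end Pool.Agent.Srf5
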