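import Pool.Agent.Srf5.ALam

set_option autoImplicit false

/-! The points of rank at most two: the case of dimension zero. -/

namespace Pool.Agent.Srf5

open MvPolynomial Module Height NumberField Pool.Agent.CITLines
open LThree (nrm)

/-- The case of points.

Proof. If some `u ≠ 0` has `mon w u = 1` take `E = {u}` (`spec_one`). Otherwise `E = ∅`: let `P` be a
point of rank at most two; by `lam_rank` there is `S` with `finrank S ≤ 2` and
`cst u ∈ S ↔ u ∈ Lam ℚ w`. As `dm (kr ℚ w) = 0`, every `w i` is algebraic over `ℚ`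
(otherwise `rk (range w) ≥ 1`, `dm_kr`; or `card_le_dm` for one transcendental element), so
`Lam ℚ w` is everything, `cst (Pi.single i 1) ∈ S` for all `i`, `S = ⊤` and `finrank S = 5`,
a contradiction. -/
theorem points_zero {F : Type} [Field F] [CharZero F] (w : Fin 5 → F) (hw : ∀ i, w i ≠ 0)
    (hdim : dm (kr ℚ w) = 0) : ∃ E, PointList w E := by
  by_cases hrel : ∀ u, mon w u = 1 → u = 0
  · refine ⟨∅, Finset.notMem_empty _, fun K _ _ P hP hle h2 => ?_⟩
    exfalso
    obtain ⟨S, hS, hSL⟩ := lam_rank hw hrel hP hle h2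
    have halg : ∀ i, IsAlgebraic ℚ (w i) := by
      intro i
      by_contra hcon
      have h1 : AlgebraicIndependent ℚ (fun _ : Unit => w i) :=
        (algebraicIndependent_unique_type_iff (ι := Unit)).2 hcon
      have h3 : rk ℚ (Set.range fun _ : Unit => w i) ≤ rk ℚ (Set.range w) :=
        rk_mono (by rintro _ ⟨_, rfl⟩; exact ⟨i, rfl⟩)
      rw [rk_range_of_indep _ h1, ← dm_kr, hdim] at h3
      simp at h3
    have hmon : ∀ u, u ∈ Lam ℚ w := by
      intro u
      have h1 : ∀ i, w i ∈ algebraicClosure ℚ F := fun i => mem_algebraicClosure_iff.2 (halg i)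
      have h2 : mon w u ∈ algebraicClosure ℚ F :=
        prod_mem fun i _ => zpow_mem (h1 i) (u i)
      exact mem_algebraicClosure_iff.1 h2
    have htop : S = ⊤ := by
      rw [eq_top_iff, ← (Pi.basisFun ℚ (Fin 5)).span_eq, Submodule.span_le]
      rintro _ ⟨i, rfl⟩
      have h1 := (hSL (Pi.single i 1)).2 (hmon _)
      have h2 : cst (Pi.single i 1 : Fin 5 → ℤ) = Pi.basisFun ℚ (Fin 5) i := by
        funext j
        rw [Pi.basisFun_apply, cst_apply]
        by_cases hj : j = i
        · subst hj
          simp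
        · simp [hj]
      rw [h2] at h1
      exact h1
    rw [htop, finrank_top, Module.finrank_fin_fun] at hS
    omega
  · push Not at hrel
    obtain ⟨u, hu, hu0⟩ := hrel
    refine ⟨{u}, ?_, fun K _ _ P hP hle _ => ⟨u, Finset.mem_singleton_self u,
      spec_one hw hP hle u hu⟩⟩
    rw [Finset.mem_singleton]
    exact hu0.symm

end Pool.Agent.Srf5
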