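import Pool.Agent.Srf5.ADeg
import Pool.Agent.Srf5.AFin
import Pool.Agent.RelC.Counts

set_option autoImplicit false

/-! Points of bounded height of a curve without exact relations. -/

namespace Pool.Agent.Srf5

open MvPolynomial Module Height NumberField Pool.Agent.CITLines
open LThree (nrm)

/-- Points of bounded height of a curve without exact relations.

Proof. By `pointList`-style reduction the statement is for points whose coordinates generate `K`. Let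
`D = finrank`, `D ≥ 1`. `RelC.one_relation` (`k = 2`, `RelC.count_two`, `ε = 1/2`, `s = 5`, height
bound `B * D`: each `h(P_i) ≤ ∑ h(P_i) ≤ B D`) gives `u ≠ 0`, `mono P u = 1` with
`(nrm u)^3 ≤ C D^(3/2)`. `mon w u ≠ 1` by `hrel`. `degree_le`: `D ≤ M nrm u`, so
`D^3 ≤ M^3 C D^(3/2)`, `D ≤ D^(3/2) ≤ M^3 C ≤ D0`. So `finite_rel D0 (max B 0 * D0)`
gives the list. -/
theorem curve_bdd {F : Type} [Field F] [CharZero F] (w : Fin 5 → F) (hw : ∀ i, w i ≠ 0)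
    (hdim : dm (kr ℚ w) = 1) (hrel : ∀ u, mon w u = 1 → u = 0) (B : ℝ) :
    ∃ E : Finset (Fin 5 → ℤ), 0 ∉ E ∧
      ∀ (K : Type) [Field K] [NumberField K] (P : Fin 5 → K), (∀ i, P i ≠ 0) →
        kr ℚ w ≤ kr ℚ P → LThree.RankLe 2 P → IntermediateField.adjoin ℚ (Set.range P) = ⊤ →
        ∑ i, logHeight₁ (P i) ≤ B * finrank ℚ K → ∃ a ∈ E, mon P a = 1 := by
  obtain ⟨M, hM, hdeg⟩ := degree_le w hw hdim
  obtain ⟨C, hC1, hone⟩ := RelC.one_relation RelC.count_two (ε := 1 / 2) (by norm_num) B 5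
  obtain ⟨E, hE0, hE⟩ := finite_rel ⌈(M : ℝ) ^ 3 * C⌉₊ (max B 0 * ⌈(M : ℝ) ^ 3 * C⌉₊)
  refine ⟨E, hE0, fun K _ _ P hP hle hrk hgen hht => ?_⟩
  have hh : ∀ i, logHeight₁ (P i) ≤ B * finrank ℚ K := fun i =>
    (Finset.single_le_sum (f := fun i => logHeight₁ (P i)) (fun j _ => zero_le_logHeight₁ (P j))
      (Finset.mem_univ i)).trans hht
  obtain ⟨u, hu0, hu1, hu⟩ := hone K (Fin 5) P hP (by simp) (by simp) hrk hh
  have hu1' : mon P u = 1 := hu1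
  have hD := hdeg K P hP hle hgen u (fun h => hu0 (hrel u h)) hu1'
  have hD1 : (1 : ℝ) ≤ finrank ℚ K := by exact_mod_cast (finrank_pos (R := ℚ) (M := K))
  have hD0 : (0 : ℝ) < finrank ℚ K := by linarith
  rw [Fintype.card_fin] at hu
  have hDr : (finrank ℚ K : ℝ) ≤ M * (nrm u : ℝ) := by exact_mod_cast hD
  have h3 : (finrank ℚ K : ℝ) ^ 3 ≤ (M : ℝ) ^ 3 * C * (finrank ℚ K : ℝ) ^ (1 + 1 / 2 : ℝ) := by
    calc (finrank ℚ K : ℝ) ^ 3 ≤ (M * (nrm u : ℝ)) ^ 3 := pow_le_pow_left₀ hD0.le hDr 3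
      _ = (M : ℝ) ^ 3 * (nrm u : ℝ) ^ 3 := by ring
      _ ≤ (M : ℝ) ^ 3 * (C * (finrank ℚ K : ℝ) ^ (1 + 1 / 2 : ℝ)) :=
        mul_le_mul_of_nonneg_left hu (by positivity)
      _ = _ := by ring
  have h4 : (finrank ℚ K : ℝ) ^ (1 + 1 / 2 : ℝ) * (finrank ℚ K : ℝ) ^ (1 + 1 / 2 : ℝ) =
      (finrank ℚ K : ℝ) ^ 3 := by
    rw [← Real.rpow_add hD0, ← Real.rpow_natCast]
    norm_num
  have hpos : 0 < (finrank ℚ K : ℝ) ^ (1 + 1 / 2 : ℝ) := Real.rpow_pos_of_pos hD0 _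
  have h5 : (finrank ℚ K : ℝ) ^ (1 + 1 / 2 : ℝ) ≤ (M : ℝ) ^ 3 * C := by
    rw [← h4] at h3
    exact le_of_mul_le_mul_right h3 hpos
  have h6 : (finrank ℚ K : ℝ) ≤ (finrank ℚ K : ℝ) ^ (1 + 1 / 2 : ℝ) := by
    conv_lhs => rw [← Real.rpow_one (finrank ℚ K : ℝ)]
    exact Real.rpow_le_rpow_of_exponent_le hD1 (by norm_num)
  have h7 : (finrank ℚ K : ℝ) ≤ (⌈(M : ℝ) ^ 3 * C⌉₊ : ℝ) :=
    (h6.trans h5).trans (Nat.le_ceil _)
  have h8 : finrank ℚ K ≤ ⌈(M : ℝ) ^ 3 * C⌉₊ := by exact_mod_cast h7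
  refine hE K P h8 (fun i => (hh i).trans ?_) ⟨u, hu0, hu1'⟩
  calc B * finrank ℚ K ≤ max B 0 * finrank ℚ K :=
        mul_le_mul_of_nonneg_right (le_max_left _ _) hD0.le
    _ ≤ _ := mul_le_mul_of_nonneg_left h7 (le_max_right _ _)

end Pool.Agent.Srf5
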