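import Pool.Agent.Srf5.ABdC
import Pool.Agent.Srf5.ACur0
import Pool.Agent.Srf5.ACurB
import Pool.Agent.Srf5.AComp

set_option autoImplicit false

/-! The points of rank at most two of a curve. -/

namespace Pool.Agent.Srf5

open MvPolynomial Module Height NumberField Pool.Agent.CITLines
open LThree (nrm)

/-- The generic point of a prime without coordinates, over a field of characteristic zero. -/
private lemma exists_generic (q : Ideal (MvPolynomial (Fin 5) ℚ)) (hq : q.IsPrime)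
    (hX : ∀ i, (X i : MvPolynomial (Fin 5) ℚ) ∉ q) :
    ∃ (F : Type) (_ : Field F) (_ : CharZero F) (w : Fin 5 → F), (∀ i, w i ≠ 0) ∧
      kr ℚ w = q := by
  have hc : CharZero (Kf q) := algebraRat.charZero (Kf q)
  refine ⟨Kf q, inferInstance, hc, gen q, fun i => gen_ne_zero q (hX i), ?_⟩
  have h := kr_gen q
  convert h using 2
  exact Subsingleton.elim _ _

/-- The list of a prime, from the lists of the varieties of the same dimension. -/
private lemma list_of_prime (d : ℕ)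
    (ih : ∀ (F : Type) [Field F] [CharZero F] (w : Fin 5 → F), (∀ i, w i ≠ 0) →
      dm (kr ℚ w) ≤ d → ∃ E, PointList w E)
    (q : Ideal (MvPolynomial (Fin 5) ℚ)) (hq : q.IsPrime) (hd : dm q ≤ d) :
    ∃ E : Finset (Fin 5 → ℤ), 0 ∉ E ∧
      ∀ (K : Type) [Field K] [NumberField K] (P : Fin 5 → K), (∀ i, P i ≠ 0) →
        q ≤ kr ℚ P → LThree.RankLe 2 P → ∃ a ∈ E, mon P a = 1 := by
  by_cases hX : ∀ i, (X i : MvPolynomial (Fin 5) ℚ) ∉ q
  · obtain ⟨F, _, _, w, hw, hkr⟩ := exists_generic q hq hX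
    obtain ⟨E, h0, hE⟩ := ih F w hw (by rw [hkr]; exact hd)
    refine ⟨E, h0, fun K _ _ P hP hle h2 => hE K P hP ?_ h2⟩
    rw [hkr]
    exact hle
  · push Not at hX
    obtain ⟨i, hi⟩ := hX
    refine ⟨∅, Finset.notMem_empty 0, fun K _ _ P hP hle h2 => ?_⟩
    have h1 := hle hi
    rw [mem_kr, aeval_X] at h1
    exact absurd h1 (hP i)

/-- The lists of finitely many primes together. -/
private lemma list_of_primes (d : ℕ)
    (ih : ∀ (F : Type) [Field F] [CharZero F] (w : Fin 5 → F), (∀ i, w i ≠ 0) →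
      dm (kr ℚ w) ≤ d → ∃ E, PointList w E)
    (Q : Finset (Ideal (MvPolynomial (Fin 5) ℚ))) (hQ : ∀ q ∈ Q, q.IsPrime ∧ dm q ≤ d) :
    ∃ E : Finset (Fin 5 → ℤ), 0 ∉ E ∧
      ∀ (K : Type) [Field K] [NumberField K] (P : Fin 5 → K), (∀ i, P i ≠ 0) →
        (∃ q ∈ Q, q ≤ kr ℚ P) → LThree.RankLe 2 P → ∃ a ∈ E, mon P a = 1 := by
  classical
  induction Q using Finset.induction_on with
  | empty =>
    refine ⟨∅, Finset.notMem_empty 0, fun K _ _ P hP hq h2 => ?_⟩
    obtain ⟨q, hq, -⟩ := hq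
    exact absurd hq (Finset.notMem_empty q)
  | insert q Q hq ihQ =>
    obtain ⟨E, h0, hE⟩ := ihQ (fun q hq => hQ q (Finset.mem_insert_of_mem hq))
    obtain ⟨hp, hd⟩ := hQ q (Finset.mem_insert_self q Q)
    obtain ⟨E', h0', hE'⟩ := list_of_prime d ih q hp hd
    refine ⟨E ∪ E', fun h => (Finset.mem_union.1 h).elim h0 h0', fun K _ _ P hP hqP h2 => ?_⟩
    obtain ⟨q', hq', hle⟩ := hqP
    rcases Finset.mem_insert.1 hq' with rfl | hq'
    · obtain ⟨a, ha, h1⟩ := hE' K P hP hle h2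
      exact ⟨a, Finset.mem_union_right _ ha, h1⟩
    · obtain ⟨a, ha, h1⟩ := hE K P hP ⟨q', hq', hle⟩ h2
      exact ⟨a, Finset.mem_union_left _ ha, h1⟩

/-- **The points of rank at most two of a curve.**

Proof. `dm = 0`: `points_zero`. `dm = 1`: if some `u ≠ 0` has `mon w u = 1` take `E = {u}`
(`spec_one`). Otherwise, if there is no point of rank at most two at all, `E = ∅`. Otherwise `lam_rank` for one
such point gives `S`; `bdd_curve` gives `B, g`; `exists_components` for `g` gives finitely many primes `q` with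
`dm q < 1`, so `dm q = 0`. For every `q ∈ Q` with all `X i ∉ q` the generic point `gen q` (`kr_gen`,
`gen_ne_zero`; its field has characteristic zero) has a list `E_q` by `points_zero`. Let `E` be the union of the
`E_q` and the list of `curve_bdd`, and use `pointList_of_top`: a point `P` with
`aeval P g = 0` is over some `q ∈ Q` (and then `X i ∉ q` because `P i ≠ 0`), so `E_q` applies
(`kr ℚ (gen q) = q ≤ kr ℚ P`); a point with `aeval P g ≠ 0` has bounded height by `bdd_curve` and `curve_bdd` applies. -/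
theorem curve_points {F : Type} [Field F] [CharZero F] (w : Fin 5 → F) (hw : ∀ i, w i ≠ 0)
    (hdim : dm (kr ℚ w) ≤ 1) : ∃ E, PointList w E := by
  classical
  rcases Nat.lt_or_ge (dm (kr ℚ w)) 1 with hlt | hge
  · exact points_zero w hw (by omega)
  have hdim1 : dm (kr ℚ w) = 1 := le_antisymm hdim hge
  by_cases hrel : ∀ u, mon w u = 1 → u = 0
  swap
  · push Not at hrel
    obtain ⟨u, hu, hu0⟩ := hrel
    refine ⟨{u}, fun h => hu0 (Finset.mem_singleton.1 h).symm, fun K _ _ P hP hle _ => ?_⟩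
    exact ⟨u, Finset.mem_singleton_self u, spec_one hw hP hle u hu⟩
  by_cases hex : ∃ (K : Type) (_ : Field K) (_ : NumberField K) (P : Fin 5 → K),
      (∀ i, P i ≠ 0) ∧ kr ℚ w ≤ kr ℚ P ∧ LThree.RankLe 2 P
  swap
  · refine ⟨∅, Finset.notMem_empty 0, fun K _ _ P hP hle h2 => ?_⟩
    exact absurd ⟨K, inferInstance, inferInstance, P, hP, hle, h2⟩ hex
  obtain ⟨K₀, _, _, P₀, hP₀, hle₀, h2₀⟩ := hex
  obtain ⟨S, hS, hS'⟩ := lam_rank hw hrel hP₀ hle₀ h2₀
  obtain ⟨B, g, hg, hB⟩ := bdd_curve w hw hdim1 S hS hS'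
  obtain ⟨Q, hQ, hcov⟩ := exists_components w hg
  obtain ⟨E₀, h0, hE₀⟩ := curve_bdd w hw hdim1 hrel B
  obtain ⟨E₁, h1, hE₁⟩ := list_of_primes 0
    (fun F _ _ w hw hd => points_zero w hw (Nat.le_zero.1 hd)) Q
    (fun q hq => ⟨(hQ q hq).1, by have := (hQ q hq).2.2; omega⟩)
  refine ⟨E₀ ∪ E₁, pointList_of_top w (fun h => (Finset.mem_union.1 h).elim h0 h1) ?_⟩
  intro K _ _ P hP hle h2 htop
  by_cases hgP : aeval P g = 0
  · obtain ⟨a, ha, h3⟩ := hE₁ K P hP (hcov K P hle hgP) h2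
    exact ⟨a, Finset.mem_union_right _ ha, h3⟩
  · obtain ⟨a, ha, h3⟩ := hE₀ K P hP hle h2 htop (hB K P hP hle h2 hgP)
    exact ⟨a, Finset.mem_union_left _ ha, h3⟩

/-- The points of rank at most two on a curve `g = 0` of the surface.

Proof. `exists_components` for `g`: finitely many primes `q` with `dm q ≤ 1`; for every `q ∈ Q` with all
`X i ∉ q` the list of `curve_points` for `gen q`; `E` is the union. -/
theorem curve_list {F : Type} [Field F] [CharZero F] (w : Fin 5 → F)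
    (hdim : dm (kr ℚ w) = 2) {g : MvPolynomial (Fin 5) ℚ} (hg : g ∉ kr ℚ w) :
    ∃ E : Finset (Fin 5 → ℤ), 0 ∉ E ∧
      ∀ (K : Type) [Field K] [NumberField K] (P : Fin 5 → K), (∀ i, P i ≠ 0) →
        kr ℚ w ≤ kr ℚ P → LThree.RankLe 2 P → aeval P g = 0 → ∃ a ∈ E, mon P a = 1 := by
  obtain ⟨Q, hQ, hcov⟩ := exists_components w hg
  obtain ⟨E, h0, hE⟩ := list_of_primes 1 (fun F _ _ w hw hd => curve_points w hw hd) Q
    (fun q hq => ⟨(hQ q hq).1, by have := (hQ q hq).2.2; omega⟩)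
  exact ⟨E, h0, fun K _ _ P hP hle h2 hgP => hE K P hP (hcov K P hle hgP) h2⟩

end Pool.Agent.Srf5
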