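import Pool.Agent.Srf5.Defs

set_option autoImplicit false

/-! A linear form in the coordinates which generates the field. -/

namespace Pool.Agent.Srf5

open Module

/-- A linear form in the coordinates which generates the field.

Proof. Let `S` be the finite set of the embeddings `K →+* ℂ` (`D = finrank` of them,
`NumberField.Embeddings.card`). For `σ ≠ τ` in `S` the vectors `σ P, τ P` are different (else
`σ = τ` because the `P_i` generate `K`: the set of the `x` with `σ x = τ x` is an intermediate
field). So for every such pair the polynomial `∑_i T^i (σ P_i - τ P_i) ∈ ℂ[T]` is nonzero, and there is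
a natural number `t` which is not a root of any of them; put `c_i = t^i`. Then
`σ (∑ c_i P_i)`, `σ ∈ S`, are `D` different complex numbers, all roots of the image of `B` in `ℂ[X]`;
so `D ≤ natDegree B` (`Polynomial.card_roots'`). -/
theorem exists_form {K : Type} [Field K] [NumberField K] (P : Fin 5 → K)
    (hP : IntermediateField.adjoin ℚ (Set.range P) = ⊤) : ∃ c : Fin 5 → ℚ,
    ∀ B : Polynomial ℚ, B ≠ 0 → Polynomial.aeval (∑ i, algebraMap ℚ K (c i) * P i) B = 0 →
      finrank ℚ K ≤ B.natDegree := by
  classical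
  have hsep : ∀ σ τ : K →+* ℂ, (∀ i, σ (P i) = τ (P i)) → σ = τ := by
    intro σ τ h
    ext x
    have hx : x ∈ IntermediateField.adjoin ℚ (Set.range P) := by
      rw [hP]
      exact IntermediateField.mem_top
    induction hx using IntermediateField.adjoin_induction with
    | mem x hx =>
      obtain ⟨i, rfl⟩ := hx
      exact h i
    | algebraMap x => rw [eq_ratCast, map_ratCast, map_ratCast]
    | add x y _ _ ihx ihy => rw [map_add, map_add, ihx, ihy]
    | inv x _ ihx => rw [map_inv₀, map_inv₀, ihx]
    | mul x y _ _ ihx ihy => rw [map_mul, map_mul, ihx, ihy]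
  let g : (K →+* ℂ) → (K →+* ℂ) → Polynomial ℂ := fun σ τ =>
    ∑ i : Fin 5, Polynomial.C (σ (P i) - τ (P i)) * Polynomial.X ^ (i : ℕ)
  have hg : ∀ σ τ, σ ≠ τ → g σ τ ≠ 0 := by
    intro σ τ hne h0
    apply hne
    apply hsep
    intro i
    have h1 : (g σ τ).coeff (i : ℕ) = σ (P i) - τ (P i) := by
      simp only [g]
      rw [Polynomial.finsetSum_coeff]
      simp only [Polynomial.coeff_C_mul, Polynomial.coeff_X_pow]
      rw [Finset.sum_eq_single i]
      · rw [if_pos rfl, mul_one]
      · intro j _ hj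
        rw [if_neg fun h => hj (Fin.ext h.symm), mul_zero]
      · intro h
        exact absurd (Finset.mem_univ i) h
    rw [h0, Polynomial.coeff_zero] at h1
    exact (sub_eq_zero.1 h1.symm)
  set Q : Polynomial ℂ := ∏ p ∈ (Finset.univ : Finset ((K →+* ℂ) × (K →+* ℂ))).filter
    (fun p => p.1 ≠ p.2), g p.1 p.2 with hQ
  have hQ0 : Q ≠ 0 := by
    rw [hQ, Finset.prod_ne_zero_iff]
    intro p hp
    exact hg _ _ (Finset.mem_filter.1 hp).2
  obtain ⟨t, ht⟩ : ∃ t : ℕ, Q.eval (t : ℂ) ≠ 0 := by
    by_contra hcon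
    push Not at hcon
    apply hQ0
    apply Polynomial.eq_zero_of_infinite_isRoot
    refine Set.Infinite.mono ?_ (Set.infinite_range_of_injective (Nat.cast_injective (R := ℂ)))
    rintro _ ⟨t, rfl⟩
    exact hcon t
  refine ⟨fun i => (t : ℚ) ^ (i : ℕ), fun B hB hBa => ?_⟩
  dsimp only at hBa
  set a : K := ∑ i : Fin 5, algebraMap ℚ K ((t : ℚ) ^ (i : ℕ)) * P i with ha
  have hinj : Function.Injective (fun σ : K →+* ℂ => σ a) := by
    intro σ τ h
    by_contra hne
    have h1 : (g σ τ).eval (t : ℂ) ≠ 0 := by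
      intro h0
      apply ht
      rw [hQ, Polynomial.eval_prod]
      exact Finset.prod_eq_zero (i := (σ, τ)) (by simp [hne]) h0
    apply h1
    have h2 : ∀ ρ : K →+* ℂ, ρ a = ∑ i : Fin 5, (t : ℂ) ^ (i : ℕ) * ρ (P i) := by
      intro ρ
      rw [ha, map_sum]
      refine Finset.sum_congr rfl fun i _ => ?_
      rw [map_mul, map_pow, map_pow, map_natCast, map_natCast]
    have h3 : σ a = τ a := h
    rw [h2, h2] at h3
    simp only [g]
    rw [Polynomial.eval_finsetSum]
    rw [← sub_eq_zero, ← Finset.sum_sub_distrib] at h3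
    rw [← h3]
    refine Finset.sum_congr rfl fun i _ => ?_
    rw [Polynomial.eval_mul, Polynomial.eval_C, Polynomial.eval_pow, Polynomial.eval_X]
    ring
  set Bc : Polynomial ℂ := B.map (algebraMap ℚ ℂ) with hBc
  have hBc0 : Bc ≠ 0 := (Polynomial.map_ne_zero_iff (algebraMap ℚ ℂ).injective).2 hB
  have hsub : (Finset.univ : Finset (K →+* ℂ)).image (fun σ => σ a) ⊆ Bc.roots.toFinset := by
    intro z hz
    obtain ⟨σ, -, rfl⟩ := Finset.mem_image.1 hz
    rw [Multiset.mem_toFinset, Polynomial.mem_roots hBc0, Polynomial.IsRoot.def, hBc,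
      Polynomial.eval_map]
    have h1 := congrArg σ hBa
    rw [map_zero, Polynomial.aeval_def, Polynomial.hom_eval₂] at h1
    have h2 : σ.comp (algebraMap ℚ K) = algebraMap ℚ ℂ := Subsingleton.elim _ _
    rwa [h2] at h1
  calc finrank ℚ K = Fintype.card (K →+* ℂ) := (NumberField.Embeddings.card K ℂ).symm
    _ = ((Finset.univ : Finset (K →+* ℂ)).image (fun σ => σ a)).card := by
      rw [Finset.card_image_of_injective _ hinj, Finset.card_univ]
    _ ≤ Bc.roots.toFinset.card := Finset.card_le_card hsub
    _ ≤ Multiset.card Bc.roots := Multiset.toFinset_card_le _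
    _ ≤ Bc.natDegree := Polynomial.card_roots' _
    _ = B.natDegree := Polynomial.natDegree_map _

end Pool.Agent.Srf5
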