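import Pool.Agent.Srf5.ALin
import Pool.Agent.Srf5.AForm

set_option autoImplicit false

/-! The degree of the points of a curve where a monomial is `1`. -/

namespace Pool.Agent.Srf5

open MvPolynomial Module Pool.Agent.CITLines
open LThree (nrm)

/-- The degree of the points of a curve where a monomial is `1`. -/
theorem degree_le {F : Type} [Field F] [Algebra ℚ F] (w : Fin 5 → F) (hw : ∀ i, w i ≠ 0)
    (hdim : dm (kr ℚ w) = 1) : ∃ M : ℕ, 1 ≤ M ∧ ∀ (K : Type) [Field K] [NumberField K]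
      (P : Fin 5 → K), (∀ i, P i ≠ 0) → kr ℚ w ≤ kr ℚ P →
      IntermediateField.adjoin ℚ (Set.range P) = ⊤ → ∀ u : Fin 5 → ℤ, mon w u ≠ 1 →
      mon P u = 1 → finrank ℚ K ≤ M * nrm u := by
  obtain ⟨M, hM, h⟩ := lin_eq (k := ℚ) w hw hdim
  refine ⟨M, hM, fun K _ _ P hP0 hle hgen u hu h1 => ?_⟩
  obtain ⟨c, hc⟩ := exists_form P hgen
  obtain ⟨B, hB0, hB, hBP⟩ := h u hu c
  exact (hc B hB0 (hBP K P hP0 hle h1)).trans hB

end Pool.Agent.Srf5
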