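import Pool.Agent.Srf5.ADir0

set_option autoImplicit false

/-! Dirichlet along a direction. -/

namespace Pool.Agent.Srf5

open Module Pool.Agent.CITLines

/-- The real vector of a rational vector. -/
private def rv (s : Fin 5 → ℚ) : Fin 5 → ℝ := fun j => (s j : ℝ)

private theorem exists_real_span (S : Submodule ℚ (Fin 5 → ℚ)) (hS : finrank ℚ S ≤ 2) :
    ∃ S' : Submodule ℝ (Fin 5 → ℝ), finrank ℝ S' ≤ 2 ∧ ∀ s ∈ S, rv s ∈ S' := by
  classical
  let b := finBasis ℚ S
  refine ⟨Submodule.span ℝ (Set.range fun i => rv (b i : Fin 5 → ℚ)), ?_, ?_⟩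
  · refine (finrank_range_le_card (R := ℝ) fun i => rv (b i : Fin 5 → ℚ)).trans ?_
    rwa [Fintype.card_fin]
  · intro s hs
    have h1 := b.sum_repr ⟨s, hs⟩
    have h2 : rv s = ∑ i, ((b.repr ⟨s, hs⟩ i : ℚ) : ℝ) • rv (b i : Fin 5 → ℚ) := by
      funext j
      have h3 := congrArg (fun x : S => ((x : Fin 5 → ℚ) j : ℚ)) h1
      simp only [Submodule.coe_sum, Submodule.coe_smul, Finset.sum_apply, Pi.smul_apply,
        smul_eq_mul] at h3
      simp only [Finset.sum_apply, Pi.smul_apply, smul_eq_mul, rv]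
      rw [← h3]
      push_cast
      rfl
    rw [h2]
    exact Submodule.sum_mem _ fun i _ =>
      Submodule.smul_mem _ _ (Submodule.subset_span ⟨i, rfl⟩)

private theorem exists_dir (α β : Fin 5 → ℝ) (S' : Submodule ℝ (Fin 5 → ℝ))
    (hS : finrank ℝ S' ≤ 2) : ∃ (w l : Fin 5 → ℝ), (∑ i, α i * w i) = 0 ∧
      (∑ i, β i * w i) = 0 ∧ (∑ i, l i * w i) = 1 ∧ ∀ s ∈ S', (∑ i, l i * s i) = 0 := by
  classical
  let φ : (Fin 5 → ℝ) →ₗ[ℝ] ℝ × ℝ :=
    (∑ i, α i • LinearMap.proj i).prod (∑ i, β i • LinearMap.proj i)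
  have hφ : ∀ w, φ w = (∑ i, α i * w i, ∑ i, β i * w i) := by
    intro w
    simp [φ]
  obtain ⟨w, hw, hwS⟩ : ∃ w ∈ LinearMap.ker φ, w ∉ S' := by
    by_contra hcon
    push Not at hcon
    have h1 : LinearMap.ker φ ≤ S' := hcon
    have h2 := Submodule.finrank_mono h1
    have h3 := LinearMap.finrank_range_add_finrank_ker φ
    have h4 : finrank ℝ (LinearMap.range φ) ≤ 2 := by
      refine (Submodule.finrank_le _).trans ?_
      rw [finrank_prod, finrank_self]
    rw [finrank_pi, Fintype.card_fin] at h3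
    omega
  obtain ⟨f, hf, hfS⟩ := Submodule.exists_le_ker_of_notMem hwS
  have hf1 : ∀ x, f x = ∑ i, f (Pi.single i 1) * x i := by
    intro x
    rw [LinearMap.pi_apply_eq_sum_univ f x]
    refine Finset.sum_congr rfl fun i _ => ?_
    rw [smul_eq_mul, mul_comm]
    congr 2
    funext j
    simp [Pi.single_apply, eq_comm]
  have h1 := LinearMap.mem_ker.1 hw
  rw [hφ, Prod.mk_eq_zero] at h1
  refine ⟨fun i => w i, fun i => f (Pi.single i 1) / f w, h1.1, h1.2, ?_, ?_⟩
  · have h2 := hf1 w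
    have h3 : (∑ i, f (Pi.single i 1) / f w * w i) = (∑ i, f (Pi.single i 1) * w i) / f w := by
      rw [Finset.sum_div]
      exact Finset.sum_congr rfl fun i _ => by ring
    rw [h3, ← h2, div_self hf]
  · intro s hs
    have h2 : f s = 0 := hfS hs
    have h3 : (∑ i, f (Pi.single i 1) / f w * s i) = (∑ i, f (Pi.single i 1) * s i) / f w := by
      rw [Finset.sum_div]
      exact Finset.sum_congr rfl fun i _ => by ring
    rw [h3, ← hf1, h2, zero_div]

/-- Small vectors outside a plane.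

Proof. Let `W` be the kernel of `(α, β) : ℝ^5 → ℝ^2`; `finrank W ≥ 3`. Take a basis of `S` (at most
two vectors) and let `S'` be the real span of these vectors, seen in `ℝ^5` (the image of every
element of `S` is in `S'`); `finrank S' ≤ 2` (`finrank_span_le_card`). So some `w ∈ W` is not in `S'`
and there is a linear functional `l` on `ℝ^5`, zero on `S'`, with `l w = 1`
(`Submodule.exists_le_ker_of_notMem` or `Submodule.exists_dual_map_eq_bot_of_notMem`, rescaled);
write `l x = ∑ l_i x_i` and let `A = ∑ |l_i| + ∑ |α_i| + ∑ |β_i| + 1`. By `dirichlet` there are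
`t ≥ 2` and an integer `b` with `|t w_i - b_i| < ε`, `ε = min κ 1 / (2 A)`. Then
`l b = t l w - l (t w - b) ≥ 2 - A ε > 0`, so `b` is not in `S`, and
`nn α β b = |α·(b - t w)| + |β·(b - t w)| ≤ A ε < κ`. -/
theorem exists_small_outside (α β : Fin 5 → ℝ) (S : Submodule ℚ (Fin 5 → ℚ))
    (hS : finrank ℚ S ≤ 2) {κ : ℝ} (hκ : 0 < κ) :
    ∃ b : Fin 5 → ℤ, cst b ∉ S ∧ nn α β b < κ := by
  obtain ⟨S', hS'1, hS'2⟩ := exists_real_span S hS
  obtain ⟨w, l, hα, hβ, hl, hlS⟩ := exists_dir α β S' hS'1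
  obtain ⟨A, hA⟩ : ∃ A : ℝ, A = ∑ i, |l i| + ∑ i, |α i| + ∑ i, |β i| + 1 := ⟨_, rfl⟩
  have hl0 : 0 ≤ ∑ i, |l i| := Finset.sum_nonneg fun i _ => abs_nonneg _
  have hα0 : 0 ≤ ∑ i, |α i| := Finset.sum_nonneg fun i _ => abs_nonneg _
  have hβ0 : 0 ≤ ∑ i, |β i| := Finset.sum_nonneg fun i _ => abs_nonneg _
  have hA0 : 0 < A := by rw [hA]; linarith
  obtain ⟨ε, hε⟩ : ∃ ε : ℝ, ε = min κ 1 / (2 * A) := ⟨_, rfl⟩
  have hκ1 : 0 < min κ 1 := lt_min hκ one_pos
  have hε0 : 0 < ε := by rw [hε]; positivity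
  have hAε : A * ε = min κ 1 / 2 := by
    rw [hε]
    field_simp
  obtain ⟨t, b, ht, hb⟩ := dirichlet w hε0 2
  have hlin : ∀ c : Fin 5 → ℝ, |∑ i, c i * (t * w i - b i)| ≤ (∑ i, |c i|) * ε := by
    intro c
    rw [Finset.sum_mul]
    refine (Finset.abs_sum_le_sum_abs _ _).trans (Finset.sum_le_sum fun i _ => ?_)
    rw [abs_mul]
    exact mul_le_mul_of_nonneg_left (hb i).le (abs_nonneg _)
  have hexp : ∀ c : Fin 5 → ℝ, ∑ i, c i * (t * w i - b i) =
      t * (∑ i, c i * w i) - ∑ i, c i * b i := by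
    intro c
    rw [Finset.mul_sum, ← Finset.sum_sub_distrib]
    exact Finset.sum_congr rfl fun i _ => by ring
  refine ⟨b, ?_, ?_⟩
  · intro hbS
    have h1 := hlS _ (hS'2 _ hbS)
    have h2 : ∑ i, l i * rv (cst b) i = ∑ i, l i * b i := by
      refine Finset.sum_congr rfl fun i _ => ?_
      simp [rv, cst]
    rw [h2] at h1
    have h3 := hlin l
    rw [hexp, hl, h1, mul_one, sub_zero] at h3
    have h4 : (2 : ℝ) ≤ t := by exact_mod_cast ht
    rw [abs_of_nonneg (by linarith)] at h3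
    have h5 : (∑ i, |l i|) * ε ≤ A * ε := by
      refine mul_le_mul_of_nonneg_right ?_ hε0.le
      rw [hA]
      linarith
    have h6 := min_le_right κ 1
    linarith
  · have h1 := hlin α
    have h2 := hlin β
    rw [hexp, hα, mul_zero, zero_sub, abs_neg] at h1
    rw [hexp, hβ, mul_zero, zero_sub, abs_neg] at h2
    have h3 : (∑ i, |α i|) * ε + (∑ i, |β i|) * ε ≤ A * ε := by
      rw [← add_mul]
      refine mul_le_mul_of_nonneg_right ?_ hε0.le
      rw [hA]
      linarith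
    have h4 := min_le_left κ 1
    unfold nn
    linarith

end Pool.Agent.Srf5
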