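import Pool.Agent.Srf5.AGDefs

set_option autoImplicit false

/-! Simultaneous approximation. -/

namespace Pool.Agent.Srf5

/-- Simultaneous approximation with large multipliers.

Proof. The sequence `m ↦ (fract (m * T' * w_i))_i`, `T' = max T 1`, has values in the compact box
`[0, 1]^n`, so it has a subsequence which converges (`IsCompact.tendsto_subseq` for
`isCompact_univ_pi`), hence is Cauchy, and there are `m < m'` with all coordinates at distance
`< ε`. Take `t = (m' - m) * T' ≥ T` and `b_i = floor (m' T' w_i) - floor (m T' w_i)`. -/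
theorem dirichlet {n : ℕ} (w : Fin n → ℝ) {ε : ℝ} (hε : 0 < ε) (T : ℕ) :
    ∃ (t : ℕ) (b : Fin n → ℤ), T ≤ t ∧ ∀ i, |t * w i - b i| < ε := by
  set T' : ℕ := max T 1 with hT'
  have hT1 : 1 ≤ T' := le_max_right _ _
  have hTT : T ≤ T' := le_max_left _ _
  let f : ℕ → Fin n → ℝ := fun m i => Int.fract (((m * T' : ℕ) : ℝ) * w i)
  have hf : ∀ m, f m ∈ Set.pi Set.univ (fun _ : Fin n => Set.Icc (0 : ℝ) 1) := fun m i _ =>
    ⟨Int.fract_nonneg _, (Int.fract_lt_one _).le⟩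
  obtain ⟨a, -, φ, hφ, hlim⟩ :=
    (isCompact_univ_pi fun _ : Fin n => isCompact_Icc (a := (0 : ℝ)) (b := 1)).tendsto_subseq hf
  obtain ⟨N, hN⟩ := Metric.cauchySeq_iff.1 hlim.cauchySeq ε hε
  have h1 := hN (N + 1) (Nat.le_succ N) N le_rfl
  have hlt : φ N < φ (N + 1) := hφ (Nat.lt_succ_self N)
  rw [dist_pi_lt_iff hε] at h1
  refine ⟨(φ (N + 1) - φ N) * T', fun i => ⌊((φ (N + 1) * T' : ℕ) : ℝ) * w i⌋ -
    ⌊((φ N * T' : ℕ) : ℝ) * w i⌋, ?_, fun i => ?_⟩
  · calc T ≤ 1 * T' := by omega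
      _ ≤ (φ (N + 1) - φ N) * T' := Nat.mul_le_mul_right _ (by omega)
  · have h2 := h1 i
    rw [Real.dist_eq] at h2
    have h3 : (((φ (N + 1) - φ N) * T' : ℕ) : ℝ) * w i -
        ((⌊((φ (N + 1) * T' : ℕ) : ℝ) * w i⌋ - ⌊((φ N * T' : ℕ) : ℝ) * w i⌋ : ℤ) : ℝ) =
        (f ∘ φ) (N + 1) i - (f ∘ φ) N i := by
      simp only [Function.comp_apply, f, Int.fract]
      push_cast [Nat.cast_sub hlt.le]
      ring
    rw [h3]
    exact h2

end Pool.Agent.Srf5
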