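import Pool.Agent.Srf5.Defs

set_option autoImplicit false

/-! The weighted size of an integer vector. -/

namespace Pool.Agent.Srf5

/-- `|α · u| + |β · u|`. -/
noncomputable def nn {ι : Type} [Fintype ι] (α β : ι → ℝ) (u : ι → ℤ) : ℝ :=
  |∑ i, α i * u i| + |∑ i, β i * u i|

theorem nn_nonneg {ι : Type} [Fintype ι] (α β : ι → ℝ) (u : ι → ℤ) : 0 ≤ nn α β u :=
  add_nonneg (abs_nonneg _) (abs_nonneg _)

end Pool.Agent.Srf5
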