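import Pool.Agent.Srf5.AGDefs

set_option autoImplicit false

/-! Cramer in a plane. -/

namespace Pool.Agent.Srf5

open LThree (nrm)
open Module Pool.Agent.CITLines

/-- In a plane, consecutive minima are independent only finitely often.

Proof. Let `cst c, cst a, cst b ∈ S` with `finrank S ≤ 2`, `a, b` linearly independent. Then there
are `s, t, q : ℤ`, not all zero, with `q c = s a + t b` (dependence of three vectors of `S`), and by
Cramer in two coordinates `i, j` with `d = a_i b_j - a_j b_i ≠ 0` (they exist because `a, b` are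
independent) we have `d c = (c_i b_j - c_j b_i) a + (a_i c_j - a_j c_i) b` (this identity holds in all
coordinates because it is a linear relation between the three vectors which holds in the
coordinates `i, j`, where `a, b` are independent). As `|d| ≥ 1`:
`nn c ≤ |d| nn c ≤ 2 nrm c nrm b nn a + 2 nrm a nrm c nn b`. -/
theorem cramer_nn (α β : Fin 5 → ℝ) {S : Submodule ℚ (Fin 5 → ℚ)} (hS : finrank ℚ S ≤ 2)
    {a b c : Fin 5 → ℤ} (ha : cst a ∈ S) (hb : cst b ∈ S) (hc : cst c ∈ S)
    (hab : LinearIndependent ℤ ![a, b]) :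
    nn α β c ≤ 2 * nrm c * ((nrm b : ℝ) * nn α β a + nrm a * nn α β b) := by
  classical
  have hle : ∀ (u : Fin 5 → ℤ) (i : Fin 5), |(u i : ℝ)| ≤ nrm u := by
    intro u i
    have h1 : (u i).natAbs ≤ nrm u :=
      Finset.le_sup (f := fun i => (u i).natAbs) (Finset.mem_univ i)
    have h2 : |(u i : ℝ)| = ((u i).natAbs : ℝ) := by
      rw [Nat.cast_natAbs, Int.cast_abs]
    rw [h2]
    exact_mod_cast h1
  -- two coordinates
  obtain ⟨i, j, hd⟩ : ∃ i j, a i * b j - a j * b i ≠ 0 := by
    by_contra hcon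
    push Not at hcon
    have ha0 : a ≠ 0 := hab.ne_zero (0 : Fin 2)
    obtain ⟨i, hi⟩ := Function.ne_iff.1 ha0
    have h1 : (-(b i)) • a + (a i) • b = 0 := by
      funext j
      have := hcon i j
      simp only [Pi.add_apply, Pi.smul_apply, smul_eq_mul, Pi.zero_apply]
      linarith
    have h2 := (LinearIndependent.pair_iff.1 hab) _ _ h1
    exact hi h2.2
  -- the linear relation
  have hfin : ¬ LinearIndependent ℚ
      ![(⟨cst a, ha⟩ : S), (⟨cst b, hb⟩ : S), (⟨cst c, hc⟩ : S)] := by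
    intro h
    have h1 := h.fintype_card_le_finrank
    rw [Fintype.card_fin] at h1
    omega
  obtain ⟨g, hg, k, hk⟩ := Fintype.not_linearIndependent_iff.1 hfin
  have hrel : ∀ l, g 0 * a l + g 1 * b l + g 2 * c l = 0 := by
    intro l
    have h1 := congrArg (fun v : S => (v : Fin 5 → ℚ) l) hg
    simpa [Fin.sum_univ_three, cst] using h1
  have hg2 : g 2 ≠ 0 := by
    intro h2
    have h3 : ∀ l, g 0 * a l + g 1 * b l = 0 := by
      intro l
      have := hrel l
      rw [h2, zero_mul, add_zero] at this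
      exact this
    have hdQ : ((a i : ℚ) * b j - a j * b i) ≠ 0 := by exact_mod_cast hd
    have e0 : g 0 * ((a i : ℚ) * b j - a j * b i) = 0 := by
      linear_combination (b j : ℚ) * h3 i - (b i : ℚ) * h3 j
    have e1 : g 1 * ((a i : ℚ) * b j - a j * b i) = 0 := by
      linear_combination (a i : ℚ) * h3 j - (a j : ℚ) * h3 i
    have f0 := (mul_eq_zero.1 e0).resolve_right hdQ
    have f1 := (mul_eq_zero.1 e1).resolve_right hdQ
    fin_cases k
    · exact hk f0
    · exact hk f1
    · exact hk h2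
  -- Cramer
  have hcr : ∀ l, (a i * b j - a j * b i) * c l =
      (c i * b j - c j * b i) * a l + (a i * c j - a j * c i) * b l := by
    intro l
    have h1 : (g 2) * ((((a i * b j - a j * b i) * c l : ℤ) : ℚ) -
        (((c i * b j - c j * b i) * a l + (a i * c j - a j * c i) * b l : ℤ) : ℚ)) = 0 := by
      push_cast
      linear_combination ((a i : ℚ) * b j - a j * b i) * hrel l
        - ((b j : ℚ) * a l - (a j : ℚ) * b l) * hrel i
        + ((b i : ℚ) * a l - (a i : ℚ) * b l) * hrel j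
    have h2 := (mul_eq_zero.1 h1).resolve_left hg2
    exact_mod_cast sub_eq_zero.1 h2
  have hsum : ∀ γ : Fin 5 → ℝ, ((a i * b j - a j * b i : ℤ) : ℝ) * ∑ l, γ l * c l =
      ((c i * b j - c j * b i : ℤ) : ℝ) * ∑ l, γ l * a l +
        ((a i * c j - a j * c i : ℤ) : ℝ) * ∑ l, γ l * b l := by
    intro γ
    rw [Finset.mul_sum, Finset.mul_sum, Finset.mul_sum, ← Finset.sum_add_distrib]
    refine Finset.sum_congr rfl fun l _ => ?_
    have h1 := congrArg (fun z : ℤ => (z : ℝ)) (hcr l)
    simp only [Int.cast_mul, Int.cast_add] at h1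
    linear_combination (γ l) * h1
  have hd1 : (1 : ℝ) ≤ |((a i * b j - a j * b i : ℤ) : ℝ)| := by
    rw [← Int.cast_abs]
    exact_mod_cast Int.one_le_abs hd
  have hna := nn_nonneg α β a
  have hnb := nn_nonneg α β b
  have hnc := nn_nonneg α β c
  have hX : |((c i * b j - c j * b i : ℤ) : ℝ)| ≤ 2 * nrm c * nrm b := by
    push_cast
    calc |(c i : ℝ) * b j - c j * b i| ≤ |(c i : ℝ) * b j| + |(c j : ℝ) * b i| := abs_sub _ _
      _ = |(c i : ℝ)| * |(b j : ℝ)| + |(c j : ℝ)| * |(b i : ℝ)| := by rw [abs_mul, abs_mul]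
      _ ≤ nrm c * nrm b + nrm c * nrm b := add_le_add
          (mul_le_mul (hle c i) (hle b j) (abs_nonneg _) (Nat.cast_nonneg _))
          (mul_le_mul (hle c j) (hle b i) (abs_nonneg _) (Nat.cast_nonneg _))
      _ = 2 * nrm c * nrm b := by ring
  have hY : |((a i * c j - a j * c i : ℤ) : ℝ)| ≤ 2 * nrm a * nrm c := by
    push_cast
    calc |(a i : ℝ) * c j - a j * c i| ≤ |(a i : ℝ) * c j| + |(a j : ℝ) * c i| := abs_sub _ _
      _ = |(a i : ℝ)| * |(c j : ℝ)| + |(a j : ℝ)| * |(c i : ℝ)| := by rw [abs_mul, abs_mul]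
      _ ≤ nrm a * nrm c + nrm a * nrm c := add_le_add
          (mul_le_mul (hle a i) (hle c j) (abs_nonneg _) (Nat.cast_nonneg _))
          (mul_le_mul (hle a j) (hle c i) (abs_nonneg _) (Nat.cast_nonneg _))
      _ = 2 * nrm a * nrm c := by ring
  have hone : ∀ γ : Fin 5 → ℝ, |((a i * b j - a j * b i : ℤ) : ℝ)| * |∑ l, γ l * c l| ≤
      |((c i * b j - c j * b i : ℤ) : ℝ)| * |∑ l, γ l * a l| +
        |((a i * c j - a j * c i : ℤ) : ℝ)| * |∑ l, γ l * b l| := by
    intro γ
    rw [← abs_mul, hsum γ, ← abs_mul, ← abs_mul]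
    exact abs_add_le _ _
  have h1 : |((a i * b j - a j * b i : ℤ) : ℝ)| * nn α β c ≤
      |((c i * b j - c j * b i : ℤ) : ℝ)| * nn α β a +
        |((a i * c j - a j * c i : ℤ) : ℝ)| * nn α β b := by
    have ha' := hone α
    have hb' := hone β
    unfold nn
    linarith
  calc nn α β c ≤ |((a i * b j - a j * b i : ℤ) : ℝ)| * nn α β c :=
        le_mul_of_one_le_left hnc hd1
    _ ≤ _ := h1
    _ ≤ (2 * nrm c * nrm b) * nn α β a + (2 * nrm a * nrm c) * nn α β b :=
        add_le_add (mul_le_mul_of_nonneg_right hX hna) (mul_le_mul_of_nonneg_right hY hnb)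
    _ = 2 * nrm c * ((nrm b : ℝ) * nn α β a + nrm a * nn α β b) := by ring

end Pool.Agent.Srf5
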