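import Pool.Agent.Srf5.AGeoA
import Pool.Agent.Srf5.AGeoB
import Pool.Agent.Srf5.ABox

set_option autoImplicit false

/-! Geometry of numbers: pairs of independent monomials of small weight. -/

namespace Pool.Agent.Srf5

open LThree (nrm)
open Module Pool.Agent.CITLines

private theorem ag_nrm_le {u : Fin 5 → ℤ} {B : ℕ} : nrm u ≤ B ↔ ∀ i, (u i).natAbs ≤ B := by
  unfold LThree.nrm
  rw [Finset.sup_le_iff]
  exact ⟨fun h i => h i (Finset.mem_univ i), fun h i _ => h i⟩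

private theorem ag_nrm_pos {u : Fin 5 → ℤ} (h : u ≠ 0) : 1 ≤ nrm u := by
  by_contra hc
  push Not at hc
  apply h
  funext i
  have := ag_nrm_le.1 (Nat.lt_one_iff.1 hc).le i
  simpa using this

private theorem ag_nrm_smul (m : ℤ) (u : Fin 5 → ℤ) : nrm (m • u) = m.natAbs * nrm u := by
  refine le_antisymm (ag_nrm_le.2 fun i => ?_) ?_
  · rw [Pi.smul_apply, smul_eq_mul, Int.natAbs_mul]
    exact Nat.mul_le_mul_left _ (ag_nrm_le.1 le_rfl i)
  · rcases Nat.eq_zero_or_pos m.natAbs with h0 | h0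
    · rw [h0, zero_mul]
      exact Nat.zero_le _
    · rw [mul_comm, ← Nat.le_div_iff_mul_le h0]
      refine ag_nrm_le.2 fun i => ?_
      rw [Nat.le_div_iff_mul_le h0, mul_comm, ← Int.natAbs_mul]
      exact ag_nrm_le.1 (le_refl (nrm (m • u))) i

private theorem ag_nn_smul (α β : Fin 5 → ℝ) (m : ℤ) (u : Fin 5 → ℤ) :
    nn α β (m • u) = |(m : ℝ)| * nn α β u := by
  unfold nn
  have h : ∀ γ : Fin 5 → ℝ, ∑ i, γ i * ((m • u) i : ℤ) = (m : ℝ) * ∑ i, γ i * u i := by
    intro γ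
    rw [Finset.mul_sum]
    refine Finset.sum_congr rfl fun i _ => ?_
    rw [Pi.smul_apply, smul_eq_mul]
    push_cast
    ring
  rw [h α, h β, abs_mul, abs_mul, mul_add]

/-- a vector of minimal weight -/
private theorem ag_min (α β : Fin 5 → ℝ) (B : ℕ) (hB : 1 ≤ B) :
    ∃ a : Fin 5 → ℤ, a ≠ 0 ∧ nrm a ≤ B ∧ ∀ b : Fin 5 → ℤ, b ≠ 0 → nrm b ≤ B →
      nn α β a ≤ nn α β b := by
  have hfin : {a : Fin 5 → ℤ | a ≠ 0 ∧ nrm a ≤ B}.Finite := by
    refine (Set.finite_Icc (fun _ : Fin 5 => -(B : ℤ)) fun _ => (B : ℤ)).subset ?_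
    rintro a ⟨-, ha⟩
    rw [ag_nrm_le] at ha
    refine ⟨fun i => ?_, fun i => ?_⟩
    · have := ha i
      dsimp only
      omega
    · have := ha i
      dsimp only
      omega
  have hne : {a : Fin 5 → ℤ | a ≠ 0 ∧ nrm a ≤ B}.Nonempty := by
    refine ⟨fun _ => 1, fun h => ?_, ag_nrm_le.2 fun i => ?_⟩
    · have := congrFun h 0
      simp at this
    · simpa using hB
  obtain ⟨a, ha, hmin⟩ := Set.exists_min_image _ (nn α β) hfin hne
  exact ⟨a, ha.1, ha.2, fun b hb hb' => hmin b ⟨hb, hb'⟩⟩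

/-- dependent vectors have proportional weights -/
private theorem ag_dep {a b : Fin 5 → ℤ} (ha : a ≠ 0) (hb : b ≠ 0)
    (h : ¬ LinearIndependent ℤ ![a, b]) : ∃ s t : ℤ, s ≠ 0 ∧ t ≠ 0 ∧ s • a = t • b := by
  rw [LinearIndependent.pair_iff] at h
  push Not at h
  obtain ⟨s, t, hst, hne⟩ := h
  have hs : s ≠ 0 := by
    intro h0
    rw [h0, zero_smul, zero_add, smul_eq_zero] at hst
    exact hne h0 (hst.resolve_right hb)
  have ht : t ≠ 0 := by
    intro h0
    rw [h0, zero_smul, add_zero, smul_eq_zero] at hst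
    exact hs (hst.resolve_right ha)
  refine ⟨s, -t, hs, neg_ne_zero.2 ht, ?_⟩
  rw [neg_smul]
  exact eq_neg_of_add_eq_zero_left hst

private theorem ag_prop (α β : Fin 5 → ℝ) {a v : Fin 5 → ℤ} {p q : ℤ} (hq : q ≠ 0)
    (h : q • a = p • v) : nn α β a * nrm v = nn α β v * nrm a := by
  have h1 : |(q : ℝ)| * nn α β a = |(p : ℝ)| * nn α β v := by
    rw [← ag_nn_smul, ← ag_nn_smul, h]
  have h2 : q.natAbs * nrm a = p.natAbs * nrm v := by
    rw [← ag_nrm_smul, ← ag_nrm_smul, h]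
  have h3 : |(q : ℝ)| * (nrm a : ℝ) = |(p : ℝ)| * nrm v := by
    have h4 : ∀ m : ℤ, |(m : ℝ)| = ((m.natAbs : ℕ) : ℝ) := by
      intro m
      rw [Nat.cast_natAbs]
      push_cast
      rfl
    rw [h4, h4]
    exact_mod_cast h2
  have hq' : |(q : ℝ)| ≠ 0 := abs_ne_zero.2 (Int.cast_ne_zero.2 hq)
  refine mul_left_cancel₀ hq' ?_
  calc |(q : ℝ)| * (nn α β a * nrm v) = (|(q : ℝ)| * nn α β a) * nrm v := by ring
    _ = nn α β v * (|(p : ℝ)| * nrm v) := by rw [h1]; ring
    _ = |(q : ℝ)| * (nn α β v * nrm a) := by rw [← h3]; ring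

/-- **Geometry of numbers.** For all real `α, β` there are unrelated integer vectors `a, b` with
`|b| nn a + |a| nn b` small.

Proof. If some nonzero integer vector has `nn = 0` use `geo_zero`. Otherwise let `a_X` (`X ≥ 1`) be a
vector with `a_X ≠ 0`, `nrm a_X ≤ X` and `nn (a_X)` minimal among these vectors (a finite nonempty
set). By `exists_box` (with arbitrary small constants) `(X+1) * nn a_X → 0`; and
`nn a_{X+1} ≤ nn a_X`. So
(1) `nrm a_{X+1} * nn a_X + nrm a_X * nn a_{X+1} ≤ 2 (X+1) nn a_X → 0`.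
If for some large `X` the vectors `a_X, a_{X+1}` are not related we are done. Otherwise there is `X1`
with `R a_X a_{X+1}` for all `X ≥ X1`; let `c = a_{X1}`. By transitivity `R c a_X` for all
`X > X1` (`htrans` with the nonzero middle vector `a_X`), so all `a_X`, `X ≥ X1`, are in the plane
`S` of `exists_plane` for `c`. If `a_X, a_{X+1}` are linearly independent for arbitrarily large `X`
then `cramer_nn` and (1) give `nn c ≤ δ` for every `δ > 0`, so `nn c = 0`, a contradiction.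
Otherwise there is `X2` such that `a_X, a_{X+1}` are dependent for all `X ≥ X2`; then for `v = a_{X2}`
every `a_X`, `X ≥ X2`, is a rational multiple of `v`: `q a_X = p v` with integers `p, q ≠ 0`, so
`nn a_X = (nrm a_X / nrm v) nn v ≥ nn v / nrm v > 0`, a contradiction to `nn a_X → 0`. -/
theorem geo {R : (Fin 5 → ℤ) → (Fin 5 → ℤ) → Prop}
    (htrans : ∀ a b c, b ≠ 0 → R a b → R b c → R a c)
    (hfine : ∀ a b c, LinearIndependent ℤ ![a, b, c] → R a b → ¬ R a c)
    (α β : Fin 5 → ℝ) {κ : ℝ} (hκ : 0 < κ) :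
    ∃ a b, ¬ R a b ∧ (nrm b : ℝ) * nn α β a + nrm a * nn α β b < κ := by
  by_cases hz : ∃ a : Fin 5 → ℤ, a ≠ 0 ∧ nn α β a = 0
  · obtain ⟨a, ha, h0⟩ := hz
    exact geo_zero hfine α β hκ ha h0
  push Not at hz
  have hpos : ∀ a : Fin 5 → ℤ, a ≠ 0 → 0 < nn α β a := fun a ha =>
    lt_of_le_of_ne (nn_nonneg α β a) (Ne.symm (hz a ha))
  by_contra hcon
  push Not at hcon
  choose a ha0 han hamin using fun X : ℕ => ag_min α β (X + 1) (by omega)
  have hsmall : ∀ δ : ℝ, 0 < δ → ∃ X0 : ℕ, ∀ X ≥ X0, nn α β (a X) < δ ∧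
      (nrm (a (X + 1)) : ℝ) * nn α β (a X) + nrm (a X) * nn α β (a (X + 1)) < δ := by
    intro δ hδ
    obtain ⟨X0, -, hX⟩ := exists_box α β (half_pos hδ)
    refine ⟨X0, fun X hXX => ?_⟩
    obtain ⟨u, hu0, hun, hu⟩ := hX (X + 1) (by omega)
    have h1 : nn α β (a X) ≤ nn α β u := hamin X u hu0 hun
    have h2 : ((X : ℝ) + 2) * nn α β (a X) < δ / 2 := by
      have : ((X : ℝ) + 2) * nn α β (a X) ≤ ((X : ℝ) + 2) * nn α β u :=
        mul_le_mul_of_nonneg_left h1 (by positivity)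
      push_cast at hu
      linarith
    have h3 : nn α β (a (X + 1)) ≤ nn α β (a X) :=
      hamin (X + 1) (a X) (ha0 X) ((han X).trans (by omega))
    have h4 : (nrm (a (X + 1)) : ℝ) ≤ X + 2 := by
      have := han (X + 1)
      have h5 : ((nrm (a (X + 1)) : ℕ) : ℝ) ≤ ((X + 1 + 1 : ℕ) : ℝ) := by exact_mod_cast this
      push_cast at h5
      linarith
    have h5 : (nrm (a X) : ℝ) ≤ X + 2 := by
      have := han X
      have h5 : ((nrm (a X) : ℕ) : ℝ) ≤ ((X + 1 : ℕ) : ℝ) := by exact_mod_cast this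
      push_cast at h5
      linarith
    have h6 := nn_nonneg α β (a X)
    have h7 := nn_nonneg α β (a (X + 1))
    constructor
    · have : nn α β (a X) ≤ ((X : ℝ) + 2) * nn α β (a X) := by
        have hX0 : (0 : ℝ) ≤ X := Nat.cast_nonneg X
        nlinarith
      linarith
    · have h8 : (nrm (a (X + 1)) : ℝ) * nn α β (a X) ≤ (X + 2) * nn α β (a X) :=
        mul_le_mul_of_nonneg_right h4 h6
      have h9 : (nrm (a X) : ℝ) * nn α β (a (X + 1)) ≤ (X + 2) * nn α β (a X) :=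
        mul_le_mul h5 h3 h7 (by positivity)
      linarith
  obtain ⟨X1, hX1⟩ := hsmall κ hκ
  have hR : ∀ X ≥ X1, R (a X) (a (X + 1)) := by
    intro X hX
    by_contra hn
    exact absurd (hcon _ _ hn) (not_le.2 (hX1 X hX).2)
  have hRc : ∀ m : ℕ, R (a X1) (a (X1 + m + 1)) := by
    intro m
    induction m with
    | zero => exact hR X1 le_rfl
    | succ m ih => exact htrans _ _ _ (ha0 _) ih (hR (X1 + m + 1) (by omega))
  obtain ⟨S, hS, hcS, hS'⟩ := exists_plane hfine (a X1) (ha0 X1)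
  have hmem : ∀ X ≥ X1, cst (a X) ∈ S := by
    intro X hX
    rcases Nat.eq_or_lt_of_le hX with h | h
    · rw [← h]
      exact hcS
    · obtain ⟨m, rfl⟩ := Nat.exists_eq_add_of_lt h
      exact hS' _ (hRc m)
  by_cases hA : ∀ N : ℕ, ∃ X ≥ N, LinearIndependent ℤ ![a X, a (X + 1)]
  · have hc : 0 < nn α β (a X1) := hpos _ (ha0 X1)
    have hnc : (1 : ℝ) ≤ nrm (a X1) := by exact_mod_cast ag_nrm_pos (ha0 X1)
    obtain ⟨X0, hX0⟩ := hsmall (nn α β (a X1) / (2 * nrm (a X1))) (by positivity)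
    obtain ⟨X, hX, hli⟩ := hA (max X0 X1)
    have h1 := cramer_nn α β hS (hmem X (le_trans (le_max_right _ _) hX))
      (hmem (X + 1) (by have := le_trans (le_max_right X0 X1) hX; omega)) hcS hli
    have h2 := (hX0 X (le_trans (le_max_left _ _) hX)).2
    have h3 : 2 * (nrm (a X1) : ℝ) *
        ((nrm (a (X + 1)) : ℝ) * nn α β (a X) + nrm (a X) * nn α β (a (X + 1))) <
        2 * nrm (a X1) * (nn α β (a X1) / (2 * nrm (a X1))) :=
      mul_lt_mul_of_pos_left h2 (by positivity)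
    rw [mul_div_cancel₀ _ (by positivity : (2 * (nrm (a X1) : ℝ)) ≠ 0)] at h3
    linarith
  · push Not at hA
    obtain ⟨N, hN⟩ := hA
    have hdep : ∀ m : ℕ, ∃ p q : ℤ, q ≠ 0 ∧ q • a (N + m) = p • a N := by
      intro m
      induction m with
      | zero => exact ⟨1, 1, one_ne_zero, rfl⟩
      | succ m ih =>
        obtain ⟨p, q, hq, hpq⟩ := ih
        obtain ⟨s, t, hs, ht, hst⟩ := ag_dep (ha0 (N + m)) (ha0 (N + m + 1))
          (hN (N + m) (by omega))
        refine ⟨s * p, q * t, mul_ne_zero hq ht, ?_⟩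
        rw [← add_assoc, mul_smul, ← hst, smul_comm, hpq, mul_smul]
    have hv : 0 < nn α β (a N) := hpos _ (ha0 N)
    have hnv : (1 : ℝ) ≤ nrm (a N) := by exact_mod_cast ag_nrm_pos (ha0 N)
    obtain ⟨X0, hX0⟩ := hsmall (nn α β (a N) / nrm (a N)) (by positivity)
    have h1 := (hX0 (N + X0) (by omega)).1
    obtain ⟨p, q, hq, hpq⟩ := hdep X0
    have h2 := ag_prop α β hq hpq
    have h3 : (1 : ℝ) ≤ nrm (a (N + X0)) := by exact_mod_cast ag_nrm_pos (ha0 _)
    rw [lt_div_iff₀ (by positivity)] at h1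
    rw [h2] at h1
    nlinarith

end Pool.Agent.Srf5
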