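import Pool.Agent.Srf5.ADir

set_option autoImplicit false

/-! The vectors related to a vector; the case of a vector of weight zero. -/

namespace Pool.Agent.Srf5

open LThree (nrm)
open Module Pool.Agent.CITLines

private theorem cst_comb (a b : Fin 5 → ℤ) (s t : ℤ) :
    cst (s • a + t • b) = (s : ℚ) • cst a + (t : ℚ) • cst b := by
  funext i
  simp [cst_apply]

private theorem cst_mem_of {S : Submodule ℚ (Fin 5 → ℚ)} {u c : Fin 5 → ℤ} {t : ℤ} (ht : t ≠ 0)
    (h : u + t • c = 0) (hu : cst u ∈ S) : cst c ∈ S := by
  have h1 : cst c = (-(t : ℚ)⁻¹) • cst u := by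
    funext i
    have h2 := congrFun h i
    rw [Pi.add_apply, Pi.smul_apply, smul_eq_mul, Pi.zero_apply] at h2
    have h3 : (u i : ℚ) + (t : ℚ) * (c i : ℚ) = 0 := by exact_mod_cast h2
    have h4 : (t : ℚ) ≠ 0 := Int.cast_ne_zero.mpr ht
    rw [Pi.smul_apply, cst_apply, cst_apply, smul_eq_mul]
    field_simp
    linarith
  rw [h1]
  exact S.smul_mem _ hu

/-- The vectors related to `a` span a space of dimension at most two.

Proof. If all `b` with `R a b` are such that `a, b` are linearly dependent take the span of `a` if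
`a ≠ 0` (every `b` dependent on `a ≠ 0` has `cst b` in the span); if `a = 0` and some `b` with
`R a b`... then `![a, b]` is always dependent; to avoid this case we assume `a ≠ 0`. Otherwise pick
`b0` with `R a b0` and `a, b0` linearly independent; for every `c` with `R a c` the family `a, b0, c`
is not linearly independent (`hfine`), so `cst c` is in the span of `cst a, cst b0`. -/
theorem exists_plane {R : (Fin 5 → ℤ) → (Fin 5 → ℤ) → Prop}
    (hfine : ∀ a b c, LinearIndependent ℤ ![a, b, c] → R a b → ¬ R a c) (a : Fin 5 → ℤ)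
    (ha : a ≠ 0) :
    ∃ S : Submodule ℚ (Fin 5 → ℚ), finrank ℚ S ≤ 2 ∧ cst a ∈ S ∧ ∀ b, R a b → cst b ∈ S := by
  classical
  by_cases hex : ∃ b, R a b ∧ LinearIndependent ℤ ![a, b]
  · obtain ⟨b, hb, hab⟩ := hex
    refine ⟨Submodule.span ℚ (({cst a, cst b} : Finset (Fin 5 → ℚ)) : Set (Fin 5 → ℚ)), ?_, ?_,
      ?_⟩
    · exact (finrank_span_finset_le_card _).trans Finset.card_le_two
    · exact Submodule.subset_span (by simp)
    · intro c hc
      by_contra hcon
      refine hfine a b c ?_ hb hc
      rw [Fintype.linearIndependent_iff]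
      intro g hg
      rw [Fin.sum_univ_three] at hg
      change (g 0 • a + g 1 • b) + g 2 • c = 0 at hg
      have h2 : g 2 = 0 := by
        by_contra h2
        refine hcon (cst_mem_of h2 hg ?_)
        rw [cst_comb]
        exact Submodule.add_mem _ (Submodule.smul_mem _ _ (Submodule.subset_span (by simp)))
          (Submodule.smul_mem _ _ (Submodule.subset_span (by simp)))
      rw [h2, zero_smul, add_zero] at hg
      have h3 := LinearIndependent.pair_iff.mp hab _ _ hg
      intro i
      fin_cases i
      · exact h3.1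
      · exact h3.2
      · exact h2
  · push Not at hex
    refine ⟨Submodule.span ℚ (({cst a} : Finset (Fin 5 → ℚ)) : Set (Fin 5 → ℚ)), ?_, ?_, ?_⟩
    · refine (finrank_span_finset_le_card _).trans ?_
      rw [Finset.card_singleton]
      exact one_le_two
    · exact Submodule.subset_span (by simp)
    · intro c hc
      by_contra hcon
      refine hex c hc ?_
      rw [LinearIndependent.pair_iff]
      intro s t hst
      have ht : t = 0 := by
        by_contra ht
        refine hcon (cst_mem_of ht hst ?_)
        have h1 : cst (s • a) = (s : ℚ) • cst a := by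
          funext i
          simp [cst_apply]
        rw [h1]
        exact Submodule.smul_mem _ _ (Submodule.subset_span (by simp))
      rw [ht, zero_smul, add_zero] at hst
      exact ⟨(smul_eq_zero.mp hst).resolve_right ha, ht⟩

/-- The case where some integer vector has weight zero.

Proof. Let `S` be the plane of `exists_plane` for `a`; `exists_small_outside` for `S` and
`κ / (nrm a + 1)` gives `b` with `cst b ∉ S`, so `¬ R a b`, and
`nrm b * nn a + nrm a * nn b = nrm a * nn b < κ`. -/
theorem geo_zero {R : (Fin 5 → ℤ) → (Fin 5 → ℤ) → Prop}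
    (hfine : ∀ a b c, LinearIndependent ℤ ![a, b, c] → R a b → ¬ R a c) (α β : Fin 5 → ℝ)
    {κ : ℝ} (hκ : 0 < κ) {a : Fin 5 → ℤ} (ha : a ≠ 0) (h0 : nn α β a = 0) :
    ∃ a b, ¬ R a b ∧ (nrm b : ℝ) * nn α β a + nrm a * nn α β b < κ := by
  obtain ⟨S, hS, -, hb⟩ := exists_plane hfine a ha
  have hpos : (0 : ℝ) < nrm a + 1 := by positivity
  obtain ⟨b, hb1, hb2⟩ := exists_small_outside α β S hS (div_pos hκ hpos)
  refine ⟨a, b, fun h => hb1 (hb b h), ?_⟩
  rw [h0, mul_zero, zero_add]
  rw [lt_div_iff₀ hpos] at hb2
  have h1 := nn_nonneg α β b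
  nlinarith

end Pool.Agent.Srf5
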