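import Pool.Agent.Srf5.AIsoR

set_option autoImplicit false

/-! A surface in five-space is a component of the zero set of three polynomials. -/

namespace Pool.Agent.Srf5

open MvPolynomial Pool.Agent.CITLines

private theorem aiso_basis {k F : Type} [Field k] [Field F] [Algebra k F] (w : Fin 5 → F)
    (hdim : dm (kr k w) = 2) :
    ∃ r s : Fin 5, r ≠ s ∧ ∀ i, IsAlgebraic (Algebra.adjoin k {w r, w s}) (w i) := by
  obtain ⟨B, hB⟩ := (AlgebraicIndependent.matroid k F).exists_isBasis (Set.range w)
  have h1 : B.encard = 2 := by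
    have h2 := dm_kr (k := k) w
    rw [hdim] at h2
    rw [hB.encard_eq_eRk]
    exact h2.symm
  obtain ⟨x, y, hxy, hBxy⟩ := Set.encard_eq_two.mp h1
  obtain ⟨r, hr⟩ := hB.subset (show x ∈ B by rw [hBxy]; exact Or.inl rfl)
  obtain ⟨s, hs⟩ := hB.subset (show y ∈ B by rw [hBxy]; exact Or.inr rfl)
  refine ⟨r, s, ?_, fun i => ?_⟩
  · rintro rfl
    exact hxy (hr.symm.trans hs)
  · have h3 := (AlgebraicIndependent.matroid_isBasis_iff.mp hB).2.2 (w i) ⟨i, rfl⟩
    rw [hr, hs]
    rw [hBxy] at h3
    exact h3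

private theorem aiso_enum (r s : Fin 5) (h : r ≠ s) :
    ∃ e : Fin 3 → Fin 5, ∀ i, i = r ∨ i = s ∨ ∃ j, e j = i := by
  classical
  have hcard : ((Finset.univ : Finset (Fin 5)) \ {r, s}).card = 3 := by
    rw [Finset.card_sdiff_of_subset (Finset.subset_univ _), Finset.card_pair h]
    rfl
  let E := Finset.equivFinOfCardEq hcard
  refine ⟨fun j => (E.symm j).1, fun i => ?_⟩
  by_cases hi : i = r ∨ i = s
  · rcases hi with hi | hi
    · exact Or.inl hi
    · exact Or.inr (Or.inl hi)
  · refine Or.inr (Or.inr ⟨E ⟨i, ?_⟩, by simp⟩)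
    rw [Finset.mem_sdiff, Finset.mem_insert, Finset.mem_singleton]
    exact ⟨Finset.mem_univ _, hi⟩

/-- **A surface in five-space is a component of the zero set of three polynomials.** `g0` vanishes on
the other components.

Proof. `exists_indep_finset (kr k w)` gives two coordinates `r ≠ s` which are algebraically independent
(a finset `I` with `dm = I.card = 2`), and then every `w i` is algebraic over the algebra generated by
`w r, w s` (otherwise the three elements `w r, w s, w i` would be algebraically independent, and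
`card_le_dm` (or `rk`) gives `3 ≤ dm = 2`). For the three `i` different from `r, s` take `f_i, h_i` from
`exists_relation`: `g j` are the `f_i` (enumerate the complement of `{r, s}` by `Fin 3`). Let `Q ≤ kr k w` be a
prime containing the `g j`, `ζ` its generic point (`gen Q`, `kr_gen`). `ζ r, ζ s` are algebraically
independent (a relation would hold for `w r, w s`), `h_i ∉ Q`, so all `ζ_i` are algebraic over
`ζ r, ζ s`, `dm Q = rk (range ζ) ≤ 2` (`dm_kr`, `rk_le_of_algebraic`); with `dm_strictAnti` `Q = kr k w`. So `kr k w` is a minimal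
prime of `I = span (range g)`. The other minimal primes `q` (finitely many) are not contained in
`kr k w`; choose `g0_q ∈ q`, `g0_q ∉ kr k w` and let `g0` be the product. A prime `Q` containing all
`g j` contains a minimal prime of `I`: either `kr k w` or one of the others, which contains `g0`. -/
theorem exists_eqs {k F : Type} [Field k] [Field F] [Algebra k F] (w : Fin 5 → F)
    (hdim : dm (kr k w) = 2) : ∃ (g : Fin 3 → MvPolynomial (Fin 5) k) (g0 : MvPolynomial (Fin 5) k),
      (∀ j, g j ∈ kr k w) ∧ g0 ∉ kr k w ∧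
      ∀ Q : Ideal (MvPolynomial (Fin 5) k), Q.IsPrime → (∀ j, g j ∈ Q) → kr k w ≤ Q ∨ g0 ∈ Q := by
  classical
  obtain ⟨r, s, hrs, halg⟩ := aiso_basis w hdim
  choose f h hf hh hrel using fun i => exists_relation w r s i (halg i)
  obtain ⟨e, he⟩ := aiso_enum r s hrs
  set P : Ideal (MvPolynomial (Fin 5) k) := kr k w with hP
  have hPp : P.IsPrime := inferInstance
  set I : Ideal (MvPolynomial (Fin 5) k) := Ideal.span (Set.range fun j => f (e j)) with hI
  have hmin : ∀ Q : Ideal (MvPolynomial (Fin 5) k), Q.IsPrime → (∀ j, f (e j) ∈ Q) → Q ≤ P →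
      P ≤ Q := by
    intro Q hQ hfQ hQP
    have h0 : ∀ i, IsAlgebraic (Algebra.adjoin k {gen Q r, gen Q s}) (gen Q i) := by
      intro i
      rcases he i with hi | hi | ⟨j, hj⟩
      · rw [hi]
        exact isAlgebraic_algebraMap (⟨gen Q r, Algebra.subset_adjoin (Or.inl rfl)⟩ :
          Algebra.adjoin k {gen Q r, gen Q s})
      · rw [hi]
        exact isAlgebraic_algebraMap (⟨gen Q s, Algebra.subset_adjoin (Or.inr rfl)⟩ :
          Algebra.adjoin k {gen Q r, gen Q s})
      · refine hrel i _ (gen Q) ?_ ?_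
        · have h1 : f i ∈ kr k (gen Q) := by
            rw [kr_gen, ← hj]
            exact hfQ j
          exact h1
        · intro h2
          have h3 : h i ∈ kr k (gen Q) := h2
          rw [kr_gen] at h3
          exact hh i (hQP h3)
    have h1 : rk k (Set.range (gen Q)) ≤ rk k ({gen Q r, gen Q s} : Set (Kf Q)) := by
      refine rk_le_of_algebraic ?_
      rintro _ ⟨i, rfl⟩
      exact h0 i
    have h2 : rk k ({gen Q r, gen Q s} : Set (Kf Q)) ≤ 2 := by
      refine (rk_le_encard _).trans ((Set.encard_insert_le _ _).trans ?_)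
      rw [Set.encard_singleton]
      norm_num
    have h3 : dm Q ≤ 2 := by
      have h4 := dm_eq_rk Q
      have h5 : (dm Q : ℕ∞) ≤ 2 := by
        rw [h4]
        exact h1.trans h2
      exact_mod_cast h5
    by_contra hcon
    have hlt : Q < P := lt_of_le_not_ge hQP hcon
    have h4 := dm_strictAnti hlt
    omega
  have hfin : (I.minimalPrimes).Finite := Ideal.finite_minimalPrimes_of_isNoetherianRing _ _
  have hsep : ∀ q : Ideal (MvPolynomial (Fin 5) k), ∃ g, q ∈ I.minimalPrimes → q ≠ P →
      g ∈ q ∧ g ∉ P := by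
    intro q
    by_cases hq : q ∈ I.minimalPrimes ∧ q ≠ P
    · obtain ⟨hq1, hq2⟩ := hq
      have hqp : q.IsPrime := hq1.1.1
      have hIq : I ≤ q := hq1.1.2
      have hnle : ¬ q ≤ P := by
        intro hle
        have h1 := hmin q hqp (fun j => hIq (Ideal.subset_span ⟨j, rfl⟩)) hle
        exact hq2 (le_antisymm hle h1)
      obtain ⟨g, hg1, hg2⟩ := Set.not_subset.mp hnle
      exact ⟨g, fun _ _ => ⟨hg1, hg2⟩⟩
    · exact ⟨0, fun h1 h2 => absurd ⟨h1, h2⟩ hq⟩
  choose g0 hg0 using hsep
  refine ⟨fun j => f (e j), ∏ q ∈ hfin.toFinset.erase P, g0 q, fun j => hf _, ?_, ?_⟩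
  · intro hmem
    obtain ⟨q, hq, hqP⟩ := (hPp.prod_mem_iff).mp hmem
    rw [Finset.mem_erase, hfin.mem_toFinset] at hq
    exact (hg0 q hq.2 hq.1).2 hqP
  · intro Q hQ hgQ
    have hIQ : I ≤ Q := by
      rw [hI, Ideal.span_le]
      rintro _ ⟨j, rfl⟩
      exact hgQ j
    obtain ⟨q, hq, hqQ⟩ := Ideal.exists_minimalPrimes_le hIQ
    by_cases hqP : q = P
    · left
      rw [← hqP]
      exact hqQ
    · right
      have h1 := (hg0 q hq hqP).1
      have h2 : q ∈ hfin.toFinset.erase P := by
        rw [Finset.mem_erase, hfin.mem_toFinset]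
        exact ⟨hqP, hq⟩
      exact Ideal.mem_of_dvd Q (Finset.dvd_prod_of_mem _ h2) (hqQ h1)

end Pool.Agent.Srf5
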