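import Pool.Agent.Srf5.Defs

set_option autoImplicit false

/-! An algebraic coordinate gives a polynomial relation. -/

namespace Pool.Agent.Srf5

open MvPolynomial Pool.Agent.CITLines

private theorem adj_eq {k F : Type} [Field k] [Field F] [Algebra k F] (w : Fin 5 → F)
    (r s : Fin 5) : Algebra.adjoin k {w r, w s} =
      (aeval (R := k) (fun j => w ((![r, s] : Fin 2 → Fin 5) j))).range := by
  rw [← Algebra.adjoin_range_eq_range_aeval]
  congr 1
  ext x
  simp only [Set.mem_insert_iff, Set.mem_singleton_iff, Set.mem_range]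
  constructor
  · rintro (rfl | rfl)
    · exact ⟨0, rfl⟩
    · exact ⟨1, rfl⟩
  · rintro ⟨j, rfl⟩
    fin_cases j
    · exact Or.inl rfl
    · exact Or.inr rfl

private theorem aeval_ren {k F : Type} [Field k] [Field F] [Algebra k F] (w : Fin 5 → F)
    (r s : Fin 5) (b : MvPolynomial (Fin 2) k) : aeval w (rename ![r, s] b) =
      aeval (fun j => w ((![r, s] : Fin 2 → Fin 5) j)) b := by
  rw [aeval_rename]
  rfl

/-- An algebraic element gives a polynomial relation.

Proof. `w i` is algebraic over the subalgebra generated by `w r`, `w s`, which is the range of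
`aeval ![w r, w s]`: there is a nonzero polynomial `∑ a_n X^n` with coefficients
`a_n = aeval ![w r, w s] (b_n)`; not all `b_n` are in the kernel. Choose the family `b_n` and the
largest `N` with `aeval ![w r, w s] b_N ≠ 0`; `N ≥ 1`. Take
`f = ∑_{n ≤ N} (rename ![r, s] b_n) * X i ^ n` and `h = rename ![r, s] (b_N)`. Then `f ∈ kr k w`,
`h ∉ kr k w`. If `Q` is a prime with `f ∈ Q`, `h ∉ Q`, and `ζ` its generic point, then `ζ_i` is a root of
the nonzero polynomial `∑ (aeval ![ζ r, ζ s] b_n) X^n`, so it is algebraic over the algebra generated by `ζ_r, ζ_s`. -/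
theorem exists_relation {k F : Type} [Field k] [Field F] [Algebra k F] (w : Fin 5 → F)
    (r s i : Fin 5) (hi : IsAlgebraic (Algebra.adjoin k {w r, w s}) (w i)) :
    ∃ f h : MvPolynomial (Fin 5) k, f ∈ kr k w ∧ h ∉ kr k w ∧
      ∀ (L : Type) [Field L] [Algebra k L] (ζ : Fin 5 → L), aeval ζ f = 0 → aeval ζ h ≠ 0 →
        IsAlgebraic (Algebra.adjoin k {ζ r, ζ s}) (ζ i) := by
  obtain ⟨p, hp, hpi⟩ := hi
  have hb : ∀ n, ∃ b : MvPolynomial (Fin 2) k,
      aeval (fun j => w ((![r, s] : Fin 2 → Fin 5) j)) b = ((p.coeff n : _) : F) := by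
    intro n
    have h1 : ∀ x ∈ Algebra.adjoin k {w r, w s}, ∃ b : MvPolynomial (Fin 2) k,
        aeval (fun j => w ((![r, s] : Fin 2 → Fin 5) j)) b = x := by
      intro x hx
      rw [adj_eq] at hx
      exact hx
    exact h1 _ (p.coeff n).2
  choose b hb using hb
  have hN : ((p.coeff p.natDegree : _) : F) ≠ 0 := by
    intro h0
    apply hp
    rw [← Polynomial.leadingCoeff_eq_zero]
    exact Subtype.ext h0
  refine ⟨∑ n ∈ Finset.range (p.natDegree + 1), rename ![r, s] (b n) * X i ^ n,
    rename ![r, s] (b p.natDegree), ?_, ?_, ?_⟩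
  · change aeval w _ = 0
    rw [map_sum]
    rw [Polynomial.aeval_eq_sum_range] at hpi
    rw [← hpi]
    refine Finset.sum_congr rfl fun n _ => ?_
    rw [map_mul, map_pow, aeval_X, aeval_ren, hb]
    rfl
  · intro h0
    apply hN
    have h1 : aeval w (rename ![r, s] (b p.natDegree)) = 0 := h0
    rwa [aeval_ren, hb] at h1
  · intro L _ _ ζ hf hh
    have hmem : ∀ n, aeval (fun j => ζ ((![r, s] : Fin 2 → Fin 5) j)) (b n) ∈
        Algebra.adjoin k {ζ r, ζ s} := by
      intro n
      rw [adj_eq]
      exact ⟨b n, rfl⟩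
    refine ⟨∑ n ∈ Finset.range (p.natDegree + 1),
      Polynomial.monomial n (⟨_, hmem n⟩ : Algebra.adjoin k {ζ r, ζ s}), ?_, ?_⟩
    · intro h0
      have h1 := congrArg (fun q => Polynomial.coeff q p.natDegree) h0
      simp only [Polynomial.finsetSum_coeff, Polynomial.coeff_monomial, Finset.sum_ite_eq',
        Polynomial.coeff_zero] at h1
      rw [if_pos (by simp)] at h1
      apply hh
      rw [aeval_ren]
      exact congrArg Subtype.val h1
    · rw [map_sum] at hf ⊢
      rw [← hf]
      refine Finset.sum_congr rfl fun n _ => ?_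
      rw [Polynomial.aeval_monomial, map_mul, map_pow, aeval_X, aeval_ren]
      rfl

end Pool.Agent.Srf5
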