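import Pool.Agent.Srf5.ALau

set_option autoImplicit false

/-! The constant monomials of a curve without exact relations. -/

namespace Pool.Agent.Srf5

open MvPolynomial Module NumberField Pool.Agent.CITLines

/-- A constant monomial is a root of unity if it is one at a point.

Proof. `x = mon w a` is algebraic over `ℚ`; let `f = minpoly ℚ x`. By `spec` (`m = 1`; the polynomial
`f`, read in one variable, is a relation between monomials of `w`) `f (mon P a) = 0`; `f` is monic and
irreducible, so `f = minpoly ℚ (mon P a)` (`minpoly.eq_of_irreducible_of_monic`), and it divides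
`X ^ m - 1` because `mon P a ^ m = 1` (`minpoly.dvd`). So `x ^ m = 1`. -/
theorem const_pow {F F' : Type} [Field F] [CharZero F] [Field F'] [CharZero F'] {w : Fin 5 → F}
    {P : Fin 5 → F'} (hw : ∀ i, w i ≠ 0) (hP : ∀ i, P i ≠ 0) (h : kr ℚ w ≤ kr ℚ P)
    {a : Fin 5 → ℤ} (ha : a ∈ Lam ℚ w) {m : ℕ} (hm : 0 < m) (h1 : mon P a ^ m = 1) :
    mon w a ^ m = 1 := by
  have hx : IsAlgebraic ℚ (mon w a) := ha
  have hxi : IsIntegral ℚ (mon w a) := hx.isIntegral
  set f := minpoly ℚ (mon w a) with hf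
  have h2 : aeval (fun _ : Fin 1 => mon P a) (Polynomial.aeval (X 0 : MvPolynomial (Fin 1) ℚ) f)
      = 0 := by
    refine spec hw hP h (fun _ => a) _ ?_
    rw [← Polynomial.aeval_algHom_apply, aeval_X, hf]
    exact minpoly.aeval ℚ (mon w a)
  rw [← Polynomial.aeval_algHom_apply, aeval_X] at h2
  have h3 : f = minpoly ℚ (mon P a) :=
    minpoly.eq_of_irreducible_of_monic (minpoly.irreducible hxi) h2 (minpoly.monic hxi)
  have h4 : f ∣ Polynomial.X ^ m - 1 := by
    rw [h3]
    apply minpoly.dvd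
    rw [map_sub, map_pow, Polynomial.aeval_X, map_one, h1, sub_self]
  obtain ⟨g, hg⟩ := h4
  have h5 := congrArg (Polynomial.aeval (mon w a)) hg
  rw [map_mul, hf, minpoly.aeval, zero_mul, map_sub, map_pow, Polynomial.aeval_X, map_one,
    sub_eq_zero] at h5
  exact h5

/-- If a curve without exact relations has a point of rank at most two then its constant monomials
have rank at most two.

Proof. `Lam ℚ w` is a subgroup (`IsAlgebraic.mul`, `IsAlgebraic.inv`, `mon_add'`, `mon_neg`), let
`L : Submodule ℤ (Fin 5 → ℤ)` be this subgroup and `S = QS L`. If `cst u ∈ S` then some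
`k • u ∈ L`, `k ≠ 0` (`exists_mult_mem`), so `mon w u ^ k` is algebraic and `u ∈ Lam`. Let `U` be the
subspace of `RankLe 2 P`. `S ⊓ U = ⊥`: for `v ≠ 0` in it, some integer multiple of `v` is an integer
vector `u ≠ 0` (`exists_clear`) with `cst u ∈ S`, `cst u ∈ U`, so `u ∈ Lam`, `mon P u ^ m = 1` with
`m > 0`, by `const_pow` `mon w u ^ m = mon w (m • u) = 1` and `hrel` gives `m • u = 0`, `u = 0`. So
`finrank S + finrank U ≤ 5`, `finrank U ≥ 3`. -/
theorem lam_rank {F : Type} [Field F] [CharZero F] {w : Fin 5 → F} (hw : ∀ i, w i ≠ 0)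
    (hrel : ∀ u, mon w u = 1 → u = 0) {K : Type} [Field K] [NumberField K] {P : Fin 5 → K}
    (hP : ∀ i, P i ≠ 0) (h : kr ℚ w ≤ kr ℚ P) (h2 : LThree.RankLe 2 P) :
    ∃ S : Submodule ℚ (Fin 5 → ℚ), finrank ℚ S ≤ 2 ∧ ∀ u : Fin 5 → ℤ, cst u ∈ S ↔ u ∈ Lam ℚ w := by
  have hz : mon w 0 = 1 := mon_zero w
  have hne : ∀ u, mon w u ≠ 0 := fun u =>
    Finset.prod_ne_zero_iff.mpr fun i _ => zpow_ne_zero _ (hw i)
  have hzpow : ∀ (k : ℤ) (x : F), IsAlgebraic ℚ x → IsAlgebraic ℚ (x ^ k) := by
    intro k x hx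
    obtain ⟨n, rfl | rfl⟩ := k.eq_nat_or_neg
    · rw [zpow_natCast]
      exact hx.pow n
    · rw [zpow_neg, zpow_natCast]
      exact (hx.pow n).inv
  let L : Submodule ℤ (Fin 5 → ℤ) :=
    { carrier := Lam ℚ w
      zero_mem' := by
        change IsAlgebraic ℚ (mon w 0)
        rw [hz]
        exact isAlgebraic_one
      add_mem' := by
        intro a b ha hb
        change IsAlgebraic ℚ (mon w (a + b))
        rw [mon_add' hw]
        exact IsAlgebraic.mul ha hb
      smul_mem' := by
        intro k a ha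
        change IsAlgebraic ℚ (mon w (k • a))
        rw [mon_smul]
        exact hzpow k _ ha }
  have hL : ∀ u, u ∈ L ↔ u ∈ Lam ℚ w := fun u => Iff.rfl
  have hmult : ∀ (u b : Fin 5 → ℤ) (k : ℤ), (∀ i, (b i : ℚ) = k * cst u i) → b = k • u := by
    intro u b k hkb
    funext i
    have := hkb i
    rw [cst_apply] at this
    rw [Pi.smul_apply, smul_eq_mul]
    exact_mod_cast this
  have hS : ∀ u : Fin 5 → ℤ, cst u ∈ QS L ↔ u ∈ Lam ℚ w := by
    intro u
    constructor
    · intro hu
      obtain ⟨k, hk, b, hb, hkb⟩ := exists_mult_mem hu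
      rw [hmult u b k hkb, hL] at hb
      have h3 : IsAlgebraic ℚ (mon w u ^ k) := by
        rw [← mon_smul]
        exact hb
      change IsAlgebraic ℚ (mon w u)
      obtain ⟨n, rfl | rfl⟩ := k.eq_nat_or_neg
      · rw [zpow_natCast] at h3
        exact h3.of_pow (Nat.pos_of_ne_zero fun h => hk (by rw [h]; rfl))
      · rw [zpow_neg, zpow_natCast] at h3
        have h4 := h3.inv
        rw [inv_inv] at h4
        exact h4.of_pow (Nat.pos_of_ne_zero fun h => hk (by rw [h]; rfl))
    · exact fun hu => cst_mem_QS ((hL u).2 hu)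
  refine ⟨QS L, ?_, hS⟩
  obtain ⟨U, hU, hUm⟩ := h2
  rw [Fintype.card_fin] at hU
  have hint : QS L ⊓ U = ⊥ := by
    rw [eq_bot_iff]
    rintro v ⟨hv1, hv2⟩
    rw [Submodule.mem_bot]
    by_contra hv0
    obtain ⟨k, hk, u, hu⟩ := exists_clear v
    have hk' : (k : ℚ) ≠ 0 := by exact_mod_cast hk
    have hcu : cst u = (k : ℚ) • v := by
      funext i
      rw [cst_apply, hu, Pi.smul_apply, smul_eq_mul]
    have h3 : u ∈ Lam ℚ w := (hS u).1 (by rw [hcu]; exact Submodule.smul_mem _ _ hv1)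
    have h4 : (fun i => (u i : ℚ)) ∈ U := by
      have : (fun i => (u i : ℚ)) = (k : ℚ) • v := hcu
      rw [this]
      exact Submodule.smul_mem _ _ hv2
    obtain ⟨m, hm, h5⟩ := hUm u h4
    have h6 : mon P u ^ m = 1 := h5
    have h7 := const_pow hw hP h h3 hm h6
    have h8 : mon w ((m : ℤ) • u) = 1 := by
      rw [mon_smul, zpow_natCast, h7]
    have h9 := hrel _ h8
    have h10 : u = 0 := by
      rcases smul_eq_zero.1 h9 with h | h
      · exact absurd (by exact_mod_cast h) hm.ne'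
      · exact h
    have h11 : cst u = 0 := cst_eq_zero.2 h10
    rw [hcu] at h11
    rcases smul_eq_zero.1 h11 with h | h
    · exact hk' h
    · exact hv0 h
  have h3 := Submodule.finrank_sup_add_finrank_inf_eq (QS L) U
  rw [hint, finrank_bot, add_zero] at h3
  have h4 : finrank ℚ (QS L ⊔ U : Submodule ℚ (Fin 5 → ℚ)) ≤ 5 := by
    have := Submodule.finrank_le (QS L ⊔ U : Submodule ℚ (Fin 5 → ℚ))
    rw [Module.finrank_fin_fun] at this
    exact this
  omega

end Pool.Agent.Srf5
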