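import Pool.Agent.Srf5.AMn
import Pool.Agent.Srf5.ALau

set_option autoImplicit false

/-! Linear forms at the points of a curve where a monomial is one. -/

namespace Pool.Agent.Srf5

open MvPolynomial Module Pool.Agent.CITLines
open LThree (nrm)

/-- a monomial with one coordinate -/
private theorem mon_single {K : Type} [Field K] (w : Fin 5 → K) (i : Fin 5) :
    mon w (Pi.single i 1) = w i := by
  unfold mon
  rw [Finset.prod_eq_single i]
  · rw [Pi.single_eq_same, zpow_one]
  · intro j _ hj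
    rw [Pi.single_eq_of_ne hj, zpow_zero]
  · intro h
    exact absurd (Finset.mem_univ i) h

private theorem abs_le_nrm {ι : Type} [Fintype ι] (u : ι → ℤ) (i : ι) : |u i| ≤ (nrm u : ℕ) := by
  have h : (u i).natAbs ≤ nrm u :=
    Finset.le_sup (f := fun i => (u i).natAbs) (Finset.mem_univ i)
  rw [Int.abs_eq_natAbs]
  exact_mod_cast h

/-- the exponents of the relation -/
private noncomputable def expo (u : Fin 5 → ℤ) : Fin 6 → Fin 5 → ℤ :=
  Fin.cons u fun i => Pi.single i 1

/-- the relation -/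
private noncomputable def relf {k : Type} [Field k] (c : Fin 5 → k) {p q : ℕ}
    (d : Fin p × Fin q → k) (s0 : ℕ) : MvPolynomial (Fin 6) k :=
  ∑ x : Fin p × Fin q, if s0 ≤ (x.1 : ℕ) then
    C (d x) * (X 0 - 1) ^ ((x.1 : ℕ) - s0) * (∑ i : Fin 5, C (c i) * X i.succ) ^ (x.2 : ℕ) else 0

private theorem aeval_relf {k : Type} [Field k] (c : Fin 5 → k) {p q : ℕ}
    (d : Fin p × Fin q → k) (s0 : ℕ) (u : Fin 5 → ℤ) {K : Type} [Field K] [Algebra k K]
    (P : Fin 5 → K) :
    aeval (fun j => mon P (expo u j)) (relf c d s0) =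
      ∑ x : Fin p × Fin q, if s0 ≤ (x.1 : ℕ) then
        algebraMap k K (d x) * (mon P u - 1) ^ ((x.1 : ℕ) - s0) *
          (∑ i : Fin 5, algebraMap k K (c i) * P i) ^ (x.2 : ℕ) else 0 := by
  unfold relf
  rw [map_sum]
  refine Finset.sum_congr rfl fun x _ => ?_
  split_ifs with h
  · rw [map_mul, map_mul, map_pow, map_pow, map_sub, map_one, aeval_X, MvPolynomial.algHom_C, map_sum]
    have h1 : mon P (expo u 0) = mon P u := rfl
    rw [h1]
    congr 2
    refine Finset.sum_congr rfl fun i _ => ?_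
    rw [map_mul, aeval_X, MvPolynomial.algHom_C]
    have h2 : mon P (expo u i.succ) = P i := by
      have : expo u i.succ = Pi.single i 1 := Fin.cons_succ _ _ _
      rw [this, mon_single]
    rw [h2]
  · rw [map_zero]

/-- Linear forms satisfy equations of degree at most `M |u|` at the points of a curve with `x^u = 1`.

Proof. Let `C` be the constant of `finrank_Mn_le` (`dm = 1`), `M = 3 C + 1`. Let `α = nrm u ≥ 1`
(`u ≠ 0` as `mon w u ≠ 1`) and `l = ∑ c_i w_i ∈ Mn k w 1`. The elements `(w^u - 1)^s l^j` for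
`s ≤ M`, `j ≤ M α` are in `Mn k w (2 M α)` (`pow_mem_Mn`, `mul_mem_Mn`; `w^u - 1 ∈ Mn k w α`)
of dimension at most `C (2 M α + 1) ≤ 3 C M α < (M + 1) (M α + 1)`, so by `exists_dep` there is a relation
`∑ d(s, j) (w^u - 1)^s l^j = 0` with `d ≠ 0`. Let `s0` be the least `s` such that `d(s, j) ≠ 0` for
some `j`; divide by `(w^u - 1)^s0 ≠ 0`: `∑_{s ≥ s0, j} d(s, j) (w^u - 1)^(s - s0) l^j = 0`. This is a
polynomial relation between the monomials `w^u, w_1, ..., w_5`, so by `spec` (with `m = 6` and the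
exponents `u, e_1, ..., e_5`, `Fin.cons u (fun i => Pi.single i 1)`) it holds for `P`:
`∑_{s ≥ s0, j} d(s, j) (P^u - 1)^(s - s0) (∑ c_i P_i)^j = 0`, and as `P^u = 1` only the terms
`s = s0` remain. So `B = ∑_j d(s0, j) X^j`. -/
theorem lin_eq {k : Type} [Field k] {F : Type} [Field F] [Algebra k F] (w : Fin 5 → F)
    (hw : ∀ i, w i ≠ 0) (hdim : dm (kr k w) = 1) :
    ∃ M : ℕ, 1 ≤ M ∧ ∀ u : Fin 5 → ℤ, mon w u ≠ 1 → ∀ c : Fin 5 → k, ∃ B : Polynomial k,
      B ≠ 0 ∧ B.natDegree ≤ M * nrm u ∧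
      ∀ (K : Type) [Field K] [Algebra k K] (P : Fin 5 → K), (∀ i, P i ≠ 0) → kr k w ≤ kr k P →
        mon P u = 1 → Polynomial.aeval (∑ i, algebraMap k K (c i) * P i) B = 0 := by
  classical
  obtain ⟨C0, hC0⟩ := finrank_Mn_le (k := k) w hw
  refine ⟨3 * C0 + 1, by omega, fun u hu c => ?_⟩
  obtain ⟨α, hα⟩ : ∃ α, α = nrm u := ⟨_, rfl⟩
  have hα1 : 1 ≤ α := by
    by_contra h0
    apply hu
    have h1 : u = 0 := by
      funext i
      have h2 := abs_le_nrm u i
      have h3 : nrm u = 0 := by omega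
      rw [h3] at h2
      have h4 : |u i| ≤ 0 := by exact_mod_cast h2
      exact abs_nonpos_iff.mp h4
    rw [h1, mon_zero]
  obtain ⟨M, hM⟩ : ∃ M, M = 3 * C0 + 1 := ⟨_, rfl⟩
  rw [← hM, ← hα]
  obtain ⟨l, hl⟩ : ∃ l : F, l = ∑ i, algebraMap k F (c i) * w i := ⟨_, rfl⟩
  have hl1 : l ∈ Mn k w 1 := by
    rw [hl]
    refine Submodule.sum_mem _ fun i _ => ?_
    rw [← Algebra.smul_def]
    refine Submodule.smul_mem _ _ ?_
    have h1 := mon_mem_Mn (k := k) w (N := 1) (e := Pi.single i 1) (fun j => by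
      by_cases hj : j = i
      · subst hj
        rw [Pi.single_eq_same]
        norm_num
      · rw [Pi.single_eq_of_ne hj]
        norm_num)
    rwa [mon_single] at h1
  have hv1 : mon w u - 1 ∈ Mn k w α := by
    refine Submodule.sub_mem _ (mon_mem_Mn w fun i => ?_) ?_
    · rw [hα]
      exact abs_le_nrm u i
    · have h1 := mon_mem_Mn (k := k) w (N := α) (e := 0) (fun j => by
        rw [Pi.zero_apply, abs_zero]
        exact Int.natCast_nonneg α)
      rwa [mon_zero] at h1
  obtain ⟨d, hd0, hd⟩ := exists_dep (k := k) w (N := 2 * M * α)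
    (fun x : Fin (M + 1) × Fin (M * α + 1) => (mon w u - 1) ^ (x.1 : ℕ) * l ^ (x.2 : ℕ))
    (fun x => by
      have h1 := mul_mem_Mn (k := k) w hw (pow_mem_Mn w hw hv1 (x.1 : ℕ))
        (pow_mem_Mn w hw hl1 (x.2 : ℕ))
      refine Mn_mono w ?_ h1
      have h2 : (x.1 : ℕ) ≤ M := by have := x.1.2; omega
      have h3 : (x.2 : ℕ) ≤ M * α := by have := x.2.2; omega
      have h4 : (x.1 : ℕ) * α ≤ M * α := Nat.mul_le_mul_right _ h2
      have h5 : 2 * M * α = M * α + M * α := by ring
      omega)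
    (by
      have h1 := hC0 (2 * M * α)
      rw [hdim, pow_one] at h1
      refine lt_of_le_of_lt h1 ?_
      rw [Fintype.card_prod, Fintype.card_fin, Fintype.card_fin]
      have h2 : 1 ≤ M * α := by
        have : 1 ≤ M := by omega
        exact Nat.mul_pos this hα1
      have h3 : C0 * (2 * M * α + 1) ≤ C0 * (3 * (M * α)) := by
        refine Nat.mul_le_mul_left _ ?_
        have : 2 * M * α = 2 * (M * α) := by ring
        omega
      have h4 : C0 * (3 * (M * α)) = (3 * C0) * (M * α) := by ring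
      have h5 : (3 * C0) * (M * α) ≤ (M + 1) * (M * α) := Nat.mul_le_mul_right _ (by omega)
      have h6 : (M + 1) * (M * α + 1) = (M + 1) * (M * α) + (M + 1) := by ring
      omega)
  have hex : ∃ s : ℕ, ∃ x : Fin (M + 1) × Fin (M * α + 1), (x.1 : ℕ) = s ∧ d x ≠ 0 := by
    by_contra hcon
    apply hd0
    funext x
    by_contra hx
    exact hcon ⟨_, x, rfl, hx⟩
  obtain ⟨s0, hs0⟩ : ∃ s0, s0 = Nat.find hex := ⟨_, rfl⟩
  obtain ⟨x0, hx0, hdx0⟩ := Nat.find_spec hex
  rw [← hs0] at hx0
  have hmin : ∀ x : Fin (M + 1) × Fin (M * α + 1), (x.1 : ℕ) < s0 → d x = 0 := by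
    intro x hx
    by_contra hne
    rw [hs0] at hx
    exact Nat.find_min hex hx ⟨x, rfl, hne⟩
  have hv0 : mon w u - 1 ≠ 0 := sub_ne_zero.mpr hu
  have hrel : aeval (fun j => mon w (expo u j)) (relf c d s0) = 0 := by
    rw [aeval_relf]
    have h1 : (mon w u - 1) ^ s0 * (∑ x : Fin (M + 1) × Fin (M * α + 1), if s0 ≤ (x.1 : ℕ) then
        algebraMap k F (d x) * (mon w u - 1) ^ ((x.1 : ℕ) - s0) *
          (∑ i : Fin 5, algebraMap k F (c i) * w i) ^ (x.2 : ℕ) else 0) = 0 := by
      refine Eq.trans ?_ hd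
      rw [Finset.mul_sum]
      refine Finset.sum_congr rfl fun x _ => ?_
      split_ifs with h
      · rw [← hl, Algebra.smul_def]
        have h2 : (mon w u - 1) ^ (x.1 : ℕ) = (mon w u - 1) ^ s0 * (mon w u - 1) ^ ((x.1 : ℕ) - s0) := by
          rw [← pow_add, Nat.add_sub_cancel' h]
        rw [h2]
        ring
      · rw [hmin x (by omega), zero_smul, mul_zero]
    exact (mul_eq_zero.mp h1).resolve_left (pow_ne_zero _ hv0)
  refine ⟨∑ j : Fin (M * α + 1), Polynomial.C (d (x0.1, j)) * Polynomial.X ^ (j : ℕ), ?_, ?_, ?_⟩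
  · intro h0
    have h1 := congrArg (fun p => Polynomial.coeff p (x0.2 : ℕ)) h0
    simp only [Polynomial.finsetSum_coeff, Polynomial.coeff_C_mul, Polynomial.coeff_X_pow,
      Polynomial.coeff_zero] at h1
    rw [Finset.sum_eq_single x0.2] at h1
    · apply hdx0
      simpa using h1
    · intro b _ hb
      rw [if_neg, mul_zero]
      intro h
      exact hb (Fin.ext h.symm)
    · intro h
      exact absurd (Finset.mem_univ _) h
  · refine Polynomial.natDegree_sum_le_of_forall_le _ _ fun j _ => ?_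
    refine (Polynomial.natDegree_C_mul_X_pow_le _ _).trans ?_
    have := j.2
    omega
  · intro K _ _ P hP hk hPu
    have h1 := spec hw hP hk (expo u) (relf c d s0) hrel
    rw [aeval_relf, hPu, sub_self, Fintype.sum_prod_type] at h1
    rw [map_sum]
    rw [Finset.sum_eq_single x0.1] at h1
    · rw [← h1]
      refine Finset.sum_congr rfl fun j _ => ?_
      rw [if_pos (le_of_eq hx0.symm), map_mul, map_pow, Polynomial.aeval_C, Polynomial.aeval_X,
        hx0, Nat.sub_self, pow_zero, mul_one]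
    · intro s _ hs
      refine Finset.sum_eq_zero fun j _ => ?_
      split_ifs with h
      · have h2 : (s : ℕ) - s0 ≠ 0 := by
          intro h3
          apply hs
          apply Fin.ext
          have h4 : s0 ≤ (s : ℕ) := h
          omega
        rw [zero_pow h2, mul_zero, zero_mul]
      · rfl
    · intro h
      exact absurd (Finset.mem_univ _) h

end Pool.Agent.Srf5
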