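import Pool.Agent.Srf5.AGDefs

set_option autoImplicit false

/-! Coordinates with respect to a maximal minor. -/

namespace Pool.Agent.Srf5

/-- Coordinates with respect to a maximal minor.

Proof. Let `v_k = φ (single k 1) ∈ ℚ^2`. If some `det (v_i, v_j) = v_i 0 * v_j 1 - v_i 1 * v_j 0` is
nonzero choose `(i, j)` with `|det (v_i, v_j)|` maximal (finitely many pairs) and
`α_k = det (v_k, v_j) / det (v_i, v_j)`, `β_k = det (v_i, v_k) / det (v_i, v_j)` (Cramer: then
`v_k = α_k v_i + β_k v_j`, and `|α_k|, |β_k| ≤ 1` by maximality). If all determinants are zero but some `v_i ≠ 0`,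
choose `(i, r)` with `|v_i r|` maximal and `α_k = v_k r / v_i r`, `β_k = 0`, `j = i` (then
`v_k = α_k v_i` because the determinant of `v_k, v_i` is zero and `v_i r ≠ 0`). If all `v_k = 0` take
`α = β = 0`. -/
theorem minor (φ : (Fin 5 → ℚ) →ₗ[ℚ] (Fin 2 → ℚ)) : ∃ (i j : Fin 5) (α β : Fin 5 → ℚ),
    (∀ k, |α k| ≤ 1) ∧ (∀ k, |β k| ≤ 1) ∧ ∀ k, φ (Pi.single k 1) =
      α k • φ (Pi.single i 1) + β k • φ (Pi.single j 1) := by
  set v : Fin 5 → Fin 2 → ℚ := fun k => φ (Pi.single k 1) with hv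
  change ∃ (i j : Fin 5) (α β : Fin 5 → ℚ),
    (∀ k, |α k| ≤ 1) ∧ (∀ k, |β k| ≤ 1) ∧ ∀ k, v k = α k • v i + β k • v j
  by_cases hdet : ∃ p : Fin 5 × Fin 5, v p.1 0 * v p.2 1 - v p.1 1 * v p.2 0 ≠ 0
  · obtain ⟨⟨i, j⟩, hmax⟩ := Finite.exists_max
      (fun p : Fin 5 × Fin 5 => |v p.1 0 * v p.2 1 - v p.1 1 * v p.2 0|)
    obtain ⟨p, hp⟩ := hdet
    have hd : v i 0 * v j 1 - v i 1 * v j 0 ≠ 0 :=
      abs_pos.1 (lt_of_lt_of_le (abs_pos.2 hp) (hmax p))
    refine ⟨i, j, fun k => (v k 0 * v j 1 - v k 1 * v j 0) / (v i 0 * v j 1 - v i 1 * v j 0),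
      fun k => (v i 0 * v k 1 - v i 1 * v k 0) / (v i 0 * v j 1 - v i 1 * v j 0), ?_, ?_, ?_⟩
    · intro k
      dsimp only
      rw [abs_div, div_le_one (abs_pos.2 hd)]
      exact hmax (k, j)
    · intro k
      dsimp only
      rw [abs_div, div_le_one (abs_pos.2 hd)]
      exact hmax (i, k)
    · intro k
      funext r
      rw [Pi.add_apply, Pi.smul_apply, Pi.smul_apply, smul_eq_mul, smul_eq_mul]
      rw [div_mul_eq_mul_div, div_mul_eq_mul_div, ← add_div, eq_div_iff hd]
      fin_cases r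
      · dsimp only [Fin.zero_eta, Fin.isValue]
        ring
      · dsimp only [Fin.mk_one, Fin.isValue]
        ring
  · push Not at hdet
    obtain ⟨⟨i, r⟩, hmax⟩ := Finite.exists_max (fun p : Fin 5 × Fin 2 => |v p.1 p.2|)
    by_cases h0 : v i r = 0
    · refine ⟨0, 0, 0, 0, by simp, by simp, fun k => ?_⟩
      funext s
      have h1 := hmax (k, s)
      dsimp only at h1
      rw [h0, abs_zero] at h1
      simpa using abs_nonpos_iff.1 h1
    · refine ⟨i, i, fun k => v k r / v i r, 0, ?_, by simp, ?_⟩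
      · intro k
        dsimp only
        rw [abs_div, div_le_one (abs_pos.2 h0)]
        exact hmax (k, r)
      · intro k
        have h1 := hdet (k, i)
        dsimp only at h1
        have h2 : ∀ a b : Fin 2, v k a * v i b = v k b * v i a := by
          intro a b
          fin_cases a <;> fin_cases b
          · rfl
          · exact sub_eq_zero.1 h1
          · exact (sub_eq_zero.1 h1).symm
          · rfl
        funext s
        rw [Pi.add_apply, Pi.smul_apply, Pi.smul_apply, smul_eq_mul, smul_eq_mul, Pi.zero_apply,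
          zero_mul, add_zero, div_mul_eq_mul_div, eq_div_iff h0, h2 s r]

end Pool.Agent.Srf5
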