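import Pool.Agent.Srf5.ABdS
import Pool.Agent.Srf5.ACur
import Pool.Agent.Srf5.ABH

set_option autoImplicit false

/-! The algebraic points of rank at most two of the surface. -/

namespace Pool.Agent.Srf5

open MvPolynomial Module Height NumberField Pool.Agent.CITLines

/-- **The algebraic points of rank at most two of the surface satisfy one of finitely many
relations.** -/
theorem points {F : Type} [Field F] [CharZero F] (w : Fin 5 → F) (hw : Surf ℚ w)
    {Ec : Finset (Fin 5 → ℤ)} (hE : CurveList w Ec) : ∃ E, PointList w E := by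
  classical
  obtain ⟨B, g, hg, hB⟩ := bdd_surf w hw
  obtain ⟨E1, g0, h01, hg0, h1⟩ := bounded_points w hw.dim hE B
  have hgg : g * g0 ∉ kr ℚ w := by
    intro h
    rcases (inferInstance : (kr ℚ w).IsPrime).mem_or_mem h with h | h
    · exact hg h
    · exact hg0 h
  obtain ⟨E2, h02, h2⟩ := curve_list w hw.dim hgg
  refine ⟨E1 ∪ E2, pointList_of_top w ?_ ?_⟩
  · rw [Finset.mem_union]
    rintro (h | h)
    · exact h01 h
    · exact h02 h
  · intro K _ _ P hP hle hrk htop
    have key : aeval P (g * g0) = 0 → ∃ a ∈ E1 ∪ E2, mon P a = 1 := by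
      intro h
      obtain ⟨a, ha, ha1⟩ := h2 K P hP hle hrk h
      exact ⟨a, Finset.mem_union_right _ ha, ha1⟩
    by_cases h : aeval P g = 0
    · exact key (by rw [map_mul, h, zero_mul])
    · rcases h1 K P hP hle hrk htop (hB K P hP hle hrk h) with ⟨a, ha, ha1⟩ | h3
      · exact ⟨a, Finset.mem_union_left _ ha, ha1⟩
      · exact key (by rw [map_mul, h3, mul_zero])

end Pool.Agent.Srf5
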