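import Pool.Agent.Srf5.FDefs
import Pool.Agent.CITLines.Push

set_option autoImplicit false

/-! Package F5: a quotient algebraic over `k(x^l)` is constant where `x^l = 1`.

PROOF. Put `z = mon w l`, `θ = f(w)/g(w)`. There are `p_0, ..., p_r ∈ k[T]`, not all zero, with
`∑ p_j(z) θ^j = 0` (`IsAlgebraic`, elements of `Algebra.adjoin k {z}` are `p(z)`). Divide all `p_j`
by
the largest power of `T - 1` dividing all of them (`z ≠ 1` because `z` is transcendental): we may
assume that some `p_j(1) ≠ 0`. Multiply by `g(w)^r`: `∑ p_j(z) f(w)^j g(w)^(r-j) = 0` in `F`. With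
`M` at least all degrees `deg p_j` and `x^l = x^(l⁺)/x^(l⁻)`: the polynomial
`H := ∑_j (∑_e coeff_e(p_j) (x^(l⁺))^e (x^(l⁻))^(M-e)) f^j g^(r-j) ∈ MvPolynomial (Fin n) k`
vanishes
at `w`, so at `ξ` (`kr k w ≤ kr k ξ`); as `mon ξ l = 1`, i.e. `ξ^(l⁺) = ξ^(l⁻) ≠ 0`, this says
`∑ p_j(1) f(ξ)^j g(ξ)^(r-j) = 0`. (Alternatively apply `CITLines.kr_pm_le`-like arguments.)
Now `G(S) := ∑ p_j(1) S^j ∈ k[S]` is a nonzero polynomial of degree `≤ r`. If `g(ξ) = 0` take
`(c, d) = (0, 1)`. Otherwise `f(ξ)/g(ξ)` is a root of `G` in the extension field `Ω`, so it is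
algebraic over `k`, so it is in `k` (`IsAlgClosed`): `f(ξ) = c' g(ξ)`, take `(c, d) = (1, -c')`. -/

namespace Pool.Agent.Srf5

open MvPolynomial Pool.Agent.CITLines

/-- The pairs of values at `w` and at its specialisation `ξ` of the same rational function. -/
private theorem lfm_pairs {k F Ω : Type} [Field k] [Field F] [Algebra k F] [Field Ω] [Algebra k Ω]
    {n : ℕ} {w : Fin n → F} {ξ : Fin n → Ω} (hle : kr k w ≤ kr k ξ) :
    ∃ A : Subalgebra k (F × Ω), (∀ z ∈ A, z.1 = 0 → z.2 = 0) ∧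
      ∀ f g : MvPolynomial (Fin n) k, aeval ξ g ≠ 0 →
        (aeval w f / aeval w g, aeval ξ f / aeval ξ g) ∈ A := by
  have hne : ∀ g : MvPolynomial (Fin n) k, aeval ξ g ≠ 0 → aeval w g ≠ 0 := by
    intro g hg hg0
    exact hg (mem_kr.mp (hle (mem_kr.mpr hg0)))
  let A : Subalgebra k (F × Ω) :=
    { carrier := {z | ∃ f g : MvPolynomial (Fin n) k, aeval ξ g ≠ 0 ∧
        z.1 * aeval w g = aeval w f ∧ z.2 * aeval ξ g = aeval ξ f}
      mul_mem' := by
        rintro z z' ⟨f, g, hg, h1, h2⟩ ⟨f', g', hg', h1', h2'⟩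
        refine ⟨f * f', g * g', ?_, ?_, ?_⟩
        · rw [map_mul]
          exact mul_ne_zero hg hg'
        · rw [map_mul, map_mul, ← h1, ← h1', Prod.fst_mul]
          ring
        · rw [map_mul, map_mul, ← h2, ← h2', Prod.snd_mul]
          ring
      add_mem' := by
        rintro z z' ⟨f, g, hg, h1, h2⟩ ⟨f', g', hg', h1', h2'⟩
        refine ⟨f * g' + f' * g, g * g', ?_, ?_, ?_⟩
        · rw [map_mul]
          exact mul_ne_zero hg hg'
        · rw [map_mul, map_add, map_mul, map_mul, ← h1, ← h1', Prod.fst_add]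
          ring
        · rw [map_mul, map_add, map_mul, map_mul, ← h2, ← h2', Prod.snd_add]
          ring
      algebraMap_mem' := by
        intro r
        refine ⟨C r, 1, ?_, ?_, ?_⟩
        · rw [map_one]
          exact one_ne_zero
        · rw [map_one, mul_one, aeval_C]
          rfl
        · rw [map_one, mul_one, aeval_C]
          rfl }
  refine ⟨A, ?_, ?_⟩
  · rintro z ⟨f, g, hg, h1, h2⟩ hz
    rw [hz, zero_mul] at h1
    have h3 : aeval ξ f = 0 := mem_kr.mp (hle (mem_kr.mpr h1.symm))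
    rw [h3] at h2
    exact (mul_eq_zero.1 h2).resolve_right hg
  · intro f g hg
    exact ⟨f, g, hg, div_mul_cancel₀ _ (hne g hg), div_mul_cancel₀ _ hg⟩

theorem lin_form {k F : Type} [Field k] [IsAlgClosed k] [Field F] [Algebra k F] {n : ℕ}
    (w : Fin n → F) (hw : ∀ i, w i ≠ 0) (f g : MvPolynomial (Fin n) k) (l : Fin n → ℤ)
    (hz : Transcendental k (mon w l)) (hg : aeval w g ≠ 0)
    (halg : IsAlgebraic (Algebra.adjoin k {mon w l}) (aeval w f / aeval w g))
    {Ω : Type} [Field Ω] [Algebra k Ω] (ξ : Fin n → Ω) (hξ : ∀ i, ξ i ≠ 0)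
    (hle : kr k w ≤ kr k ξ) (hl : mon ξ l = 1) :
    ∃ c d : k, (c ≠ 0 ∨ d ≠ 0) ∧ aeval ξ (C c * f + C d * g) = 0 := by
  classical
  by_cases hgξ : aeval ξ g = 0
  · refine ⟨0, 1, Or.inr one_ne_zero, ?_⟩
    rw [map_add, map_mul, map_mul, aeval_C, map_zero, zero_mul, hgξ, mul_zero, add_zero]
  -- a bivariate polynomial
  obtain ⟨p, hp0, hp⟩ := halg
  have hsurj : ∀ c : Algebra.adjoin k {mon w l}, ∃ q : Polynomial k,
      Polynomial.aeval (mon w l) q = (c : F) := by
    intro c
    obtain ⟨c, h1⟩ := c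
    rw [Algebra.adjoin_singleton_eq_range_aeval] at h1
    exact (AlgHom.mem_range _).1 h1
  choose φ hφ using hsurj
  let P : Polynomial (Polynomial k) :=
    ∑ j ∈ p.support, Polynomial.monomial j (φ (p.coeff j))
  have hP0 : P ≠ 0 := by
    intro h
    obtain ⟨j, hj⟩ := Polynomial.support_nonempty.2 hp0
    have h1 : P.coeff j = φ (p.coeff j) := by
      change (∑ j ∈ p.support, Polynomial.monomial j (φ (p.coeff j))).coeff j = _
      rw [Polynomial.finsetSum_coeff]
      simp only [Polynomial.coeff_monomial]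
      rw [Finset.sum_ite_eq' p.support j, if_pos hj]
    rw [h, Polynomial.coeff_zero] at h1
    have h2 := hφ (p.coeff j)
    rw [← h1, map_zero] at h2
    exact Polynomial.mem_support_iff.1 hj (Subtype.ext h2.symm)
  let E : Polynomial (Polynomial k) →+* F :=
    Polynomial.eval₂RingHom ((Polynomial.aeval (mon w l) : Polynomial k →ₐ[k] F) :
      Polynomial k →+* F) (aeval w f / aeval w g)
  have hEP : E P = 0 := by
    rw [← hp, Polynomial.aeval_def, Polynomial.eval₂_eq_sum, Polynomial.sum_def]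
    change E (∑ j ∈ p.support, Polynomial.monomial j (φ (p.coeff j))) = _
    rw [map_sum]
    refine Finset.sum_congr rfl fun j _ => ?_
    change Polynomial.eval₂ _ _ _ = _
    rw [Polynomial.eval₂_monomial]
    congr 1
    exact hφ (p.coeff j)
  -- divide by the powers of `T - 1`
  have hu : ¬ IsUnit (Polynomial.C (Polynomial.X - Polynomial.C 1 : Polynomial k)) := by
    rw [Polynomial.isUnit_C]
    exact Polynomial.not_isUnit_X_sub_C 1
  obtain ⟨Q, hQ, hnd⟩ :=
    (FiniteMultiplicity.of_not_isUnit hu hP0).exists_eq_pow_mul_and_not_dvd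
  have hz1 : mon w l - 1 ≠ 0 := by
    intro h
    refine hz ?_
    rw [sub_eq_zero.1 h]
    exact isAlgebraic_one
  have hEC : E (Polynomial.C (Polynomial.X - Polynomial.C 1 : Polynomial k)) = mon w l - 1 := by
    change Polynomial.eval₂ _ _ _ = _
    rw [Polynomial.eval₂_C]
    change Polynomial.aeval (mon w l) (Polynomial.X - Polynomial.C 1 : Polynomial k) = _
    rw [map_sub, Polynomial.aeval_X, Polynomial.aeval_C, map_one]
  have hEQ : E Q = 0 := by
    rw [hQ, map_mul, map_pow, hEC] at hEP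
    exact (mul_eq_zero.1 hEP).resolve_left (pow_ne_zero _ hz1)
  have hG : Q.map (Polynomial.evalRingHom (1 : k)) ≠ 0 := by
    intro h
    refine hnd (Polynomial.C_dvd_iff_dvd_coeff _ _ |>.2 fun j => ?_)
    rw [Polynomial.dvd_iff_isRoot]
    have h1 := congrArg (fun q => Polynomial.coeff q j) h
    simpa [Polynomial.coeff_map] using h1
  -- specialise
  obtain ⟨A, hA0, hA⟩ := lfm_pairs hle
  have hzA : (mon w l, (1 : Ω)) ∈ A := by
    have h1 := hA (∏ i, X i ^ (l i).toNat) (∏ i, X i ^ (-l i).toNat) (by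
      rw [map_prod]
      simp only [map_pow, aeval_X]
      exact Finset.prod_ne_zero_iff.mpr fun i _ => pow_ne_zero _ (hξ i))
    rw [map_prod, map_prod, map_prod, map_prod] at h1
    simp only [map_pow, aeval_X] at h1
    rwa [← mon_eq_div hw, ← mon_eq_div hξ, hl] at h1
  have hθA := hA f g hgξ
  have hqA : ∀ q : Polynomial k, Polynomial.aeval ((mon w l, (1 : Ω)) : F × Ω) q ∈ A := by
    intro q
    have h1 : Algebra.adjoin k {((mon w l, (1 : Ω)) : F × Ω)} ≤ A :=
      Algebra.adjoin_le (by simpa using hzA)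
    exact h1 (Polynomial.aeval_mem_adjoin_singleton k _)
  let E' : Polynomial (Polynomial k) →+* F × Ω :=
    Polynomial.eval₂RingHom ((Polynomial.aeval ((mon w l, (1 : Ω)) : F × Ω) :
      Polynomial k →ₐ[k] F × Ω) : Polynomial k →+* F × Ω)
      (aeval w f / aeval w g, aeval ξ f / aeval ξ g)
  have hE' : ∀ q, E' q ∈ A := by
    intro q
    induction q using Polynomial.induction_on' with
    | add a b ha hb =>
      rw [map_add]
      exact A.add_mem ha hb
    | monomial j a =>
      change Polynomial.eval₂ _ _ _ ∈ A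
      rw [Polynomial.eval₂_monomial]
      exact A.mul_mem (hqA a) (A.pow_mem hθA j)
  have h1 : (RingHom.fst F Ω).comp E' = E := by
    refine Polynomial.ringHom_ext' ?_ ?_
    · refine Polynomial.ringHom_ext (fun a => ?_) ?_
      · simp [E, E']
      · simp [E, E']
    · simp [E, E']
  have h2 : (RingHom.snd F Ω).comp E' = (Polynomial.eval₂RingHom (algebraMap k Ω)
      (aeval ξ f / aeval ξ g)).comp (Polynomial.mapRingHom (Polynomial.evalRingHom (1 : k))) := by
    refine Polynomial.ringHom_ext' ?_ ?_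
    · refine Polynomial.ringHom_ext (fun a => ?_) ?_
      · simp [E']
      · simp [E']
    · simp [E']
  have h3 : (E' Q).2 = 0 := by
    refine hA0 _ (hE' Q) ?_
    have h4 := RingHom.congr_fun h1 Q
    rw [hEQ] at h4
    exact h4
  have h5 : Polynomial.aeval (aeval ξ f / aeval ξ g)
      (Q.map (Polynomial.evalRingHom (1 : k))) = 0 := by
    have h6 := RingHom.congr_fun h2 Q
    rw [← h3]
    exact h6.symm
  have h7 : IsIntegral k (aeval ξ f / aeval ξ g) :=
    isAlgebraic_iff_isIntegral.1 ⟨_, hG, h5⟩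
  obtain ⟨c, hc⟩ := minpoly.mem_range_of_degree_eq_one k _
    (IsAlgClosed.degree_eq_one_of_irreducible k (minpoly.irreducible h7))
  refine ⟨1, -c, Or.inl one_ne_zero, ?_⟩
  have h8 : aeval ξ f = algebraMap k Ω c * aeval ξ g := by
    rw [hc, div_mul_cancel₀ _ hgξ]
  rw [map_add, map_mul, map_mul, aeval_C, aeval_C, map_one, one_mul, map_neg, h8]
  ring

end Pool.Agent.Srf5
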