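import Pool.Agent.Srf5.Theta
import Pool.Agent.Srf5.LinForm
import Pool.Agent.LThreeC.Deriv

set_option autoImplicit false

/-! Package F19: the curves with two exact relations lie on hypersurfaces of bounded degree.

PROOF. If `q(ξ) = 0` take `f = q`. Let `q(ξ) ≠ 0`. Choose `i0` with `ξ i0` transcendental
(`dm (kr k ξ) = 1`: if all `ξ i` were algebraic, `dm` would be `0`); `E` is algebraic over
`k(ξ i0)` (transcendence degree one, `hgen`); let `D` be the derivation of `E` with
`D (ξ i0) = 1` (`LThreeC.exists_deriv`). Put `U = D(ξ s)/ξ s`, `V = D(ξ t)/ξ t`. Not both are zero: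
otherwise `LogData.rel` gives `D (ξ i) = 0` for all `i`.
By `rel_mon` and `mon ξ l = 1`, `mon ξ m = 1` (`D 1 = 0`):
`A_l(ξ) U + B_l(ξ) V = 0`, `A_m(ξ) U + B_m(ξ) V = 0`, hence `aeval ξ (jac a b l m) = 0`.
If `¬ Dep k w l m`: `f = jac a b l m`, `f(w) ≠ 0` by `jac_ne_zero`.
If `Dep k w l m`: by `lin_ne_zero` (`htr l`) `A_l(w) ≠ 0` or `B_l(w) ≠ 0`; by symmetry
(`LogData.symm`, exchange `s, t` and `a, b`; the hypotheses `hind, halg` are symmetric) assume
`A_l(w) ≠ 0`. `theta_alg` and `lin_form` (with `f := lf a m`, `g := lf a l`) give `c, d` not both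
zero with `aeval ξ (C c * lf a m + C d * lf a l) = 0`. Take `f` to be this polynomial. If `f(w) =
0`: `c = 0` is impossible (`d A_l(w) = 0`), and for `c ≠ 0` `A_m = (-d/c) A_l` contradicts
`no_const`. Degrees: `totalDegree (lf a l) ≤ ∑ i, totalDegree (a i)` etc. -/

namespace Pool.Agent.Srf5

open MvPolynomial Pool.Agent.CITLines

private theorem bf_alg_of_dep {k F : Type} [Field k] [Field F] [Algebra k F] {z y : F}
    (hz : Transcendental k z) (h : ¬ AlgebraicIndependent k ![z, y]) :
    IsAlgebraic (Algebra.adjoin k {z}) y := by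
  by_contra h1
  have hx : AlgebraicIndependent k ![z] := algebraicIndependent_iff_transcendental.2 hz
  have hr : Set.range (![z] : Fin 1 → F) = {z} := by simp
  have h2 := (hx.option_iff_transcendental y).2 (by rw [hr]; exact h1)
  apply h
  have h3 := h2.comp (![some 0, none] : Fin 2 → Option (Fin 1)) (by
    intro i j hij
    fin_cases i <;> fin_cases j <;> simp at hij ⊢)
  convert h3 using 1
  ext i
  fin_cases i <;> simp

open scoped IntermediateField.algebraAdjoinAdjoin in
private theorem bf_alg_iff {k F : Type} [Field k] [Field F] [Algebra k F] (s : Set F) (x : F) :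
    IsAlgebraic (Algebra.adjoin k s) x ↔ IsAlgebraic (IntermediateField.adjoin k s) x :=
  IsFractionRing.isAlgebraic_iff _ _ _

private theorem bf_deg_lf {k : Type} [Field k] {n : ℕ} (a : Fin n → MvPolynomial (Fin n) k)
    (l : Fin n → ℤ) : (lf a l).totalDegree ≤ ∑ i, (a i).totalDegree := by
  unfold lf
  refine (totalDegree_finsetSum _ _).trans (Finset.sup_le fun i _ => ?_)
  refine (totalDegree_mul _ _).trans ?_
  rw [totalDegree_C, zero_add]
  exact Finset.single_le_sum (f := fun i => (a i).totalDegree) (fun _ _ => Nat.zero_le _)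
    (Finset.mem_univ i)

/-- A derivation of the function field of a curve. -/
private theorem bf_deriv {k E : Type} [Field k] [CharZero k] [Field E] [Algebra k E] {n : ℕ}
    (ξ : Fin n → E) (hgen : IntermediateField.adjoin k (Set.range ξ) = ⊤)
    (hdm : dm (kr k ξ) = 1) : ∃ (i : Fin n) (D : Derivation k E E), D (ξ i) = 1 := by
  have hrk : rk k (Set.range ξ) = 1 := by
    rw [← dm_kr, hdm]
    rfl
  have h1 : ∃ i, Transcendental k (ξ i) := by
    by_contra hcon
    push Not at hcon
    have h2 : rk k (Set.range ξ) ≤ rk k (∅ : Set E) := by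
      refine rk_le_of_algebraic ?_
      rintro _ ⟨i, rfl⟩
      have h3 : IsAlgebraic k (ξ i) := by
        have := hcon i
        rwa [Transcendental, not_not] at this
      exact h3.extendScalars (algebraMap k (Algebra.adjoin k (∅ : Set E))).injective
    have h4 : rk k (∅ : Set E) ≤ (∅ : Set E).encard := rk_le_encard _
    rw [Set.encard_empty] at h4
    have h5 := h2.trans h4
    rw [hrk] at h5
    exact absurd h5 (by decide)
  obtain ⟨i, hi⟩ := h1
  have h2 : ∀ j, IsAlgebraic (IntermediateField.adjoin k {ξ i}) (ξ j) := by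
    intro j
    rw [← bf_alg_iff]
    refine bf_alg_of_dep hi ?_
    intro hind
    have h3 := rk_range_of_indep _ hind
    have h4 : rk k (Set.range ![ξ i, ξ j]) ≤ rk k (Set.range ξ) := by
      refine rk_mono ?_
      rintro _ ⟨u, rfl⟩
      fin_cases u
      · exact ⟨i, rfl⟩
      · exact ⟨j, rfl⟩
    rw [h3, hrk, Fintype.card_fin] at h4
    exact absurd h4 (by decide)
  have halgE : Algebra.IsAlgebraic (IntermediateField.adjoin k {ξ i}) E := by
    refine ⟨fun x => ?_⟩
    have h3 : (⊤ : IntermediateField k E) ≤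
        (algebraicClosure (IntermediateField.adjoin k {ξ i}) E).restrictScalars k := by
      rw [← hgen, IntermediateField.adjoin_le_iff]
      rintro _ ⟨j, rfl⟩
      rw [SetLike.mem_coe, IntermediateField.mem_restrictScalars, mem_algebraicClosure_iff]
      exact h2 j
    have h4 : x ∈ (algebraicClosure (IntermediateField.adjoin k {ξ i}) E).restrictScalars k :=
      h3 trivial
    rw [IntermediateField.mem_restrictScalars, mem_algebraicClosure_iff] at h4
    exact h4
  obtain ⟨D, hD, _⟩ := Pool.Agent.LThreeC.exists_deriv (ξ i) hi halgE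
  exact ⟨i, D, hD⟩

/-- The case of dependent monomials. -/
private theorem bf_aux {k F : Type} [Field k] [IsAlgClosed k] [CharZero k] [Field F] [Algebra k F]
    {n : ℕ} {w : Fin n → F} {s t : Fin n} {q : MvPolynomial (Fin n) k}
    {a b : Fin n → MvPolynomial (Fin n) k} (hw : ∀ i, w i ≠ 0) (h : LogData k w s t q a b)
    (hind : AlgebraicIndependent k ![w s, w t])
    (halg : ∀ z : F, IsAlgebraic (Algebra.adjoin k {w s, w t}) z)
    (htr : ∀ r : Fin n → ℤ, r ≠ 0 → Transcendental k (mon w r)) (l m : Fin n → ℤ)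
    (hlm : LinearIndependent ℤ ![l, m]) {E : Type} [Field E] [Algebra k E] (ξ : Fin n → E)
    (hξ : ∀ i, ξ i ≠ 0) (hle : kr k w ≤ kr k ξ) (hl : mon ξ l = 1) (hdep : Dep k w l m)
    (hA : aeval w (lf a l) ≠ 0) :
    ∃ f : MvPolynomial (Fin n) k, f.totalDegree ≤ ∑ i, (a i).totalDegree ∧
      aeval w f ≠ 0 ∧ aeval ξ f = 0 := by
  have hl0 : l ≠ 0 := by
    have := hlm.ne_zero 0
    simpa using this
  have hth := theta_alg hw h hind halg l m hdep (htr l hl0) hA
  obtain ⟨c, d, hcd, h0⟩ := lin_form w hw (lf a m) (lf a l) l (htr l hl0) hA hth ξ hξ hle hl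
  refine ⟨C c * lf a m + C d * lf a l, ?_, ?_, h0⟩
  · refine (totalDegree_add _ _).trans (max_le ?_ ?_)
    · refine (totalDegree_mul _ _).trans ?_
      rw [totalDegree_C, zero_add]
      exact bf_deg_lf a m
    · refine (totalDegree_mul _ _).trans ?_
      rw [totalDegree_C, zero_add]
      exact bf_deg_lf a l
  · intro h1
    rw [map_add, map_mul, map_mul, aeval_C, aeval_C] at h1
    by_cases hc : c = 0
    · rw [hc, map_zero, zero_mul, zero_add] at h1
      have hd : d ≠ 0 := hcd.resolve_left (not_not.mpr hc)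
      have h2 : algebraMap k F d ≠ 0 := (map_ne_zero _).mpr hd
      exact (mul_ne_zero h2 hA) h1
    · have h2 : algebraMap k F c ≠ 0 := (map_ne_zero _).mpr hc
      refine no_const hw h hind halg l m hdep hlm htr hA (-d / c) ?_
      rw [map_div₀, map_neg]
      field_simp
      linear_combination h1

theorem bounded_f {k F : Type} [Field k] [IsAlgClosed k] [CharZero k] [Field F] [Algebra k F]
    {n : ℕ} {w : Fin n → F} {s t : Fin n} {q : MvPolynomial (Fin n) k}
    {a b : Fin n → MvPolynomial (Fin n) k} (hw : ∀ i, w i ≠ 0) (h : LogData k w s t q a b)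
    (hind : AlgebraicIndependent k ![w s, w t])
    (halg : ∀ z : F, IsAlgebraic (Algebra.adjoin k {w s, w t}) z)
    (htr : ∀ r : Fin n → ℤ, r ≠ 0 → Transcendental k (mon w r)) (l m : Fin n → ℤ)
    (hlm : LinearIndependent ℤ ![l, m]) {E : Type} [Field E] [Algebra k E] (ξ : Fin n → E)
    (hξ : ∀ i, ξ i ≠ 0) (hgen : IntermediateField.adjoin k (Set.range ξ) = ⊤)
    (hle : kr k w ≤ kr k ξ) (hdm : dm (kr k ξ) = 1) (hl : mon ξ l = 1) (hm : mon ξ m = 1) :
    ∃ f : MvPolynomial (Fin n) k,
      f.totalDegree ≤ q.totalDegree + ∑ i, (a i).totalDegree + ∑ i, (b i).totalDegree ∧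
      aeval w f ≠ 0 ∧ aeval ξ f = 0 := by
  by_cases hq : aeval ξ q = 0
  · exact ⟨q, by omega, h.q_ne, hq⟩
  by_cases hdep : Dep k w l m
  · have hl0 : l ≠ 0 := by
      have := hlm.ne_zero 0
      simpa using this
    rcases lin_ne_zero hw h hind halg l (htr l hl0) with hA | hB
    · obtain ⟨f, hf, h1, h2⟩ := bf_aux hw h hind halg htr l m hlm ξ hξ hle hl hdep hA
      exact ⟨f, by omega, h1, h2⟩
    · have hind' : AlgebraicIndependent k ![w t, w s] := by
        have h3 := hind.comp (![1, 0] : Fin 2 → Fin 2) (by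
          intro i j hij
          fin_cases i <;> fin_cases j <;> simp at hij ⊢)
        convert h3 using 1
        ext i
        fin_cases i <;> simp
      have halg' : ∀ z : F, IsAlgebraic (Algebra.adjoin k {w t, w s}) z := by
        rw [Set.pair_comm]
        exact halg
      obtain ⟨f, hf, h1, h2⟩ :=
        bf_aux hw h.symm hind' halg' htr l m hlm ξ hξ hle hl hdep hB
      exact ⟨f, by omega, h1, h2⟩
  · rw [Dep, not_not] at hdep
    refine ⟨jac a b l m, ?_, jac_ne_zero hw h hind halg l m hdep, ?_⟩
    · have h1 := bf_deg_lf a l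
      have h2 := bf_deg_lf a m
      have h3 := bf_deg_lf b l
      have h4 := bf_deg_lf b m
      have h5 : (jac a b l m).totalDegree ≤
          max (lf a l * lf b m).totalDegree (lf a m * lf b l).totalDegree := totalDegree_sub _ _
      have h6 := totalDegree_mul (lf a l) (lf b m)
      have h7 := totalDegree_mul (lf a m) (lf b l)
      omega
    · obtain ⟨i, D, hD⟩ := bf_deriv ξ hgen hdm
      have h1 := rel_mon h ξ hξ hle D l
      have h2 := rel_mon h ξ hξ hle D m
      rw [hl, D.map_one_eq_zero, zero_div, mul_zero] at h1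
      rw [hm, D.map_one_eq_zero, zero_div, mul_zero] at h2
      have h3 := h.rel E ξ hξ hle D i
      set U := D (ξ s) / ξ s with hU
      set V := D (ξ t) / ξ t with hV
      rw [jac, map_sub, map_mul, map_mul]
      by_cases hU0 : U = 0
      · have hV0 : V ≠ 0 := by
          intro hV0
          rw [hU0, hV0, mul_zero, mul_zero, add_zero, hD] at h3
          exact (mul_ne_zero hq (one_div_ne_zero (hξ i))) h3
        apply mul_right_cancel₀ hV0
        linear_combination (aeval ξ (lf a m)) * h1 - (aeval ξ (lf a l)) * h2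
      · apply mul_right_cancel₀ hU0
        linear_combination (aeval ξ (lf b l)) * h2 - (aeval ξ (lf b m)) * h1

end Pool.Agent.Srf5
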