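import Pool.Agent.Srf5.CurvesQ

set_option autoImplicit false

/-! Package F24: complex points of rank at most two.

PROOF of `sub_surf`. Let `v = fun i : Fin 5 => w (Fin.castLE hn i)` and for `a : Fin 5 → ℤ` let
`a' : Fin n → ℤ` be the extension by zero; `mon v a = mon w a'`, and `a ↦ a'` is injective linear,
so linearly independent vectors stay so: `fine` follows. `dm (kr ℚ v) ≤ dm (kr ℚ w) = 2`
(`dm_kr`, `rk_mono`). `2 ≤ dm (kr ℚ v)`: by `fine` for the unit vectors `e_0, e_1, e_2` one of the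
pairs
`(v 0, v 1)`, `(v 0, v 2)` is algebraically independent.
PROOF of `rank_two_rel`. `U` of dimension `≥ n - 2 ≥ 2` (in `RankLe`); two linearly independent
vectors of `U`, multiplied by denominators, are integral; `mon` of an integral vector in `U` is a
root of unity.
PROOF of `cpx_points`. `E` is the union of `E1` and of the extensions by zero of the elements of
`E2`. If `1 ≤ dm (kr ℚ P)`: `rank_two_rel` and `point_one` give a relation in `E1`. Otherwise all
`P i` are algebraic; `K = IntermediateField.adjoin ℚ (Set.range P)` is a number field, `P` comes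
from
`P' : Fin n → K`, put `x i = P' (Fin.castLE hn i)`. `kr ℚ v ≤ kr ℚ x` (from `kr ℚ w ≤ kr ℚ P`, by
`rename`), `RankLe 2 x`: `U' = {u : ℚ^5 | extension of u by zero ∈ U}` has dimension
`≥ dim U - (n - 5) ≥ 3`. `hE2` gives `a ∈ E2` with `mon x a = 1`, so `mon P a' = 1`. -/

namespace Pool.Agent.Srf5

open MvPolynomial Pool.Agent.CITLines Module

/-- Extension by zero. -/
private def ez (R : Type) [CommRing R] {n : ℕ} : (Fin 5 → R) →ₗ[R] (Fin n → R) where
  toFun a := fun j => if h : j.1 < 5 then a ⟨j.1, h⟩ else 0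
  map_add' a b := by
    funext j
    by_cases h : j.1 < 5 <;> simp [h]
  map_smul' c a := by
    funext j
    by_cases h : j.1 < 5 <;> simp [h]

private theorem ez_cast {R : Type} [CommRing R] {n : ℕ} (hn : 5 ≤ n) (a : Fin 5 → R) (i : Fin 5) :
    ez R (n := n) a (Fin.castLE hn i) = a i := by
  have h : (Fin.castLE hn i).1 < 5 := i.2
  change (if h : (Fin.castLE hn i).1 < 5 then a ⟨(Fin.castLE hn i).1, h⟩ else 0) = a i
  rw [dif_pos h]
  rfl

private theorem ez_of_notMem {R : Type} [CommRing R] {n : ℕ} (hn : 5 ≤ n) (a : Fin 5 → R)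
    {j : Fin n} (hj : j ∉ Set.range (Fin.castLE hn)) : ez R (n := n) a j = 0 := by
  change (if h : j.1 < 5 then a ⟨j.1, h⟩ else 0) = 0
  rw [dif_neg]
  intro h
  exact hj ⟨⟨j.1, h⟩, Fin.ext rfl⟩

private theorem ez_injective (R : Type) [CommRing R] {n : ℕ} (hn : 5 ≤ n) :
    Function.Injective (ez R (n := n)) := by
  intro a b h
  funext i
  rw [← ez_cast hn a i, ← ez_cast hn b i, h]

private theorem mon_ez {K : Type} [Field K] {n : ℕ} (hn : 5 ≤ n) (w : Fin n → K)
    (a : Fin 5 → ℤ) : mon (fun i => w (Fin.castLE hn i)) a = mon w (ez ℤ a) := by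
  unfold mon
  refine Fintype.prod_of_injective (Fin.castLE hn) (Fin.castLE_injective hn) _ _ ?_ ?_
  · intro j hj
    rw [ez_of_notMem hn a hj, zpow_zero]
  · intro i
    rw [ez_cast hn]

theorem sub_surf {F : Type} [Field F] [CharZero F] {n : ℕ} (hn : 5 ≤ n) (w : Fin n → F)
    (hw : Surf ℚ w) : Surf ℚ (fun i : Fin 5 => w (Fin.castLE hn i)) := by
  have hfine : ∀ a b c : Fin 5 → ℤ, LinearIndependent ℤ ![a, b, c] →
      Dep ℚ (fun i : Fin 5 => w (Fin.castLE hn i)) a b →
      ¬ Dep ℚ (fun i : Fin 5 => w (Fin.castLE hn i)) a c := by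
    intro a b c habc
    unfold Dep
    rw [mon_ez hn w a, mon_ez hn w b, mon_ez hn w c]
    refine hw.fine (ez ℤ a) (ez ℤ b) (ez ℤ c) ?_
    have h1 := habc.map' (ez ℤ (n := n)) (LinearMap.ker_eq_bot.2 (ez_injective ℤ hn))
    have h2 : (ez ℤ (n := n)) ∘ ![a, b, c] = ![ez ℤ a, ez ℤ b, ez ℤ c] := by
      funext i
      fin_cases i <;> rfl
    rwa [h2] at h1
  refine ⟨fun i => hw.ne _, le_antisymm ?_ ?_, hfine⟩
  · have h1 : (dm (kr ℚ fun i : Fin 5 => w (Fin.castLE hn i)) : ℕ∞) ≤ dm (kr ℚ w) := by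
      rw [dm_kr, dm_kr]
      refine rk_mono ?_
      rintro _ ⟨i, rfl⟩
      exact ⟨_, rfl⟩
    rw [hw.dim] at h1
    exact_mod_cast h1
  · set v : Fin 5 → F := fun i => w (Fin.castLE hn i) with hv
    have hmon : ∀ i, mon v (Pi.single i 1) = v i := by
      intro i
      unfold mon
      rw [Finset.prod_eq_single i]
      · simp
      · intro j _ hj
        simp [hj]
      · intro h
        exact absurd (Finset.mem_univ i) h
    have hind : LinearIndependent ℤ ![(Pi.single 0 1 : Fin 5 → ℤ), Pi.single 1 1,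
        Pi.single 2 1] := by
      have h1 := (Pi.basisFun ℤ (Fin 5)).linearIndependent.comp ![(0 : Fin 5), 1, 2] (by
        intro i j hij
        fin_cases i <;> fin_cases j <;> simp_all)
      have h2 : (Pi.basisFun ℤ (Fin 5)) ∘ ![(0 : Fin 5), 1, 2] =
          ![(Pi.single 0 1 : Fin 5 → ℤ), Pi.single 1 1, Pi.single 2 1] := by
        funext i
        fin_cases i <;> simp
      rwa [h2] at h1
    have key : ∀ i : Fin 5, ¬ Dep ℚ v (Pi.single 0 1) (Pi.single i 1) → 2 ≤ dm (kr ℚ v) := by
      intro i hi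
      unfold Dep at hi
      rw [not_not, hmon, hmon] at hi
      have h1 := rk_range_of_indep _ hi
      have h2 : rk ℚ (Set.range ![v 0, v i]) ≤ rk ℚ (Set.range v) := by
        refine rk_mono ?_
        rintro _ ⟨j, rfl⟩
        fin_cases j
        · exact ⟨0, rfl⟩
        · exact ⟨i, rfl⟩
      rw [h1, ← dm_kr, Fintype.card_fin] at h2
      exact_mod_cast h2
    by_cases h1 : Dep ℚ v (Pi.single 0 1) (Pi.single 1 1)
    · exact key 2 (hfine _ _ _ hind h1)
    · exact key 1 h1

theorem rank_two_rel {K : Type} [Field K] {n : ℕ} (hn : 4 ≤ n) (P : Fin n → K)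
    (h : LThree.RankLe 2 P) : ∃ l m : Fin n → ℤ, LinearIndependent ℤ ![l, m] ∧
      RU (mon P l) ∧ RU (mon P m) := by
  obtain ⟨U, hU, hrel⟩ := h
  rw [Fintype.card_fin] at hU
  have h2 : 2 ≤ finrank ℚ U := by omega
  obtain ⟨u, hu⟩ := exists_linearIndependent_of_le_finrank h2
  obtain ⟨k0, hk0, a0, ha0⟩ := exists_clear (u 0 : Fin n → ℚ)
  obtain ⟨k1, hk1, a1, ha1⟩ := exists_clear (u 1 : Fin n → ℚ)
  have e0 : (fun i => (a0 i : ℚ)) = (k0 : ℚ) • (u 0 : Fin n → ℚ) := by
    funext i
    exact ha0 i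
  have e1 : (fun i => (a1 i : ℚ)) = (k1 : ℚ) • (u 1 : Fin n → ℚ) := by
    funext i
    exact ha1 i
  refine ⟨a0, a1, ?_, ?_, ?_⟩
  · rw [LinearIndependent.pair_iff]
    intro s t hst
    have hu' : LinearIndependent ℚ ![(u 0 : Fin n → ℚ), u 1] := by
      have h3 := hu.map' U.subtype (Submodule.ker_subtype U)
      have h4 : U.subtype ∘ u = ![(u 0 : Fin n → ℚ), u 1] := by
        funext i
        fin_cases i <;> rfl
      rwa [h4] at h3
    rw [LinearIndependent.pair_iff] at hu'
    have h3 := hu' (s * k0) (t * k1) (by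
      rw [mul_smul, mul_smul, ← e0, ← e1]
      funext i
      have h4 := congrFun hst i
      simp only [Pi.add_apply, Pi.smul_apply, smul_eq_mul, Pi.zero_apply] at h4 ⊢
      exact_mod_cast h4)
    have hk0' : (k0 : ℚ) ≠ 0 := by exact_mod_cast hk0
    have hk1' : (k1 : ℚ) ≠ 0 := by exact_mod_cast hk1
    constructor
    · have := (mul_eq_zero.1 h3.1).resolve_right hk0'
      exact_mod_cast this
    · have := (mul_eq_zero.1 h3.2).resolve_right hk1'
      exact_mod_cast this
  · exact hrel a0 (by rw [e0]; exact U.smul_mem _ (u 0).2)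
  · exact hrel a1 (by rw [e1]; exact U.smul_mem _ (u 1).2)

theorem cpx_points {F : Type} [Field F] [CharZero F] {n : ℕ} (hn : 5 ≤ n) (w : Fin n → F)
    {E1 : Finset (Fin n → ℤ)} (hE1 : CurveList w E1) {E2 : Finset (Fin 5 → ℤ)}
    (hE2 : PointList (fun i : Fin 5 => w (Fin.castLE hn i)) E2) :
    ∃ E : Finset (Fin n → ℤ), 0 ∉ E ∧ ∀ P : Fin n → ℂ, (∀ i, P i ≠ 0) → kr ℚ w ≤ kr ℚ P →
      LThree.RankLe 2 P → ∃ a ∈ E, mon P a = 1 := by
  classical
  refine ⟨E1 ∪ E2.image (ez ℤ), ?_, fun P hP hle hrk => ?_⟩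
  · rw [Finset.mem_union, not_or]
    refine ⟨hE1.1, fun h => hE2.1 ?_⟩
    obtain ⟨a, ha, h0⟩ := Finset.mem_image.1 h
    have : a = 0 := ez_injective ℤ hn (by rw [h0, map_zero])
    rwa [this] at ha
  by_cases hdm : 1 ≤ dm (kr ℚ P)
  · obtain ⟨l, m, hlm, hl, hm⟩ := rank_two_rel (by omega) P hrk
    obtain ⟨a, ha, h1⟩ := point_one w hE1 P hP hle hdm l m hlm hl hm
    exact ⟨a, Finset.mem_union_left _ ha, h1⟩
  · have hdm0 : dm (kr ℚ P) = 0 := by omega
    have halg : ∀ i, IsAlgebraic ℚ (P i) := by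
      intro i
      by_contra h
      have h1 : AlgebraicIndependent ℚ ![P i] := by
        have h2 : Transcendental ℚ (![P i] default) := h
        exact (algebraicIndependent_unique_type_iff (x := ![P i])).2 h2
      have h2 := rk_range_of_indep _ h1
      have h3 : rk ℚ (Set.range ![P i]) ≤ rk ℚ (Set.range P) := by
        refine rk_mono ?_
        rintro _ ⟨j, rfl⟩
        fin_cases j
        exact ⟨i, rfl⟩
      rw [h2, ← dm_kr, hdm0, Fintype.card_fin] at h3
      exact absurd h3 (by norm_num)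
    let K := IntermediateField.adjoin ℚ (Set.range P)
    have hfin : FiniteDimensional ℚ K := by
      refine IntermediateField.finiteDimensional_adjoin (S := Set.range P) ?_
      rintro _ ⟨i, rfl⟩
      exact (halg i).isIntegral
    have hNF : NumberField K := by
      refine { to_charZero := inferInstance, to_finiteDimensional := ?_ }
      convert hfin
    have hmem : ∀ i, P i ∈ K := fun i => IntermediateField.subset_adjoin _ _ ⟨i, rfl⟩
    let x : Fin 5 → K := fun i => ⟨P (Fin.castLE hn i), hmem _⟩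
    let φ : K →+* ℂ := K.val.toRingHom
    have hφx : ∀ i, φ (x i) = P (Fin.castLE hn i) := fun _ => rfl
    have hmonx : ∀ a : Fin 5 → ℤ, φ (mon x a) = mon P (ez ℤ a) := by
      intro a
      rw [← mon_ez hn P a]
      unfold mon
      rw [map_prod]
      refine Finset.prod_congr rfl fun i _ => ?_
      rw [map_zpow₀, hφx]
    have hA : kr ℚ (fun i : Fin 5 => w (Fin.castLE hn i)) ≤ kr ℚ x := by
      intro f hf
      rw [mem_kr] at hf ⊢
      have h1 : rename (Fin.castLE hn) f ∈ kr ℚ w := by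
        rw [mem_kr, aeval_rename]
        exact hf
      have h2 := hle h1
      rw [mem_kr, aeval_rename] at h2
      apply φ.injective
      rw [map_zero, ← h2, aeval_def, aeval_def, ← coe_eval₂Hom, ← coe_eval₂Hom]
      change (φ.comp (eval₂Hom (algebraMap ℚ K) x)) f = _
      congr 1
      apply MvPolynomial.ringHom_ext
      · intro r
        simp
      · intro i
        simp only [RingHom.comp_apply, coe_eval₂Hom, eval₂_X]
        exact hφx i
    have hB : LThree.RankLe 2 x := by
      obtain ⟨U, hU, hrel⟩ := hrk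
      rw [Fintype.card_fin] at hU
      refine ⟨U.comap (ez ℚ), ?_, fun a haU => ?_⟩
      · rw [Fintype.card_fin]
        have e1 := LinearEquiv.finrank_eq (Submodule.equivMapOfInjective (ez ℚ (n := n))
          (ez_injective ℚ hn) (U.comap (ez ℚ)))
        rw [Submodule.map_comap_eq] at e1
        have e2 := Submodule.finrank_sup_add_finrank_inf_eq (LinearMap.range (ez ℚ (n := n))) U
        have e3 := Submodule.finrank_le (LinearMap.range (ez ℚ (n := n)) ⊔ U)
        have e4 := LinearMap.finrank_range_of_inj (ez_injective ℚ hn)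
        rw [Module.finrank_fin_fun] at e3 e4
        omega
      · have e : (fun i => ((ez ℤ (n := n) a) i : ℚ)) = ez ℚ (n := n) fun i => (a i : ℚ) := by
          funext j
          by_cases hj : j ∈ Set.range (Fin.castLE hn)
          · obtain ⟨i, rfl⟩ := hj
            rw [ez_cast hn, ez_cast hn]
          · rw [ez_of_notMem hn _ hj, ez_of_notMem hn _ hj, Int.cast_zero]
        obtain ⟨m, hm, h1⟩ := hrel (ez ℤ a) (by rw [e]; exact haU)
        refine ⟨m, hm, ?_⟩
        apply φ.injective
        rw [map_one, map_pow, ← h1]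
        congr 1
        exact hmonx a
    obtain ⟨a, ha, h1⟩ := hE2.2 K x (fun i h => hP (Fin.castLE hn i) (by
      rw [← hφx i, h, map_zero])) hA hB
    refine ⟨ez ℤ a, Finset.mem_union_right _ (Finset.mem_image_of_mem _ ha), ?_⟩
    rw [← hmonx, h1, map_one]

end Pool.Agent.Srf5
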