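import Pool.Agent.Srf5.ABdC
import Pool.Agent.Srf5.ADeg
import Pool.Agent.Srf5.AComp
import Pool.Agent.Srf5.AFin
import Pool.Agent.RelC.Counts
import Pool.Agent.RelC.North

set_option autoImplicit false

/-! Package G1: the points of rank at most two of a curve with at most one relation.

PROOF. (1) `P` is algebraic. Let `P` be a point of the set (`kr ℚ v ≤ kr ℚ P` follows from
`kr ℂ v ≤ kr ℂ P`, `IQ_eq_kr`). If `dm (kr ℚ P) ≥ 1` then `kr ℚ P = kr ℚ v` (`dm_strictAnti`), so
`v` and `P` have the same torsion relations (`relZ_mono` in both directions); `RankLe 2 P` gives two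
(even three) linearly independent `a, b` with `RU (mon P a)`, `RU (mon P b)`: contradiction to `h1`.
So `dm (kr ℚ P) = 0` and all `P i` are algebraic over `ℚ`; `K = IntermediateField.adjoin ℚ
(Set.range P)` is a number field, let `P' : Fin 5 → K` be the point, `D = finrank ℚ K`,
`adjoin ℚ (range P') = ⊤`.
(2) The subspace `S`. `L = {a | mon v a algebraic over ℚ}` is a subgroup of `Fin 5 → ℤ`
(`mon_add'`),
`S = QS L`; `cst u ∈ S ↔ u ∈ Lam ℚ v` (a multiple `k • u ∈ L`, `exists_mult_mem`, and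
`mon v (k • u) = (mon v u)^k`), and `finrank S ≤ 2`: otherwise there are three linearly independent
integer vectors in `L`, contradiction to `h2` (algebraic over `ℚ` implies algebraic over `ℂ`).
(3) `bdd_curve v hv hQ S` gives `B` and `g ∉ kr ℚ v`. Points with `aeval P g ≠ 0`:
`∑ h(P'_i) ≤ B D`. `RelC.two_relations'` (`k = 2`, `RelC.count_two`, `ε = 1/8`) gives linearly
independent `u, u'` with `mono P' u = mono P' u' = 1`, `nrm u * nrm u' ≤ C D^(3/4)`. By `h1` not
both
`mon v u = 1` and `mon v u' = 1`; say `mon v u ≠ 1`; `nrm u ≤ nrm u * nrm u'` (`nrm u' ≥ 1`).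
`degree_le v`: `D ≤ M nrm u ≤ M C D^(3/4)`, so `D ≤ (M C)^4 ≤ D0`, and `h(P'_i) ≤ max B 0 * D0`:
`RelC.northcott` gives a finite set `Z0 ⊆ ℂ` containing all `P i`, so `P` is in the finite set of
the functions `Fin 5 → Z0`.
(4) Points with `aeval P g = 0`: `exists_components v` for `g` gives finitely many primes `q` of
`MvPolynomial (Fin 5) ℚ` with `dm q = 0`, one of which is contained in `kr ℚ P`. For each `q` there
are finitely many such `P`: `dm q = 0` implies that each `X i` is algebraic modulo `q`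
(`card_le_dm`), i.e. there is a nonzero `f_i ∈ ℚ[T]` with `f_i(X i) ∈ q`, and `P i` is a root of
`f_i`. -/

namespace Pool.Agent.Srf5

open MvPolynomial Module Height NumberField Pool.Agent.CITLines

/-- Linearly independent integer vectors in a rational subspace. -/
private theorem cf_indep {ι : Type} [Fintype ι] (U : Submodule ℚ (ι → ℚ)) {m : ℕ}
    (h : m ≤ finrank ℚ U) : ∃ a : Fin m → ι → ℤ, LinearIndependent ℤ a ∧ ∀ j, cst (a j) ∈ U := by
  obtain ⟨f, hf⟩ := exists_linearIndependent_of_le_finrank h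
  choose k hk a hka using fun j => exists_clear ((f j : ι → ℚ))
  have hc : ∀ j, cst (a j) = (k j : ℚ) • (f j : ι → ℚ) := by
    intro j
    funext i
    rw [cst_apply, hka j i]
    rfl
  refine ⟨a, ?_, fun j => ?_⟩
  · have hf' : LinearIndependent ℚ fun j => (f j : ι → ℚ) :=
      hf.map' U.subtype (Submodule.ker_subtype U)
    rw [Fintype.linearIndependent_iff] at hf' ⊢
    intro g hg j
    have h1 : ∑ j, ((g j : ℚ) * (k j : ℚ)) • (f j : ι → ℚ) = 0 := by
      funext i
      have h2 := congrFun hg i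
      rw [Finset.sum_apply] at h2
      rw [Finset.sum_apply]
      have h3 : ((∑ j, (g j • a j) i : ℤ) : ℚ) = 0 := by
        rw [h2]
        simp
      refine Eq.trans ?_ h3
      push_cast
      refine Finset.sum_congr rfl fun j _ => ?_
      have h4 := hka j i
      simp only [Pi.smul_apply, smul_eq_mul]
      push_cast
      rw [h4]
      ring
    have h5 := hf' _ h1 j
    have h6 : (k j : ℚ) ≠ 0 := by exact_mod_cast hk j
    exact_mod_cast (mul_eq_zero.1 h5).resolve_right h6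
  · rw [hc]
    exact U.smul_mem _ (f j).2

private theorem cf_two {R : Type} [Semiring R] {M : Type} [AddCommMonoid M] [Module R M]
    (a : Fin 2 → M) (h : LinearIndependent R a) : LinearIndependent R ![a 0, a 1] := by
  have : ![a 0, a 1] = a := by
    funext i
    fin_cases i <;> rfl
  rwa [this]

private theorem cf_three {R : Type} [Semiring R] {M : Type} [AddCommMonoid M] [Module R M]
    (a : Fin 3 → M) (h : LinearIndependent R a) : LinearIndependent R ![a 0, a 1, a 2] := by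
  have : ![a 0, a 1, a 2] = a := by
    funext i
    fin_cases i <;> rfl
  rwa [this]

/-- Tuples of dimension zero are algebraic. -/
private theorem cf_alg {k K : Type} [Field k] [Field K] [Algebra k K] {κ : Type} [Fintype κ]
    (w : κ → K) (h : dm (kr k w) = 0) (i : κ) : IsAlgebraic k (w i) := by
  by_contra hi
  have h1 : (AlgebraicIndependent.matroid k K).Indep {w i} := by
    rw [AlgebraicIndependent.matroid_indep_iff]
    exact (algebraicIndependent_singleton_iff (⟨w i, rfl⟩ : ({w i} : Set K))).2 hi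
  have h2 := dm_kr (k := k) w
  rw [h] at h2
  have h3 : rk k {w i} ≤ rk k (Set.range w) := rk_mono (by
    rintro _ rfl
    exact ⟨i, rfl⟩)
  unfold rk at h3
  rw [h1.eRk_eq_encard, Set.encard_singleton] at h3
  unfold rk at h2
  rw [← h2] at h3
  simp at h3

private theorem cf_zpow {k K : Type} [Field k] [Field K] [Algebra k K] {x : K} {n : ℤ}
    (hn : n ≠ 0) (h : IsAlgebraic k (x ^ n)) : IsAlgebraic k x := by
  have h1 : IsAlgebraic k (x ^ n.natAbs) := by
    rcases Int.natAbs_eq n with h2 | h2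
    · rw [h2, zpow_natCast] at h
      exact h
    · rw [h2, zpow_neg, zpow_natCast] at h
      simpa using h.inv
  exact h1.of_pow (Int.natAbs_pos.2 hn)

/-- The exponents of the algebraic monomials. -/
private noncomputable def cfL {k K : Type} [Field k] [Field K] [Algebra k K] {ι : Type} [Fintype ι]
    (w : ι → K) (hw : ∀ i, w i ≠ 0) : Submodule ℤ (ι → ℤ) where
  carrier := {a | IsAlgebraic k (mon w a)}
  zero_mem' := by
    change IsAlgebraic k (mon w 0)
    rw [mon_zero]
    exact isAlgebraic_one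
  add_mem' := by
    intro a b ha hb
    change IsAlgebraic k (mon w (a + b))
    rw [mon_add' hw]
    exact IsAlgebraic.mul ha hb
  smul_mem' := by
    intro n a ha
    change IsAlgebraic k (mon w (n • a))
    rw [mon_smul]
    have h1 : mon w a ∈ algebraicClosure k K := mem_algebraicClosure_iff.2 ha
    exact mem_algebraicClosure_iff.1 (zpow_mem h1 n)

private theorem cf_mem {k K : Type} [Field k] [Field K] [Algebra k K] {ι : Type} [Fintype ι]
    (w : ι → K) (hw : ∀ i, w i ≠ 0) (u : ι → ℤ) :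
    cst u ∈ QS (cfL (k := k) w hw) ↔ u ∈ Lam k w := by
  constructor
  · intro h
    obtain ⟨n, hn, b, hb, hkb⟩ := exists_mult_mem h
    have : b = n • u := by
      funext i
      have := hkb i
      rw [cst_apply] at this
      rw [Pi.smul_apply, smul_eq_mul]
      exact_mod_cast this
    rw [this] at hb
    have h1 : IsAlgebraic k (mon w (n • u)) := hb
    rw [mon_smul] at h1
    exact cf_zpow hn h1
  · intro h
    exact cst_mem_QS h

/-- The points over a zero dimensional prime are finitely many. -/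
private theorem cf_zero (q : Ideal (MvPolynomial (Fin 5) ℚ)) [q.IsPrime] (h : dm q = 0) :
    {P : Fin 5 → ℂ | q ≤ kr ℚ P}.Finite := by
  have h0 : dm (kr ℚ (gen q)) = 0 := by rw [← h]; congr 1; exact kr_gen q
  have h1 : ∀ i, ∃ f : Polynomial ℚ, f ≠ 0 ∧ Polynomial.aeval (gen q i) f = 0 := fun i =>
    cf_alg (gen q) h0 i
  choose f hf0 hf using h1
  refine (Set.Finite.pi (t := fun i => (f i).rootSet ℂ) fun i => Polynomial.rootSet_finite _ _).subset
    ?_
  intro P hP
  rw [Set.mem_univ_pi]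
  intro i
  rw [Polynomial.mem_rootSet]
  refine ⟨hf0 i, ?_⟩
  have h2 : ∀ {L : Type} [Field L] [Algebra ℚ L] (x : Fin 5 → L),
      aeval x (Polynomial.aeval (X i : MvPolynomial (Fin 5) ℚ) (f i)) =
        Polynomial.aeval (x i) (f i) := by
    intro L _ _ x
    rw [← Polynomial.aeval_algHom_apply, aeval_X]
  have h3 : Polynomial.aeval (X i : MvPolynomial (Fin 5) ℚ) (f i) ∈ q := by
    rw [← kr_gen q, mem_kr, h2]
    exact hf i
  have h4 := hP h3
  rw [mem_kr, h2] at h4
  exact h4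


private theorem cf_bound {C D t : ℝ} (hD : 1 ≤ D) (ht : t < 1) (h : D ≤ C * D ^ t) :
    D ≤ C ^ (1 / (1 - t)) := by
  have hD0 : 0 < D := by linarith
  have h1 : 0 < D ^ t := Real.rpow_pos_of_pos hD0 t
  have h2 : D ^ (1 - t) ≤ C := by
    rw [Real.rpow_sub hD0, Real.rpow_one, div_le_iff₀ h1]
    exact h
  have h3 : 0 < 1 - t := by linarith
  calc D = (D ^ (1 - t)) ^ (1 / (1 - t)) := by
        rw [← Real.rpow_mul hD0.le, mul_one_div_cancel h3.ne', Real.rpow_one]
    _ ≤ C ^ (1 / (1 - t)) := Real.rpow_le_rpow (by positivity) h2 (by positivity)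

private theorem cf_nrm {u : Fin 5 → ℤ} (h : u ≠ 0) : 1 ≤ LThree.nrm u := by
  by_contra hcon
  push Not at hcon
  have h1 : RelC.nrm u = 0 := by
    rw [RelC.nrm_eq]
    omega
  exact h (RelC.nrm_eq_zero.1 h1)

/-- The general points, over number fields. -/
private theorem cf_gen {F : Type} [Field F] [CharZero F] (v : Fin 5 → F) (hv : ∀ i, v i ≠ 0)
    (hQ : dm (kr ℚ v) = 1)
    (h1 : ∀ a b : Fin 5 → ℤ, LinearIndependent ℤ ![a, b] → ¬ (RU (mon v a) ∧ RU (mon v b)))
    (S : Submodule ℚ (Fin 5 → ℚ)) (hS : finrank ℚ S ≤ 2)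
    (hS' : ∀ u : Fin 5 → ℤ, cst u ∈ S ↔ u ∈ Lam ℚ v) :
    ∃ (g : MvPolynomial (Fin 5) ℚ) (Z : Set ℂ), g ∉ kr ℚ v ∧ Z.Finite ∧
      ∀ (K : Type) [Field K] [NumberField K] (P : Fin 5 → K), (∀ i, P i ≠ 0) →
        kr ℚ v ≤ kr ℚ P → LThree.RankLe 2 P → IntermediateField.adjoin ℚ (Set.range P) = ⊤ →
        aeval P g ≠ 0 → ∀ (φ : K →+* ℂ) (i : Fin 5), φ (P i) ∈ Z := by
  obtain ⟨B, g, hg, hB⟩ := bdd_curve v hv hQ S hS hS'
  obtain ⟨M, hM1, hM⟩ := degree_le v hv hQ
  obtain ⟨C, hC1, hrel⟩ := RelC.two_relations' RelC.count_two (ε := 1 / 8) (by norm_num) B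
  set D0 : ℕ := ⌈(M * C : ℝ) ^ (4 : ℝ)⌉₊ with hD0
  obtain ⟨Z, hZ, hZK⟩ := RelC.northcott D0 (max B 0 * D0)
  refine ⟨g, Z, hg, hZ, ?_⟩
  intro K _ _ P hP hvP hrk hgen hgP φ i
  have hD : (1 : ℝ) ≤ finrank ℚ K := by exact_mod_cast (finrank_pos (R := ℚ) (M := K))
  have hht := hB K P hP hvP hrk hgP
  have hhi : ∀ i, logHeight₁ (P i) ≤ B * finrank ℚ K := fun i =>
    (Finset.single_le_sum (f := fun i => logHeight₁ (P i))
      (fun j _ => zero_le_logHeight₁ (P j)) (Finset.mem_univ i)).trans hht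
  obtain ⟨u, u', hind, hu, hu', hle⟩ := hrel K (Fin 5) P hP (by simp) hrk hhi
  have hu1 := cf_nrm (hind.ne_zero 0)
  have hv1 := cf_nrm (hind.ne_zero 1)
  simp only [Matrix.cons_val_zero, Matrix.cons_val_one] at hu1 hv1
  -- one of the relations does not hold at `v`
  obtain ⟨y, hy, hyP, hyle⟩ : ∃ y : Fin 5 → ℤ, mon v y ≠ 1 ∧ mon P y = 1 ∧
      LThree.nrm y ≤ LThree.nrm u * LThree.nrm u' := by
    by_cases hc : mon v u = 1
    · refine ⟨u', fun h => h1 u u' hind ⟨?_, ?_⟩, hu', Nat.le_mul_of_pos_left _ hu1⟩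
      · rw [hc]
        exact RU.one
      · rw [h]
        exact RU.one
    · exact ⟨u, hc, hu, Nat.le_mul_of_pos_right _ hv1⟩
  have h2 : (finrank ℚ K : ℝ) ≤ M * LThree.nrm y := by
    exact_mod_cast hM K P hP hvP hgen y hy hyP
  have h3 : (finrank ℚ K : ℝ) ≤ (M * C) * (finrank ℚ K : ℝ) ^ (3 / 4 : ℝ) := by
    have e3 : (1 + 1 / 8 : ℝ) * (2 / 3) = 3 / 4 := by norm_num
    rw [e3] at hle
    have e5 : (LThree.nrm y : ℝ) ≤ LThree.nrm u * LThree.nrm u' := by exact_mod_cast hyle
    calc (finrank ℚ K : ℝ) ≤ M * LThree.nrm y := h2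
      _ ≤ M * (C * (finrank ℚ K : ℝ) ^ (3 / 4 : ℝ)) :=
          mul_le_mul_of_nonneg_left (e5.trans hle) (Nat.cast_nonneg _)
      _ = _ := by ring
  have h4 := cf_bound hD (by norm_num) h3
  have h5 : finrank ℚ K ≤ D0 := by
    have e4 : (1 / (1 - 3 / 4) : ℝ) = 4 := by norm_num
    rw [e4] at h4
    exact Nat.cast_le.1 (h4.trans (Nat.le_ceil _))
  refine hZK K h5 (P i) ?_ φ
  have h7 : (finrank ℚ K : ℝ) ≤ D0 := by exact_mod_cast h5
  calc logHeight₁ (P i) ≤ B * finrank ℚ K := hhi i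
    _ ≤ max B 0 * finrank ℚ K := by gcongr; exact le_max_left _ _
    _ ≤ max B 0 * D0 := by gcongr

/-- The points are algebraic. -/
private theorem cf_point {F : Type} [Field F] [CharZero F] (v : Fin 5 → F) (hv : ∀ i, v i ≠ 0)
    (hQ : dm (kr ℚ v) = 1)
    (h1 : ∀ a b : Fin 5 → ℤ, LinearIndependent ℤ ![a, b] → ¬ (RU (mon v a) ∧ RU (mon v b)))
    (P : Fin 5 → ℂ) (hP : ∀ i, P i ≠ 0) (hle : kr ℚ v ≤ kr ℚ P) (hrk : LThree.RankLe 2 P) :
    dm (kr ℚ P) = 0 := by
  by_contra hd
  have h2 : kr ℚ v = kr ℚ P := by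
    by_contra hne
    have h3 := dm_strictAnti (lt_of_le_of_ne hle hne)
    omega
  obtain ⟨U, hU, htor⟩ := hrk
  rw [Fintype.card_fin] at hU
  obtain ⟨a, ha, haU⟩ := cf_indep U (m := 2) (by omega)
  have h3 : relZ P ≤ relZ v := relZ_mono hP hv h2.ge
  have h4 : ∀ j, RU (mon v (a j)) := fun j => h3 (htor (a j) (haU j))
  exact h1 _ _ (cf_two a ha) ⟨h4 0, h4 1⟩

private theorem cf_top (x : Fin 5 → ℂ) :
    ∃ y : Fin 5 → IntermediateField.adjoin ℚ (Set.range x), (∀ i, (y i : ℂ) = x i) ∧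
      IntermediateField.adjoin ℚ (Set.range y) = ⊤ := by
  have hmem : ∀ i, x i ∈ IntermediateField.adjoin ℚ (Set.range x) := fun i =>
    IntermediateField.subset_adjoin ℚ _ ⟨i, rfl⟩
  refine ⟨fun i => ⟨x i, hmem i⟩, fun i => rfl, ?_⟩
  rw [eq_top_iff]
  rintro ⟨z, hz⟩ -
  refine IntermediateField.adjoin_induction ℚ
    (p := fun z hz => (⟨z, hz⟩ : IntermediateField.adjoin ℚ (Set.range x)) ∈
      IntermediateField.adjoin ℚ (Set.range fun i =>
        (⟨x i, hmem i⟩ : IntermediateField.adjoin ℚ (Set.range x)))) ?_ ?_ ?_ ?_ ?_ hz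
  · rintro _ ⟨i, rfl⟩
    exact IntermediateField.subset_adjoin ℚ _ ⟨i, rfl⟩
  · intro q
    exact IntermediateField.algebraMap_mem _ q
  · intro a b _ _ ha hb
    exact add_mem ha hb
  · intro a _ ha
    exact inv_mem ha
  · intro a b _ _ ha hb
    exact mul_mem ha hb

theorem curve_fin {F : Type} [Field F] [Algebra ℂ F] [CharZero F] (v : Fin 5 → F)
    (hv : ∀ i, v i ≠ 0) (hC : dm (kr ℂ v) = 1) (hQ : dm (kr ℚ v) = 1)
    (h1 : ∀ a b : Fin 5 → ℤ, LinearIndependent ℤ ![a, b] → ¬ (RU (mon v a) ∧ RU (mon v b)))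
    (h2 : ∀ a b c : Fin 5 → ℤ, LinearIndependent ℤ ![a, b, c] →
      ¬ (a ∈ Lam ℂ v ∧ b ∈ Lam ℂ v ∧ c ∈ Lam ℂ v)) :
    {P : Fin 5 → ℂ | (∀ i, P i ≠ 0) ∧ kr ℂ v ≤ kr ℂ P ∧ LThree.RankLe 2 P}.Finite := by
  have hS : finrank ℚ (QS (cfL (k := ℚ) v hv)) ≤ 2 := by
    by_contra hcon
    push Not at hcon
    obtain ⟨a, ha, haS⟩ := cf_indep (QS (cfL (k := ℚ) v hv)) (m := 3) (by omega)
    have h3 : ∀ j, a j ∈ Lam ℂ v := fun j => by
      have h4 : IsAlgebraic ℚ (mon v (a j)) := (cf_mem v hv (a j)).1 (haS j)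
      exact h4.tower_top ℂ
    exact h2 _ _ _ (cf_three a ha) ⟨h3 0, h3 1, h3 2⟩
  obtain ⟨g, Z, hg, hZ, hgen⟩ := cf_gen v hv hQ h1 _ hS fun u => cf_mem v hv u
  obtain ⟨Q, hQp, hQc⟩ := exists_components v hg
  have hfin : (⋃ q ∈ Q, {P : Fin 5 → ℂ | q ≤ kr ℚ P}).Finite := by
    refine Set.Finite.biUnion Q.finite_toSet fun q hq => ?_
    obtain ⟨hp, -, hd⟩ := hQp q hq
    exact cf_zero q (by omega)
  refine ((Set.Finite.pi (t := fun _ : Fin 5 => Z) fun _ => hZ).union hfin).subset ?_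
  rintro P ⟨hP, hle, hrk⟩
  have hle' : kr ℚ v ≤ kr ℚ P := by
    rw [← IQ_eq_kr, ← IQ_eq_kr]
    exact IQ_mono hle
  by_cases hgP : aeval P g = 0
  · right
    obtain ⟨q, hq, hqP⟩ := hQc ℂ P hle' hgP
    exact Set.mem_biUnion hq hqP
  · left
    have hd := cf_point v hv hQ h1 P hP hle' hrk
    have halg : ∀ i, IsAlgebraic ℚ (P i) := cf_alg P hd
    have hfd : FiniteDimensional ℚ (IntermediateField.adjoin ℚ (Set.range P)) := by
      refine IntermediateField.finiteDimensional_adjoin ?_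
      rintro _ ⟨i, rfl⟩
      exact (halg i).isIntegral
    have hnf : NumberField (IntermediateField.adjoin ℚ (Set.range P)) :=
      { to_charZero := inferInstance
        to_finiteDimensional := hfd }
    obtain ⟨y, hy, htop⟩ := cf_top P
    have hmon : ∀ a : Fin 5 → ℤ, ((mon y a : IntermediateField.adjoin ℚ (Set.range P)) : ℂ) =
        mon P a := by
      intro a
      have h3 : ((mon y a : IntermediateField.adjoin ℚ (Set.range P)) : ℂ) =
        (IntermediateField.adjoin ℚ (Set.range P)).val (mon y a) := rfl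
      rw [h3]
      unfold mon
      rw [map_prod]
      refine Finset.prod_congr rfl fun i _ => ?_
      rw [map_zpow₀, ← hy]
      rfl
    have hy0 : ∀ i, y i ≠ 0 := by
      intro i h1
      refine hP i ?_
      rw [← hy i, h1]
      rfl
    have hev : ∀ f : MvPolynomial (Fin 5) ℚ,
        (IntermediateField.adjoin ℚ (Set.range P)).val (aeval y f) = aeval P f := by
      intro f
      have h2 := MvPolynomial.comp_aeval_apply y
        (IntermediateField.adjoin ℚ (Set.range P)).val f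
      have h3 : (fun i => (IntermediateField.adjoin ℚ (Set.range P)).val (y i)) = P :=
        funext fun i => hy i
      rw [h3] at h2
      exact h2
    have hley : kr ℚ v ≤ kr ℚ y := by
      intro f hf
      have h1 := mem_kr.mp (hle' hf)
      rw [mem_kr]
      rw [← hev] at h1
      exact (map_eq_zero _).mp h1
    have hrky : LThree.RankLe 2 y := by
      obtain ⟨U, hU, htor⟩ := hrk
      refine ⟨U, hU, fun a ha => ?_⟩
      obtain ⟨m, hm, h1⟩ := htor a ha
      refine ⟨m, hm, ?_⟩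
      apply Subtype.val_injective
      have h2 : ((LThree.mono y a : IntermediateField.adjoin ℚ (Set.range P)) : ℂ) =
          LThree.mono P a := hmon a
      change ((LThree.mono y a : IntermediateField.adjoin ℚ (Set.range P)) : ℂ) ^ m = 1
      rw [h2, h1]
    have hgy : aeval y g ≠ 0 := by
      intro h0
      apply hgP
      rw [← hev, h0, map_zero]
    rw [Set.mem_univ_pi]
    intro i
    have h5 := hgen (IntermediateField.adjoin ℚ (Set.range P)) y hy0 hley hrky htop hgy
      (IntermediateField.adjoin ℚ (Set.range P)).val.toRingHom i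
    have h6 : (IntermediateField.adjoin ℚ (Set.range P)).val.toRingHom (y i) = P i := hy i
    rwa [h6] at h5

end Pool.Agent.Srf5
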