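import Pool.Agent.Srf5.HilbUp

set_option autoImplicit false

/-! Package F10: lower bound for the Hilbert function of a curve, and the telescoping argument.

PROOF of `lower`. Every element of `E = k(ξ)` is a quotient of elements of `Algebra.adjoin k (range
ξ)`
(`IntermediateField.mem_adjoin_iff` or `algebraAdjoinAdjoin` fraction field); multiply all `y_j` by
one
common denominator (this keeps linear independence over `k(ξ i)`): we may assume
`y_j = aeval ξ (P_j)`, `P_j ∈ MvPolynomial (Fin n) k`, of total degree `≤ c`. Then the elements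
`y_j (ξ i)^l`, `0 ≤ l < N - c`, `j < δ`, are in `Mn k ξ N` (`N ≥ c`), and they are linearly
independent
over `k`: a relation `∑_j (∑_l c_{jl} (ξ i)^l) y_j = 0` has coefficients in `k(ξ i)`, so all
`∑_l c_{jl} (ξ i)^l = 0`, so all `c_{jl} = 0` (`ξ i` transcendental). So `δ (N - c) ≤ finrank`.
PROOF of `telescope`. For `J ≥ 1`: summing `h2` for `N = 0, g, ..., (J-1) g`:
`∑_{j=1}^J y (j g) ≤ h (J g) ≤ C (J g + 1)^2`, and `∑_{j=1}^J y(j g) ≥ ∑ δ (j g - c) ≥
δ (g J (J+1)/2 - c J)` (also when `j g < c`). So `δ g J^2 ≤ 2 C (J g + 1)^2 + 2 δ c J` for all `J`.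
If
`δ ≥ 2 C g + 1` then `g J^2 ≤ 2 C (2 J g + 1) + 2 δ c J` for all `J`, false for large `J`. -/

namespace Pool.Agent.Srf5

open MvPolynomial Pool.Agent.CITLines Module

/-- A monomial with small exponents times a small power of one coordinate is in `Mn`. -/
theorem monomial_mul_pow_mem_Mn {k E : Type} [Field k] [Field E] [Algebra k E] {n : ℕ}
    (ξ : Fin n → E) (i : Fin n) {c l N : ℕ} (h : c + l ≤ N) (e : Fin n →₀ ℕ)
    (he : ∑ j, e j ≤ c) : (∏ j, ξ j ^ e j) * ξ i ^ l ∈ Mn k ξ N := by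
  classical
  have hle : ∀ j, e j ≤ c := fun j =>
    (Finset.single_le_sum (fun _ _ => Nat.zero_le _) (Finset.mem_univ j)).trans he
  refine Submodule.subset_span ⟨fun j => (e j : ℤ) + (if j = i then (l : ℤ) else 0), ?_, ?_⟩
  · intro j
    have h1 := hle j
    have h0 : (0 : ℤ) ≤ (e j : ℤ) + (if j = i then (l : ℤ) else 0) := by
      split_ifs <;> positivity
    show |(e j : ℤ) + (if j = i then (l : ℤ) else 0)| ≤ N
    rw [abs_of_nonneg h0]
    split_ifs <;> omega
  · show mon ξ (fun j => (e j : ℤ) + (if j = i then (l : ℤ) else 0)) = _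
    rw [mon, ← Finset.mul_prod_erase Finset.univ _ (Finset.mem_univ i),
      ← Finset.mul_prod_erase Finset.univ (fun j => ξ j ^ e j) (Finset.mem_univ i)]
    have h1 : ∏ x ∈ Finset.univ.erase i, ξ x ^ ((e x : ℤ) + (if x = i then (l : ℤ) else 0)) =
        ∏ x ∈ Finset.univ.erase i, ξ x ^ e x := by
      refine Finset.prod_congr rfl fun x hx => ?_
      rw [if_neg (Finset.ne_of_mem_erase hx), add_zero, zpow_natCast]
    rw [h1, if_pos rfl]
    have h2 : ξ i ^ ((e i : ℤ) + (l : ℤ)) = ξ i ^ e i * ξ i ^ l := by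
      rw [← Nat.cast_add, zpow_natCast, pow_add]
    rw [h2]
    ring

/-- A polynomial of small degree times a small power of one coordinate is in `Mn`. -/
theorem aeval_mul_pow_mem_Mn {k E : Type} [Field k] [Field E] [Algebra k E] {n : ℕ}
    (ξ : Fin n → E) (i : Fin n) {c l N : ℕ} (h : c + l ≤ N) (P : MvPolynomial (Fin n) k)
    (hP : P.totalDegree ≤ c) : aeval ξ P * ξ i ^ l ∈ Mn k ξ N := by
  rw [aeval_def, eval₂_eq', Finset.sum_mul]
  refine Submodule.sum_mem _ fun e he => ?_
  rw [mul_assoc, ← Algebra.smul_def]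
  refine Submodule.smul_mem _ _ (monomial_mul_pow_mem_Mn ξ i h e ?_)
  refine le_trans ?_ ((le_totalDegree he).trans hP)
  rw [Finsupp.sum_fintype _ _ (fun _ => rfl)]

theorem lower {k E : Type} [Field k] [Field E] [Algebra k E] {n : ℕ} (ξ : Fin n → E)
    (hξ : ∀ i, ξ i ≠ 0) (hgen : IntermediateField.adjoin k (Set.range ξ) = ⊤) (i : Fin n)
    (hi : Transcendental k (ξ i)) (δ : ℕ) (y : Fin δ → E)
    (hy : LinearIndependent (IntermediateField.adjoin k {ξ i}) y) :
    ∃ c : ℕ, ∀ N, c ≤ N → δ * (N - c) ≤ finrank k (Mn k ξ N) := by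
  classical
  have key : ∀ j, ∃ r s : MvPolynomial (Fin n) k, y j = aeval ξ r / aeval ξ s := fun j => by
    rw [← IntermediateField.mem_adjoin_range_iff, hgen]
    exact IntermediateField.mem_top
  choose r s hrs using key
  have hs : ∀ j, aeval ξ (s j) ≠ 0 := fun j h => hy.ne_zero j (by rw [hrs, h, div_zero])
  obtain ⟨q, hq⟩ : ∃ q : E, q = ∏ j, aeval ξ (s j) := ⟨_, rfl⟩
  have hq0 : q ≠ 0 := by
    rw [hq]
    exact Finset.prod_ne_zero_iff.mpr fun j _ => hs j
  obtain ⟨P, hP⟩ : ∃ P : Fin δ → MvPolynomial (Fin n) k, ∀ j, aeval ξ (P j) = q * y j := by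
    refine ⟨fun j => r j * ∏ l ∈ Finset.univ.erase j, s l, fun j => ?_⟩
    rw [map_mul, map_prod, hq, ← Finset.mul_prod_erase Finset.univ _ (Finset.mem_univ j), hrs j]
    have := hs j
    field_simp
  obtain ⟨c, hc⟩ : ∃ c : ℕ, ∀ j, (P j).totalDegree ≤ c :=
    ⟨Finset.univ.sup fun j => (P j).totalDegree, fun j =>
      Finset.le_sup (f := fun j => (P j).totalDegree) (Finset.mem_univ j)⟩
  refine ⟨c, fun N hN => ?_⟩
  have hx : ξ i ∈ IntermediateField.adjoin k {ξ i} :=
    IntermediateField.mem_adjoin_simple_self k (ξ i)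
  have hy' : LinearIndependent (IntermediateField.adjoin k {ξ i}) fun j => q * y j := by
    have := hy.map' (LinearMap.mulLeft (IntermediateField.adjoin k {ξ i}) q)
      (LinearMap.ker_eq_bot.mpr (mul_right_injective₀ hq0))
    exact this
  have hpow : LinearIndependent k fun l : Fin (N - c) =>
      ((⟨ξ i, hx⟩ : IntermediateField.adjoin k {ξ i}) ^ (l : ℕ)) := by
    rw [linearIndependent_iff']
    intro t g hg l hl
    have h1 : Polynomial.aeval (ξ i) (∑ l ∈ t, Polynomial.C (g l) * Polynomial.X ^ (l : ℕ)) = 0 := by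
      rw [map_sum]
      have h2 := congrArg (algebraMap (IntermediateField.adjoin k {ξ i}) E) hg
      rw [map_sum, map_zero] at h2
      rw [← h2]
      refine Finset.sum_congr rfl fun l _ => ?_
      rw [map_mul, Polynomial.aeval_C, map_pow, Polynomial.aeval_X, ← Algebra.smul_def]
      rfl
    have h3 : (∑ l ∈ t, Polynomial.C (g l) * Polynomial.X ^ (l : ℕ)) = 0 := by
      by_contra hne
      exact hi ⟨_, hne, h1⟩
    have h4 := congrArg (fun p => Polynomial.coeff p (l : ℕ)) h3
    simp only [Polynomial.finsetSum_coeff, Polynomial.coeff_C_mul, Polynomial.coeff_X_pow,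
      Polynomial.coeff_zero] at h4
    rw [Finset.sum_eq_single l] at h4
    · simpa using h4
    · intro b _ hb
      rw [if_neg, mul_zero]
      intro h
      exact hb (Fin.ext h.symm)
    · intro h
      exact absurd hl h
  have hlin := linearIndependent_smul hpow hy'
  have := finite_Mn k ξ N
  have hmem : ∀ p : Fin (N - c) × Fin δ,
      (((⟨ξ i, hx⟩ : IntermediateField.adjoin k {ξ i}) ^ (p.1 : ℕ)) • (q * y p.2)) ∈
        Mn k ξ N := by
    rintro ⟨l, j⟩
    have h1 := aeval_mul_pow_mem_Mn (k := k) ξ i (c := c) (l := l) (N := N)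
      (by have := l.2; omega) (P j) (hc j)
    rw [hP, mul_comm] at h1
    exact h1
  have hlin' : LinearIndependent k fun p : Fin (N - c) × Fin δ =>
      (⟨_, hmem p⟩ : Mn k ξ N) := by
    refine LinearIndependent.of_comp (Mn k ξ N).subtype ?_
    exact hlin
  have := hlin'.fintype_card_le_finrank
  rw [Fintype.card_prod, Fintype.card_fin, Fintype.card_fin, mul_comm] at this
  exact this

theorem telescope {C g δ : ℕ} (hg : 0 < g) (h y : ℕ → ℕ) (h1 : ∀ N, h N ≤ C * (N + 1) ^ 2)
    (h2 : ∀ N, y (N + g) + h N ≤ h (N + g)) (c : ℕ) (h3 : ∀ N, c ≤ N → δ * (N - c) ≤ y N) :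
    δ ≤ 2 * C * g := by
  have h3' : ∀ N, δ * N ≤ y N + δ * c := by
    intro N
    rcases le_total c N with h | h
    · have h4 := h3 N h
      have h5 : δ * N = δ * (N - c) + δ * c := by
        rw [← mul_add, Nat.sub_add_cancel h]
      rw [h5]
      exact Nat.add_le_add_right h4 _
    · exact (Nat.mul_le_mul_left δ h).trans (Nat.le_add_left _ _)
  have key : ∀ J : ℕ, δ * g * (J * (J + 1)) ≤ 2 * h (J * g) + 2 * δ * c * J := by
    intro J
    induction J with
    | zero => simp
    | succ J ih =>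
      have h4 := h2 (J * g)
      have h5 := h3' ((J + 1) * g)
      have h6 : J * g + g = (J + 1) * g := by ring
      rw [h6] at h4
      nlinarith
  by_contra hcon
  push Not at hcon
  obtain ⟨J, hJ⟩ : ∃ J, J = 4 * C * g + 2 * δ * c + 2 * C + 1 := ⟨_, rfl⟩
  have h7 := key J
  have h8 := h1 (J * g)
  have h9 : (2 * C * g + 1) * (g * (J * J)) ≤ δ * (g * (J * J)) :=
    Nat.mul_le_mul_right _ hcon
  have h10 : J * J ≤ g * (J * J) := Nat.le_mul_of_pos_left _ hg
  have h11 : J * J ≤ (4 * C * g + 2 * δ * c) * J + 2 * C := by nlinarith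
  have h12 : J * J = (4 * C * g + 2 * δ * c) * J + (2 * C + 1) * J := by
    nth_rewrite 1 [hJ]
    ring
  have h13 : 1 ≤ J := by omega
  nlinarith

end Pool.Agent.Srf5
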