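import Pool.Agent.Srf5.HilbDrop
import Pool.Agent.Srf5.Lower

set_option autoImplicit false

/-! Package F11: bounded degree of the coordinates on the curves of a hypersurface section.

PROOF. `C` from `finrank_Mn_le` (`dm (kr k w) = 2`), `δ := 2 C (g + 1)`. Let `ξ`, `f` be given, `i`
a
coordinate. If `ξ i` is algebraic over `k`, it is in `k` (`IsAlgClosed`), done (`DegLe`, left).
Otherwise
let `y : Fin δ' → E` be linearly independent over `k(ξ i)`: `lower`, `drop` (with `g + 1` in place
of
`g`) and `telescope` with `h N = finrank k (Mn k w N)`, `y N = finrank k (Mn k ξ N)` give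
`δ' ≤ 2 C (g + 1)`. So `Module.rank (k(ξ i)) E ≤ δ` (`rank_le`), hence `E` is finite over `k(ξ i)`
of
degree `≤ δ`. -/

namespace Pool.Agent.Srf5

open MvPolynomial Pool.Agent.CITLines Module

theorem degLe {k F : Type} [Field k] [IsAlgClosed k] [Field F] [Algebra k F] {n : ℕ}
    (w : Fin n → F) (hw : ∀ i, w i ≠ 0) (hdim : dm (kr k w) = 2) (g : ℕ) :
    ∃ δ : ℕ, ∀ (E : Type) [Field E] [Algebra k E] (ξ : Fin n → E), (∀ i, ξ i ≠ 0) →
      IntermediateField.adjoin k (Set.range ξ) = ⊤ → kr k w ≤ kr k ξ →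
      ∀ f : MvPolynomial (Fin n) k, f.totalDegree ≤ g → aeval w f ≠ 0 → aeval ξ f = 0 →
      ∀ i, M05Full.DegLe k δ (ξ i) := by
  obtain ⟨C, hC⟩ := finrank_Mn_le (k := k) w hw
  refine ⟨2 * C * (g + 1), ?_⟩
  intro E _ _ ξ hξ hgen hle f hf hfw hfξ i
  by_cases hi : IsAlgebraic k (ξ i)
  · left
    have h1 : (minpoly k (ξ i)).degree = 1 :=
      IsAlgClosed.degree_eq_one_of_irreducible k (minpoly.irreducible hi.isIntegral)
    exact minpoly.mem_range_of_degree_eq_one k (ξ i) h1
  · right
    have hkey : ∀ (δ' : ℕ) (y : Fin δ' → E),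
        LinearIndependent (IntermediateField.adjoin k {ξ i}) y → δ' ≤ 2 * C * (g + 1) := by
      intro δ' y hy
      obtain ⟨c, hc⟩ := lower ξ hξ hgen i hi δ' y hy
      refine telescope (Nat.succ_pos g) (fun N => finrank k (Mn k w N))
        (fun N => finrank k (Mn k ξ N)) ?_ ?_ c hc
      · intro N
        have := hC N
        rwa [hdim] at this
      · intro N
        exact drop w hw ξ hξ hle f (g + 1) (hf.trans (Nat.le_succ g)) hfw hfξ N
    have hrank : Module.rank (IntermediateField.adjoin k {ξ i}) E ≤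
        ((2 * C * (g + 1) : ℕ) : Cardinal) := by
      apply rank_le
      intro s hs
      have h2 := hs.comp (s.equivFin.symm) s.equivFin.symm.injective
      exact hkey _ _ h2
    refine ⟨hi, ?_, ?_⟩
    · exact Module.rank_lt_aleph0_iff.1 (hrank.trans_lt (Cardinal.natCast_lt_aleph0))
    · exact finrank_le_of_rank_le hrank

end Pool.Agent.Srf5
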