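import Pool.Agent.Srf5.FDefs
import Pool.Agent.CITLines.Push

set_option autoImplicit false

/-! Package F13: positive dimensional fibres of two independent monomials.

PROOF. `dm (kr k w) = 2` and `mon w e1, mon w e2` are algebraically independent, so they form a
transcendence basis of `k(w)` and every `w i` is algebraic over `Algebra.adjoin k {mon w e1, mon w
e2}`
(for instance: otherwise `mon w e1, mon w e2, w i` are algebraically independent, in contradiction
to
`dm (kr k w) = 2`, compare `CITLines.dm_kr`, `rk_range_of_indep`). So for each `i` there are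
`c_{i,0}, ..., c_{i,r_i} ∈ MvPolynomial (Fin 2) k` with `∑_j c_{i,j}(w^e1, w^e2) (w i)^j = 0` and
`c_{i,r_i} ≠ 0`, `r_i ≥ 1`, hence `c_{i,r_i}(w^e1, w^e2) ≠ 0`. Let `h_i ∈ MvPolynomial (Fin n) k`
be a
numerator of `c_{i,r_i}(x^e1, x^e2)`: `h_i(ξ) = ξ^u c_{i,r_i}(ξ^e1, ξ^e2)` for all `ξ` with nonzero
coordinates and a fixed exponent `u ≥ 0`. Put `h := ∏ h_i`, `h(w) ≠ 0`.
For `ξ` as in the statement the relation `∑_j c_{i,j}(ξ^e1, ξ^e2) (ξ i)^j = 0` holds for all `i`
(`kr k w ≤ kr k ξ`, clear denominators; or `CITLines.kr_pm_le` for the exponents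
`e1, e2, single i 1`). The coefficients are algebraic over `k`. For an `i` with `ξ i`
transcendental over
`k` the leading coefficient must vanish (otherwise `ξ i` would be algebraic over the field of
elements
algebraic over `k`), so `h_i(ξ) = 0`. -/

namespace Pool.Agent.Srf5

open MvPolynomial Pool.Agent.CITLines

/-- Numerators of polynomials in monomials. -/
private theorem exists_numer {k : Type} [Field k] {ι S : Type} [Fintype ι] (φ : S → ι → ℤ)
    (f : MvPolynomial S k) : ∃ (g : MvPolynomial ι k) (N : ℕ),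
    ∀ (K : Type) [Field K] [Algebra k K] (w : ι → K), (∀ i, w i ≠ 0) →
      aeval w g = (∏ i, w i) ^ N * aeval (pm φ w) f := by
  classical
  induction f using MvPolynomial.induction_on with
  | C a =>
    refine ⟨C a, 0, ?_⟩
    intro K _ _ w _
    rw [pow_zero, one_mul, algHom_C, algHom_C]
  | add f₁ f₂ h₁ h₂ =>
    obtain ⟨g₁, N₁, h₁⟩ := h₁
    obtain ⟨g₂, N₂, h₂⟩ := h₂
    refine ⟨g₁ * (∏ i, X i) ^ N₂ + g₂ * (∏ i, X i) ^ N₁, N₁ + N₂, ?_⟩
    intro K _ _ w hw
    rw [map_add, map_mul, map_mul, map_pow, map_pow, map_prod, h₁ K w hw, h₂ K w hw, map_add]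
    simp only [aeval_X]
    ring
  | mul_X f s h =>
    obtain ⟨g, N, h⟩ := h
    obtain ⟨M, hM⟩ : ∃ M : ℕ, ∀ i, 0 ≤ φ s i + M := by
      refine ⟨∑ i, (φ s i).natAbs, fun i => ?_⟩
      have h1 : (φ s i).natAbs ≤ ∑ i, (φ s i).natAbs :=
        Finset.single_le_sum (f := fun i => (φ s i).natAbs) (fun _ _ => Nat.zero_le _)
          (Finset.mem_univ i)
      omega
    refine ⟨g * ∏ i, X i ^ (φ s i + M).toNat, N + M, ?_⟩
    intro K _ _ w hw
    have h2 : ∏ i, w i ^ (φ s i + M).toNat = mon w (φ s) * (∏ i, w i) ^ M := by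
      rw [mon, ← Finset.prod_pow, ← Finset.prod_mul_distrib]
      refine Finset.prod_congr rfl fun i _ => ?_
      rw [← zpow_natCast, Int.toNat_of_nonneg (hM i), zpow_add₀ (hw i), zpow_natCast]
    rw [map_mul, map_mul, map_prod, h K w hw, aeval_X, pm]
    simp only [map_pow, aeval_X]
    rw [h2]
    ring

/-- Evaluation of a polynomial in `none` and `some j` in two steps. -/
private theorem aeval_option {k K : Type} [Field k] [Field K] [Algebra k K] {S : Type}
    (x : Option S → K) (G : MvPolynomial (Option S) k) :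
    aeval x G = Polynomial.eval₂ (aeval fun j => x (some j) : MvPolynomial S k →ₐ[k] K).toRingHom
      (x none) (optionEquivLeft k S G) := by
  induction G using MvPolynomial.induction_on with
  | C a =>
    rw [optionEquivLeft_C, Polynomial.eval₂_C]
    simp
  | add p q hp hq => rw [map_add, map_add, Polynomial.eval₂_add, hp, hq]
  | mul_X p o hp =>
    rw [map_mul, map_mul, Polynomial.eval₂_mul, hp]
    cases o with
    | none => rw [optionEquivLeft_X_none, Polynomial.eval₂_X, aeval_X]
    | some j =>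
      rw [optionEquivLeft_X_some, Polynomial.eval₂_C, aeval_X]
      simp

private theorem mon_single {K : Type} [Field K] {n : ℕ} (w : Fin n → K) (i : Fin n) :
    mon w (Pi.single i 1) = w i := by
  classical
  unfold mon
  rw [Finset.prod_eq_single i]
  · rw [Pi.single_eq_same, zpow_one]
  · intro j _ hj
    rw [Pi.single_eq_of_ne hj, zpow_zero]
  · intro h
    exact absurd (Finset.mem_univ i) h

theorem fibre {k F : Type} [Field k] [Field F] [Algebra k F] {n : ℕ} (w : Fin n → F)
    (hw : ∀ i, w i ≠ 0) (hdim : dm (kr k w) = 2) (e1 e2 : Fin n → ℤ)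
    (hind : AlgebraicIndependent k ![mon w e1, mon w e2]) :
    ∃ h : MvPolynomial (Fin n) k, aeval w h ≠ 0 ∧ ∀ (Ω : Type) [Field Ω] [Algebra k Ω]
      (ξ : Fin n → Ω), (∀ i, ξ i ≠ 0) → kr k w ≤ kr k ξ → (∃ i, Transcendental k (ξ i)) →
      IsAlgebraic k (mon ξ e1) → IsAlgebraic k (mon ξ e2) → aeval ξ h = 0 := by
  classical
  let β : Fin n → Option (Fin 2) → Fin n → ℤ := fun i o => o.elim (Pi.single i 1) ![e1, e2]
  -- the relations
  have hG : ∀ i, ∃ G : MvPolynomial (Option (Fin 2)) k, aeval (pm (β i) w) G = 0 ∧ G ≠ 0 := by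
    intro i
    by_contra hcon
    push Not at hcon
    have h1 : AlgebraicIndependent k (pm (β i) w) := by
      change Function.Injective (aeval (pm (β i) w) : MvPolynomial _ k →ₐ[k] F)
      rw [injective_iff_map_eq_zero]
      exact hcon
    have h2 := rk_range_of_indep _ h1
    have h3 := rk_pm_le (k := k) w (β i)
    rw [h2, ← dm_kr, hdim, Fintype.card_option, Fintype.card_fin] at h3
    exact absurd h3 (by decide)
  choose G hG0 hGne using hG
  let P : Fin n → Polynomial (MvPolynomial (Fin 2) k) := fun i => optionEquivLeft k (Fin 2) (G i)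
  have hP : ∀ i, P i ≠ 0 := by
    intro i h0
    apply hGne i
    have h1 : optionEquivLeft k (Fin 2) (G i) = optionEquivLeft k (Fin 2) 0 := by
      rw [map_zero]
      exact h0
    exact (optionEquivLeft k (Fin 2)).injective h1
  choose h N hh using fun i => exists_numer ![e1, e2] (P i).leadingCoeff
  have hpm : ∀ {K : Type} [Field K] (x : Fin n → K), pm ![e1, e2] x = ![mon x e1, mon x e2] := by
    intro K _ x
    funext j
    fin_cases j <;> rfl
  refine ⟨∏ i, h i, ?_, ?_⟩
  · rw [map_prod]
    refine Finset.prod_ne_zero_iff.2 fun i _ => ?_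
    rw [hh i F w hw]
    refine mul_ne_zero (pow_ne_zero _ (Finset.prod_ne_zero_iff.2 fun i _ => hw i)) ?_
    rw [hpm]
    intro h0
    have h1 : Function.Injective
        (aeval ![mon w e1, mon w e2] : MvPolynomial (Fin 2) k →ₐ[k] F) := hind
    exact (Polynomial.leadingCoeff_ne_zero.2 (hP i))
      ((injective_iff_map_eq_zero _).1 h1 _ h0)
  · intro Ω _ _ ξ hξ hle hex ha1 ha2
    obtain ⟨i, hi⟩ := hex
    rw [map_prod]
    refine Finset.prod_eq_zero (Finset.mem_univ i) ?_
    rw [hh i Ω ξ hξ, hpm]
    refine mul_eq_zero_of_right _ ?_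
    by_contra hne
    apply hi
    -- the relation for the point
    have h1 : aeval (pm (β i) ξ) (G i) = 0 :=
      mem_kr.1 (kr_pm_le hξ hle (β i) (mem_kr.2 (hG0 i)))
    rw [aeval_option] at h1
    have e0 : pm (β i) ξ none = ξ i := mon_single ξ i
    have e1' : (fun j => pm (β i) ξ (some j)) = ![mon ξ e1, mon ξ e2] := hpm ξ
    rw [e0, e1'] at h1
    -- the coefficients are algebraic
    let L := algebraicClosure k Ω
    let m : Fin 2 → L := ![⟨mon ξ e1, mem_algebraicClosure_iff.2 ha1⟩,
      ⟨mon ξ e2, mem_algebraicClosure_iff.2 ha2⟩]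
    have hm : ∀ c : MvPolynomial (Fin 2) k, ((aeval m c : L) : Ω) =
        aeval ![mon ξ e1, mon ξ e2] c := by
      intro c
      have h2 := MvPolynomial.comp_aeval_apply (R := k) (f := m) L.val c
      have h3 : (fun j => L.val (m j)) = ![mon ξ e1, mon ξ e2] := by
        funext j
        fin_cases j <;> rfl
      rw [← h3]
      exact h2
    let Q : Polynomial L := (P i).map (aeval m : MvPolynomial (Fin 2) k →ₐ[k] L).toRingHom
    have hQ0 : Q ≠ 0 := by
      intro h0
      apply hne
      have h2 : Q.coeff (P i).natDegree = 0 := by rw [h0, Polynomial.coeff_zero]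
      rw [Polynomial.coeff_map] at h2
      have h3 : (aeval m (P i).leadingCoeff : L) = 0 := h2
      have h4 := hm (P i).leadingCoeff
      rw [h3] at h4
      exact h4.symm
    have hQ : Polynomial.aeval (ξ i) Q = 0 := by
      rw [Polynomial.aeval_def, Polynomial.eval₂_map]
      have h2 : (algebraMap L Ω).comp (aeval m : MvPolynomial (Fin 2) k →ₐ[k] L).toRingHom =
          (aeval ![mon ξ e1, mon ξ e2] : MvPolynomial (Fin 2) k →ₐ[k] Ω).toRingHom := by
        exact RingHom.ext fun c => hm c
      rw [h2]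
      exact h1
    have h5 : IsAlgebraic L (ξ i) := ⟨Q, hQ0, hQ⟩
    exact h5.restrictScalars k

end Pool.Agent.Srf5
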