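import Pool.Agent.Srf5.FDefs

set_option autoImplicit false

/-! Package F14: finitely many curves in a proper closed subset of a surface.

PROOF. `fin_curves`: let `p = kr k w` and `J = p ⊔ Ideal.span {h}`. A prime `q` of the set contains
`J`;
it is a minimal prime of `J`: if `J ≤ q' ≤ q`, `q'` prime, then `p < q'` (`h ∉ p`), so
`dm q' < 2` (`dm_strictAnti`), `dm q ≤ dm q'` (`dm_anti`), so `dm q' = 1 = dm q` and `q' = q`
(`dm_strictAnti`). `J.minimalPrimes` is finite (`Ideal.finite_minimalPrimes_of_isNoetherianRing`).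
`rel_list`: for every `q` of the finite set for which there is `a ≠ 0` with `binom k a 1 ∈ q`
(`CITLines.binom`, `binom_mem_kr`) choose one such `a`; `E` is the set of the chosen `a`. Take
`q = kr k ξ`. -/

namespace Pool.Agent.Srf5

open MvPolynomial Pool.Agent.CITLines

theorem fin_curves {k F : Type} [Field k] [Field F] [Algebra k F] {n : ℕ} (w : Fin n → F)
    (hdim : dm (kr k w) = 2) (h : MvPolynomial (Fin n) k) (hh : aeval w h ≠ 0) :
    {q : Ideal (MvPolynomial (Fin n) k) | q.IsPrime ∧ kr k w ≤ q ∧ h ∈ q ∧ dm q = 1}.Finite := by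
  refine (Ideal.finite_minimalPrimes_of_isNoetherianRing _
    (kr k w ⊔ Ideal.span {h})).subset ?_
  rintro q ⟨hq, hle, hhq, hdq⟩
  have := hq
  refine ⟨⟨hq, sup_le hle (by rwa [Ideal.span_le, Set.singleton_subset_iff])⟩, ?_⟩
  rintro q' ⟨hq', hJ⟩ hle'
  have := hq'
  have hhq' : h ∈ q' := hJ (Ideal.mem_sup_right (Ideal.mem_span_singleton_self h))
  have hp : kr k w < q' := by
    refine lt_of_le_of_ne (le_sup_left.trans hJ) fun e => hh ?_
    rw [← e] at hhq'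
    exact mem_kr.mp hhq'
  by_contra hcon
  have hlt : q' < q := lt_of_le_of_ne hle' fun e => hcon e.ge
  have h1 := dm_strictAnti hp
  have h2 := dm_strictAnti hlt
  omega

theorem rel_list {k F : Type} [Field k] [Field F] [Algebra k F] {n : ℕ} (w : Fin n → F)
    (hdim : dm (kr k w) = 2) (h : MvPolynomial (Fin n) k) (hh : aeval w h ≠ 0) :
    ∃ E : Finset (Fin n → ℤ), 0 ∉ E ∧ ∀ (Ω : Type) [Field Ω] [Algebra k Ω] (ξ : Fin n → Ω),
      (∀ i, ξ i ≠ 0) → kr k w ≤ kr k ξ → dm (kr k ξ) = 1 → aeval ξ h = 0 →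
      (∃ a : Fin n → ℤ, a ≠ 0 ∧ mon ξ a = 1) → ∃ a ∈ E, mon ξ a = 1 := by
  classical
  have hch : ∀ q : Ideal (MvPolynomial (Fin n) k), ∃ a : Fin n → ℤ,
      (∃ a : Fin n → ℤ, a ≠ 0 ∧ binom k a 1 ∈ q) → a ≠ 0 ∧ binom k a 1 ∈ q := by
    intro q
    by_cases hq : ∃ a : Fin n → ℤ, a ≠ 0 ∧ binom k a 1 ∈ q
    · obtain ⟨a, ha⟩ := hq
      exact ⟨a, fun _ => ha⟩
    · exact ⟨0, fun h => absurd h hq⟩
  choose g hg using hch
  refine ⟨((fin_curves w hdim h hh).toFinset.filter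
    fun q => ∃ a : Fin n → ℤ, a ≠ 0 ∧ binom k a 1 ∈ q).image g, ?_, ?_⟩
  · intro h0
    obtain ⟨q, hq, hq0⟩ := Finset.mem_image.mp h0
    exact (hg q (Finset.mem_filter.mp hq).2).1 hq0
  · intro Ω _ _ ξ hξ hle hd hz hex
    obtain ⟨a, ha, ha1⟩ := hex
    have hmem : ∃ a : Fin n → ℤ, a ≠ 0 ∧ binom k a 1 ∈ kr k ξ :=
      ⟨a, ha, (binom_mem_kr hξ a 1).mpr (by rw [ha1, map_one])⟩
    refine ⟨g (kr k ξ), Finset.mem_image.mpr ⟨kr k ξ, Finset.mem_filter.mpr ⟨?_, hmem⟩, rfl⟩, ?_⟩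
    · rw [Set.Finite.mem_toFinset]
      exact ⟨inferInstance, hle, mem_kr.mpr hz, hd⟩
    · have h1 := (binom_mem_kr hξ _ 1).mp (hg _ hmem).2
      rwa [map_one] at h1

end Pool.Agent.Srf5
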