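import Pool.Agent.Srf5.FDefs

set_option autoImplicit false

/-! Package F18: simple consequences of the definition of `Surf`; transcendence bases.

PROOF. `Surf.trans`: let `r ≠ 0` and suppose `mon w r` is algebraic over `k`. Then `mon w r, mon w
b` are dependent for every `b`, i.e. `Dep k w r b`. As `3 ≤ n` there are `b, c` (unit vectors) with
`r, b, c` linearly independent over `ℤ` (`r_i ≠ 0` for some `i`: take two unit vectors `e_j, e_k`
with
`i, j, k` different). Contradiction to `fine`.
`frame`: `exists_indep_finset` gives two coordinates `s, t` such that the classes of `X s, X t` are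
algebraically independent (`dm p = 2`); map them to the fraction field: `gen p s, gen p t`. Every
`z` in `Kf p` is algebraic over `Algebra.adjoin k {gen p s, gen p t}`: each `gen p i` is, because
otherwise
`gen p s, gen p t, gen p i` would be algebraically independent and `3 ≤ dm p` (`card_le_dm`, or the
matroid: `dm_eq_rk`); the algebraic elements over a domain form a subalgebra, closed under division
(`IsAlgebraic.inv`, `IsAlgebraic.add`, ...), and `Kf p` is the fraction field of the algebra
generated by the `gen p i`. -/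

namespace Pool.Agent.Srf5

open MvPolynomial Pool.Agent.CITLines

theorem Surf.trans {k F : Type} [Field k] [Field F] [Algebra k F] {n : ℕ} (hn : 3 ≤ n)
    {w : Fin n → F} (hw : Surf k w) (r : Fin n → ℤ) (hr : r ≠ 0) :
    Transcendental k (mon w r) := by
  classical
  intro halg
  have hdep : ∀ b : Fin n → ℤ, Dep k w r b := by
    intro b hb
    exact hb.transcendental 0 halg
  obtain ⟨i, hi⟩ := Function.ne_iff.1 hr
  have h1 : 1 < (Finset.univ.erase i : Finset (Fin n)).card := by
    rw [Finset.card_erase_of_mem (Finset.mem_univ i), Finset.card_univ, Fintype.card_fin]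
    omega
  obtain ⟨j, hj, m, hm, hjm⟩ := Finset.one_lt_card.1 h1
  have hji : j ≠ i := Finset.ne_of_mem_erase hj
  have hmi : m ≠ i := Finset.ne_of_mem_erase hm
  refine hw.fine r (Pi.single j 1) (Pi.single m 1) ?_ (hdep _) (hdep _)
  rw [Fintype.linearIndependent_iff]
  intro c hc
  rw [Fin.sum_univ_three] at hc
  have e : ∀ x : Fin n, c 0 * r x + c 1 * (Pi.single j 1 : Fin n → ℤ) x +
      c 2 * (Pi.single m 1 : Fin n → ℤ) x = 0 := by
    intro x
    have := congrFun hc x
    simpa using this
  have h0 : c 0 = 0 := by
    have h2 := e i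
    rw [Pi.single_eq_of_ne (Ne.symm hji), Pi.single_eq_of_ne (Ne.symm hmi)] at h2
    have h3 : c 0 * r i = 0 := by linarith
    exact (mul_eq_zero.1 h3).resolve_right hi
  have h2 : c 1 = 0 := by
    have h3 := e j
    rw [Pi.single_eq_same, Pi.single_eq_of_ne hjm, h0] at h3
    linarith
  have h3 : c 2 = 0 := by
    have h4 := e m
    rw [Pi.single_eq_same, Pi.single_eq_of_ne (Ne.symm hjm), h0] at h4
    linarith
  intro x
  fin_cases x
  · exact h0
  · exact h2
  · exact h3

theorem frame {k : Type} [Field k] {n : ℕ} (p : Ideal (MvPolynomial (Fin n) k)) [p.IsPrime]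
    (hp : dm p = 2) : ∃ s t : Fin n, AlgebraicIndependent k ![gen p s, gen p t] ∧
      ∀ z : Kf p, IsAlgebraic (Algebra.adjoin k {gen p s, gen p t}) z := by
  classical
  obtain ⟨I, hI, hind⟩ := exists_indep_finset p
  rw [hp] at hI
  obtain ⟨s, t, hst, rfl⟩ := Finset.card_eq_two.1 hI.symm
  have hinj : Function.Injective
      (IsScalarTower.toAlgHom k (MvPolynomial (Fin n) k ⧸ p) (Kf p)) :=
    IsFractionRing.injective (MvPolynomial (Fin n) k ⧸ p) (Kf p)
  have h1 := hind.map' hinj
  let e : Fin 2 → ({s, t} : Finset (Fin n)) :=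
    ![⟨s, Finset.mem_insert_self _ _⟩, ⟨t, Finset.mem_insert_of_mem (Finset.mem_singleton_self t)⟩]
  have he : Function.Injective e := by
    intro a b hab
    have hab' := congrArg Subtype.val hab
    fin_cases a <;> fin_cases b
    · rfl
    · exact absurd hab' hst
    · exact absurd hab' (Ne.symm hst)
    · rfl
  have h2 : AlgebraicIndependent k ![gen p s, gen p t] := by
    have h3 := h1.comp e he
    have h4 : ((IsScalarTower.toAlgHom k (MvPolynomial (Fin n) k ⧸ p) (Kf p)) ∘
        fun i : ({s, t} : Finset (Fin n)) => Ideal.Quotient.mkₐ k p (X i.1)) ∘ e =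
        ![gen p s, gen p t] := by
      funext a
      fin_cases a <;> rfl
    rwa [h4] at h3
  refine ⟨s, t, h2, ?_⟩
  have hrange : Set.range ![gen p s, gen p t] = {gen p s, gen p t} := by
    simp [Set.pair_comm]
  -- the coordinates are algebraic
  have h3 : (AlgebraicIndependent.matroid k (Kf p)).Indep {gen p s, gen p t} := by
    rw [AlgebraicIndependent.matroid_indep_iff, ← hrange]
    exact h2.coe_range
  have hsub : ({gen p s, gen p t} : Set (Kf p)) ⊆ Set.range (gen p) := by
    rintro _ (rfl | rfl)
    · exact ⟨s, rfl⟩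
    · exact ⟨t, rfl⟩
  have h4 : (AlgebraicIndependent.matroid k (Kf p)).eRk (Set.range (gen p)) ≤
      (AlgebraicIndependent.matroid k (Kf p)).eRk {gen p s, gen p t} := by
    have h5 := dm_eq_rk p
    have h6 := rk_range_of_indep _ h2
    rw [hrange] at h6
    unfold rk at h5 h6
    rw [← h5, h6, hp]
    simp
  have h5 := h3.isBasis_of_eRk_ge (Set.toFinite _) hsub h4
  have hgen : ∀ i, IsAlgebraic (Algebra.adjoin k {gen p s, gen p t}) (gen p i) := by
    intro i
    have h6 := h5.subset_closure ⟨i, rfl⟩
    rw [AlgebraicIndependent.matroid_closure_eq] at h6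
    exact h6
  have hpol : ∀ f : MvPolynomial (Fin n) k,
      IsAlgebraic (Algebra.adjoin k {gen p s, gen p t}) (aeval (gen p) f) := by
    intro f
    induction f using MvPolynomial.induction_on with
    | C a =>
      rw [aeval_C, IsScalarTower.algebraMap_apply k (Algebra.adjoin k {gen p s, gen p t}) (Kf p)]
      exact isAlgebraic_algebraMap _
    | add f g hf hg =>
      rw [map_add]
      exact hf.add hg
    | mul_X f i hf =>
      rw [map_mul, aeval_X]
      exact hf.mul (hgen i)
  intro z
  obtain ⟨a, b, _, rfl⟩ := IsFractionRing.div_surjective (A := MvPolynomial (Fin n) k ⧸ p) z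
  obtain ⟨f, rfl⟩ := Ideal.Quotient.mk_surjective a
  obtain ⟨g, rfl⟩ := Ideal.Quotient.mk_surjective b
  have h6 := hpol f
  have h7 := hpol g
  rw [aeval_gen] at h6 h7
  rw [div_eq_mul_inv]
  exact h6.mul h7.inv

end Pool.Agent.Srf5
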