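import Pool.Agent.Srf5.Defs

set_option autoImplicit false

/-! Package F12: finitely many lattices of constant monomials.

PROOF. `M05Full.const_lattice` (file M05Full/Val.lean): for such `ξ` there is a set `R` of integer
vectors with all coordinates of absolute value `≤ δ` such that
`mon ξ l ∈ (algebraMap k E).range ↔ ∀ r ∈ R, ∑ i, l i * r i = 0`. `k` is algebraically closed, so
`mon ξ l` is algebraic iff it is in the range. There are finitely many `R` (subsets of a finite
box), and
`Lam k ξ` is determined by `R`. -/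

namespace Pool.Agent.Srf5

open MvPolynomial Pool.Agent.CITLines

theorem LamFin_range {k E : Type} [Field k] [IsAlgClosed k] [Field E] [Algebra k E] (x : E) :
    IsAlgebraic k x ↔ x ∈ (algebraMap k E).range := by
  constructor
  · intro h
    rw [← minpoly.degree_eq_one_iff]
    exact IsAlgClosed.degree_eq_one_of_irreducible k (minpoly.irreducible h.isIntegral)
  · rintro ⟨a, rfl⟩
    exact isAlgebraic_algebraMap a

theorem lam_finite (k : Type) [Field k] [IsAlgClosed k] [CharZero k] (n δ : ℕ) :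
    {Λ : Set (Fin n → ℤ) | ∃ (E : Type) (_ : Field E) (_ : Algebra k E) (ξ : Fin n → E),
      (∀ i, ξ i ≠ 0) ∧ (∀ i, M05Full.DegLe k δ (ξ i)) ∧ Lam k ξ = Λ}.Finite := by
  have hbox : {r : Fin n → ℤ | ∀ i, |r i| ≤ (δ : ℤ)}.Finite := by
    refine (Set.finite_Icc (fun _ : Fin n => -(δ : ℤ)) fun _ => (δ : ℤ)).subset ?_
    intro r hr
    rw [Set.mem_Icc]
    exact ⟨fun i => (abs_le.1 (hr i)).1, fun i => (abs_le.1 (hr i)).2⟩
  refine ((hbox.finite_subsets).image
    fun R : Set (Fin n → ℤ) => {l : Fin n → ℤ | ∀ r ∈ R, ∑ i, l i * r i = 0}).subset ?_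
  rintro Λ ⟨E, _, _, ξ, hξ, hdeg, rfl⟩
  obtain ⟨R, hR, hR'⟩ := M05Full.const_lattice ξ hξ δ hdeg
  refine ⟨R, fun r hr i => hR r hr i, ?_⟩
  ext l
  change (∀ r ∈ R, ∑ i, l i * r i = 0) ↔ IsAlgebraic k (mon ξ l)
  rw [LamFin_range, ← hR' l]
  rfl

end Pool.Agent.Srf5
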