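import Pool.Agent.Srf5.FDefs

set_option autoImplicit false

/-! Package F1: the logarithmic differentials of the coordinates.

PROOF. Put `A = Algebra.adjoin k {w s, w t}` (isomorphic to the polynomial ring in two variables,
`hind`). For each `i` there is a polynomial `f_i(X, Y, Z)` over `k` (an element of
`MvPolynomial (Fin 3) k`) with `f_i(w s, w t, w i) = 0` and `(∂ f_i / ∂ Z)(w s, w t, w i) ≠ 0`:
among
all polynomials `p ∈ A[Z]`, `p ≠ 0`, `p(w i) = 0` (they exist, `halg`) take one of minimal degree;
then `p' ≠ 0` (char 0, degree `≥ 1`) has smaller degree, so `p'(w i) ≠ 0`; now write the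
coefficients of `p` as polynomials in `w s, w t`. (Or: minimal polynomial over the fraction field
and
clear denominators.)
Let `g_i := f_i(X_s, X_t, X_i) ∈ MvPolynomial (Fin n) k` (rename/aeval) and
`u_i := (∂_X f_i)(X_s, X_t, X_i)`, `v_i := (∂_Y f_i)(X_s, X_t, X_i)`, `r_i := (∂_Z f_i)(X_s, X_t,
X_i)`.
For `ξ` with `kr k w ≤ kr k ξ` and a derivation `D`: `0 = D (f_i(ξ s, ξ t, ξ i)) =
u_i(ξ) D(ξ s) + v_i(ξ) D(ξ t) + r_i(ξ) D(ξ i)` (the chain rule for `MvPolynomial.aeval`:
`Derivation`, e.g. by `MvPolynomial.induction_on` or `MvPolynomial.mkDerivation`; both sides are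
derivations along `aeval ξ`). Hence with `P_j := X_j * r_j`, `q := ∏ j, P_j`,
`a_i := - u_i * X_s * ∏ j ≠ i, P_j`, `b_i := - v_i * X_t * ∏ j ≠ i, P_j` the identity follows after
division by the (nonzero) `ξ`'s, and `q(w) ≠ 0`. -/

namespace Pool.Agent.Srf5

open MvPolynomial Pool.Agent.CITLines

/-- The chain rule. -/
private theorem lr_chain {k Ω ι : Type} [Fintype ι] [Field k] [Field Ω] [Algebra k Ω]
    (D : Derivation k Ω Ω) (x : ι → Ω) (f : MvPolynomial ι k) :
    D (aeval x f) = ∑ l, aeval x (pderiv l f) * D (x l) := by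
  classical
  induction f using MvPolynomial.induction_on with
  | C a =>
    rw [aeval_C, D.map_algebraMap]
    simp
  | add p q hp hq =>
    simp only [map_add, hp, hq, add_mul, Finset.sum_add_distrib]
  | mul_X p i hp =>
    rw [map_mul, aeval_X, Derivation.leibniz, hp]
    simp only [Derivation.leibniz, map_add, smul_eq_mul, map_mul, aeval_X, add_mul,
      Finset.sum_add_distrib, pderiv_X, Pi.single_apply]
    have h1 : ∑ l, aeval x p * aeval x (if i = l then (1 : MvPolynomial ι k) else 0) * D (x l) =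
        aeval x p * D (x i) := by
      rw [Finset.sum_eq_single i]
      · simp
      · intro l _ hl
        simp [Ne.symm hl]
      · intro h
        exact absurd (Finset.mem_univ i) h
    rw [h1, Finset.mul_sum]
    congr 1
    refine Finset.sum_congr rfl fun l _ => ?_
    ring

/-- A polynomial relation which is separable in the last variable. -/
private theorem lr_poly {k F : Type} [Field k] [CharZero k] [Field F] [Algebra k F] (x y z : F)
    (halg : IsAlgebraic (Algebra.adjoin k {x, y}) z) :
    ∃ f : MvPolynomial (Fin 3) k, aeval ![x, y, z] f = 0 ∧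
      aeval ![x, y, z] (pderiv 2 f) ≠ 0 := by
  classical
  set A := Algebra.adjoin k {x, y} with hA
  have hF : CharZero F := charZero_of_injective_algebraMap (algebraMap k F).injective
  obtain ⟨p0, hp0, hp0z⟩ := halg
  have hex : ∃ d : ℕ, ∃ p : Polynomial A, p ≠ 0 ∧ Polynomial.aeval z p = 0 ∧ p.natDegree = d :=
    ⟨_, p0, hp0, hp0z, rfl⟩
  obtain ⟨p, hp, hpz, hpd⟩ := Nat.find_spec hex
  have hder : Polynomial.aeval z (Polynomial.derivative p) ≠ 0 := by
    intro h0
    have hdeg : p.natDegree ≠ 0 := by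
      intro h1
      obtain ⟨a, ha⟩ : ∃ a, p = Polynomial.C a := ⟨_, Polynomial.eq_C_of_natDegree_eq_zero h1⟩
      rw [ha, Polynomial.aeval_C] at hpz
      have : a = 0 := (FaithfulSMul.algebraMap_injective A F) (by rw [hpz, map_zero])
      rw [ha, this, map_zero] at hp
      exact hp rfl
    have hlt := Polynomial.natDegree_derivative_lt hdeg
    have hne : Polynomial.derivative p ≠ 0 := by
      intro h1
      exact hdeg (Polynomial.derivative_eq_zero.1 h1)
    exact Nat.find_min hex (hpd ▸ hlt) ⟨_, hne, h0, rfl⟩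
  have hc : ∀ a : A, ∃ c : MvPolynomial (Fin 2) k, aeval ![x, y] c = (a : F) := by
    intro a
    have h1 : (a : F) ∈ Algebra.adjoin k (Set.range ![x, y]) := by
      rw [Matrix.range_cons, Matrix.range_cons, Matrix.range_empty, Set.union_empty,
        Set.singleton_union]
      exact a.2
    rw [Algebra.adjoin_range_eq_range_aeval] at h1
    exact h1
  choose c hc using hc
  set f : MvPolynomial (Fin 3) k := ∑ j ∈ Finset.range (p.natDegree + 1),
    rename ![0, 1] (c (p.coeff j)) * X 2 ^ j with hf
  have hren : ∀ a : A, aeval ![x, y, z] (rename ![0, 1] (c a)) = (a : F) := by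
    intro a
    rw [aeval_rename, ← hc a]
    congr 2
    funext i
    fin_cases i <;> rfl
  refine ⟨f, ?_, ?_⟩
  · rw [hf, map_sum, ← hpz, Polynomial.aeval_eq_sum_range]
    refine Finset.sum_congr rfl fun j _ => ?_
    rw [map_mul, hren, map_pow, aeval_X]
    rfl
  · have h2 : ∀ a : A, pderiv (2 : Fin 3) (rename ![0, 1] (c a)) = 0 := by
      intro a
      refine pderiv_eq_zero_of_notMem_vars fun h => ?_
      have h3 := vars_rename (![0, 1] : Fin 2 → Fin 3) (c a) h
      rw [Finset.mem_image] at h3
      obtain ⟨i, -, hi⟩ := h3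
      fin_cases i <;> simp at hi
    have h3 : aeval ![x, y, z] (pderiv 2 f) = Polynomial.aeval z (Polynomial.derivative p) := by
      have h4 : Polynomial.aeval z (Polynomial.derivative p) =
          ∑ j ∈ Finset.range (p.natDegree + 1), ((p.coeff j : A) : F) * ((j : F) * z ^ (j - 1)) := by
        conv_lhs => rw [p.as_sum_range, Polynomial.derivative_sum, map_sum]
        refine Finset.sum_congr rfl fun j _ => ?_
        rw [Polynomial.derivative_monomial, Polynomial.aeval_monomial]
        rw [map_mul, map_natCast, mul_assoc]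
        rfl
      rw [h4, hf, map_sum, map_sum]
      refine Finset.sum_congr rfl fun j _ => ?_
      rw [Derivation.leibniz, h2, smul_zero, add_zero, Derivation.leibniz_pow, pderiv_X_self,
        smul_eq_mul, map_mul, hren]
      simp
    rw [h3]
    exact hder

theorem logrel {k F : Type} [Field k] [CharZero k] [Field F] [Algebra k F] {n : ℕ}
    (w : Fin n → F) (hw : ∀ i, w i ≠ 0) (s t : Fin n) (hind : AlgebraicIndependent k ![w s, w t])
    (halg : ∀ i, IsAlgebraic (Algebra.adjoin k {w s, w t}) (w i)) :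
    ∃ (q : MvPolynomial (Fin n) k) (a b : Fin n → MvPolynomial (Fin n) k),
      LogData k w s t q a b := by
  classical
  choose f hf0 hf1 using fun i => lr_poly (k := k) (w s) (w t) (w i) (halg i)
  let sb : Fin n → MvPolynomial (Fin 3) k →ₐ[k] MvPolynomial (Fin n) k := fun i =>
    aeval ![X s, X t, X i]
  have hsb : ∀ {Ω : Type} [Field Ω] [Algebra k Ω] (ξ : Fin n → Ω) (i : Fin n)
      (h : MvPolynomial (Fin 3) k), aeval ξ (sb i h) = aeval ![ξ s, ξ t, ξ i] h := by
    intro Ω _ _ ξ i h
    have h1 : (aeval ξ).comp (sb i) = (aeval ![ξ s, ξ t, ξ i] : MvPolynomial (Fin 3) k →ₐ[k] Ω) := by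
      apply MvPolynomial.algHom_ext
      intro l
      fin_cases l <;> simp [sb]
    exact DFunLike.congr_fun h1 h
  let P : Fin n → MvPolynomial (Fin n) k := fun j => X j * sb j (pderiv 2 (f j))
  refine ⟨∏ j, P j, fun i => -(sb i (pderiv 0 (f i)) * X s * ∏ j ∈ Finset.univ.erase i, P j),
    fun i => -(sb i (pderiv 1 (f i)) * X t * ∏ j ∈ Finset.univ.erase i, P j), ?_, ?_⟩
  · rw [map_prod]
    refine Finset.prod_ne_zero_iff.2 fun j _ => ?_
    rw [map_mul, aeval_X, hsb]
    exact mul_ne_zero (hw j) (hf1 j)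
  · intro Ω _ _ ξ hξ hle D i
    have h1 : aeval ![ξ s, ξ t, ξ i] (f i) = 0 := by
      rw [← hsb]
      have h2 : sb i (f i) ∈ kr k w := by
        change aeval w (sb i (f i)) = 0
        rw [hsb]
        exact hf0 i
      exact hle h2
    have h2 := lr_chain D ![ξ s, ξ t, ξ i] (f i)
    rw [h1, map_zero, Fin.sum_univ_three] at h2
    have h3 : 0 = aeval ![ξ s, ξ t, ξ i] (pderiv 0 (f i)) * D (ξ s) +
        aeval ![ξ s, ξ t, ξ i] (pderiv 1 (f i)) * D (ξ t) +
        aeval ![ξ s, ξ t, ξ i] (pderiv 2 (f i)) * D (ξ i) := h2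
    rw [← Finset.mul_prod_erase Finset.univ P (Finset.mem_univ i)]
    simp only [map_mul, map_neg, aeval_X, hsb, P]
    have hs := hξ s
    have ht := hξ t
    have hi := hξ i
    field_simp
    linear_combination (-(aeval ξ) (∏ j ∈ Finset.univ.erase i, X j * sb j (pderiv 2 (f j)))) * h3

end Pool.Agent.Srf5
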