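import Pool.Agent.Srf5.Defs

set_option autoImplicit false

/-! Definitions for the part on curves with two exact relations. -/

namespace Pool.Agent.Srf5

open MvPolynomial Pool.Agent.CITLines

/-- The linear combination of the polynomials `a i` with coefficients `l i`. -/
noncomputable def lf {k : Type} [Field k] {n : ℕ} (a : Fin n → MvPolynomial (Fin n) k)
    (l : Fin n → ℤ) : MvPolynomial (Fin n) k := ∑ i, C (l i : k) * a i

/-- `q dlog x_i = a_i dlog x_s + b_i dlog x_t` on the variety of `w` and on all its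
subvarieties. -/
structure LogData (k : Type) {F : Type} [Field k] [Field F] [Algebra k F] {n : ℕ} (w : Fin n → F)
    (s t : Fin n) (q : MvPolynomial (Fin n) k) (a b : Fin n → MvPolynomial (Fin n) k) : Prop where
  q_ne : aeval w q ≠ 0
  rel : ∀ (Ω : Type) [Field Ω] [Algebra k Ω] (ξ : Fin n → Ω), (∀ i, ξ i ≠ 0) →
    kr k w ≤ kr k ξ → ∀ (D : Derivation k Ω Ω) (i : Fin n), aeval ξ q * (D (ξ i) / ξ i) =
      aeval ξ (a i) * (D (ξ s) / ξ s) + aeval ξ (b i) * (D (ξ t) / ξ t)

theorem LogData.symm {k F : Type} [Field k] [Field F] [Algebra k F] {n : ℕ} {w : Fin n → F}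
    {s t : Fin n} {q : MvPolynomial (Fin n) k} {a b : Fin n → MvPolynomial (Fin n) k}
    (h : LogData k w s t q a b) : LogData k w t s q b a :=
  ⟨h.q_ne, fun Ω _ _ ξ hξ hle D i => by rw [h.rel Ω ξ hξ hle D i, add_comm]⟩

/-- The determinant of the logarithmic differentials of two monomials. -/
noncomputable def jac {k : Type} [Field k] {n : ℕ} (a b : Fin n → MvPolynomial (Fin n) k)
    (l m : Fin n → ℤ) : MvPolynomial (Fin n) k := lf a l * lf b m - lf a m * lf b l

/-- The relations found so far for the curves of the surface with two torsion relations; `k`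
algebraically closed. -/
def CurveListC {F : Type} [Field F] [Algebra ℂ F] {n : ℕ} (w : Fin n → F)
    (E : Finset (Fin n → ℤ)) : Prop :=
  0 ∉ E ∧ ∀ (Ω : Type) [Field Ω] [Algebra ℂ Ω] (ξ : Fin n → Ω), (∀ i, ξ i ≠ 0) →
    kr ℂ w ≤ kr ℂ ξ → dm (kr ℂ ξ) = 1 → ∀ l m : Fin n → ℤ,
    LinearIndependent ℤ ![l, m] → RU (mon ξ l) → RU (mon ξ m) → ∃ a ∈ E, mon ξ a = 1

end Pool.Agent.Srf5
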