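import Pool.Agent.Srf5.TorsC
import Pool.Agent.Srf5.FDefs
import Pool.Agent.CITLines.Push

set_option autoImplicit false

namespace Pool.Agent.Srf5

open MvPolynomial Pool.Agent.CITLines

private theorem tl_pm {F : Type} [Field F] {n : ℕ} (w : Fin n → F) (a b : Fin n → ℤ) :
    ![mon w a, mon w b] = pm ![a, b] w := by
  funext s
  fin_cases s <;> rfl

private theorem tl_pm' {F : Type} [Field F] {n : ℕ} (w : Fin n → F) (ψ : Fin 2 → (Fin n → ℤ)) :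
    ![mon w (ψ 0), mon w (ψ 1)] = pm ψ w := by
  funext s
  fin_cases s <;> rfl

theorem dep_mono {k F Ω : Type} [Field k] [Field F] [Algebra k F] [Field Ω] [Algebra k Ω] {n : ℕ}
    (w : Fin n → F) (ξ : Fin n → Ω) (hw : ∀ i, w i ≠ 0) (hξ : ∀ i, ξ i ≠ 0)
    (hle : kr k w ≤ kr k ξ) (a b : Fin n → ℤ) (h : Dep k w a b) : Dep k ξ a b := by
  intro h1
  apply h
  rw [algebraicIndependent_iff] at h1 ⊢
  intro p hp
  apply h1
  rw [tl_pm] at hp ⊢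
  exact mem_kr.mp (kr_pm_le hξ hle ![a, b] (mem_kr.mpr hp))

theorem tors_list {F : Type} [Field F] [Algebra ℂ F] {n : ℕ} (w : Fin n → F)
    (hw : ∀ i, w i ≠ 0) (ψ : Fin 2 → (Fin n → ℤ)) (hψ : LinearIndependent ℤ ψ)
    (hdep : Dep ℂ w (ψ 0) (ψ 1)) :
    ∃ E : Finset (Fin n → ℤ), 0 ∉ E ∧ ∀ (Ω : Type) [Field Ω] [Algebra ℂ Ω] (ξ : Fin n → Ω),
      (∀ i, ξ i ≠ 0) → kr ℂ w ≤ kr ℂ ξ → RU (mon ξ (ψ 0)) → RU (mon ξ (ψ 1)) →
      ∃ a ∈ E, mon ξ a = 1 := by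
  classical
  have h0 : ∃ Φ : MvPolynomial (Fin 2) ℂ, Φ ≠ 0 ∧ Φ ∈ kr ℂ (pm ψ w) := by
    by_contra hcon
    push Not at hcon
    apply hdep
    rw [algebraicIndependent_iff]
    intro p hp
    by_contra hp0
    rw [tl_pm'] at hp
    exact hcon p hp0 (mem_kr.mpr hp)
  obtain ⟨Φ, hΦ, hΦw⟩ := h0
  obtain ⟨E', hE', hE⟩ := tors_cpx Φ hΦ
  refine ⟨E'.image (fun a => a 0 • ψ 0 + a 1 • ψ 1), ?_, ?_⟩
  · intro hmem
    obtain ⟨a, ha, ha0⟩ := Finset.mem_image.mp hmem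
    have h1 : ∑ i, a i • ψ i = 0 := by
      rw [Fin.sum_univ_two]
      exact ha0
    have h2 := Fintype.linearIndependent_iff.mp hψ a h1
    have h3 : a = 0 := funext h2
    exact hE' (h3 ▸ ha)
  · intro Ω _ _ ξ hξ hle h1 h2
    obtain ⟨ζ0, hζ0, hz0⟩ := h1.exists_complex
    obtain ⟨ζ1, hζ1, hz1⟩ := h2.exists_complex
    have h3 : Φ ∈ kr ℂ (pm ψ ξ) := kr_pm_le hξ hle ψ hΦw
    have h4 : pm ψ ξ = (fun i => algebraMap ℂ Ω (![ζ0, ζ1] i)) := by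
      rw [← tl_pm', ← hz0, ← hz1]
      funext s
      fin_cases s <;> rfl
    have h5 : eval ![ζ0, ζ1] Φ = 0 := by
      rw [mem_kr, h4] at h3
      have h6 : aeval (fun i => algebraMap ℂ Ω (![ζ0, ζ1] i)) Φ =
          algebraMap ℂ Ω (eval ![ζ0, ζ1] Φ) := by
        have := MvPolynomial.aeval_algebraMap_apply Ω (![ζ0, ζ1] : Fin 2 → ℂ) Φ
        rw [← MvPolynomial.coe_aeval_eq_eval]
        exact this
      rw [h6] at h3
      exact (map_eq_zero _).mp h3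
    obtain ⟨a, ha, ha1⟩ := hE ![ζ0, ζ1] (by
      intro i
      fin_cases i
      · exact hζ0
      · exact hζ1) h5
    refine ⟨_, Finset.mem_image_of_mem _ ha, ?_⟩
    rw [mon_add' hξ, mon_smul, mon_smul, ← hz0, ← hz1, ← map_zpow₀, ← map_zpow₀, ← map_mul]
    unfold mon at ha1
    rw [Fin.prod_univ_two] at ha1
    have h7 : ζ0 ^ a 0 * ζ1 ^ a 1 = 1 := ha1
    rw [h7, map_one]

end Pool.Agent.Srf5
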