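import Pool.Agent.Srf5.BoundedF
import Pool.Agent.Srf5.DegBound
import Pool.Agent.Srf5.LamFin
import Pool.Agent.Srf5.Fibre
import Pool.Agent.Srf5.FinCurves
import Pool.Agent.Srf5.TorsList
import Pool.Agent.Srf5.Frame
import Pool.Agent.Srf5.LogRel

set_option autoImplicit false

/-! Package F20: curves with two torsion relations, over the complex numbers.

PROOF of `curves_gen`. `s, t` from `frame`; `q, a, b` from `logrel`; `g` the bound of `bounded_f`;
`δ` from `degLe` for `g`. The set of the `Λ = Lam ℂ ξ` (for `E`, `ξ` with `DegLe ℂ δ (ξ i)`) is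
finite
(`lam_finite`). For each such `Λ` define a finite set `E_Λ` with `0 ∉ E_Λ`:
(1) if there are `e1, e2 ∈ Λ` with `mon w e1, mon w e2` algebraically independent, choose them,
take `h` from `fibre` and `E_Λ` from `rel_list`;
(2) otherwise, if there are linearly independent `ψ 0, ψ 1 ∈ Λ`, choose them and take `E_Λ` from
`tors_list` (they are dependent by `¬ (1)`);
(3) otherwise `E_Λ = ∅`.
`E` is the union. Let `Ω, ξ, l, m` be as in `CurveListC`. Replace `Ω` by
`E' = IntermediateField.adjoin ℂ (Set.range ξ)` and `ξ` by `ξ' : Fin n → E'` (`kr`, `mon`, `RU` do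
not change; `dm` does not change) and `l, m` by positive multiples `N l, N m` with `mon ξ' l = 1`,
`mon ξ' m = 1`. `bounded_f` and `degLe` show that `Λ = Lam ℂ ξ'` is in the list; `l, m ∈ Λ`. Case
(1):
`aeval ξ' h = 0` by `fibre`, and `rel_list` gives the relation. Case (2): `mon ξ' (ψ j)` is a root
of unity: if `l, m, ψ j` were linearly independent then `fine l m (ψ j)` would be violated, because
all pairs in `Λ` are dependent; so `x l + y m + z ψ_j = 0` with `z ≠ 0` (`l, m` independent), and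
`(mon ξ' (ψ j))^z = 1` (up to the exact relations), `RU.of_zpow`. `tors_list` gives the relation.
Case
(3) does not occur (`l, m ∈ Λ`).
PROOF of `curves`. Apply `curves_gen` to `p = kr ℂ w`: `kr ℂ (gen p) = p`, and `Surf ℂ w` implies
`Surf ℂ (gen p)` (`dep_mono` in both directions), `gen_ne_zero`. -/

namespace Pool.Agent.Srf5

open MvPolynomial Pool.Agent.CITLines

theorem surf_of_kr {k F F' : Type} [Field k] [Field F] [Algebra k F] [Field F'] [Algebra k F']
    {n : ℕ} {w : Fin n → F} {w' : Fin n → F'} (hw : Surf k w) (hw' : ∀ i, w' i ≠ 0)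
    (h : kr k w' = kr k w) : Surf k w' := by
  refine ⟨hw', ?_, fun a b c hl hab hac => ?_⟩
  · rw [h]
    exact hw.dim
  · exact hw.fine a b c hl (dep_mono w' w hw' hw.ne h.le a b hab)
      (dep_mono w' w hw' hw.ne h.le a c hac)

/-- On a curve some coordinate is transcendental. -/
private theorem CurvesC_trans {k Ω : Type} [Field k] [Field Ω] [Algebra k Ω] {n : ℕ}
    {ξ : Fin n → Ω} (h : dm (kr k ξ) = 1) : ∃ i, Transcendental k (ξ i) := by
  by_contra hcon
  push Not at hcon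
  have h1 : rk k (Set.range ξ) ≤ rk k (∅ : Set Ω) := by
    refine rk_le_of_algebraic ?_
    rintro a ⟨i, rfl⟩
    have h2 : IsAlgebraic k (ξ i) := by
      have := hcon i
      rwa [Transcendental, not_not] at this
    exact h2.extendScalars (FaithfulSMul.algebraMap_injective k (Algebra.adjoin k (∅ : Set Ω)))
  have h2 : rk k (∅ : Set Ω) ≤ 0 := by
    refine (rk_le_encard _).trans ?_
    rw [Set.encard_empty]
  rw [← dm_kr, h] at h1
  exact absurd (h1.trans h2) (by norm_num)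

private theorem CurvesC_ne {n : ℕ} {l m : Fin n → ℤ} (h : LinearIndependent ℤ ![l, m]) :
    l ≠ 0 := by
  have := h.ne_zero 0
  simpa using this

/-- A vector which is dependent on the relations of a point is a relation. -/
private theorem CurvesC_rel {Ω : Type} [Field Ω] {n : ℕ} {ξ : Fin n → Ω} (hξ : ∀ i, ξ i ≠ 0)
    {l m ψ : Fin n → ℤ} (hlm : LinearIndependent ℤ ![l, m]) (hl : mon ξ l = 1)
    (hm : mon ξ m = 1) (h : ¬ LinearIndependent ℤ ![l, m, ψ]) : RU (mon ξ ψ) := by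
  rw [Fintype.linearIndependent_iff] at h
  push Not at h
  obtain ⟨g, hg, i, hi⟩ := h
  rw [Fin.sum_univ_three] at hg
  have hg' : g 0 • l + g 1 • m + g 2 • ψ = 0 := hg
  have h2 : g 2 ≠ 0 := by
    intro h0
    rw [h0, zero_smul, add_zero] at hg'
    rw [LinearIndependent.pair_iff] at hlm
    obtain ⟨h3, h4⟩ := hlm _ _ hg'
    fin_cases i
    · exact hi h3
    · exact hi h4
    · exact hi h0
  refine RU.of_zpow h2 ?_
  have h3 : mon ξ (g 0 • l + g 1 • m + g 2 • ψ) = 1 := by rw [hg', mon_zero]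
  rw [mon_add' hξ, mon_add' hξ, mon_smul, mon_smul, mon_smul, hl, hm, one_zpow, one_zpow, one_mul,
    one_mul] at h3
  rw [h3]
  exact RU.one

/-- The relations for the curves with a given lattice of constant monomials. -/
private theorem CurvesC_lam {F : Type} [Field F] [Algebra ℂ F] {n : ℕ} (w : Fin n → F)
    (hw : Surf ℂ w) (Λ : Set (Fin n → ℤ)) : ∃ E : Finset (Fin n → ℤ), 0 ∉ E ∧
      ∀ (Ω : Type) [Field Ω] [Algebra ℂ Ω] (ξ : Fin n → Ω), (∀ i, ξ i ≠ 0) →
        kr ℂ w ≤ kr ℂ ξ → dm (kr ℂ ξ) = 1 → Lam ℂ ξ = Λ → ∀ l m : Fin n → ℤ,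
        LinearIndependent ℤ ![l, m] → mon ξ l = 1 → mon ξ m = 1 → ∃ a ∈ E, mon ξ a = 1 := by
  by_cases h1 : ∃ e1 ∈ Λ, ∃ e2 ∈ Λ, AlgebraicIndependent ℂ ![mon w e1, mon w e2]
  · obtain ⟨e1, he1, e2, he2, hind⟩ := h1
    obtain ⟨h, hh, hfib⟩ := fibre w hw.ne hw.dim e1 e2 hind
    obtain ⟨E, hE0, hE⟩ := rel_list w hw.dim h hh
    refine ⟨E, hE0, fun Ω _ _ ξ hξ hle hdm hΛ l m hlm hl hm => ?_⟩
    have h3 : IsAlgebraic ℂ (mon ξ e1) := by
      rw [← hΛ] at he1
      exact he1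
    have h4 : IsAlgebraic ℂ (mon ξ e2) := by
      rw [← hΛ] at he2
      exact he2
    exact hE Ω ξ hξ hle hdm (hfib Ω ξ hξ hle (CurvesC_trans hdm) h3 h4)
      ⟨l, CurvesC_ne hlm, hl⟩
  · have hdep : ∀ a ∈ Λ, ∀ b ∈ Λ, Dep ℂ w a b := by
      intro a ha b hb hcon
      exact h1 ⟨a, ha, b, hb, hcon⟩
    by_cases h2 : ∃ ψ : Fin 2 → (Fin n → ℤ), LinearIndependent ℤ ψ ∧ ψ 0 ∈ Λ ∧ ψ 1 ∈ Λ
    · obtain ⟨ψ, hψ, hψ0, hψ1⟩ := h2
      obtain ⟨E, hE0, hE⟩ := tors_list w hw.ne ψ hψ (hdep _ hψ0 _ hψ1)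
      refine ⟨E, hE0, fun Ω _ _ ξ hξ hle hdm hΛ l m hlm hl hm => ?_⟩
      have hlΛ : l ∈ Λ := by
        rw [← hΛ]
        show IsAlgebraic ℂ (mon ξ l)
        rw [hl]
        exact isAlgebraic_one
      have hmΛ : m ∈ Λ := by
        rw [← hΛ]
        show IsAlgebraic ℂ (mon ξ m)
        rw [hm]
        exact isAlgebraic_one
      have key : ∀ b ∈ Λ, RU (mon ξ b) := fun b hb =>
        CurvesC_rel hξ hlm hl hm fun hcon =>
          hw.fine l m b hcon (hdep l hlΛ m hmΛ) (hdep l hlΛ b hb)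
      exact hE Ω ξ hξ hle (key _ hψ0) (key _ hψ1)
    · refine ⟨∅, by simp, fun Ω _ _ ξ hξ hle hdm hΛ l m hlm hl hm => ?_⟩
      refine absurd ⟨![l, m], hlm, ?_, ?_⟩ h2
      · rw [← hΛ]
        show IsAlgebraic ℂ (mon ξ l)
        rw [hl]
        exact isAlgebraic_one
      · rw [← hΛ]
        show IsAlgebraic ℂ (mon ξ m)
        rw [hm]
        exact isAlgebraic_one

private theorem CurvesC_map {E Ω : Type} [Field E] [Field Ω] (f : E →+* Ω) {n : ℕ}
    (ξ : Fin n → E) (a : Fin n → ℤ) : mon (fun i => f (ξ i)) a = f (mon ξ a) := by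
  unfold mon
  rw [map_prod]
  exact Finset.prod_congr rfl fun i _ => (map_zpow₀ f _ _).symm

theorem curves_gen {n : ℕ} (hn : 3 ≤ n) (p : Ideal (MvPolynomial (Fin n) ℂ)) [p.IsPrime]
    (hw : Surf ℂ (gen p)) : ∃ E : Finset (Fin n → ℤ), CurveListC (gen p) E := by
  classical
  have hdim : dm p = 2 := by
    have := hw.dim
    rwa [kr_gen] at this
  obtain ⟨s, t, hind, halg⟩ := frame p hdim
  obtain ⟨q, a, b, hq⟩ := logrel (gen p) hw.ne s t hind (fun i => halg _)
  obtain ⟨δ, hδ⟩ := degLe (gen p) hw.ne hw.dim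
    (q.totalDegree + ∑ i, (a i).totalDegree + ∑ i, (b i).totalDegree)
  have hfin := lam_finite ℂ n δ
  choose EL hEL0 hEL using CurvesC_lam (gen p) hw
  refine ⟨hfin.toFinset.biUnion EL, ?_, ?_⟩
  · rw [Finset.mem_biUnion]
    rintro ⟨Λ, -, h0⟩
    exact hEL0 Λ h0
  · intro Ω _ _ ξ hξ hle hdm l m hlm hl hm
    obtain ⟨N, hN, hlN⟩ := hl
    obtain ⟨M, hM, hmM⟩ := hm
    set E' := IntermediateField.adjoin ℂ (Set.range ξ) with hE'
    let ξ' : Fin n → E' := fun i => ⟨ξ i, IntermediateField.subset_adjoin ℂ _ ⟨i, rfl⟩⟩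
    have hval : ∀ i, algebraMap E' Ω (ξ' i) = ξ i := fun i => rfl
    have hmon : ∀ c : Fin n → ℤ, algebraMap E' Ω (mon ξ' c) = mon ξ c := fun c =>
      (CurvesC_map (algebraMap E' Ω) ξ' c).symm
    have hinj : Function.Injective (algebraMap E' Ω) := (algebraMap E' Ω).injective
    have hkr : kr ℂ ξ' = kr ℂ ξ := by
      ext f
      rw [mem_kr, mem_kr]
      have h1 : aeval ξ f = algebraMap E' Ω (aeval ξ' f) :=
        MvPolynomial.aeval_algebraMap_apply Ω ξ' f
      rw [h1]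
      exact (map_eq_zero_iff _ hinj).symm
    have hξ' : ∀ i, ξ' i ≠ 0 := by
      intro i h0
      apply hξ i
      rw [← hval, h0, map_zero]
    have hone : ∀ c : Fin n → ℤ, mon ξ c = 1 → mon ξ' c = 1 := by
      intro c hc
      apply hinj
      rw [hmon, hc, map_one]
    have hgen : IntermediateField.adjoin ℂ (Set.range ξ') = ⊤ := by
      have h1 : Set.range ξ' = Subtype.val ⁻¹' (Set.range ξ) := by
        ext x
        constructor
        · rintro ⟨i, rfl⟩
          exact ⟨i, rfl⟩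
        · rintro ⟨i, hi⟩
          exact ⟨i, Subtype.ext hi⟩
      apply IntermediateField.map_injective E'.val
      rw [IntermediateField.adjoin_map, ← AlgHom.fieldRange_eq_map, IntermediateField.fieldRange_val,
        ← Set.range_comp]
      rfl
    have hl' : mon ξ' ((N : ℤ) • l) = 1 := hone _ (by rw [mon_smul, zpow_natCast, hlN])
    have hm' : mon ξ' ((M : ℤ) • m) = 1 := hone _ (by rw [mon_smul, zpow_natCast, hmM])
    have hlm' : LinearIndependent ℤ ![(N : ℤ) • l, (M : ℤ) • m] := by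
      rw [LinearIndependent.pair_iff] at hlm ⊢
      intro x y hxy
      rw [smul_smul, smul_smul] at hxy
      obtain ⟨h1, h2⟩ := hlm _ _ hxy
      constructor
      · rcases mul_eq_zero.1 h1 with h3 | h3
        · exact h3
        · exact absurd h3 (by exact_mod_cast hN.ne')
      · rcases mul_eq_zero.1 h2 with h3 | h3
        · exact h3
        · exact absurd h3 (by exact_mod_cast hM.ne')
    have hle' : kr ℂ (gen p) ≤ kr ℂ ξ' := hkr ▸ hle
    have hdm' : dm (kr ℂ ξ') = 1 := by rw [hkr, hdm]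
    obtain ⟨f, hf1, hf2, hf3⟩ := bounded_f hw.ne hq hind halg (Surf.trans hn hw) _ _ hlm' ξ' hξ'
      hgen hle' hdm' hl' hm'
    have hdeg := hδ E' ξ' hξ' hgen hle' f hf1 hf2 hf3
    obtain ⟨c, hc, hc1⟩ := hEL (Lam ℂ ξ') E' ξ' hξ' hle' hdm' rfl _ _ hlm' hl' hm'
    refine ⟨c, ?_, ?_⟩
    · rw [Finset.mem_biUnion]
      refine ⟨Lam ℂ ξ', ?_, hc⟩
      rw [Set.Finite.mem_toFinset]
      exact ⟨E', inferInstance, inferInstance, ξ', hξ', hdeg, rfl⟩
    · rw [← hmon, hc1, map_one]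

theorem curves {F : Type} [Field F] [Algebra ℂ F] {n : ℕ} (hn : 3 ≤ n) (w : Fin n → F)
    (hw : Surf ℂ w) : ∃ E : Finset (Fin n → ℤ), CurveListC w E := by
  have hne : ∀ i, gen (kr ℂ w) i ≠ 0 := fun i =>
    gen_ne_zero (kr ℂ w) fun h => hw.ne i (by rwa [mem_kr, aeval_X] at h)
  have hs : Surf ℂ (gen (kr ℂ w)) := surf_of_kr hw hne (kr_gen _)
  obtain ⟨E, hE0, hE⟩ := curves_gen hn (kr ℂ w) hs
  refine ⟨E, hE0, ?_⟩
  rw [kr_gen] at hE
  exact hE

end Pool.Agent.Srf5
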