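import Pool.Agent.Srf5.CurvesC
import Pool.Agent.Srf5.DepTr
import Pool.Agent.L3S.Spread2

set_option autoImplicit false

/-! Package F23: curves and transcendental points, over the rational numbers.

PROOF of `curveList_exists`. Let `p0 = kr ℚ w` and `Q = {q | q.IsPrime ∧ IQ q = p0 ∧ dm q = 2}`
(ideals of
`MvPolynomial (Fin n) ℂ`). `Q` is finite: every `q ∈ Q` is a minimal prime of
`J = p0.map (MvPolynomial.map (algebraMap ℚ ℂ))`: if `J ≤ q' ≤ q`, `q'` prime, then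
`p0 ≤ IQ q' ≤ IQ q = p0`, so `dm q' ≤ dm (IQ q') = 2 = dm q` (`dm_le_dm_IQ`), and `dm q ≤ dm q'`, so
`q' = q` (`dm_strictAnti`). For `q ∈ Q` the generic point `gen q` has `kr ℚ (gen q) = IQ q = p0`
(`IQ_eq_kr`, `kr_gen`), its coordinates are not zero (`X i ∉ p0`), so `Surf ℚ (gen q)`
(`surf_of_kr`) and `Surf ℂ (gen q)` (`surf_iff`); let `E_q` be from `curves`, `E = ⋃ E_q`.
Let `Ω, ξ, l, m` be as in `CurveList`. `p0 ≤ kr ℚ ξ = IQ (kr ℂ ξ)`, so `L3S.exists_spread_of_le`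
gives `q ≤ kr ℂ ξ` prime, `IQ q = p0`, `2 ≤ dm q`, and `dm q ≤ dm (IQ q) = 2`: `q ∈ Q`. As some `ξ
i` is transcendental, `1 ≤ dm (kr ℂ ξ) ≤ 2`. If `dm (kr ℂ ξ) = 2` then `kr ℂ ξ = q` and `mon (gen
q) l` is a root of unity (`relZ_mono`), in contradiction to `Surf.trans`. So `dm (kr ℂ ξ) = 1` and
`E_q` contains a relation of `ξ`.
PROOF of `point_one`. `exists_spread` for `kr ℂ P`: a prime `q ≤ kr ℂ P` with `IQ q = kr ℚ P` and
`1 ≤ dm (kr ℚ P) ≤ dm q`. Let `ξ = gen q`: `kr ℚ ξ = kr ℚ P`, so `ξ i ≠ 0`, `mon ξ a` is a root of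
unity iff `mon P a` is, `mon ξ a = 1 ↔ mon P a = 1` (`binom_mem_kr` over `ℚ`, `relZ_mono` in both
directions); some `ξ i` is transcendental over `ℂ` (`1 ≤ dm q`). Apply `hE`. -/

namespace Pool.Agent.Srf5

open MvPolynomial Pool.Agent.CITLines

private theorem CurvesQ_krQ {n : ℕ} {Ω : Type} [Field Ω] [Algebra ℂ Ω] [CharZero Ω]
    (ξ : Fin n → Ω) : IQ (kr ℂ ξ) = kr ℚ ξ := IQ_eq_kr ξ

private theorem CurvesQ_char {n : ℕ} (q : Ideal (MvPolynomial (Fin n) ℂ)) [q.IsPrime] :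
    CharZero (Kf q) := charZero_of_injective_algebraMap (algebraMap ℂ (Kf q)).injective

private theorem CurvesQ_finite {n : ℕ} (p0 : Ideal (MvPolynomial (Fin n) ℚ)) [p0.IsPrime]
    (hp0 : dm p0 = 2) :
    {q : Ideal (MvPolynomial (Fin n) ℂ) | q.IsPrime ∧ IQ q = p0 ∧ dm q = 2}.Finite := by
  refine (Ideal.finite_minimalPrimes_of_isNoetherianRing _
    (p0.map (MvPolynomial.map (algebraMap ℚ ℂ)))).subset ?_
  rintro q ⟨hq, hqI, hqd⟩
  have hle : p0.map (MvPolynomial.map (algebraMap ℚ ℂ)) ≤ q :=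
    Ideal.map_le_iff_le_comap.2 hqI.ge
  refine ⟨⟨hq, hle⟩, ?_⟩
  rintro q' ⟨hq', hle'⟩ hqq
  have h1 : p0 ≤ IQ q' := Ideal.map_le_iff_le_comap.1 hle'
  have h2 : IQ q' ≤ p0 := hqI ▸ IQ_mono hqq
  have h3 : IQ q' = p0 := le_antisymm h2 h1
  have h4 := dm_le_dm_IQ q'
  rw [h3, hp0] at h4
  by_contra hcon
  have h5 : q' < q := lt_of_le_of_ne hqq fun h => hcon h.ge
  have h6 := dm_strictAnti h5
  omega

private theorem CurvesQ_one {F : Type} [Field F] [CharZero F] {n : ℕ} {w : Fin n → F}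
    (hw : Surf ℚ w) (q : Ideal (MvPolynomial (Fin n) ℂ)) [q.IsPrime] (hqI : IQ q = kr ℚ w)
    (hqd : dm q = 2) : (∀ i, gen q i ≠ 0) ∧ Surf ℂ (gen q) := by
  have hne : ∀ i, gen q i ≠ 0 := by
    intro i
    refine gen_ne_zero q fun h => ?_
    have h1 : (X i : MvPolynomial (Fin n) ℚ) ∈ IQ q := by
      rw [mem_IQ, MvPolynomial.map_X]
      exact h
    rw [hqI, mem_kr, aeval_X] at h1
    exact hw.ne i h1
  have hch := CurvesQ_char q
  have hkr : kr ℚ (gen q) = kr ℚ w := by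
    rw [← CurvesQ_krQ (gen q), kr_gen, hqI]
  have hS : Surf ℚ (gen q) := surf_of_kr hw hne hkr
  have hC : dm (kr ℂ (gen q)) = 2 := by
    rw [← hqd]
    congr 1
    exact kr_gen q
  exact ⟨hne, (surf_iff (gen q) hne hS.dim hC).2 hS⟩

theorem curveList_exists {F : Type} [Field F] [CharZero F] {n : ℕ} (hn : 3 ≤ n) (w : Fin n → F)
    (hw : Surf ℚ w) : ∃ E : Finset (Fin n → ℤ), CurveList w E := by
  classical
  have hfin := CurvesQ_finite (kr ℚ w) hw.dim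
  have hex : ∀ q : Ideal (MvPolynomial (Fin n) ℂ), ∃ E : Finset (Fin n → ℤ), 0 ∉ E ∧
      ∀ [q.IsPrime], IQ q = kr ℚ w → dm q = 2 → CurveListC (gen q) E := by
    intro q
    by_cases h : q.IsPrime ∧ IQ q = kr ℚ w ∧ dm q = 2
    · have hq := h.1
      obtain ⟨E, hE⟩ := curves hn (gen q) (CurvesQ_one hw q h.2.1 h.2.2).2
      exact ⟨E, hE.1, fun {_} _ _ => hE⟩
    · exact ⟨∅, by simp, fun {hq} h1 h2 => absurd ⟨hq, h1, h2⟩ h⟩
  choose E hE0 hE using hex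
  refine ⟨hfin.toFinset.biUnion E, ?_, ?_⟩
  · rw [Finset.mem_biUnion]
    rintro ⟨q, -, hq⟩
    exact hE0 q hq
  · intro Ω _ _ _ ξ hξ hle htr l m hlm hl hm
    have h1 : kr ℚ w ≤ IQ (kr ℂ ξ) := by
      rw [CurvesQ_krQ]
      exact hle
    obtain ⟨q, hq, hqle, hqI, hqd⟩ := L3S.exists_spread_of_le (kr ℂ ξ) (kr ℚ w) h1
    have h2 := dm_le_dm_IQ q
    rw [hqI] at h2
    have h3 : dm q = 2 := by
      have := hw.dim
      omega
    obtain ⟨hne, hS⟩ := CurvesQ_one hw q hqI h3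
    have h4 : dm (kr ℂ ξ) ≤ 2 := h3 ▸ dm_anti hqle
    have h5 : 1 ≤ dm (kr ℂ ξ) := by
      obtain ⟨i, hi⟩ := htr
      have h6 : AlgebraicIndependent ℂ (fun _ : Fin 1 => ξ i) := by
        rw [algebraicIndependent_unique_type_iff]
        exact hi
      have h7 := rk_range_of_indep _ h6
      have h8 : rk ℂ (Set.range fun _ : Fin 1 => ξ i) ≤ rk ℂ (Set.range ξ) := by
        refine rk_mono ?_
        rintro _ ⟨_, rfl⟩
        exact ⟨i, rfl⟩
      rw [h7, ← dm_kr, Fintype.card_fin] at h8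
      exact_mod_cast h8
    have h6 : dm (kr ℂ ξ) = 1 := by
      by_contra hcon
      have h7 : dm (kr ℂ ξ) = 2 := by omega
      have h8 : q = kr ℂ ξ := by
        by_contra h9
        have := dm_strictAnti (lt_of_le_of_ne hqle h9)
        omega
      have h9 : kr ℂ ξ ≤ kr ℂ (gen q) := by
        rw [kr_gen, h8]
      have h10 : RU (mon (gen q) l) := relZ_mono hξ hne h9 hl
      have hl0 : l ≠ 0 := hlm.ne_zero 0
      apply hS.trans hn l hl0
      obtain ⟨N, hN, h11⟩ := h10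
      refine ⟨Polynomial.X ^ N - Polynomial.C 1, ?_, ?_⟩
      · exact Polynomial.X_pow_sub_C_ne_zero hN 1
      · rw [map_sub, map_pow, Polynomial.aeval_X, Polynomial.aeval_C, h11, map_one, sub_self]
    obtain ⟨a, ha, h7⟩ := (hE q hqI h3).2 Ω ξ hξ (by rwa [kr_gen]) h6 l m hlm hl hm
    refine ⟨a, ?_, h7⟩
    rw [Finset.mem_biUnion]
    refine ⟨q, ?_, ha⟩
    rw [Set.Finite.mem_toFinset]
    exact ⟨hq, hqI, h3⟩

theorem point_one {F : Type} [Field F] [CharZero F] {n : ℕ} (w : Fin n → F)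
    {E : Finset (Fin n → ℤ)} (hE : CurveList w E) (P : Fin n → ℂ) (hP : ∀ i, P i ≠ 0)
    (hle : kr ℚ w ≤ kr ℚ P) (hdm : 1 ≤ dm (kr ℚ P)) (l m : Fin n → ℤ)
    (hlm : LinearIndependent ℤ ![l, m]) (hl : RU (mon P l)) (hm : RU (mon P m)) :
    ∃ a ∈ E, mon P a = 1 := by
  obtain ⟨⟨q, hq, hqP, hqI, hqd⟩, -⟩ := exists_spread (kr ℂ P)
  have hch := CurvesQ_char q
  have hne : ∀ i, gen q i ≠ 0 := by
    intro i
    refine gen_ne_zero q fun h => ?_
    have h1 := hqP h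
    rw [mem_kr, aeval_X] at h1
    exact hP i h1
  have hkr : kr ℚ (gen q) = kr ℚ P := by
    rw [← CurvesQ_krQ (gen q), kr_gen, hqI, CurvesQ_krQ]
  rw [CurvesQ_krQ] at hqd
  have htr : ∃ i, Transcendental ℂ (gen q i) := by
    by_contra hcon
    have h1 := dm_eq_rk q
    have h2 : rk ℂ (Set.range (gen q)) ≤ rk ℂ (∅ : Set (Kf q)) := by
      refine rk_le_of_algebraic ?_
      rintro _ ⟨i, rfl⟩
      have h3 : IsAlgebraic ℂ (gen q i) := by
        by_contra h4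
        exact hcon ⟨i, h4⟩
      exact h3.extendScalars (FaithfulSMul.algebraMap_injective ℂ _)
    have h3 : rk ℂ (∅ : Set (Kf q)) ≤ 0 := by
      refine (rk_le_encard _).trans ?_
      rw [Set.encard_empty]
    rw [← h1] at h2
    have h4 : (dm q : ℕ∞) ≤ ((0 : ℕ) : ℕ∞) := h2.trans h3
    have h5 : dm q ≤ 0 := by exact_mod_cast h4
    omega
  have hrel : relZ P ≤ relZ (gen q) := relZ_mono (k := ℚ) hP hne hkr.ge
  obtain ⟨a, ha, h1⟩ := hE.2 (Kf q) (gen q) hne (hle.trans hkr.ge) htr l m hlm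
    (hrel hl) (hrel hm)
  refine ⟨a, ha, ?_⟩
  have h2 : binom ℚ a 1 ∈ kr ℚ (gen q) := (binom_mem_kr hne a 1).2 (by rw [h1, map_one])
  rw [hkr, binom_mem_kr hP, map_one] at h2
  exact h2

end Pool.Agent.Srf5
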