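import Pool.Agent.CITLines.Rel
import Pool.Agent.CITLines.Spread
import Pool.Agent.LThree.Defs
import Pool.Agent.M05Full.Val

set_option autoImplicit false

/-! Definitions for the theorem on surfaces in the torus of dimension five (MP_b7926e_nt).

A variety is given by a generic point `w : ι → F` over `k` (`F` a field containing `k`), that is by
the prime ideal `kr k w`. A point `P` (or the generic point `ξ` of a curve) lies on the variety if
`kr k w ≤ kr k P`. -/

namespace Pool.Agent.Srf5

open MvPolynomial Pool.Agent.CITLines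

/-- The monomials with exponents `a` and `b` are algebraically dependent. -/
def Dep (k : Type) {ι F : Type} [Fintype ι] [Field k] [Field F] [Algebra k F] (w : ι → F)
    (a b : ι → ℤ) : Prop := ¬ AlgebraicIndependent k ![mon w a, mon w b]

/-- The surfaces of the theorem: no three monomials with linearly independent exponents are
functions of one of them. -/
structure Surf (k : Type) {ι F : Type} [Fintype ι] [Field k] [Field F] [Algebra k F]
    (w : ι → F) : Prop where
  ne : ∀ i, w i ≠ 0
  dim : dm (kr k w) = 2
  fine : ∀ a b c : ι → ℤ, LinearIndependent ℤ ![a, b, c] → Dep k w a b → ¬ Dep k w a c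

/-- The span of the monomials with exponents of absolute value at most `N`. -/
noncomputable def Mn (k : Type) {ι F : Type} [Fintype ι] [Field k] [Field F] [Algebra k F]
    (w : ι → F) (N : ℕ) : Submodule k F :=
  Submodule.span k ((fun e : ι → ℤ => mon w e) '' {e | ∀ i, |e i| ≤ N})

/-- The exponents of the monomials which are constant. -/
def Lam (k : Type) {ι F : Type} [Fintype ι] [Field k] [Field F] [Algebra k F] (w : ι → F) :
    Set (ι → ℤ) := {a | IsAlgebraic k (mon w a)}

/-- The curves of the surface with two exact relations satisfy one of the relations of `E`. -/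
def CurveList {ι F : Type} [Fintype ι] [Field F] [CharZero F] (w : ι → F)
    (E : Finset (ι → ℤ)) : Prop :=
  0 ∉ E ∧ ∀ (Ω : Type) [Field Ω] [Algebra ℂ Ω] [CharZero Ω] (ξ : ι → Ω), (∀ i, ξ i ≠ 0) →
    kr ℚ w ≤ kr ℚ ξ → (∃ i, Transcendental ℂ (ξ i)) → ∀ l m : ι → ℤ,
    LinearIndependent ℤ ![l, m] → RU (mon ξ l) → RU (mon ξ m) → ∃ a ∈ E, mon ξ a = 1

/-- The algebraic points of rank at most two satisfy one of the relations of `E`. -/
def PointList {ι F : Type} [Fintype ι] [Field F] [CharZero F] (w : ι → F)
    (E : Finset (ι → ℤ)) : Prop :=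
  0 ∉ E ∧ ∀ (K : Type) [Field K] [NumberField K] (P : ι → K), (∀ i, P i ≠ 0) →
    kr ℚ w ≤ kr ℚ P → LThree.RankLe 2 P → ∃ a ∈ E, mon P a = 1

/-- Two monomials are algebraically dependent on the set `V`. -/
def AlgDep {n : ℕ} (V : Set (Fin n → ℂ)) (a b : Fin n → ℤ) : Prop :=
  ∃ f : MvPolynomial (Fin 2) ℂ, f ≠ 0 ∧
    ∀ x ∈ V, eval ![∏ i, x i ^ a i, ∏ i, x i ^ b i] f = 0

end Pool.Agent.Srf5
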