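import Pool.Agent.Srf5.FDefs

set_option autoImplicit false

/-! Package F2: derivations of a function field of two variables.

PROOF. `exists_der`: as `Pool.Agent.LThreeC.exists_deriv` / `exists_equiv` (file
LThreeC/Deriv.lean, same
proof with `k[X]` replaced by `MvPolynomial (Fin 2) k`): the map `MvPolynomial (Fin 2) k → F`,
`X_i ↦ ![x, y] i` is injective, it is formally etale (localisation, then a separable algebraic
extension, char 0), so `F ⊗ Ω[MvPolynomial (Fin 2) k / k] ≃ Ω[F/k]`
(`KaehlerDifferential.tensorKaehlerEquivOfFormallyEtale`) and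
`Ω[MvPolynomial (Fin 2) k / k]` is free on `dX_0, dX_1`
(`KaehlerDifferential.mvPolynomialBasis`/`mvPolynomialEquiv`); compose with the linear form that
sends `dx ↦ u`, `dy ↦ v`.
`der_eq_zero`: let `A = Algebra.adjoin k {x, y}`; `D` vanishes on `A` (`Algebra.adjoin_induction`,
Leibniz); let `p ∈ A[Z]`, `p ≠ 0`, `p(z) = 0` be of minimal degree; `0 = D(p(z)) = p'(z) D z` (the
coefficients are killed by `D`) and `p'(z) ≠ 0` by minimality (char 0). -/

namespace Pool.Agent.Srf5

open TensorProduct in
theorem exists_der {k F : Type} [Field k] [CharZero k] [Field F] [Algebra k F] (x y : F)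
    (hind : AlgebraicIndependent k ![x, y])
    (halg : ∀ z : F, IsAlgebraic (Algebra.adjoin k {x, y}) z) (u v : F) :
    ∃ D : Derivation k F F, D x = u ∧ D y = v := by
  have hinj : Function.Injective (MvPolynomial.aeval ![x, y] : MvPolynomial (Fin 2) k →ₐ[k] F) :=
    hind
  letI : Algebra (MvPolynomial (Fin 2) k) F :=
    (MvPolynomial.aeval ![x, y] : MvPolynomial (Fin 2) k →ₐ[k] F).toAlgebra
  have hmap : algebraMap (MvPolynomial (Fin 2) k) F =
      (MvPolynomial.aeval ![x, y] : MvPolynomial (Fin 2) k →ₐ[k] F).toRingHom := rfl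
  haveI : IsScalarTower k (MvPolynomial (Fin 2) k) F := IsScalarTower.of_algebraMap_eq fun z => by
    rw [hmap]
    simp
  haveI : FaithfulSMul (MvPolynomial (Fin 2) k) F :=
    (faithfulSMul_iff_algebraMap_injective (MvPolynomial (Fin 2) k) F).2 hinj
  have h0 : CharZero F := charZero_of_injective_algebraMap (algebraMap k F).injective
  have hr : Set.range ![x, y] = ({x, y} : Set F) := by
    rw [Matrix.range_cons, Matrix.range_cons, Matrix.range_empty, Set.union_empty]
    rfl
  have halg' : Algebra.IsAlgebraic (Algebra.adjoin k (Set.range ![x, y])) F := by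
    rw [hr]
    exact ⟨halg⟩
  have halg2 : Algebra.IsAlgebraic (MvPolynomial (Fin 2) k) F := by
    let e : MvPolynomial (Fin 2) k ≃+* Algebra.adjoin k (Set.range ![x, y]) :=
      hind.aevalEquiv.toRingEquiv
    refine (Algebra.isAlgebraic_ringHom_iff_of_comp_eq e (RingEquiv.refl F) ?_).1 halg'
    refine RingHom.ext fun z => ?_
    exact hind.algebraMap_aevalEquiv z
  have hfr : CharZero (FractionRing (MvPolynomial (Fin 2) k)) :=
    charZero_of_injective_algebraMap
      (IsFractionRing.injective (MvPolynomial (Fin 2) k) (FractionRing (MvPolynomial (Fin 2) k)))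
  letI : Algebra (FractionRing (MvPolynomial (Fin 2) k)) F :=
    FractionRing.liftAlgebra (MvPolynomial (Fin 2) k) F
  have h1 : Algebra.IsAlgebraic (FractionRing (MvPolynomial (Fin 2) k)) F :=
    (IsFractionRing.comap_isAlgebraic_iff (A := MvPolynomial (Fin 2) k)
      (K := FractionRing (MvPolynomial (Fin 2) k)) (C := F)).1 halg2
  have h2 : Algebra.FormallyEtale (FractionRing (MvPolynomial (Fin 2) k)) F :=
    Algebra.FormallyEtale.of_isSeparable _ _
  have h3 : Algebra.FormallyEtale (MvPolynomial (Fin 2) k)
      (FractionRing (MvPolynomial (Fin 2) k)) :=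
    Algebra.FormallyEtale.of_isLocalization (M := nonZeroDivisors (MvPolynomial (Fin 2) k))
  have h4 : Algebra.FormallyEtale (MvPolynomial (Fin 2) k) F :=
    Algebra.FormallyEtale.comp (MvPolynomial (Fin 2) k)
      (FractionRing (MvPolynomial (Fin 2) k)) F
  let B := (KaehlerDifferential.mvPolynomialBasis k (Fin 2)).baseChange F
  let φ : KaehlerDifferential k F →ₗ[F] F :=
    (B.constr F ![u, v]).comp
      (KaehlerDifferential.tensorKaehlerEquivOfFormallyEtale k
        (MvPolynomial (Fin 2) k) F).symm.toLinearMap
  have key : ∀ i : Fin 2, φ (KaehlerDifferential.D k F (![x, y] i)) = ![u, v] i := by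
    intro i
    have h5 : ![x, y] i = algebraMap (MvPolynomial (Fin 2) k) F (MvPolynomial.X i) := by
      rw [hmap]
      simp
    have h6 : (KaehlerDifferential.tensorKaehlerEquivOfFormallyEtale k
        (MvPolynomial (Fin 2) k) F).symm (KaehlerDifferential.D k F (![x, y] i)) =
        1 ⊗ₜ KaehlerDifferential.D k (MvPolynomial (Fin 2) k) (MvPolynomial.X i) := by
      conv_lhs => rw [h5]
      exact KaehlerDifferential.tensorKaehlerEquivOfFormallyEtale_symm_D_algebraMap k
        (MvPolynomial (Fin 2) k) F (MvPolynomial.X i)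
    have h7 : B i = 1 ⊗ₜ KaehlerDifferential.D k (MvPolynomial (Fin 2) k)
        (MvPolynomial.X i) := by
      simp [B]
    change B.constr F ![u, v] ((KaehlerDifferential.tensorKaehlerEquivOfFormallyEtale k
        (MvPolynomial (Fin 2) k) F).symm (KaehlerDifferential.D k F (![x, y] i))) = _
    rw [h6, ← h7, Module.Basis.constr_basis]
  exact ⟨φ.compDer (KaehlerDifferential.D k F), key 0, key 1⟩

/-- The field of constants of a derivation. -/
private def cst {k F : Type} [Field k] [Field F] [Algebra k F] (D : Derivation k F F) :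
    IntermediateField k F where
  carrier := {f | D f = 0}
  mul_mem' := by
    intro a b ha hb
    change D (a * b) = 0
    rw [D.leibniz, show D a = 0 from ha, show D b = 0 from hb, smul_zero, smul_zero, add_zero]
  add_mem' := by
    intro a b ha hb
    change D (a + b) = 0
    rw [map_add, show D a = 0 from ha, show D b = 0 from hb, add_zero]
  algebraMap_mem' := fun r => D.map_algebraMap r
  inv_mem' := by
    intro a ha
    change D a⁻¹ = 0
    rw [D.leibniz_inv, show D a = 0 from ha, smul_zero]

theorem der_eq_zero {k F : Type} [Field k] [CharZero k] [Field F] [Algebra k F] (x y : F)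
    (D : Derivation k F F) (hx : D x = 0) (hy : D y = 0) (z : F)
    (hz : IsAlgebraic (Algebra.adjoin k {x, y}) z) : D z = 0 := by
  have hA : ∀ a : Algebra.adjoin k {x, y}, (a : F) ∈ cst D := by
    intro a
    have h1 : Algebra.adjoin k {x, y} ≤ (cst D).toSubalgebra := by
      rw [Algebra.adjoin_le_iff]
      rintro w (rfl | rfl)
      · exact hx
      · exact hy
    exact h1 a.2
  have hK : IsAlgebraic (cst D) z := by
    obtain ⟨p, hp0, hpz⟩ := hz
    let f : Algebra.adjoin k {x, y} →+* cst D :=
      (algebraMap (Algebra.adjoin k {x, y}) F).codRestrict (cst D) hA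
    have hf : Function.Injective f := fun a b hab =>
      Subtype.ext (congrArg (fun c : cst D => (c : F)) hab)
    refine ⟨p.map f, ?_, ?_⟩
    · intro h
      exact hp0 (Polynomial.map_injective f hf (by rw [h, Polynomial.map_zero]))
    · rw [Polynomial.aeval_def, Polynomial.eval₂_map]
      exact hpz
  have h0 : CharZero (cst D) :=
    charZero_of_injective_algebraMap (algebraMap k (cst D)).injective
  let L : F →ₗ[cst D] F :=
    { toFun := D
      map_add' := map_add D
      map_smul' := by
        intro c f
        have h1 : c • f = (c : F) * f := rfl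
        have h2 : D (c : F) = 0 := c.2
        rw [h1, D.leibniz, h2, smul_zero, add_zero]
        rfl }
  let D' : Derivation (cst D) F F := Derivation.mk' L fun a b => D.leibniz a b
  have hint : IsIntegral (cst D) z := hK.isIntegral
  have h1 := D'.map_aeval (minpoly (cst D) z) z
  rw [minpoly.aeval, map_zero] at h1
  have h2 : Polynomial.aeval z (Polynomial.derivative (minpoly (cst D) z)) ≠ 0 :=
    (minpoly.irreducible hint).separable.aeval_derivative_ne_zero (minpoly.aeval (cst D) z)
  rcases smul_eq_zero.1 h1.symm with h3 | h3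
  · exact absurd h3 h2
  · exact h3

end Pool.Agent.Srf5
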