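import Pool.Agent.Srf5.CurveFin
import Pool.Agent.Srf5.CurvesQ
import Pool.Agent.CITLines.Final
import Pool.Agent.Srf5.FinCurves
import Pool.Agent.Srf5.Frame

set_option autoImplicit false

/-! Package G2: finitely many maximal atypical subvarieties.

PROOF of `finA_surf`. Let `p = kr ℂ w`, `dm p = 2`, `E = E1 ∪ Ep` and `h = ∏ a ∈ E, binom ℂ a 1`.
`aeval w h ≠ 0`: `mon w a ≠ 1` for `a ≠ 0` (`Surf.trans`, `binom_mem_kr`). Let `Y1` be the set of
the primes `q` with `TP q`, `p ≤ q`, `h ∈ q`, `dm q = 1` (finite, `fin_curves`), `Y1' ⊆ Y1` the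
subset with `2 ≤ rhoP q`, and for `q ∈ Y1 \ Y1'` let `Z_q` be the finite set of `curve_fin` for
`v = gen q`. `Y` is `Y1'` together with the ideals `kr ℂ P` with `3 ≤ rhoP (kr ℂ P)`, for
`P ∈ Z_q`, `q ∈ Y1 \ Y1'`.
The hypotheses of `curve_fin` for `v = gen q`, `q ∈ Y1 \ Y1'`: `kr ℂ v = q`, `dm (kr ℂ v) = 1`;
`dm (kr ℚ v) ≥ 1` (`dm_le_dm_IQ`, `IQ_eq_kr`) and `≤ 1` because some `a ∈ E` has
`binom ℂ a 1 ∈ q` (`q` prime), so `binom ℚ a 1 ∈ kr ℚ v`, not in `kr ℚ w`, `kr ℚ w ≤ kr ℚ v`,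
`dm (kr ℚ w) = 2`, `dm_strictAnti`; `h1` from `rhoP q ≤ 1` (`rhoP_kr`, `rho`, two linearly
independent vectors in `relZ v` give `finrank (QS (relZ v)) ≥ 2`); `h2` is `h3`.
Now let `q` be prime with `TP q`, `p ≤ q`, `2 < dm q + rhoP q`; `dm q ≤ 2` (`dm_anti`).
`dm q = 2`: `q = p` (`dm_strictAnti`), so there is a relation `a ≠ 0` with `RU (mon w a)`
(`1 ≤ rhoP`), contradiction to `Surf.trans`.
`dm q = 1`: `2 ≤ rhoP q`, `ξ = gen q`: two linearly independent vectors in `relZ ξ`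
(`M05Full.fin_ind2`: `Ind2`), some `ξ i` is transcendental (`dm q = 1`), `hE1` gives `a ∈ E1` with
`mon ξ a = 1`, i.e. `binom ℂ a 1 ∈ q`, `h ∈ q`: `q ∈ Y1'`.
`dm q = 0`: `q = kr ℂ P` for a point `P` (all coordinates of `gen q` are algebraic over `ℂ`, hence
constants), `P i ≠ 0`, `3 ≤ rhoP q = rho P`, so `RankLe 2 P` (`U = QS (relZ P)`,
`cst_mem_QS_relZ`). `hEp`: `mon P a = 1` for some `a ∈ Ep` (`kr ℚ w ≤ kr ℚ P`), so `h ∈ q`. Let `q'`
be a minimal prime of `p ⊔ span {h}` with `q' ≤ q`; `2 = dm p ≤ dm q' + 1`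
(`dm_le_dm_add_card`, as in `Tri3/Comps.lean`, `krull_one`) and `dm q' < 2`, so `dm q' = 1`;
`q' ∈ Y1`. If `q' ∈ Y1'`, take `y = q'`. Otherwise `P ∈ Z_{q'}`, take `y = kr ℂ P = q`. -/

namespace Pool.Agent.Srf5

open MvPolynomial Module Pool.Agent.CITLines Pool.Agent.CITTrans

private theorem FinSurf_indep {ι : Type} [Fintype ι] {r : ℕ} {M : Submodule ℤ (ι → ℤ)}
    {v : Fin r → ι → ℤ} (hv : LinearIndependent ℤ v) (hM : ∀ i, v i ∈ M) :
    r ≤ finrank ℚ (QS M) := by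
  have h1 : LinearIndependent ℤ (fun i => (cst (v i) : ι → ℚ)) := by
    rw [Fintype.linearIndependent_iff] at hv ⊢
    intro g hg
    refine hv g (cst_injective ?_)
    rw [cst_eq_zero.2 rfl]
    rw [← hg]
    funext i
    simp [cst, Finset.sum_apply]
  have h2 : LinearIndependent ℚ (fun i => (cst (v i) : ι → ℚ)) :=
    (LinearIndependent.iff_fractionRing ℤ ℚ).1 h1
  have h3 : LinearIndependent ℚ (fun i => (⟨cst (v i), cst_mem_QS (hM i)⟩ : QS M)) :=
    LinearIndependent.of_comp (QS M).subtype h2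
  have h4 := h3.fintype_card_le_finrank
  rwa [Fintype.card_fin] at h4

private theorem FinSurf_pair {ι : Type} [Fintype ι] {M : Submodule ℤ (ι → ℤ)}
    (h : 1 < finrank ℚ (QS M)) :
    ∃ l ∈ M, ∃ m ∈ M, LinearIndependent ℤ ![l, m] := by
  have hnt : Nontrivial (QS M) := Module.nontrivial_of_finrank_pos (R := ℚ) (by omega)
  obtain ⟨v, hv⟩ := exists_ne (0 : QS M)
  obtain ⟨w, hw⟩ := exists_linearIndependent_pair_of_one_lt_finrank (R := ℚ) h hv
  rw [LinearIndependent.pair_iff] at hw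
  obtain ⟨k1, hk1, l, hl, hl2⟩ := exists_mult_mem v.2
  obtain ⟨k2, hk2, m, hm, hm2⟩ := exists_mult_mem w.2
  refine ⟨l, hl, m, hm, ?_⟩
  rw [LinearIndependent.pair_iff]
  intro s t hst
  have h1 : ((s : ℚ) * k1) • v + ((t : ℚ) * k2) • w = 0 := by
    apply Subtype.ext
    funext i
    have h2 := congrFun hst i
    simp only [Pi.add_apply, Pi.smul_apply, smul_eq_mul, Pi.zero_apply] at h2
    have h3 : (s : ℚ) * l i + t * m i = 0 := by exact_mod_cast h2
    rw [hl2, hm2] at h3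
    change (s : ℚ) * k1 * (v : ι → ℚ) i + (t : ℚ) * k2 * (w : ι → ℚ) i = 0
    linear_combination h3
  obtain ⟨h2, h3⟩ := hw _ _ h1
  have hk1' : (k1 : ℚ) ≠ 0 := by exact_mod_cast hk1
  have hk2' : (k2 : ℚ) ≠ 0 := by exact_mod_cast hk2
  constructor
  · have := (mul_eq_zero.mp h2).resolve_right hk1'
    exact_mod_cast this
  · have := (mul_eq_zero.mp h3).resolve_right hk2'
    exact_mod_cast this

private theorem FinSurf_one {ι : Type} [Fintype ι] {M : Submodule ℤ (ι → ℤ)}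
    (h : 0 < finrank ℚ (QS M)) : ∃ l ∈ M, l ≠ 0 := by
  by_contra hcon
  push Not at hcon
  have : QS M = ⊥ := by
    unfold QS
    rw [Submodule.span_eq_bot]
    rintro _ ⟨a, ha, rfl⟩
    rw [cst_eq_zero]
    exact hcon a ha
  rw [this, finrank_bot] at h
  exact lt_irrefl _ h

private theorem FinSurf_alg {k : Type} [Field k] {n : ℕ} (q : Ideal (MvPolynomial (Fin n) k))
    [q.IsPrime] (hd : dm q = 0) (i : Fin n) : IsAlgebraic k (gen q i) := by
  by_contra htr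
  have h1 : rk k (Set.range (gen q)) = 0 := by
    rw [← dm_eq_rk, hd]
    rfl
  have h3 : AlgebraicIndependent k (fun _ : Unit => gen q i) :=
    algebraicIndependent_unique_type_iff.2 htr
  have h4 := rk_range_of_indep _ h3
  have h5 : rk k (Set.range fun _ : Unit => gen q i) ≤ rk k (Set.range (gen q)) := by
    refine rk_mono ?_
    rintro _ ⟨_, rfl⟩
    exact ⟨i, rfl⟩
  rw [h4, h1] at h5
  simp at h5

private theorem FinSurf_tr {k : Type} [Field k] {n : ℕ} (q : Ideal (MvPolynomial (Fin n) k))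
    [q.IsPrime] (hd : 1 ≤ dm q) : ∃ i, Transcendental k (gen q i) := by
  by_contra hcon
  have h1 := dm_eq_rk q
  have h2 : rk k (Set.range (gen q)) ≤ rk k (∅ : Set (Kf q)) := by
    refine rk_le_of_algebraic ?_
    rintro _ ⟨i, rfl⟩
    have h3 : IsAlgebraic k (gen q i) := by
      by_contra h4
      exact hcon ⟨i, h4⟩
    exact h3.extendScalars (FaithfulSMul.algebraMap_injective k _)
  have h3 : rk k (∅ : Set (Kf q)) ≤ 0 := by
    refine (rk_le_encard _).trans ?_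
    rw [Set.encard_empty]
  rw [← h1] at h2
  have h4 : (dm q : ℕ∞) ≤ ((0 : ℕ) : ℕ∞) := h2.trans h3
  have h5 : dm q ≤ 0 := by exact_mod_cast h4
  omega

private theorem FinSurf_pt {n : ℕ} (q : Ideal (MvPolynomial (Fin n) ℂ))
    [q.IsPrime] (hd : dm q = 0) : ∃ P : Fin n → ℂ, q = kr ℂ P := by
  have h1 : ∀ i, ∃ z : ℂ, gen q i = algebraMap ℂ (Kf q) z := by
    intro i
    have h2 : IsIntegral ℂ (gen q i) := (FinSurf_alg q hd i).isIntegral
    obtain ⟨z, hz⟩ := minpoly.mem_range_of_degree_eq_one ℂ (gen q i)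
      (IsAlgClosed.degree_eq_one_of_irreducible ℂ (minpoly.irreducible h2))
    exact ⟨z, hz.symm⟩
  choose P hP using h1
  refine ⟨P, ?_⟩
  conv_lhs => rw [← kr_gen q]
  ext f
  rw [mem_kr, mem_kr]
  have h2 : aeval (gen q) f = algebraMap ℂ (Kf q) (aeval P f) := by
    have h3 : (aeval (gen q) : MvPolynomial (Fin n) ℂ →ₐ[ℂ] Kf q) =
        (Algebra.ofId ℂ (Kf q)).comp (aeval P) := by
      apply MvPolynomial.algHom_ext
      intro i
      rw [aeval_X, AlgHom.comp_apply, aeval_X, hP]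
      rfl
    rw [h3]
    rfl
  rw [h2]
  exact map_eq_zero_iff _ (algebraMap ℂ (Kf q)).injective

private theorem FinSurf_le {F F' : Type} [Field F] [Algebra ℂ F] [CharZero F] [Field F']
    [Algebra ℂ F'] [CharZero F'] {n : ℕ} {w : Fin n → F} {v : Fin n → F'}
    (h : kr ℂ w ≤ kr ℂ v) : kr ℚ w ≤ kr ℚ v := by
  rw [← IQ_eq_kr w, ← IQ_eq_kr v]
  exact IQ_mono h

private theorem FinSurf_curve {F : Type} [Field F] [Algebra ℂ F] [CharZero F] (w : Fin 5 → F)
    (hQ : Surf ℚ w) (E : Finset (Fin 5 → ℤ)) (hE : ∀ a ∈ E, mon w a ≠ 1)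
    (h3 : ∀ q : Ideal (MvPolynomial (Fin 5) ℂ), ∀ _ : q.IsPrime, (∀ i, X i ∉ q) → kr ℂ w ≤ q →
      dm q = 1 → ∀ a b c : Fin 5 → ℤ, LinearIndependent ℤ ![a, b, c] →
      ¬ (a ∈ Lam ℂ (gen q) ∧ b ∈ Lam ℂ (gen q) ∧ c ∈ Lam ℂ (gen q)))
    (q : Ideal (MvPolynomial (Fin 5) ℂ)) (hq : TP q) (hle : kr ℂ w ≤ q)
    (hh : ∏ a ∈ E, binom ℂ a 1 ∈ q) (hd : dm q = 1) (hr : rhoP q < 2) :
    {P : Fin 5 → ℂ | (∀ i, P i ≠ 0) ∧ q ≤ kr ℂ P ∧ LThree.RankLe 2 P}.Finite := by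
  have := hq.prime
  have hch : CharZero (Kf q) :=
    charZero_of_injective_algebraMap (algebraMap ℂ (Kf q)).injective
  have hne : ∀ i, gen q i ≠ 0 := hq.gen_ne_zero
  have hkr : kr ℂ (gen q) = q := kr_gen q
  have hdC : dm (kr ℂ (gen q)) = 1 := by
    rw [← hd]
    congr 1
  obtain ⟨a, ha, haq⟩ := (Ideal.IsPrime.prod_mem_iff).1 hh
  have ha1 : mon (gen q) a = 1 := by
    have h := (hq.binom_mem a 1).1 haq
    rwa [map_one] at h
  have hleQ : kr ℚ w ≤ kr ℚ (gen q) := FinSurf_le (by rwa [hkr])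
  have hlt : kr ℚ w < kr ℚ (gen q) := by
    refine lt_of_le_of_ne hleQ fun e => hE a ha ?_
    have h1 : binom ℚ a 1 ∈ kr ℚ (gen q) := (binom_mem_kr hne a 1).2 (by rw [ha1, map_one])
    rw [← e, binom_mem_kr hQ.ne, map_one] at h1
    exact h1
  have hdQ : dm (kr ℚ (gen q)) = 1 := by
    have h1 := dm_strictAnti hlt
    rw [hQ.dim] at h1
    have h2 := dm_le_dm_IQ q
    have h4 : dm (IQ q) = dm (kr ℚ (gen q)) := by
      congr 1
      rw [← IQ_eq_kr (gen q), hkr]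
    rw [hd, h4] at h2
    omega
  have hfin := curve_fin (gen q) hne hdC hdQ ?_ (h3 q hq.prime hq.coord hle hd)
  · rwa [hkr] at hfin
  · rintro l m hlm ⟨hl, hm⟩
    have h1 : 2 ≤ finrank ℚ (QS (relZ (gen q))) := by
      refine FinSurf_indep hlm ?_
      intro i
      fin_cases i
      · exact hl
      · exact hm
    have h2 : rhoP q = finrank ℚ (QS (relZ (gen q))) := by
      unfold rhoP
      rw [hq.QP_eq]
    omega

theorem finA_surf {F : Type} [Field F] [Algebra ℂ F] [CharZero F] (w : Fin 5 → F)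
    (hC : Surf ℂ w) (hQ : Surf ℚ w) {E1 : Finset (Fin 5 → ℤ)} (hE1 : CurveList w E1)
    {Ep : Finset (Fin 5 → ℤ)} (hEp0 : 0 ∉ Ep) (hEp : ∀ P : Fin 5 → ℂ, (∀ i, P i ≠ 0) →
      kr ℚ w ≤ kr ℚ P → LThree.RankLe 2 P → ∃ a ∈ Ep, mon P a = 1)
    (h3 : ∀ q : Ideal (MvPolynomial (Fin 5) ℂ), ∀ _ : q.IsPrime, (∀ i, X i ∉ q) → kr ℂ w ≤ q →
      dm q = 1 → ∀ a b c : Fin 5 → ℤ, LinearIndependent ℤ ![a, b, c] →
      ¬ (a ∈ Lam ℂ (gen q) ∧ b ∈ Lam ℂ (gen q) ∧ c ∈ Lam ℂ (gen q))) :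
    FinA (kr ℂ w) := by
  classical
  have hw1 : ∀ a : Fin 5 → ℤ, a ≠ 0 → mon w a ≠ 1 := by
    intro a ha h1
    refine hC.trans (by norm_num) a ha ?_
    rw [h1]
    exact isAlgebraic_one
  set E := E1 ∪ Ep with hEdef
  have hE0 : ∀ a ∈ E, mon w a ≠ 1 := by
    intro a ha
    refine hw1 a ?_
    rintro rfl
    rcases Finset.mem_union.1 ha with h | h
    · exact hE1.1 h
    · exact hEp0 h
  set h : MvPolynomial (Fin 5) ℂ := ∏ a ∈ E, binom ℂ a 1 with hdef
  have hh : aeval w h ≠ 0 := by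
    rw [hdef, map_prod, Finset.prod_ne_zero_iff]
    intro a ha h1
    have h2 := (binom_mem_kr hC.ne a 1).1 (mem_kr.2 h1)
    rw [map_one] at h2
    exact hE0 a ha h2
  have hhm : ∀ (q : Ideal (MvPolynomial (Fin 5) ℂ)) (a : Fin 5 → ℤ), a ∈ E →
      binom ℂ a 1 ∈ q → h ∈ q := by
    intro q a ha h1
    rw [hdef, ← Finset.mul_prod_erase E _ ha]
    exact q.mul_mem_right _ h1
  have hY := fin_curves w hC.dim h hh
  set Y1 := hY.toFinset.filter TP with hY1
  have hmY1 : ∀ q, q ∈ Y1 ↔ (q.IsPrime ∧ kr ℂ w ≤ q ∧ h ∈ q ∧ dm q = 1) ∧ TP q := by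
    intro q
    rw [hY1, Finset.mem_filter, Set.Finite.mem_toFinset]
    rfl
  set Z : Ideal (MvPolynomial (Fin 5) ℂ) → Set (Fin 5 → ℂ) := fun q =>
    {P | (∀ i, P i ≠ 0) ∧ q ≤ kr ℂ P ∧ LThree.RankLe 2 P} with hZdef
  have hZ : ∀ q ∈ Y1, rhoP q < 2 → (Z q).Finite := by
    intro q hq hr
    obtain ⟨⟨h1, h2, h4, h5⟩, h6⟩ := (hmY1 q).1 hq
    exact FinSurf_curve w hQ E hE0 h3 q h6 h2 h4 h5 hr
  set W : Ideal (MvPolynomial (Fin 5) ℂ) → Finset (Ideal (MvPolynomial (Fin 5) ℂ)) := fun q =>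
    if hf : (Z q).Finite then (hf.toFinset.image fun P => kr ℂ P).filter fun y => 3 ≤ rhoP y
    else ∅ with hWdef
  have hdim : dm (kr ℂ w) = 2 := hC.dim
  refine ⟨(Y1.filter fun q => 2 ≤ rhoP q) ∪ (Y1.filter fun q => rhoP q < 2).biUnion W, ?_, ?_⟩
  · intro y hy
    rw [Finset.mem_union, Finset.mem_filter, Finset.mem_biUnion] at hy
    rcases hy with ⟨hy, hr⟩ | ⟨q, hq, hyq⟩
    · obtain ⟨⟨h1, h2, h4, h5⟩, h6⟩ := (hmY1 y).1 hy
      exact ⟨h6, h2, by omega⟩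
    · rw [Finset.mem_filter] at hq
      obtain ⟨⟨h1, h2, h4, h5⟩, h6⟩ := (hmY1 q).1 hq.1
      have hf := hZ q hq.1 hq.2
      rw [hWdef] at hyq
      simp only [dif_pos hf, Finset.mem_filter, Finset.mem_image, Set.Finite.mem_toFinset] at hyq
      obtain ⟨⟨P, hP, rfl⟩, hr⟩ := hyq
      exact ⟨TP.kr hP.1, h2.trans hP.2.1, by omega⟩
  · intro q hq hle hdq
    have hqp := hq.prime
    have hch : CharZero (Kf q) :=
      charZero_of_injective_algebraMap (algebraMap ℂ (Kf q)).injective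
    have hne : ∀ i, gen q i ≠ 0 := hq.gen_ne_zero
    have hrho : rhoP q = finrank ℚ (QS (relZ (gen q))) := by
      unfold rhoP
      rw [hq.QP_eq]
    have hd2 : dm q ≤ 2 := hdim ▸ dm_anti hle
    have hY1' : ∀ q' : Ideal (MvPolynomial (Fin 5) ℂ), q' ∈ Y1 → q' ≤ q →
        (2 ≤ rhoP q' ∨ (3 ≤ rhoP q ∧ ∃ P : Fin 5 → ℂ, q = kr ℂ P ∧ (∀ i, P i ≠ 0) ∧
          LThree.RankLe 2 P)) →
        ∃ y ∈ (Y1.filter fun q => 2 ≤ rhoP q) ∪ (Y1.filter fun q => rhoP q < 2).biUnion W,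
          y ≤ q := by
      intro q' hq' hle' hor
      by_cases hr : 2 ≤ rhoP q'
      · exact ⟨q', Finset.mem_union_left _ (Finset.mem_filter.2 ⟨hq', hr⟩), hle'⟩
      · obtain ⟨h5, P, hP, hP0, hP2⟩ := hor.resolve_left hr
        have hr' : rhoP q' < 2 := by omega
        have hf := hZ q' hq' hr'
        refine ⟨q, Finset.mem_union_right _ (Finset.mem_biUnion.2
          ⟨q', Finset.mem_filter.2 ⟨hq', hr'⟩, ?_⟩), le_rfl⟩
        rw [hWdef]
        simp only [dif_pos hf, Finset.mem_filter, Finset.mem_image, Set.Finite.mem_toFinset]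
        exact ⟨⟨P, ⟨hP0, hP ▸ hle', hP2⟩, hP.symm⟩, h5⟩
    rcases Nat.lt_or_ge (dm q) 2 with hlt | hge
    swap
    · -- dimension two
      exfalso
      have h4 : kr ℂ w = q := by
        by_contra h5
        have := dm_strictAnti (lt_of_le_of_ne hle h5)
        omega
      have h5 : rhoP q = rho w := by
        rw [← h4]
        exact rhoP_kr hC.ne
      have h6 : 0 < finrank ℚ (QS (relZ w)) := by
        change 0 < rho w
        omega
      obtain ⟨l, hl, hl0⟩ := FinSurf_one h6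
      refine hC.trans (by norm_num) l hl0 ?_
      obtain ⟨N, hN, h7⟩ := mem_relZ.1 hl
      refine ⟨Polynomial.X ^ N - Polynomial.C 1, Polynomial.X_pow_sub_C_ne_zero hN 1, ?_⟩
      rw [map_sub, map_pow, Polynomial.aeval_X, Polynomial.aeval_C, h7, map_one, sub_self]
    rcases Nat.lt_or_ge (dm q) 1 with hlt1 | hge1
    · -- dimension zero
      have hd0 : dm q = 0 := by omega
      obtain ⟨P, hP⟩ := FinSurf_pt q hd0
      have hP0 : ∀ i, P i ≠ 0 := by
        intro i hi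
        apply hq.coord i
        rw [hP, mem_kr, aeval_X, hi]
      have hr3 : 3 ≤ rhoP q := by omega
      have hr3' : 3 ≤ finrank ℚ (QS (relZ P)) := by
        change 3 ≤ rho P
        rw [← rhoP_kr (w := P) hP0, ← hP]
        exact hr3
      have hrk : LThree.RankLe 2 P := by
        refine ⟨QS (relZ P), ?_, ?_⟩
        · rw [Fintype.card_fin]
          omega
        · intro a ha
          exact cst_mem_QS_relZ.1 ha
      have hleC : kr ℂ w ≤ kr ℂ P := hP ▸ hle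
      obtain ⟨a, ha, ha1⟩ := hEp P hP0 (FinSurf_le hleC) hrk
      have hhq : h ∈ q := by
        refine hhm q a (Finset.mem_union_right _ ha) ?_
        rw [hP, binom_mem_kr hP0, ha1, map_one]
      have hJ : kr ℂ w ⊔ Ideal.span ((({h} : Finset (MvPolynomial (Fin 5) ℂ))) :
          Set (MvPolynomial (Fin 5) ℂ)) ≤ q := by
        refine sup_le hle ?_
        rw [Finset.coe_singleton, Ideal.span_singleton_le_iff_mem]
        exact hhq
      obtain ⟨q', hq', hq'q⟩ := Ideal.exists_minimalPrimes_le hJ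
      have hq'p : q'.IsPrime := hq'.isPrime
      have h4 := dm_le_dm_add_card (kr ℂ w) {h} q' hq'
      rw [Finset.card_singleton, hdim] at h4
      have h5 : h ∈ q' := by
        have h6 := le_sup_right.trans hq'.le
        rwa [Finset.coe_singleton, Ideal.span_singleton_le_iff_mem] at h6
      have h6 : kr ℂ w ≤ q' := le_sup_left.trans hq'.le
      have h7 : kr ℂ w < q' := by
        refine lt_of_le_of_ne h6 fun e => hh ?_
        rw [← e] at h5
        exact mem_kr.1 h5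
      have h8 := dm_strictAnti h7
      rw [hdim] at h8
      refine hY1' q' ((hmY1 q').2 ⟨⟨hq'p, h6, h5, by omega⟩, hq.mono hq'p hq'q⟩) hq'q
        (Or.inr ⟨hr3, P, hP, hP0, hrk⟩)
    · -- dimension one
      have hd1 : dm q = 1 := by omega
      have hr2 : 2 ≤ rhoP q := by omega
      obtain ⟨l, hl, m, hm, hlm⟩ := FinSurf_pair (M := relZ (gen q)) (by omega)
      have hleQ : kr ℚ w ≤ kr ℚ (gen q) := FinSurf_le (by rwa [kr_gen])
      obtain ⟨a, ha, ha1⟩ := hE1.2 (Kf q) (gen q) hne hleQ (FinSurf_tr q hge1) l m hlm hl hm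
      have hhq : h ∈ q := by
        refine hhm q a (Finset.mem_union_left _ ha) ?_
        rw [hq.binom_mem, ha1, map_one]
      exact hY1' q ((hmY1 q).2 ⟨⟨hqp, hle, hhq, hd1⟩, hq⟩) le_rfl (Or.inl hr2)

end Pool.Agent.Srf5
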