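import Pool.Agent.Srf5.HilbUp

set_option autoImplicit false

/-! Package F9: the Hilbert function of a subvariety of a hypersurface.

PROOF. Let `T` be the finite type of exponents `e : Fin n → ℤ`, `|e_i| ≤ N + g`, and
`A : (T → k) → F`, `A c = ∑ c_e w^e`, `B : (T → k) → Ω`, `B c = ∑ c_e ξ^e` (linear maps). The
ranges are `Mn k w (N + g)` and `Mn k ξ (N + g)`. `ker A ≤ ker B`: multiply by `∏ x_i^(N+g)` to get
a polynomial relation, and use `kr k w ≤ kr k ξ`. So
`finrank (range A) - finrank (range B) = finrank (ker B) - finrank (ker A)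
 = finrank (A (ker B))` (rank-nullity for the restriction of `A` to `ker B`, whose kernel is
`ker A`). `A (ker B)` contains `{f(w) u : u ∈ Mn k w N}`: for `u = w^e`, `|e_i| ≤ N`, and
`f = ∑ f_c x^c` with `∑ c_i ≤ g`: `f(w) w^e = A (the coefficients f_c at e + c)` and
`B (same) = f(ξ) ξ^e = 0`. Multiplication by `f(w) ≠ 0` is injective, so
`finrank (Mn k w N) ≤ finrank (A (ker B))`. -/

namespace Pool.Agent.Srf5

open MvPolynomial Pool.Agent.CITLines Module

/-- The exponents of absolute value at most `M`. -/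
private abbrev Ex (n M : ℕ) : Type := {e : Fin n → ℤ // ∀ i, |e i| ≤ (M : ℤ)}

private theorem finite_exps (n M : ℕ) : {e : Fin n → ℤ | ∀ i, |e i| ≤ (M : ℤ)}.Finite := by
  refine Set.Finite.subset (Set.Finite.pi' (t := fun _ => Set.Icc (-(M : ℤ)) M)
    fun _ => Set.finite_Icc _ _) fun e he i => ?_
  exact abs_le.1 (he i)

private instance finite_Ex (n M : ℕ) : Finite (Ex n M) := (finite_exps n M).to_subtype

private noncomputable instance fintype_Ex (n M : ℕ) : Fintype (Ex n M) := Fintype.ofFinite _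

/-- The linear combination of the monomials. -/
private noncomputable def lc (k : Type) {F : Type} [Field k] [Field F] [Algebra k F] {n : ℕ}
    (w : Fin n → F) (M : ℕ) : (Ex n M → k) →ₗ[k] F :=
  Fintype.linearCombination k fun e : Ex n M => mon w e.1

private theorem lc_apply {k F : Type} [Field k] [Field F] [Algebra k F] {n : ℕ}
    (w : Fin n → F) (M : ℕ) (c : Ex n M → k) : lc k w M c = ∑ e, c e • mon w e.1 := rfl

private theorem range_lc {k F : Type} [Field k] [Field F] [Algebra k F] {n : ℕ}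
    (w : Fin n → F) (M : ℕ) : LinearMap.range (lc k w M) = Mn k w M := by
  rw [lc, Fintype.range_linearCombination, Mn]
  congr 1
  ext x
  constructor
  · rintro ⟨e, rfl⟩
    exact ⟨e.1, e.2, rfl⟩
  · rintro ⟨e, he, rfl⟩
    exact ⟨⟨e, he⟩, rfl⟩

private theorem mon_nat {F : Type} [Field F] {n : ℕ} (w : Fin n → F) (d : Fin n →₀ ℕ) :
    mon w (fun i => (d i : ℤ)) = ∏ i, w i ^ d i := by
  simp [mon]

/-- The product of a polynomial and a monomial is a combination of monomials, with coefficients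
which depend only on the polynomial. -/
private theorem shift {k : Type} [Field k] {n : ℕ} (f : MvPolynomial (Fin n) k) {g : ℕ}
    (hg : f.totalDegree ≤ g) (e : Fin n → ℤ) {N : ℕ} (he : ∀ i, |e i| ≤ (N : ℤ)) :
    ∃ c : Ex n (N + g) → k, ∀ (F : Type) [Field F] [Algebra k F] (w : Fin n → F),
      (∀ i, w i ≠ 0) → lc k w (N + g) c = aeval w f * mon w e := by
  classical
  have h0 : ∀ d ∈ f.support, ∀ i, |(e + fun i => (d i : ℤ)) i| ≤ ((N + g : ℕ) : ℤ) := by
    intro d hd i
    have h1 : d i ≤ g := by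
      refine le_trans ?_ ((le_totalDegree hd).trans hg)
      rw [Finsupp.sum_fintype _ _ (fun _ => rfl)]
      exact Finset.single_le_sum (f := fun i => d i) (fun _ _ => Nat.zero_le _)
        (Finset.mem_univ i)
    have h2 := he i
    rw [abs_le] at h2
    rw [Pi.add_apply, abs_le]
    push_cast
    constructor <;> omega
  refine ⟨∑ d ∈ f.support.attach, Pi.single ⟨_, h0 d.1 d.2⟩ (coeff d.1 f),
    fun F _ _ w hw => ?_⟩
  rw [map_sum, aeval_def, eval₂_eq', Finset.sum_mul, ← Finset.sum_attach f.support]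
  refine Finset.sum_congr rfl fun d _ => ?_
  rw [lc, Fintype.linearCombination_apply_single, mon_add' hw, mon_nat, Algebra.smul_def]
  ring

/-- The kernels of the two maps. -/
private theorem ker_lc {k F Ω : Type} [Field k] [Field F] [Algebra k F] [Field Ω] [Algebra k Ω]
    {n : ℕ} (w : Fin n → F) (hw : ∀ i, w i ≠ 0) (ξ : Fin n → Ω) (hξ : ∀ i, ξ i ≠ 0)
    (hle : kr k w ≤ kr k ξ) (M : ℕ) : LinearMap.ker (lc k w M) ≤ LinearMap.ker (lc k ξ M) := by
  intro c hc
  rw [LinearMap.mem_ker] at hc ⊢
  set P : MvPolynomial (Fin n) k := ∑ e : Ex n M,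
    monomial (Finsupp.equivFunOnFinite.symm fun i => (e.1 i + M).toNat) (c e) with hP
  have key : ∀ (K : Type) [Field K] [Algebra k K] (w : Fin n → K), (∀ i, w i ≠ 0) →
      aeval w P = mon w (fun _ => (M : ℤ)) * lc k w M c := by
    intro K _ _ w hw
    rw [hP, map_sum, lc_apply, Finset.mul_sum]
    refine Finset.sum_congr rfl fun e _ => ?_
    rw [aeval_monomial, Finsupp.prod_fintype _ _ (fun _ => pow_zero _), Algebra.smul_def]
    have h2 : (∏ i, w i ^ (Finsupp.equivFunOnFinite.symm
        (fun i => (e.1 i + M).toNat)) i) = mon w e.1 * mon w (fun _ => (M : ℤ)) := by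
      rw [← mon_add' hw, ← mon_nat]
      congr 1
      funext i
      have h3 := e.2 i
      rw [abs_le] at h3
      simp only [Finsupp.equivFunOnFinite_symm_apply_apply, Pi.add_apply]
      exact Int.toNat_of_nonneg (by omega)
    rw [h2]
    ring
  have h1 : P ∈ kr k w := by
    rw [mem_kr, key F w hw, hc, mul_zero]
  have h2 := hle h1
  rw [mem_kr, key Ω ξ hξ] at h2
  refine (mul_eq_zero.1 h2).resolve_left ?_
  unfold mon
  exact Finset.prod_ne_zero_iff.2 fun i _ => zpow_ne_zero _ (hξ i)

/-- Rank and nullity for two maps. -/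
private theorem rank_two {k W F Ω : Type} [Field k] [AddCommGroup W] [Module k W]
    [FiniteDimensional k W] [AddCommGroup F] [Module k F] [AddCommGroup Ω] [Module k Ω]
    (A : W →ₗ[k] F) (B : W →ₗ[k] Ω) (h : LinearMap.ker A ≤ LinearMap.ker B) (U : Submodule k F)
    (hU : U ≤ (LinearMap.ker B).map A) :
    finrank k (LinearMap.range B) + finrank k U ≤ finrank k (LinearMap.range A) := by
  have h1 := A.finrank_range_add_finrank_ker
  have h2 := B.finrank_range_add_finrank_ker
  have h3 := (A.domRestrict (LinearMap.ker B)).finrank_range_add_finrank_ker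
  rw [LinearMap.range_domRestrict] at h3
  have h4 : finrank k (LinearMap.ker (A.domRestrict (LinearMap.ker B))) =
      finrank k (LinearMap.ker A) := by
    have h5 : LinearMap.ker (A.domRestrict (LinearMap.ker B)) =
        (LinearMap.ker A).comap (LinearMap.ker B).subtype := rfl
    rw [h5]
    exact (Submodule.comapSubtypeEquivOfLe h).finrank_eq
  have h6 := Submodule.finrank_mono hU
  omega

theorem drop {k F Ω : Type} [Field k] [Field F] [Algebra k F] [Field Ω] [Algebra k Ω] {n : ℕ}
    (w : Fin n → F) (hw : ∀ i, w i ≠ 0) (ξ : Fin n → Ω) (hξ : ∀ i, ξ i ≠ 0)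
    (hle : kr k w ≤ kr k ξ) (f : MvPolynomial (Fin n) k) (g : ℕ) (hg : f.totalDegree ≤ g)
    (hfw : aeval w f ≠ 0) (hfξ : aeval ξ f = 0) (N : ℕ) :
    finrank k (Mn k ξ (N + g)) + finrank k (Mn k w N) ≤ finrank k (Mn k w (N + g)) := by
  have hinj : Function.Injective (LinearMap.mulLeft k (aeval w f)) := by
    intro x y hxy
    exact mul_left_cancel₀ hfw hxy
  have hle2 : (Mn k w N).map (LinearMap.mulLeft k (aeval w f)) ≤
      (LinearMap.ker (lc k ξ (N + g))).map (lc k w (N + g)) := by
    rw [Mn, Submodule.map_span, Submodule.span_le]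
    rintro _ ⟨_, ⟨e, he, rfl⟩, rfl⟩
    obtain ⟨c, hc⟩ := shift f hg e he
    refine ⟨c, ?_, ?_⟩
    · rw [SetLike.mem_coe, LinearMap.mem_ker, hc Ω ξ hξ, hfξ, zero_mul]
    · rw [hc F w hw, LinearMap.mulLeft_apply]
  have h1 := rank_two _ _ (ker_lc w hw ξ hξ hle (N + g)) _ hle2
  rw [range_lc, range_lc,
    ← (Submodule.equivMapOfInjective _ hinj (Mn k w N)).finrank_eq] at h1
  exact h1

end Pool.Agent.Srf5
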