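import Pool.Agent.Srf5.Ders

set_option autoImplicit false

/-! Package F3: the determinant of two monomials.

Notation: `A_l = aeval w (lf a l)`, `B_l = aeval w (lf b l)`, `LD D z = D z / z`.
PROOF. `rel_mon`: `LD D (mon ξ l) = ∑ i, l_i LD D (ξ i)` (compare `LThreeC.LD_mono`), multiply by
`q(ξ)` and use `LogData.rel`.
`jac_ne_zero`: let `z = mon w l`, `y = mon w m` be algebraically independent and suppose
`A_l B_m = A_m B_l`. There is `(c, d) ≠ (0, 0)` in `F²` with `A_l c + B_l d = 0` and
`A_m c + B_m d = 0` (a `2 × 2` matrix of determinant zero). Let `D` be a derivation with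
`D (w s) = c w_s`, `D (w t) = d w_t` (`exists_der`). By `rel_mon` `D z = 0`, `D y = 0` (`q(w) ≠ 0`).
Now `F` is algebraic over `k(z, y)` (transcendence degree two: `z, y` is a transcendence basis;
`AlgebraicIndependent` matroid or `IsTranscendenceBasis`), so `D = 0` by `der_eq_zero`, so
`c = d = 0`, contradiction.
`jac_eq_zero`: suppose `A_l B_m - A_m B_l ≠ 0`. If `z` is algebraic over `k` then all derivations
kill
`z` (char 0), so with `D (w s) = w_s, D (w t) = 0` and conversely, `A_l = B_l = 0`, contradiction.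
So
`z` is transcendental, and `y` is algebraic over `k(z)` (they are dependent). Choose `(c, d)` with
`A_l c + B_l d = 0`, `A_m c + B_m d = 1` and `D` as above: `D z = 0` but `D y ≠ 0`, while `D y = 0`
because `y` is algebraic over `k(z)` (`der_eq_zero z z`, or with `{z, z} = {z}`).
`lin_ne_zero`: if `A_l = B_l = 0` then every derivation kills `z`, but `z` is transcendental and
there
is a derivation of `F` with `D z ≠ 0`: `z` is part of a transcendence basis `{z, y'}` with
`y' ∈ {w s, w t}`; use `exists_der z y'`. -/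

namespace Pool.Agent.Srf5

open MvPolynomial Pool.Agent.CITLines

section Aux

variable {k F : Type} [Field k] [Field F] [Algebra k F]

private theorem ld_mul (D : Derivation k F F) {x y : F} (hx : x ≠ 0) (hy : y ≠ 0) :
    D (x * y) / (x * y) = D x / x + D y / y := by
  rw [D.leibniz]
  simp only [smul_eq_mul]
  field_simp
  ring

private theorem ld_one (D : Derivation k F F) : D 1 / (1 : F) = 0 := by
  rw [D.map_one_eq_zero, zero_div]

private theorem ld_inv (D : Derivation k F F) {x : F} (hx : x ≠ 0) :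
    D x⁻¹ / x⁻¹ = - (D x / x) := by
  have h := ld_mul D hx (inv_ne_zero hx)
  rw [mul_inv_cancel₀ hx, ld_one] at h
  linear_combination -h

private theorem ld_pow (D : Derivation k F F) {x : F} (hx : x ≠ 0) (n : ℕ) :
    D (x ^ n) / x ^ n = (n : F) * (D x / x) := by
  induction n with
  | zero => rw [pow_zero, ld_one]; simp
  | succ n ih =>
    rw [pow_succ, ld_mul D (pow_ne_zero n hx) hx, ih]
    push_cast
    ring

private theorem ld_zpow (D : Derivation k F F) {x : F} (hx : x ≠ 0) (n : ℤ) :
    D (x ^ n) / x ^ n = (n : F) * (D x / x) := by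
  obtain ⟨m, rfl | rfl⟩ := n.eq_nat_or_neg
  · rw [zpow_natCast, ld_pow D hx]
    simp
  · rw [zpow_neg, zpow_natCast, ld_inv D (pow_ne_zero m hx), ld_pow D hx]
    push_cast
    ring

private theorem ld_prod (D : Derivation k F F) {ι : Type} (s : Finset ι) (z : ι → F)
    (hz : ∀ i ∈ s, z i ≠ 0) :
    D (∏ i ∈ s, z i) / (∏ i ∈ s, z i) = ∑ i ∈ s, D (z i) / z i := by
  classical
  induction s using Finset.induction_on with
  | empty => rw [Finset.prod_empty, Finset.sum_empty, ld_one]
  | insert a s ha ih =>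
    rw [Finset.prod_insert ha, Finset.sum_insert ha,
      ld_mul D (hz a (Finset.mem_insert_self a s))
        (Finset.prod_ne_zero_iff.2 fun i hi => hz i (Finset.mem_insert_of_mem hi)),
      ih fun i hi => hz i (Finset.mem_insert_of_mem hi)]

private theorem ld_mon (D : Derivation k F F) {ι : Type} [Fintype ι] (z : ι → F)
    (hz : ∀ i, z i ≠ 0) (u : ι → ℤ) :
    D (mon z u) / mon z u = ∑ i, (u i : F) * (D (z i) / z i) := by
  unfold mon
  rw [ld_prod D _ _ fun i _ => zpow_ne_zero _ (hz i)]
  exact Finset.sum_congr rfl fun i _ => ld_zpow D (hz i) _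

private theorem aeval_lf {n : ℕ} (ξ : Fin n → F) (a : Fin n → MvPolynomial (Fin n) k)
    (l : Fin n → ℤ) : aeval ξ (lf a l) = ∑ i, (l i : F) * aeval ξ (a i) := by
  unfold lf
  rw [map_sum]
  refine Finset.sum_congr rfl fun i _ => ?_
  rw [map_mul, algHom_C, map_intCast]

private theorem mon_ne {n : ℕ} {ξ : Fin n → F} (hξ : ∀ i, ξ i ≠ 0) (l : Fin n → ℤ) :
    mon ξ l ≠ 0 :=
  Finset.prod_ne_zero_iff.2 fun i _ => zpow_ne_zero _ (hξ i)

private theorem range_two {A : Type} (x y : A) : Set.range ![x, y] = ({x, y} : Set A) := by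
  rw [Matrix.range_cons, Matrix.range_cons, Matrix.range_empty, Set.union_empty]
  rfl

private theorem alg_of_ind {x y z z' : F}
    (halg : ∀ f : F, IsAlgebraic (Algebra.adjoin k {x, y}) f)
    (hi : AlgebraicIndependent k ![z, z']) :
    ∀ f : F, IsAlgebraic (Algebra.adjoin k {z, z'}) f := by
  have h1 : Algebra.IsAlgebraic (Algebra.adjoin k ({x, y} : Set F)) F := ⟨halg⟩
  have h2 : Algebra.trdeg k F ≤ Cardinal.mk (({x, y} : Set F)) :=
    Algebra.IsAlgebraic.trdeg_le_cardinalMk k {x, y}
  have h3 : Cardinal.mk (({x, y} : Set F)) ≤ Cardinal.mk (Fin 2) := by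
    rw [← range_two x y]
    exact Cardinal.mk_range_le
  have h4 := (hi.isTranscendenceBasis_of_trdeg_le_of_finite (h2.trans h3)).isAlgebraic
  rw [range_two] at h4
  exact h4.1

private theorem alg_of_dep {z y : F} (hz : Transcendental k z)
    (hd : ¬ AlgebraicIndependent k ![z, y]) : IsAlgebraic (Algebra.adjoin k {z, z}) y := by
  by_contra hcon
  apply hd
  rw [AlgebraicIndependent.iff_transcendental_adjoin_image 1]
  constructor
  · have : Subsingleton {j : Fin 2 // j ≠ 1} :=
      ⟨fun a b => Subtype.ext (by have := a.2; have := b.2; omega)⟩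
    rw [algebraicIndependent_singleton_iff ⟨0, by decide⟩]
    exact hz
  · have h1 : (![z, y] '' {1}ᶜ : Set F) = {z, z} := by
      ext f
      simp only [Set.mem_image, Set.mem_compl_iff, Set.mem_singleton_iff, Set.mem_insert_iff,
        or_self]
      constructor
      · rintro ⟨j, hj, rfl⟩
        have : j = 0 := by
          fin_cases j
          · rfl
          · exact absurd rfl hj
        rw [this]
        rfl
      · rintro rfl
        exact ⟨0, by decide, rfl⟩
    rw [h1]
    exact hcon

end Aux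

variable {k F : Type} [Field k] [Field F] [Algebra k F] {n : ℕ} {w : Fin n → F}
  {s t : Fin n} {q : MvPolynomial (Fin n) k} {a b : Fin n → MvPolynomial (Fin n) k}

theorem rel_mon (h : LogData k w s t q a b) {Ω : Type} [Field Ω] [Algebra k Ω] (ξ : Fin n → Ω)
    (hξ : ∀ i, ξ i ≠ 0) (hle : kr k w ≤ kr k ξ) (D : Derivation k Ω Ω) (l : Fin n → ℤ) :
    aeval ξ q * (D (mon ξ l) / mon ξ l) =
      aeval ξ (lf a l) * (D (ξ s) / ξ s) + aeval ξ (lf b l) * (D (ξ t) / ξ t) := by
  rw [ld_mon D ξ hξ l, Finset.mul_sum, aeval_lf, aeval_lf, Finset.sum_mul, Finset.sum_mul,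
    ← Finset.sum_add_distrib]
  refine Finset.sum_congr rfl fun i _ => ?_
  linear_combination (l i : Ω) * h.rel Ω ξ hξ hle D i

/-- The derivation with given values of the logarithmic derivatives. -/
private theorem exists_ld [CharZero k] (hw : ∀ i, w i ≠ 0) (h : LogData k w s t q a b)
    (hind : AlgebraicIndependent k ![w s, w t])
    (halg : ∀ z : F, IsAlgebraic (Algebra.adjoin k {w s, w t}) z) (c d : F) :
    ∃ D : Derivation k F F, D (w s) = c * w s ∧ D (w t) = d * w t ∧ ∀ l : Fin n → ℤ,
      aeval w q * (D (mon w l) / mon w l) = aeval w (lf a l) * c + aeval w (lf b l) * d := by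
  obtain ⟨D, h1, h2⟩ := exists_der (w s) (w t) hind halg (c * w s) (d * w t)
  refine ⟨D, h1, h2, fun l => ?_⟩
  rw [rel_mon h w hw le_rfl D l, h1, h2, mul_div_assoc, div_self (hw s), mul_div_assoc,
    div_self (hw t), mul_one, mul_one]

private theorem der_mon_eq_zero (hw : ∀ i, w i ≠ 0) (h : LogData k w s t q a b)
    {D : Derivation k F F} {l : Fin n → ℤ} (h0 : aeval w q * (D (mon w l) / mon w l) = 0) :
    D (mon w l) = 0 := by
  rcases mul_eq_zero.1 h0 with h1 | h1
  · exact absurd h1 h.q_ne
  · rcases div_eq_zero_iff.1 h1 with h2 | h2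
    · exact h2
    · exact absurd h2 (mon_ne hw l)

theorem jac_ne_zero [CharZero k] (hw : ∀ i, w i ≠ 0) (h : LogData k w s t q a b)
    (hind : AlgebraicIndependent k ![w s, w t])
    (halg : ∀ z : F, IsAlgebraic (Algebra.adjoin k {w s, w t}) z) (l m : Fin n → ℤ)
    (hlm : AlgebraicIndependent k ![mon w l, mon w m]) : aeval w (jac a b l m) ≠ 0 := by
  intro h0
  simp only [jac, map_sub, map_mul] at h0
  -- a nonzero solution of the linear system
  have hcd : ∃ c d : F, (c ≠ 0 ∨ d ≠ 0) ∧
      aeval w (lf a l) * c + aeval w (lf b l) * d = 0 ∧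
      aeval w (lf a m) * c + aeval w (lf b m) * d = 0 := by
    by_cases h1 : aeval w (lf a l) = 0 ∧ aeval w (lf b l) = 0
    · by_cases h2 : aeval w (lf a m) = 0 ∧ aeval w (lf b m) = 0
      · refine ⟨1, 0, Or.inl one_ne_zero, ?_, ?_⟩
        · rw [h1.1, h1.2]; ring
        · rw [h2.1, h2.2]; ring
      · refine ⟨aeval w (lf b m), - aeval w (lf a m), ?_, ?_, by ring⟩
        · by_contra hcon
          push Not at hcon
          exact h2 ⟨neg_eq_zero.1 hcon.2, hcon.1⟩
        · rw [h1.1, h1.2]; ring
    · refine ⟨aeval w (lf b l), - aeval w (lf a l), ?_, by ring, ?_⟩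
      · by_contra hcon
        push Not at hcon
        exact h1 ⟨neg_eq_zero.1 hcon.2, hcon.1⟩
      · linear_combination -h0
  obtain ⟨c, d, hne, h1, h2⟩ := hcd
  obtain ⟨D, hs, ht, hD⟩ := exists_ld hw h hind halg c d
  have hz := der_mon_eq_zero hw h ((hD l).trans h1)
  have hy := der_mon_eq_zero hw h ((hD m).trans h2)
  have halg' := alg_of_ind halg hlm
  have hDs := der_eq_zero _ _ D hz hy (w s) (halg' _)
  have hDt := der_eq_zero _ _ D hz hy (w t) (halg' _)
  rw [hs] at hDs
  rw [ht] at hDt
  rcases hne with hc | hd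
  · exact (mul_ne_zero hc (hw s)) hDs
  · exact (mul_ne_zero hd (hw t)) hDt

theorem jac_eq_zero [CharZero k] (hw : ∀ i, w i ≠ 0) (h : LogData k w s t q a b)
    (hind : AlgebraicIndependent k ![w s, w t])
    (halg : ∀ z : F, IsAlgebraic (Algebra.adjoin k {w s, w t}) z) (l m : Fin n → ℤ)
    (hlm : Dep k w l m) : aeval w (jac a b l m) = 0 := by
  by_contra h0
  have hJ : aeval w (lf a l) * aeval w (lf b m) - aeval w (lf a m) * aeval w (lf b l) ≠ 0 := by
    intro h1
    apply h0
    simp only [jac, map_sub, map_mul]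
    exact h1
  set J : F := aeval w (lf a l) * aeval w (lf b m) - aeval w (lf a m) * aeval w (lf b l) with hJd
  by_cases hz : Transcendental k (mon w l)
  · -- `y` is algebraic over `k(z)`
    have hy := alg_of_dep hz hlm
    obtain ⟨D, _, _, hD⟩ := exists_ld hw h hind halg (- aeval w (lf b l) / J)
      (aeval w (lf a l) / J)
    have h1 : aeval w q * (D (mon w l) / mon w l) = 0 := by
      rw [hD l]
      ring
    have h2 : aeval w q * (D (mon w m) / mon w m) = 1 := by
      rw [hD m]
      field_simp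
      rw [hJd]
      ring
    have hDz := der_mon_eq_zero hw h h1
    have hDy := der_eq_zero _ _ D hDz hDz _ hy
    rw [hDy, zero_div, mul_zero] at h2
    exact zero_ne_one h2
  · have hz' : IsAlgebraic k (mon w l) := not_not.1 hz
    obtain ⟨D, _, _, hD⟩ := exists_ld hw h hind halg (aeval w (lf b m) / J)
      (- aeval w (lf a m) / J)
    have h1 : aeval w q * (D (mon w l) / mon w l) = 1 := by
      rw [hD l]
      field_simp
      rw [hJd]
      ring
    have hDz : D (mon w l) = 0 :=
      der_eq_zero 0 0 D (map_zero D) (map_zero D) _ (hz'.extendScalars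
        (algebraMap k (Algebra.adjoin k {(0 : F), 0})).injective)
    rw [hDz, zero_div, mul_zero] at h1
    exact zero_ne_one h1

theorem lin_ne_zero [CharZero k] (hw : ∀ i, w i ≠ 0) (h : LogData k w s t q a b)
    (hind : AlgebraicIndependent k ![w s, w t])
    (halg : ∀ z : F, IsAlgebraic (Algebra.adjoin k {w s, w t}) z) (l : Fin n → ℤ)
    (hl : Transcendental k (mon w l)) : aeval w (lf a l) ≠ 0 ∨ aeval w (lf b l) ≠ 0 := by
  by_contra hcon
  push Not at hcon
  obtain ⟨hA, hB⟩ := hcon
  -- every derivation kills `z`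
  have hD0 : ∀ D : Derivation k F F, D (mon w l) = 0 := by
    intro D
    refine der_mon_eq_zero hw h ?_
    rw [rel_mon h w hw le_rfl D l, hA, hB]
    ring
  by_cases h1 : AlgebraicIndependent k ![mon w l, w s]
  · obtain ⟨D, hD, _⟩ := exists_der (mon w l) (w s) h1 (alg_of_ind halg h1) 1 0
    rw [hD0 D] at hD
    exact zero_ne_one hD
  · have h2 := alg_of_dep hl h1
    obtain ⟨D, hs, _, _⟩ := exists_ld hw h hind halg 1 0
    have h3 := der_eq_zero _ _ D (hD0 D) (hD0 D) _ h2
    rw [hs, one_mul] at h3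
    exact hw s h3

end Pool.Agent.Srf5
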