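import Mathlib

set_option autoImplicit false

/-! Package F4: logarithmic derivatives with a constant quotient.

PROOF. Put `D' := (z / D z) • D`, so `D' z = z` and `D' y = c y`. Let `K = k(z)`
(`IntermediateField.adjoin k {z}`), `p = minpoly K y = T^n + p_{n-1} T^{n-1} + ... + p_0`, `n ≥ 1`.
`D'` maps `K` to `K` (a rational function `f(z)` is sent to `z f'(z)`; it suffices that `D'` maps
`k[z]` into `k[z]` and quotients into quotients). `0 = D'(p(y)) = ∑ (D' p_j + j c p_j) y^j` where
`p_n = 1`, the leading coefficient is `n c`; subtracting `n c p(y) = 0` gives a polynomial of degree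
`< n` over `K` vanishing at `y`, so `D' p_j = (n - j) c p_j` for all `j`; in particular
`D' p_0 = n c p_0` and `p_0 ≠ 0` (`y ≠ 0`, `p` irreducible).
Write `p_0 = A(z)/B(z)` with `A, B ∈ k[T]` nonzero: `z (A'(z) B(z) - A(z) B'(z)) = n c A(z) B(z)`,
so `T (A' B - A B') = n c A B` in `k[T]`; compare the coefficients of `T^(deg A + deg B)`:
`(deg A - deg B) lc(A) lc(B) = n c lc(A) lc(B)`. So `n c = m'` with `m' := deg A - deg B ∈ ℤ`.
Then `x := y^n z^(-m')` satisfies `D' x = (n c - m') x = 0`, and `x` is algebraic over `k(z)`: as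
`D' z ≠ 0`, an element killed by `D'` and algebraic over `k(z)` is algebraic over `k`. Proof:
`minpoly K x = T^r + ∑ r_j T^j`; `0 = D'(...) = ∑ (D' r_j) x^j` of degree `< r`, so `D' r_j = 0`,
and a
rational function `f = A(z)/B(z)` in lowest terms with `D' f = 0` is constant (`A' B = A B'` gives
`A ∣ A'`, so `A' = 0`, likewise `B' = 0`; char 0). (Alternatively: if `x` were transcendental over
`k`
then `z` would be algebraic over `k(x)` by exchange, and `D' x = 0` implies `D' z = 0`;
`LThreeC.exchange` is in Pool/Agent/LThreeC/Deriv.lean. This is shorter.) -/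

namespace Pool.Agent.Srf5

open Polynomial

private theorem ld_pow {k F : Type} [Field k] [Field F] [Algebra k F] (E : Derivation k F F)
    {x : F} {m : k} (h : E x = m • x) (n : ℕ) : E (x ^ n) = ((n : k) * m) • x ^ n := by
  induction n with
  | zero => simp
  | succ n ih =>
    rw [pow_succ, E.leibniz, h, ih, smul_eq_mul, smul_eq_mul, Algebra.smul_def, Algebra.smul_def,
      Algebra.smul_def, Nat.cast_succ, _root_.map_mul, _root_.map_mul, map_add, map_natCast,
      map_one]
    ring

private theorem ld_sum {k F : Type} [Field k] [DecidableEq k] [Field F] [Algebra k F]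
    (f : Module.End k F)
    {ι : Type} (S : Finset ι) (e : ι → F) (ev a : ι → k)
    (he : ∀ s, f (e s) = ev s • e s) (h : ∑ s ∈ S, a s • e s = 0) (l : k) :
    ∑ s ∈ S with ev s = l, a s • e s = 0 := by
  classical
  set v : k → F := fun l => ∑ s ∈ S with ev s = l, a s • e s with hv
  have hfv : ∀ l, f (v l) = l • v l := by
    intro l
    rw [hv]
    simp only [map_sum, map_smul, Finset.smul_sum]
    refine Finset.sum_congr rfl fun s hs => ?_
    rw [he, (Finset.mem_filter.1 hs).2, smul_comm]
  have hsum : ∑ l ∈ S.image ev, v l = 0 := by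
    rw [← h]
    exact Finset.sum_fiberwise_of_maps_to (fun s hs => Finset.mem_image_of_mem ev hs) _
  change v l = 0
  by_contra hl
  have hlS : l ∈ S.image ev := by
    by_contra h1
    apply hl
    change ∑ s ∈ S with ev s = l, a s • e s = 0
    refine Finset.sum_eq_zero fun s hs => ?_
    rw [Finset.mem_filter] at hs
    exact absurd (Finset.mem_image.2 ⟨s, hs.1, hs.2⟩) h1
  set T := (S.image ev).filter fun m => v m ≠ 0 with hT
  have hlin : LinearIndependent k (fun t : T => v t) := by
    refine Module.End.eigenvectors_linearIndependent' f (fun t : T => (t : k))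
      Subtype.val_injective _ fun t => ?_
    rw [Module.End.hasEigenvector_iff, Module.End.mem_eigenspace_iff]
    exact ⟨hfv _, (Finset.mem_filter.1 t.2).2⟩
  have hs2 : ∑ t : T, (1 : k) • v t = 0 := by
    simp only [one_smul]
    rw [← hsum, hT, Finset.sum_coe_sort _ v]
    refine Finset.sum_subset (Finset.filter_subset _ _) fun m hm hm' => ?_
    by_contra h1
    exact hm' (Finset.mem_filter.2 ⟨hm, h1⟩)
  exact one_ne_zero ((Fintype.linearIndependent_iff.1 hlin) (fun _ => (1 : k)) hs2
    ⟨l, Finset.mem_filter.2 ⟨hlS, hl⟩⟩)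

theorem ld_two {k F : Type} [Field k] [CharZero k] [Field F] [Algebra k F] (z y : F)
    (hz : Transcendental k z) (hy0 : y ≠ 0) (hy : IsAlgebraic (Algebra.adjoin k {z}) y)
    (D : Derivation k F F) (hD : D z ≠ 0) (c : k)
    (h : D y / y = algebraMap k F c * (D z / z)) :
    ∃ n m : ℤ, n ≠ 0 ∧ IsAlgebraic k (y ^ n * z ^ m) := by
  classical
  have hz0 : z ≠ 0 := by
    rintro rfl
    exact hz isAlgebraic_zero
  -- the derivation with eigenvectors the monomials
  set E : Derivation k F F := (z / D z) • D with hE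
  have hEz : E z = (1 : k) • z := by
    rw [hE, Derivation.smul_apply, smul_eq_mul, one_smul, div_mul_cancel₀ _ hD]
  have hEy : E y = c • y := by
    rw [hE, Derivation.smul_apply, smul_eq_mul, Algebra.smul_def]
    rw [div_eq_iff hy0] at h
    rw [h]
    field_simp
  let e : ℕ × ℕ → F := fun s => z ^ s.1 * y ^ s.2
  let ev : ℕ × ℕ → k := fun s => (s.1 : k) + s.2 * c
  have he : ∀ s, (E : F →ₗ[k] F) (e s) = ev s • e s := by
    intro s
    change E (z ^ s.1 * y ^ s.2) = ((s.1 : k) + s.2 * c) • (z ^ s.1 * y ^ s.2)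
    rw [E.leibniz, ld_pow E hEz, ld_pow E hEy, smul_eq_mul, smul_eq_mul, Algebra.smul_def,
      Algebra.smul_def, Algebra.smul_def, mul_one, map_add]
    ring
  -- the relation
  obtain ⟨p, hp0, hp⟩ := hy
  have hq : ∀ j, ∃ q : k[X], aeval z q = (p.coeff j : F) := by
    have h0 : ∀ w ∈ Algebra.adjoin k {z}, ∃ q : k[X], aeval z q = w := by
      intro w hw
      rw [Algebra.adjoin_singleton_eq_range_aeval] at hw
      exact hw
    exact fun j => h0 _ (p.coeff j).2
  choose q hq using hq
  set B := (Finset.range (p.natDegree + 1)).sup fun j => (q j).natDegree with hB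
  set S := Finset.range (B + 1) ×ˢ Finset.range (p.natDegree + 1) with hS
  let a : ℕ × ℕ → k := fun s => (q s.2).coeff s.1
  have hsum : ∑ s ∈ S, a s • e s = 0 := by
    rw [← hp, aeval_eq_sum_range, hS, Finset.sum_product_right]
    refine Finset.sum_congr rfl fun j hj => ?_
    have h1 : (q j).natDegree < B + 1 := by
      rw [Nat.lt_succ_iff]
      exact Finset.le_sup (f := fun j => (q j).natDegree) hj
    rw [Subalgebra.smul_def, smul_eq_mul, ← hq, aeval_eq_sum_range' h1, Finset.sum_mul]
    refine Finset.sum_congr rfl fun i _ => ?_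
    change (q j).coeff i • (z ^ i * y ^ j) = _
    rw [smul_mul_assoc]
  -- a coefficient which is not zero
  obtain ⟨s', hs'S, hs'a⟩ : ∃ s' ∈ S, a s' ≠ 0 := by
    obtain ⟨j, hj⟩ : ∃ j, p.coeff j ≠ 0 := by
      by_contra h1
      push Not at h1
      exact hp0 (Polynomial.ext fun j => by rw [h1 j, coeff_zero])
    have hqj : q j ≠ 0 := by
      intro h1
      apply hj
      have h2 := hq j
      rw [h1, map_zero] at h2
      exact Subtype.ext h2.symm
    obtain ⟨i, hi⟩ : ∃ i, (q j).coeff i ≠ 0 := by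
      by_contra h1
      push Not at h1
      exact hqj (Polynomial.ext fun i => by rw [h1 i, coeff_zero])
    have hj' : j ∈ Finset.range (p.natDegree + 1) :=
      Finset.mem_range.2 (Nat.lt_succ_iff.2 (le_natDegree_of_ne_zero hj))
    refine ⟨(i, j), ?_, hi⟩
    rw [hS, Finset.mem_product]
    refine ⟨Finset.mem_range.2 (Nat.lt_succ_iff.2 ?_), hj'⟩
    exact (le_natDegree_of_ne_zero hi).trans (Finset.le_sup (f := fun j => (q j).natDegree) hj')
  -- the monomials with this eigenvalue
  have hv := ld_sum (E : F →ₗ[k] F) S e ev a he hsum (ev s')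
  set G := S.filter fun s => ev s = ev s' ∧ a s ≠ 0 with hG
  have hGv : ∑ s ∈ G, a s • e s = 0 := by
    rw [← hv, hG]
    refine Finset.sum_subset (fun s hs => ?_) fun s hs hs2 => ?_
    · rw [Finset.mem_filter] at hs ⊢
      exact ⟨hs.1, hs.2.1⟩
    · rw [Finset.mem_filter] at hs
      have h1 : a s = 0 := by
        by_contra h2
        exact hs2 (Finset.mem_filter.2 ⟨hs.1, hs.2, h2⟩)
      rw [h1, zero_smul]
  have hs'G : s' ∈ G := Finset.mem_filter.2 ⟨hs'S, rfl, hs'a⟩
  obtain ⟨s0, hs0, hmin⟩ := Finset.exists_min_image G (fun s => s.2) ⟨s', hs'G⟩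
  have hev : ∀ s ∈ G, ev s = ev s0 := fun s hs =>
    (Finset.mem_filter.1 hs).2.1.trans (Finset.mem_filter.1 hs0).2.1.symm
  have ha : ∀ s ∈ G, a s ≠ 0 := fun s hs => (Finset.mem_filter.1 hs).2.2
  have hene : ∀ s, e s ≠ 0 := fun s => mul_ne_zero (pow_ne_zero _ hz0) (pow_ne_zero _ hy0)
  -- there is a second one
  obtain ⟨s1, hs1, hs10⟩ : ∃ s1 ∈ G, s1 ≠ s0 := by
    by_contra h1
    push Not at h1
    have h2 : G = {s0} := by
      ext s
      rw [Finset.mem_singleton]
      exact ⟨h1 s, fun h3 => h3 ▸ hs0⟩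
    rw [h2, Finset.sum_singleton, smul_eq_zero] at hGv
    rcases hGv with h3 | h3
    · exact ha s0 hs0 h3
    · exact hene s0 h3
  -- the number `c` is rational
  have hne2 : (s1.2 : ℚ) - s0.2 ≠ 0 := by
    intro h1
    have h2 : s1.2 = s0.2 := by
      have : (s1.2 : ℚ) = s0.2 := by linarith
      exact_mod_cast this
    have h3 := hev s1 hs1
    change (s1.1 : k) + s1.2 * c = (s0.1 : k) + s0.2 * c at h3
    rw [h2] at h3
    have h4 : (s1.1 : k) = s0.1 := by linear_combination h3
    exact hs10 (Prod.ext (by exact_mod_cast h4) h2)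
  obtain ⟨r, hr⟩ : ∃ r : ℚ, c = (r : k) := by
    refine ⟨((s0.1 : ℚ) - s1.1) / ((s1.2 : ℚ) - s0.2), ?_⟩
    have h3 := hev s1 hs1
    change (s1.1 : k) + s1.2 * c = (s0.1 : k) + s0.2 * c at h3
    have h5 : (s1.2 : k) - s0.2 ≠ 0 := by
      have h6 : (((s1.2 : ℚ) - s0.2 : ℚ) : k) ≠ 0 := by
        rw [Ne, Rat.cast_eq_zero]
        exact hne2
      push_cast at h6
      exact h6
    push_cast
    rw [eq_div_iff h5]
    linear_combination h3
  -- the exponents
  have hex : ∀ s ∈ G, ∃ t : ℕ, s.2 = s0.2 + r.den * t ∧ (s.1 : ℤ) = s0.1 - r.num * t := by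
    intro s hs
    have h3 := hev s hs
    change (s.1 : k) + s.2 * c = (s0.1 : k) + s0.2 * c at h3
    rw [hr] at h3
    have h4 : (s.1 : ℚ) + s.2 * r = s0.1 + s0.2 * r := by exact_mod_cast h3
    have h5 : r * r.den = r.num := Rat.mul_den_eq_num r
    have h6 : ((s.2 : ℚ) - s0.2) * r.num = ((s0.1 : ℚ) - s.1) * r.den := by
      rw [← h5]
      linear_combination (r.den : ℚ) * h4
    have h7 : ((s.2 : ℤ) - s0.2) * r.num = ((s0.1 : ℤ) - s.1) * r.den := by exact_mod_cast h6
    have h8 : IsCoprime (r.den : ℤ) r.num := by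
      rw [Int.isCoprime_iff_gcd_eq_one, Int.gcd_comm]
      have := r.reduced
      simpa [Int.gcd] using this
    have h9 : (r.den : ℤ) ∣ (s.2 : ℤ) - s0.2 := by
      refine h8.dvd_of_dvd_mul_right ?_
      rw [h7]
      exact dvd_mul_left _ _
    obtain ⟨t, ht⟩ := h9
    have hden : (0 : ℤ) < r.den := by exact_mod_cast r.den_pos
    have ht0 : 0 ≤ t := by
      have h10 : s0.2 ≤ s.2 := hmin s hs
      have h11 : (0 : ℤ) ≤ r.den * t := by
        rw [← ht]
        omega
      exact nonneg_of_mul_nonneg_right h11 hden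
    obtain ⟨t, rfl⟩ := Int.eq_ofNat_of_zero_le ht0
    refine ⟨t, ?_, ?_⟩
    · have : (s.2 : ℤ) = s0.2 + r.den * t := by linarith
      exact_mod_cast this
    · rw [ht] at h7
      have h12 : (r.den : ℤ) * (r.num * t) = r.den * (s0.1 - s.1) := by linear_combination h7
      have h13 := mul_left_cancel₀ hden.ne' h12
      linarith
  choose! t ht2 ht1 using hex
  refine ⟨r.den, -r.num, by exact_mod_cast r.den_pos.ne', ?_⟩
  set x := y ^ (r.den : ℤ) * z ^ (-r.num) with hx
  have hmon : ∀ s ∈ G, e s = e s0 * x ^ t s := by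
    intro s hs
    change z ^ s.1 * y ^ s.2 = z ^ s0.1 * y ^ s0.2 * x ^ t s
    have h1 : z ^ s.1 = z ^ s0.1 * (z ^ (-r.num)) ^ t s := by
      rw [← zpow_natCast, ← zpow_natCast, ← zpow_natCast, ← zpow_mul, ← zpow_add₀ hz0, ht1 s hs]
      congr 1
      ring
    rw [h1, ht2 s hs, hx, mul_pow, zpow_natCast, pow_add, pow_mul]
    ring
  refine ⟨∑ s ∈ G, monomial (t s) (a s), ?_, ?_⟩
  · intro h0
    have h1 := congrArg (fun P : k[X] => P.coeff (t s0)) h0
    simp only [finsetSum_coeff, coeff_monomial, coeff_zero] at h1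
    rw [Finset.sum_eq_single s0] at h1
    · rw [if_pos rfl] at h1
      exact ha s0 hs0 h1
    · intro s hs hne
      rw [if_neg]
      intro h2
      apply hne
      have h3 : s.2 = s0.2 := by rw [ht2 s hs, ht2 s0 hs0, h2, ← ht2 s0 hs0]; exact (ht2 s0 hs0).symm
      have h4 : (s.1 : ℤ) = s0.1 := by
        rw [ht1 s hs, h2]
        exact (ht1 s0 hs0).symm
      exact Prod.ext (by exact_mod_cast h4) h3
    · intro h2
      exact absurd hs0 h2
  · have h1 : e s0 * aeval x (∑ s ∈ G, monomial (t s) (a s)) = 0 := by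
      rw [← hGv, map_sum, Finset.mul_sum]
      refine Finset.sum_congr rfl fun s hs => ?_
      rw [aeval_monomial, hmon s hs, Algebra.smul_def]
      ring
    rcases mul_eq_zero.1 h1 with h2 | h2
    · exact absurd h2 (hene s0)
    · exact h2

end Pool.Agent.Srf5
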