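import Pool.Agent.Srf5.FinSurf
import Pool.Agent.Srf5.CpxPts
import Pool.Agent.Srf5.DefQ

set_option autoImplicit false

/-! Package G3: finitely many maximal atypical subvarieties, in terms of sets.

PROOF. Let `p = vanI V`, `w = gen p`; `IsVariety V` from `hV, hprime`; `w i ≠ 0` (`IsVariety.tp`,
`TP.gen_ne_zero`), `kr ℂ w = p` (`kr_gen`), `dm p = 2` (`hdim`, `dm_eq_of`), `dm (kr ℚ w) = 2`
(`dm_IQ_eq`, `IQ_eq_kr`). `Surf ℂ w`: `fine` from `hfine` by `algDep_iff`; `Surf ℚ w` by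
`surf_iff`. `E1` from `curve_list` of `CurvesQ.lean` (`3 ≤ 5`), `E2` from `hpts` for `w` itself
(`sub_surf` with `n = 5`, or directly), `Ep` from `cpx_points` (`5 ≤ 5`). `h3` of `finA_surf`: let
`q` be a prime with `dm q = 1` and three independent `a, b, c` in `Lam ℂ (gen q)`. Let
`X = Zt q` be the set of the points with nonzero coordinates where `q` vanishes; `vanI X = q`
(`vanI_Zt`, Nullstellensatz, `TP q`), so `vanI X` is prime, `X ⊆ V` (`Zt_anti`, `V` closed: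
`IsVariety.cl`). `mon (gen q) a` is algebraic over `ℂ`, so equal to a constant `α`, so
`binom ℂ a α ∈ q` and `x^a = α` for all `x ∈ X`; same for `b, c`. `hcurve` gives that `X` is a
subsingleton, and it is not empty (`vanI ∅ = ⊤`), so `X = {P}`, `q = vanI {P} = kr ℂ P`, and
`dm q = 0`: contradiction. `finA_surf` and `finite_iff` give the theorem. -/

namespace Pool.Agent.Srf5

open MvPolynomial Module Pool.Agent.CITLines Pool.Agent.CITTrans

/-- Algebraic elements are constants. -/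
private theorem mx_const {Ω : Type} [Field Ω] [Algebra ℂ Ω] {x : Ω} (hx : IsAlgebraic ℂ x) :
    ∃ c : ℂ, algebraMap ℂ Ω c = x :=
  minpoly.mem_range_of_degree_eq_one ℂ x
    (IsAlgClosed.degree_eq_one_of_irreducible ℂ (minpoly.irreducible hx.isIntegral))

/-- The dimension is zero if all coordinates are constants. -/
private theorem mx_zero {Ω : Type} [Field Ω] [Algebra ℂ Ω] {n : ℕ} (v : Fin n → Ω)
    (P : Fin n → ℂ) (h : ∀ i, v i = algebraMap ℂ Ω (P i)) : dm (kr ℂ v) = 0 := by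
  have h1 : rk ℂ (Set.range v) ≤ rk ℂ (∅ : Set Ω) := by
    apply rk_le_of_algebraic
    rintro _ ⟨i, rfl⟩
    rw [h i]
    exact isAlgebraic_algebraMap (algebraMap ℂ (Algebra.adjoin ℂ (∅ : Set Ω)) (P i))
  have h2 := h1.trans (rk_le_encard _)
  rw [Set.encard_empty, ← dm_kr] at h2
  have h3 : (dm (kr ℂ v) : ℕ∞) = 0 := le_antisymm h2 bot_le
  exact_mod_cast h3

/-- The generic point of a subvariety where a monomial is constant. -/
private theorem mx_lam {n : ℕ} {q : Ideal (MvPolynomial (Fin n) ℂ)} [q.IsPrime] (hq : TP q)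
    {a : Fin n → ℤ} (ha : a ∈ Lam ℂ (gen q)) :
    ∀ x ∈ Zt q, ∀ y ∈ Zt q, ∏ i, x i ^ a i = ∏ i, y i ^ a i := by
  obtain ⟨α, hα⟩ := mx_const ha
  have h1 : binom ℂ a α ∈ vanI (Zt q) := by
    rw [vanI_Zt hq]
    exact (hq.binom_mem a α).2 hα.symm
  rw [binom_mem_vanI fun x hx => hx.1] at h1
  intro x hx y hy
  exact (h1 x hx).trans (h1 y hy).symm

/-- A subvariety with at most one point has dimension zero. -/
private theorem mx_sub {n : ℕ} {q : Ideal (MvPolynomial (Fin n) ℂ)} [hqp : q.IsPrime] (hq : TP q)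
    (h : (Zt q).Subsingleton) : dm q = 0 := by
  have hne : (Zt q).Nonempty := by
    rw [Set.nonempty_iff_ne_empty]
    intro h0
    apply hqp.ne_top
    rw [← vanI_Zt hq, h0, Ideal.eq_top_iff_one, mem_vanI]
    intro x hx
    exact absurd hx (Set.notMem_empty x)
  obtain ⟨P, hP⟩ := hne
  rw [← kr_gen (k := ℂ) q]
  refine mx_zero (gen q) P fun i => ?_
  have h1 : (MvPolynomial.X i - C (P i) : MvPolynomial (Fin n) ℂ) ∈ vanI (Zt q) := by
    rw [mem_vanI]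
    intro x hx
    rw [h hx hP, map_sub, eval_X, eval_C, sub_self]
  rw [vanI_Zt hq, ← kr_gen (k := ℂ) q, mem_kr, map_sub, aeval_X, aeval_C] at h1
  exact sub_eq_zero.1 h1

theorem finite_max (hpts : ∀ (F : Type) [Field F] [CharZero F] (w : Fin 5 → F), Surf ℚ w →
      ∀ Ec : Finset (Fin 5 → ℤ), CurveList w Ec → ∃ E : Finset (Fin 5 → ℤ), PointList w E)
    (S : Set (MvPolynomial (Fin 5) ℂ))
    (hS : ∀ p ∈ S, ∀ m, IsAlgebraic ℚ (p.coeff m)) (V : Set (Fin 5 → ℂ))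
    (hV : V = {x : Fin 5 → ℂ | (∀ i, x i ≠ 0) ∧ ∀ p ∈ S, MvPolynomial.eval x p = 0})
    (hprime : (⨅ x ∈ V, RingHom.ker (MvPolynomial.eval x :
      MvPolynomial (Fin 5) ℂ →+* ℂ)).IsPrime)
    (hdim : ringKrullDim (MvPolynomial (Fin 5) ℂ ⧸
      (⨅ x ∈ V, RingHom.ker (MvPolynomial.eval x : MvPolynomial (Fin 5) ℂ →+* ℂ))) = 2)
    (hfine : ∀ a b c : Fin 5 → ℤ, LinearIndependent ℤ ![a, b, c] →
      ¬ (AlgDep V a b ∧ AlgDep V a c))
    (hcurve : ∀ a b c : Fin 5 → ℤ, LinearIndependent ℤ ![a, b, c] → ∀ X ⊆ V,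
      (⨅ x ∈ X, RingHom.ker (MvPolynomial.eval x : MvPolynomial (Fin 5) ℂ →+* ℂ)).IsPrime →
      (∀ x ∈ X, ∀ y ∈ X, ∏ i, x i ^ a i = ∏ i, y i ^ a i ∧ ∏ i, x i ^ b i = ∏ i, y i ^ b i ∧
        ∏ i, x i ^ c i = ∏ i, y i ^ c i) → X.Subsingleton) :
    {X | IsMaxAtypical V X}.Finite := by
  have hVar : IsVariety V := ⟨⟨S, hV⟩, hprime⟩
  have hV0 : ∀ x ∈ V, ∀ i, x i ≠ 0 := hVar.cl.1
  have hpp : (vanI V).IsPrime := hprime
  have hTPV : TP (vanI V) := hVar.tp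
  have hp2 : dm (vanI V) = 2 := by
    have h1 : ringKrullDim (MvPolynomial (Fin 5) ℂ ⧸ vanI V) = 2 := hdim
    rw [ringKrullDim_eq_dm] at h1
    exact_mod_cast h1
  have : CharZero (Kf (vanI V)) :=
    charZero_of_injective_algebraMap (algebraMap ℂ (Kf (vanI V))).injective
  have hC : dm (kr ℂ (gen (vanI V))) = 2 := by rw [kr_gen, hp2]
  have hQ : dm (kr ℚ (gen (vanI V))) = 2 := by
    rw [← IQ_eq_kr, kr_gen, dm_IQ_eq S hS V hV hpp, hp2]
  have hwC : Surf ℂ (gen (vanI V)) := ⟨hTPV.gen_ne_zero, hC, fun a b c habc hab hac =>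
    hfine a b c habc ⟨(algDep_iff V hV0 a b).mp hab, (algDep_iff V hV0 a c).mp hac⟩⟩
  have hwQ : Surf ℚ (gen (vanI V)) := (surf_iff _ hTPV.gen_ne_zero hQ hC).mp hwC
  obtain ⟨E1, hE1⟩ := curveList_exists (by norm_num) (gen (vanI V)) hwQ
  obtain ⟨E0, hE0⟩ := curveList_exists (by norm_num) _ (sub_surf le_rfl (gen (vanI V)) hwQ)
  obtain ⟨E2, hE2⟩ := hpts _ _ (sub_surf le_rfl (gen (vanI V)) hwQ) E0 hE0
  obtain ⟨Ep, hEp0, hEp⟩ := cpx_points le_rfl (gen (vanI V)) hE1 hE2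
  rw [finite_iff hVar.cl hpp]
  have hfin := finA_surf (gen (vanI V)) hwC hwQ hE1 hEp0 hEp (by
    intro q hq hX hle hd a b c habc hlam
    have hTq : TP q := ⟨hq, hX⟩
    rw [kr_gen] at hle
    have hXV : Zt q ⊆ V := (Zt_anti hle).trans hVar.cl.2
    have h1 : (vanI (Zt q)).IsPrime := by
      rw [vanI_Zt hTq]
      exact hq
    have h2 := hcurve a b c habc (Zt q) hXV h1 fun x hx y hy =>
      ⟨mx_lam hTq hlam.1 x hx y hy, mx_lam hTq hlam.2.1 x hx y hy,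
        mx_lam hTq hlam.2.2 x hx y hy⟩
    have h3 := mx_sub hTq h2
    omega)
  rwa [kr_gen] at hfin

end Pool.Agent.Srf5
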