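import Pool.Agent.Srf5.Defs

set_option autoImplicit false

/-! Package F7: standard monomials modulo a prime of dimension `d`.

PROOF. Let `p = kr k w`, `d = dm p`. For every set `J` of `d + 1` coordinates the classes of
`X_j, j ∈ J`, modulo `p` are algebraically dependent (`card_le_dm`), so there is `f_J ≠ 0` in `p`
which
is a polynomial in the variables `X_j, j ∈ J`, only (rename a relation in `MvPolynomial J k`). Use
the
degree lexicographic order `MonomialOrder.degLex` on `Fin n →₀ ℕ`; let `m_J` be the degree
(exponent of
the leading monomial) of `f_J`, it is supported on `J`; normalise `f_J` to be monic. Let `a` be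
larger
than all coordinates of all `m_J`. Division with remainder by the set `{f_J}`
(`MonomialOrder.div_set` or `MonomialOrder.div`): every `f` is congruent modulo `p` to some `r` with
`degree r ≼ degree f` (so `totalDegree r ≤ totalDegree f`: the remainder is `f - ∑ g_J f_J` with
`degree (g_J f_J) ≼ degree f`, and for `degLex` the total degree is monotone in the degree) such
that no
monomial `c` of `r` is divisible by any `m_J`. Such `c` has at most `d` coordinates `≥ a`: otherwise
take `J` inside the set of the coordinates `≥ a`, then `m_J ≤ c`.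
(Any other proof is fine, e.g. well-founded induction with one chosen monomial order.) -/

namespace Pool.Agent.Srf5

open MvPolynomial Pool.Agent.CITLines

theorem std_mon {k F : Type} [Field k] [Field F] [Algebra k F] {n : ℕ} (w : Fin n → F) :
    ∃ a : ℕ, ∀ f : MvPolynomial (Fin n) k, ∃ r : MvPolynomial (Fin n) k,
      aeval w r = aeval w f ∧ r.totalDegree ≤ f.totalDegree ∧
      ∀ c ∈ r.support, (Finset.univ.filter fun i => a ≤ c i).card ≤ dm (kr k w) := by
  classical
  have hrel : ∀ J : {J : Finset (Fin n) // J.card = dm (kr k w) + 1},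
      ∃ g : MvPolynomial (Fin n) k, g ≠ 0 ∧ aeval w g = 0 ∧
        ∀ i ∉ J.1, (MonomialOrder.degLex.degree g) i = 0 := by
    rintro ⟨J, hJ⟩
    have hdep : ¬ AlgebraicIndependent k (fun i : J => w i.1) := by
      intro hind
      have h1 := rk_range_of_indep _ hind
      have h2 := dm_kr (k := k) w
      have h3 : rk k (Set.range (fun i : J => w i.1)) ≤ rk k (Set.range w) := by
        refine rk_mono ?_
        rintro _ ⟨i, rfl⟩
        exact ⟨i.1, rfl⟩
      rw [h1, ← h2] at h3
      have h4 : Fintype.card J ≤ dm (kr k w) := by exact_mod_cast h3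
      rw [Fintype.card_coe, hJ] at h4
      omega
    rw [algebraicIndependent_iff] at hdep
    push Not at hdep
    obtain ⟨p, hp, hp0⟩ := hdep
    have hg0 : rename (Subtype.val : J → Fin n) p ≠ 0 := by
      intro h
      exact hp0 (rename_injective _ Subtype.val_injective (by rw [h, map_zero]))
    refine ⟨rename (Subtype.val : J → Fin n) p, hg0, ?_, ?_⟩
    · rw [aeval_rename]
      exact hp
    · intro i hi
      have hmem := MonomialOrder.degLex.degree_mem_support hg0
      by_contra hne
      have h1 : i ∈ (rename (Subtype.val : J → Fin n) p).vars := by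
        rw [mem_vars_iff_mem_support]
        exact ⟨_, hmem, by rw [Finsupp.mem_support_iff]; exact hne⟩
      have h2 := vars_rename (Subtype.val : J → Fin n) p h1
      rw [Finset.mem_image] at h2
      obtain ⟨j, _, hj⟩ := h2
      exact hi (hj ▸ j.2)
  choose g hg0 hgw hgJ using hrel
  refine ⟨Finset.univ.sup (fun J => Finset.univ.sup (fun i =>
    (MonomialOrder.degLex.degree (g J)) i)), fun f => ?_⟩
  obtain ⟨q, r, hfr, hdeg, hr⟩ := MonomialOrder.degLex.div (b := g)
    (fun J => isUnit_iff_ne_zero.mpr (MonomialOrder.leadingCoeff_ne_zero_iff.mpr (hg0 J))) f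
  refine ⟨r, ?_, ?_, ?_⟩
  · have h0 : aeval w (Finsupp.linearCombination (MvPolynomial (Fin n) k) g q) = 0 := by
      rw [Finsupp.linearCombination_apply, Finsupp.sum, map_sum]
      refine Finset.sum_eq_zero fun J _ => ?_
      rw [smul_eq_mul, map_mul, hgw, mul_zero]
    rw [hfr, map_add, h0, zero_add]
  · have hr' : r = f - Finsupp.linearCombination (MvPolynomial (Fin n) k) g q := by
      rw [eq_sub_iff_add_eq, add_comm]
      exact hfr.symm
    rw [hr']
    refine (totalDegree_sub _ _).trans (max_le le_rfl ?_)
    rw [Finsupp.linearCombination_apply, Finsupp.sum]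
    refine (totalDegree_finsetSum _ _).trans (Finset.sup_le fun J _ => ?_)
    rw [smul_eq_mul, mul_comm]
    exact degLex_totalDegree_monotone (hdeg J)
  · intro c hc
    by_contra hcon
    push Not at hcon
    obtain ⟨J, hJs, hJc⟩ := Finset.exists_subset_card_eq (Nat.succ_le_of_lt hcon)
    refine hr c hc ⟨J, hJc⟩ ?_
    intro i
    by_cases hi : i ∈ J
    · have h1 := (Finset.mem_filter.mp (hJs hi)).2
      refine le_trans ?_ h1
      exact (Finset.le_sup (f := fun i => (MonomialOrder.degLex.degree (g ⟨J, hJc⟩)) i)
        (Finset.mem_univ i)).trans (Finset.le_sup (f := fun J => Finset.univ.sup (fun i =>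
          (MonomialOrder.degLex.degree (g J)) i)) (Finset.mem_univ _))
    · rw [hgJ ⟨J, hJc⟩ i hi]
      exact Nat.zero_le _

end Pool.Agent.Srf5
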