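import Pool.Agent.Srf5.Jac
import Pool.Agent.Srf5.LDTwo

set_option autoImplicit false

/-! Package F6: two dependent monomials.

Notation: `z = mon w l` (transcendental), `y = mon w m` (algebraic over `k(z)`, because they are
dependent), `A_l = aeval w (lf a l)` etc.
PROOF of `theta_alg`. Let `A0 = Algebra.adjoin k {z}` and `p ∈ A0[T]`, `p ≠ 0`, `p(y) = 0`, of
minimal
degree, so `p'(y) ≠ 0`. Write `p = ∑ p_j(z) T^j` with `p_j ∈ k[X]`. For every derivation `D` of `F`:
`0 = D(p(y)) = (∑ p_j'(z) y^j) D z + p'(y) D y`, so `D y / y = ρ (D z / z)` with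
`ρ := - z (∑ p_j'(z) y^j) / (y p'(y))`, and `ρ` is algebraic over `A0` (it is in the field
generated by
`z` and `y`). Take `D` with `D (w s) = w s`, `D (w t) = 0` (`exists_der`); by `rel_mon`
`q(w) D z / z = A_l`, `q(w) D y / y = A_m`, so `A_m = ρ A_l`, `A_m / A_l = ρ`.
PROOF of `no_const`. Suppose `A_m = c A_l`, `A_l ≠ 0`. By `jac_eq_zero` `A_l B_m = A_m B_l = c A_l
B_l`,
so `B_m = c B_l`. Take the same `D`: `D z ≠ 0` (`A_l ≠ 0`) and `D y / y = c (D z / z)` by `rel_mon`
(`q(w) ≠ 0`). `ld_two` gives `n ≠ 0`, `m'` with `y^n z^m' = mon w (n • m + m' • l)` algebraic over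
`k`
(`CITLines.mon_add'`, `mon_smul`), and `n • m + m' • l ≠ 0` by linear independence: contradiction to
`htr`. -/

namespace Pool.Agent.Srf5

open MvPolynomial Pool.Agent.CITLines

private theorem alg_of_dep {k F : Type} [Field k] [Field F] [Algebra k F] {z y : F}
    (hz : Transcendental k z) (h : ¬ AlgebraicIndependent k ![z, y]) :
    IsAlgebraic (Algebra.adjoin k {z}) y := by
  by_contra h1
  have hx : AlgebraicIndependent k ![z] := algebraicIndependent_iff_transcendental.2 hz
  have hr : Set.range (![z] : Fin 1 → F) = {z} := by simp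
  have h2 := (hx.option_iff_transcendental y).2 (by rw [hr]; exact h1)
  apply h
  have h3 := h2.comp (![some 0, none] : Fin 2 → Option (Fin 1)) (by
    intro i j hij
    fin_cases i <;> fin_cases j <;> simp at hij ⊢)
  convert h3 using 1
  ext i
  fin_cases i <;> simp

open scoped IntermediateField.algebraAdjoinAdjoin in
private theorem alg_iff' {k F : Type} [Field k] [Field F] [Algebra k F] (s : Set F) (x : F) :
    IsAlgebraic (Algebra.adjoin k s) x ↔ IsAlgebraic (IntermediateField.adjoin k s) x :=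
  IsFractionRing.isAlgebraic_iff _ _ _

private theorem der_adjoin {k F : Type} [Field k] [Field F] [Algebra k F] (z : F) (u : F)
    (hu : u ∈ IntermediateField.adjoin k {z}) :
    ∃ v ∈ IntermediateField.adjoin k {z}, ∀ D : Derivation k F F, D u = v * D z := by
  induction hu using IntermediateField.adjoin_induction with
  | mem x hx =>
    refine ⟨1, one_mem _, fun D => ?_⟩
    rw [Set.mem_singleton_iff.1 hx, one_mul]
  | algebraMap x => exact ⟨0, zero_mem _, fun D => by simp⟩
  | add x y hx hy ihx ihy =>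
    obtain ⟨v, hv, h1⟩ := ihx
    obtain ⟨v', hv', h2⟩ := ihy
    exact ⟨v + v', add_mem hv hv', fun D => by rw [map_add, h1, h2]; ring⟩
  | inv x hx ihx =>
    obtain ⟨v, hv, h1⟩ := ihx
    refine ⟨-(x⁻¹ ^ 2 * v), neg_mem (mul_mem (pow_mem (inv_mem hx) 2) hv), fun D => ?_⟩
    rw [Derivation.leibniz_inv, h1, smul_eq_mul]
    ring
  | mul x y hx hy ihx ihy =>
    obtain ⟨v, hv, h1⟩ := ihx
    obtain ⟨v', hv', h2⟩ := ihy
    refine ⟨x * v' + y * v, add_mem (mul_mem hx hv') (mul_mem hy hv), fun D => ?_⟩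
    rw [Derivation.leibniz, h1, h2, smul_eq_mul, smul_eq_mul]
    ring


private theorem der_alg {k F : Type} [Field k] [CharZero k] [Field F] [Algebra k F] (z y : F)
    (hy : IsAlgebraic (IntermediateField.adjoin k {z}) y) :
    ∃ v : F, IsAlgebraic (IntermediateField.adjoin k {z}) v ∧
      ∀ D : Derivation k F F, D y = v * D z := by
  classical
  have hint := hy.isIntegral
  set K := IntermediateField.adjoin k {z} with hK
  have : CharZero K := charZero_of_injective_algebraMap (algebraMap k K).injective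
  set p := minpoly K y with hp
  have hder : ∀ u : K, ∃ v : K, ∀ D : Derivation k F F, D (u : F) = (v : F) * D z := by
    intro u
    obtain ⟨v, hv, h1⟩ := der_adjoin (k := k) z (u : F) u.2
    exact ⟨⟨v, hv⟩, h1⟩
  choose δ hδ using hder
  have hpy : ∑ i ∈ p.support, (p.coeff i : F) * y ^ i = 0 := by
    have h1 : Polynomial.aeval y p = 0 := minpoly.aeval K y
    rw [Polynomial.aeval_def, Polynomial.eval₂_eq_sum, Polynomial.sum_def] at h1
    exact h1
  have hp' : Polynomial.aeval y (Polynomial.derivative p) ≠ 0 :=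
    (minpoly.irreducible hint).separable.aeval_derivative_ne_zero (minpoly.aeval K y)
  have hpd : Polynomial.aeval y (Polynomial.derivative p) =
      ∑ i ∈ p.support, (p.coeff i : F) * ((i : F) * y ^ (i - 1)) := by
    rw [Polynomial.derivative_apply, Polynomial.sum_def, map_sum]
    refine Finset.sum_congr rfl fun i _ => ?_
    rw [map_mul, Polynomial.aeval_C, map_pow, Polynomial.aeval_X, map_mul, map_natCast, mul_assoc]
    rfl
  set N : F := ∑ i ∈ p.support, (δ (p.coeff i) : F) * y ^ i with hN
  refine ⟨-(N / Polynomial.aeval y (Polynomial.derivative p)), ?_, fun D => ?_⟩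
  · have hKy : ∀ u : K, IsAlgebraic K (u : F) := fun u => isAlgebraic_algebraMap u
    have hsum : ∀ (f : ℕ → F), (∀ i, IsAlgebraic K (f i)) →
        IsAlgebraic K (∑ i ∈ p.support, f i) := fun f hf =>
      Subalgebra.sum_mem (Subalgebra.algebraicClosure K F) fun i _ => hf i
    have hN' : IsAlgebraic K N := hsum _ fun i => (hKy _).mul (hy.pow i)
    have hP' : IsAlgebraic K (Polynomial.aeval y (Polynomial.derivative p)) := by
      rw [hpd]
      exact hsum _ fun i => (hKy _).mul ((isAlgebraic_natCast i).mul (hy.pow _))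
    rw [div_eq_mul_inv]
    exact (hN'.mul hP'.inv).neg
  · have h2 := congrArg D hpy
    rw [map_zero, map_sum] at h2
    have h3 : ∀ i ∈ p.support, D ((p.coeff i : F) * y ^ i) =
        (δ (p.coeff i) : F) * y ^ i * D z + (p.coeff i : F) * ((i : F) * y ^ (i - 1)) * D y := by
      intro i _
      rw [Derivation.leibniz, Derivation.leibniz_pow, hδ, smul_eq_mul, smul_eq_mul, smul_eq_mul,
        nsmul_eq_mul]
      ring
    rw [Finset.sum_congr rfl h3, Finset.sum_add_distrib, ← Finset.sum_mul, ← Finset.sum_mul,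
      ← hpd, ← hN] at h2
    field_simp
    linear_combination h2

variable {k F : Type} [Field k] [Field F] [Algebra k F] {n : ℕ} {w : Fin n → F}
  {s t : Fin n} {q : MvPolynomial (Fin n) k} {a b : Fin n → MvPolynomial (Fin n) k}

theorem theta_alg [CharZero k] (hw : ∀ i, w i ≠ 0) (h : LogData k w s t q a b)
    (hind : AlgebraicIndependent k ![w s, w t])
    (halg : ∀ z : F, IsAlgebraic (Algebra.adjoin k {w s, w t}) z) (l m : Fin n → ℤ)
    (hlm : Dep k w l m) (hl : Transcendental k (mon w l)) (hA : aeval w (lf a l) ≠ 0) :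
    IsAlgebraic (Algebra.adjoin k {mon w l}) (aeval w (lf a m) / aeval w (lf a l)) := by
  have hy := (alg_iff' _ _).1 (alg_of_dep hl hlm)
  obtain ⟨v, hv, hD⟩ := der_alg (mon w l) (mon w m) hy
  obtain ⟨D, hDs, hDt⟩ := exists_der (w s) (w t) hind halg (w s) 0
  have hmon : ∀ r : Fin n → ℤ, mon w r ≠ 0 := by
    intro r
    unfold mon
    exact Finset.prod_ne_zero_iff.2 fun i _ => zpow_ne_zero _ (hw i)
  have hr : ∀ r : Fin n → ℤ, aeval w q * (D (mon w r) / mon w r) = aeval w (lf a r) := by
    intro r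
    rw [rel_mon h w hw le_rfl D r, hDs, hDt, div_self (hw s)]
    ring
  have hq := h.q_ne
  rw [← hr m, ← hr l, alg_iff', hD D]
  have h1 : D (mon w l) ≠ 0 := by
    intro h0
    apply hA
    rw [← hr l, h0]
    ring
  have h2 : aeval w q * (v * D (mon w l) / mon w m) / (aeval w q * (D (mon w l) / mon w l)) =
      v * mon w l * (mon w m)⁻¹ := by
    have := hmon l
    have := hmon m
    field_simp
  rw [h2]
  have h3 : IsAlgebraic (IntermediateField.adjoin k {mon w l}) (mon w l) :=
    isAlgebraic_algebraMap (⟨mon w l, IntermediateField.subset_adjoin k _ rfl⟩ :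
      IntermediateField.adjoin k {mon w l})
  exact (hv.mul h3).mul hy.inv

theorem no_const [CharZero k] (hw : ∀ i, w i ≠ 0) (h : LogData k w s t q a b)
    (hind : AlgebraicIndependent k ![w s, w t])
    (halg : ∀ z : F, IsAlgebraic (Algebra.adjoin k {w s, w t}) z) (l m : Fin n → ℤ)
    (hlm : Dep k w l m) (hli : LinearIndependent ℤ ![l, m])
    (htr : ∀ r : Fin n → ℤ, r ≠ 0 → Transcendental k (mon w r)) (hA : aeval w (lf a l) ≠ 0)
    (c : k) (hc : aeval w (lf a m) = algebraMap k F c * aeval w (lf a l)) : False := by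
  have hmon : ∀ r : Fin n → ℤ, mon w r ≠ 0 := by
    intro r
    unfold mon
    exact Finset.prod_ne_zero_iff.2 fun i _ => zpow_ne_zero _ (hw i)
  have hl0 : l ≠ 0 := by
    have := hli.ne_zero 0
    simpa using this
  obtain ⟨D, hDs, hDt⟩ := exists_der (w s) (w t) hind halg (w s) 0
  have hr : ∀ r : Fin n → ℤ, aeval w q * (D (mon w r) / mon w r) = aeval w (lf a r) := by
    intro r
    rw [rel_mon h w hw le_rfl D r, hDs, hDt, div_self (hw s)]
    ring
  have hq := h.q_ne
  have h1 : D (mon w l) ≠ 0 := by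
    intro h0
    apply hA
    rw [← hr l, h0]
    ring
  have h2 : D (mon w m) / mon w m = algebraMap k F c * (D (mon w l) / mon w l) := by
    rw [← hr m, ← hr l] at hc
    apply mul_left_cancel₀ hq
    rw [hc]
    ring
  obtain ⟨n1, m1, hn1, h3⟩ := ld_two (mon w l) (mon w m) (htr l hl0) (hmon m)
    (alg_of_dep (htr l hl0) hlm) D h1 c h2
  rw [← mon_smul, ← mon_smul, ← mon_add' hw] at h3
  refine htr (n1 • m + m1 • l) ?_ h3
  intro h4
  have h5 := LinearIndependent.pair_iff.1 hli m1 n1 (by rw [← h4]; abel)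
  exact hn1 h5.2

end Pool.Agent.Srf5
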