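import Pool.Agent.Srf5.TorsQ
import Pool.Agent.CITLines.Rank

set_option autoImplicit false

/-! Package F16: torsion points on a plane curve over the complex numbers.

PROOF. `alg_mul`: every `f` of `MvPolynomial σ ℂ` with algebraic coefficients is integral over
`MvPolynomial σ ℚ` (for the ring map `MvPolynomial.map (algebraMap ℚ ℂ)`): the constants `C c`, `c`
algebraic over `ℚ`, are integral, so are the `X i`, and integral elements form a ring. Take a monic
equation `f^m + c_{m-1} f^{m-1} + ... + c_0 = 0` of minimal degree `m`; then `c_0 ≠ 0` (otherwise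
divide by `f ≠ 0`; the image of `MvPolynomial σ ℚ` is a domain and the map is injective), and `f`
divides
`c_0`. Put `Ψ = c_0`.
`tors_cpx`: let `k0 = algebraicClosure ℚ ℂ` (`IntermediateField ℚ ℂ`), `m0` an exponent with
`coeff m0 Φ ≠ 0`, `φ : ℂ →ₗ[k0] k0` a linear functional with `φ (coeff m0 Φ) ≠ 0`
(`Module.exists_dual_forall_apply_ne_zero`-like, or a basis). `Φ' = CITLines.coefMap φ Φ` is
nonzero, and for `ζ` with algebraic coordinates (roots of unity) `Φ'(ζ) = φ (Φ(ζ)) = 0` (expand: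
`∑ coeff m Φ ζ^m`, `ζ^m ∈ k0`). `alg_mul` for `Φ'` mapped to `ℂ`, then `tors_rat`. -/

namespace Pool.Agent.Srf5

open MvPolynomial Pool.Agent.CITLines

theorem alg_mul {σ : Type} (f : MvPolynomial σ ℂ) (hf : f ≠ 0)
    (h : ∀ m, IsAlgebraic ℚ (f.coeff m)) :
    ∃ Ψ : MvPolynomial σ ℚ, Ψ ≠ 0 ∧ f ∣ MvPolynomial.map (algebraMap ℚ ℂ) Ψ := by
  let _ : Algebra (MvPolynomial σ ℚ) (MvPolynomial σ ℂ) := MvPolynomial.algebraMvPolynomial
  have h1 : IsIntegral (MvPolynomial σ ℚ) f := by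
    rw [f.as_sum]
    refine IsIntegral.sum _ fun m _ => ?_
    have h2 : monomial m (coeff m f) = C (coeff m f) *
        algebraMap (MvPolynomial σ ℚ) (MvPolynomial σ ℂ) (monomial m 1) := by
      rw [MvPolynomial.algebraMap_def, map_monomial, map_one, C_mul_monomial, mul_one]
    rw [h2]
    refine IsIntegral.mul ?_ isIntegral_algebraMap
    have h3 : IsIntegral ℚ (C (coeff m f) : MvPolynomial σ ℂ) := by
      have h4 : IsIntegral ℚ (coeff m f) := (h m).isIntegral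
      exact h4.map (IsScalarTower.toAlgHom ℚ ℂ (MvPolynomial σ ℂ))
    exact h3.tower_top
  obtain ⟨Ψ, hΨ, hdvd⟩ := h1.isAlgebraic.exists_nonzero_dvd (mem_nonZeroDivisors_of_ne_zero hf)
  exact ⟨Ψ, hΨ, hdvd⟩

private theorem eval_coefMap {k0 : Type} [Field k0] [Algebra k0 ℂ] {κ : Type}
    (φ : ℂ →ₗ[k0] k0) (F : MvPolynomial κ ℂ) (ζ : κ → k0) :
    eval ζ (coefMap φ F) = φ (eval (fun i => algebraMap k0 ℂ (ζ i)) F) := by
  induction F using MvPolynomial.induction_on' with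
  | monomial m a =>
    rw [coefMap_monomial, eval_monomial, eval_monomial]
    have h1 : (m.prod fun i e => algebraMap k0 ℂ (ζ i) ^ e) =
        algebraMap k0 ℂ (m.prod fun i e => ζ i ^ e) := by
      simp only [Finsupp.prod, map_prod, map_pow]
    rw [h1, mul_comm a, ← Algebra.smul_def, map_smul, smul_eq_mul, mul_comm]
  | add p q hp hq => rw [coefMap_add, map_add, map_add, map_add, hp, hq]

theorem tors_cpx (Φ : MvPolynomial (Fin 2) ℂ) (h : Φ ≠ 0) :
    ∃ E : Finset (Fin 2 → ℤ), 0 ∉ E ∧ ∀ ζ : Fin 2 → ℂ, (∀ i, RU (ζ i)) → eval ζ Φ = 0 →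
      ∃ a ∈ E, mon ζ a = 1 := by
  let k0 : IntermediateField ℚ ℂ := algebraicClosure ℚ ℂ
  obtain ⟨m, hm⟩ := MvPolynomial.ne_zero_iff.mp h
  obtain ⟨φ, hφ⟩ : ∃ φ : ℂ →ₗ[k0] k0, φ (coeff m Φ) ≠ 0 := by
    by_contra hcon
    push Not at hcon
    exact hm ((Module.forall_dual_apply_eq_zero_iff k0 (coeff m Φ)).mp hcon)
  set f : MvPolynomial (Fin 2) ℂ := MvPolynomial.map (algebraMap k0 ℂ) (coefMap φ Φ) with hf
  have hf0 : f ≠ 0 := by
    intro h0
    apply hφ
    have h1 : coeff m f = algebraMap k0 ℂ (φ (coeff m Φ)) := by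
      rw [hf, coeff_map, coeff_coefMap]
    rw [h0, coeff_zero] at h1
    exact (map_eq_zero_iff _ (algebraMap k0 ℂ).injective).1 h1.symm
  obtain ⟨Ψ, hΨ, hdvd⟩ := alg_mul f hf0 fun m => by
    rw [hf, coeff_map]
    exact (mem_algebraicClosure_iff.1 (coeff m (coefMap φ Φ)).2)
  obtain ⟨E, hE, hE'⟩ := tors_rat Ψ hΨ
  refine ⟨E, hE, fun ζ hζ h0 => hE' ζ hζ ?_⟩
  have hmem : ∀ i, ζ i ∈ k0 := by
    intro i
    obtain ⟨n, hn, hn1⟩ := hζ i
    refine mem_algebraicClosure_iff.2 (IsIntegral.isAlgebraic ?_)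
    exact IsIntegral.of_pow hn (by rw [hn1]; exact isIntegral_one)
  have h1 : eval ζ f = 0 := by
    have h2 : eval (fun i => (⟨ζ i, hmem i⟩ : k0)) (coefMap φ Φ) = 0 := by
      rw [eval_coefMap]
      have h3 : (fun i => algebraMap k0 ℂ ⟨ζ i, hmem i⟩) = ζ := rfl
      rw [h3, h0, map_zero]
    have h4 : eval ζ f = algebraMap k0 ℂ
        (eval (fun i => (⟨ζ i, hmem i⟩ : k0)) (coefMap φ Φ)) := by
      rw [hf, eval_map, ← MvPolynomial.eval₂_id, MvPolynomial.hom_eval₂]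
      rfl
    rw [h4, h2, map_zero]
  obtain ⟨g, hg⟩ := hdvd
  have h5 : aeval ζ Ψ = eval ζ (MvPolynomial.map (algebraMap ℚ ℂ) Ψ) := by
    rw [eval_map]
    rfl
  rw [h5, hg, map_mul, h1, zero_mul]

end Pool.Agent.Srf5
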