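import Pool.Agent.CITLines.Rel
import Pool.Agent.M05Full.Bezout
import Pool.Agent.Leh2.Primes

set_option autoImplicit false

/-! Package F15: torsion points on a plane curve over the rational numbers.

PROOF. (1) Let `Q` be an irreducible factor of `Φ`. Claim: there is a finite set `E_Q`, `0 ∉ E_Q`,
such that every zero `ζ` of `Q` with roots of unity as coordinates satisfies a relation of `E_Q`.
Then the union over the (finitely many) irreducible factors of `Φ` is the set wanted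
(`M05Full.exists_factor`,
`UniqueFactorizationMonoid.factors`).
(2) If `Q` divides `binom ℚ a 1` for some `a ≠ 0`, take `E_Q = {a}`: `Q(ζ) = 0` implies
`binom(ζ) = 0`, i.e. `mon ζ a = 1` (`CITLines.binom_mem_kr`).
(3) Otherwise `Q` and `binom ℚ a 1` are relatively prime for all `a ≠ 0` (`Q` irreducible). Let `ζ`
be a torsion zero, let `ω` be a primitive `N`-th root of unity with `ζ_i = ω^(a_i)` and `N` the
order of the group generated by `ζ_0, ζ_1` (a finite subgroup of a field is cyclic; or: take `N`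
minimal such that both coordinates are powers of a primitive `N`-th root, i.e. `N = lcm` of the
orders). For `u` prime to `N` the point `ζ^u` is again a zero of `Q` (`Q` is rational, `ω ↦ ω^u` is
an automorphism of `ℚ(ω)`: `minpoly`/`IsPrimitiveRoot.minpoly_eq_cyclotomic`,
`IsPrimitiveRoot.pow_isRoot_minpoly` applied to the one-variable polynomial `Q(T^a_0, T^a_1)`), and
these
`φ(N)` points are different.
Pigeonhole: `(⌊√N⌋ + 1)^2 > N` pairs `(x, y)` with `0 ≤ x, y ≤ ⌊√N⌋`, so `x a_0 + y a_1 mod N`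
takes a value twice and there is `a = (a 0, a 1) ≠ 0`, `|a i| ≤ √N`, with `mon ζ a = 1`; all `ζ^u`
satisfy the same relation. `M05Full.bezout_card'` for `Q` and `binom ℚ a 1` (degrees at most `√N`
in each variable):
`φ(N) ≤ 2 D √N`, `D = totalDegree Q`. With `Leh2.le_totient_mul : N ≤ φ(N) (log₂ N + 1)` this gives
`√N ≤ 2 D (log₂ N + 1)`, so `N ≤ N_0(D)`. Take `E_Q = {(N_0!, 0)}` (`N ∣ N_0!`). -/

namespace Pool.Agent.Srf5

open MvPolynomial Pool.Agent.CITLines

private theorem tq_bound (D N : ℕ) (hN : 0 < N)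
    (h : N.totient ≤ D * Nat.sqrt N + D * Nat.sqrt N) : N ≤ 2 ^ (4096 * D ^ 2) := by
  have h1 := Pool.Agent.Leh2.le_totient_mul N hN
  obtain ⟨L, hL⟩ : ∃ L, L = Nat.log 2 N := ⟨_, rfl⟩
  rw [← hL] at h1
  have h2 : N ≤ (2 * D * Nat.sqrt N) * (L + 1) := by
    refine h1.trans (Nat.mul_le_mul_right _ (h.trans_eq ?_))
    ring
  have h3 : N * N ≤ 4 * D ^ 2 * (L + 1) ^ 2 * N := by
    calc N * N ≤ ((2 * D * Nat.sqrt N) * (L + 1)) * ((2 * D * Nat.sqrt N) * (L + 1)) :=
          Nat.mul_le_mul h2 h2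
      _ = 4 * D ^ 2 * (L + 1) ^ 2 * (Nat.sqrt N * Nat.sqrt N) := by ring
      _ ≤ _ := Nat.mul_le_mul_left _ (Nat.sqrt_le N)
  have h4 : N ≤ 4 * D ^ 2 * (L + 1) ^ 2 := Nat.le_of_mul_le_mul_right h3 hN
  have h5 : 2 ^ L ≤ N := by
    rw [hL]
    exact Nat.pow_log_le_self 2 hN.ne'
  obtain ⟨K, hK⟩ : ∃ K, K = L / 4 + 1 := ⟨_, rfl⟩
  have h6 : L + 1 ≤ 4 * K := by omega
  have h7 : 4 * K ≤ L + 4 := by omega
  have h8 : 16 ^ K ≤ 1024 * D ^ 2 * 4 ^ K := by
    calc 16 ^ K = 2 ^ (4 * K) := by rw [pow_mul]; norm_num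
      _ ≤ 2 ^ (L + 4) := Nat.pow_le_pow_right (by norm_num) h7
      _ = 16 * 2 ^ L := by ring
      _ ≤ 16 * (4 * D ^ 2 * (4 * K) ^ 2) := by
        refine Nat.mul_le_mul_left _ ((h5.trans h4).trans (Nat.mul_le_mul_left _ ?_))
        exact Nat.pow_le_pow_left h6 2
      _ = 1024 * D ^ 2 * (K * K) := by ring
      _ ≤ 1024 * D ^ 2 * (2 ^ K * 2 ^ K) :=
        Nat.mul_le_mul_left _ (Nat.mul_le_mul Nat.lt_two_pow_self.le Nat.lt_two_pow_self.le)
      _ = _ := by
        rw [← mul_pow]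
        norm_num
  have h9 : 4 ^ K ≤ 1024 * D ^ 2 := by
    have e : 16 ^ K = 4 ^ K * 4 ^ K := by
      rw [← mul_pow]
      norm_num
    rw [e] at h8
    exact Nat.le_of_mul_le_mul_right h8 (by positivity)
  have h10 : K < 4 ^ K := Nat.lt_pow_self (by norm_num)
  have h11 : N < 2 ^ (L + 1) := by
    rw [hL]
    exact Nat.lt_pow_succ_log_self (by norm_num) N
  exact h11.le.trans (Nat.pow_le_pow_right (by norm_num) (by linarith))

private theorem tq_conj (Q : MvPolynomial (Fin 2) ℚ) {N : ℕ} (hN : 0 < N) {ω : ℂ}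
    (hω : IsPrimitiveRoot ω N) (b : Fin 2 → ℕ) (h : aeval (fun i => ω ^ b i) Q = 0) {u : ℕ}
    (hu : u.Coprime N) : aeval (fun i => (ω ^ b i) ^ u) Q = 0 := by
  obtain ⟨f, hf0⟩ : ∃ f : Polynomial ℚ,
    f = aeval (fun i => (Polynomial.X : Polynomial ℚ) ^ b i) Q := ⟨_, rfl⟩
  have hf : ∀ x : ℂ, Polynomial.aeval x f = aeval (fun i => x ^ b i) Q := by
    intro x
    rw [hf0, ← AlgHom.comp_apply, MvPolynomial.comp_aeval]
    congr 2
    funext i
    rw [map_pow, Polynomial.aeval_X]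
  have h1 : minpoly ℚ ω ∣ f := minpoly.dvd ℚ ω (by rw [hf, h])
  have h2 : Polynomial.aeval (ω ^ u) f = 0 := by
    have h3 : IsPrimitiveRoot (ω ^ u) N := hω.pow_of_coprime u hu
    have h4 : minpoly ℚ (ω ^ u) = minpoly ℚ ω := by
      rw [← Polynomial.cyclotomic_eq_minpoly_rat hω hN,
        ← Polynomial.cyclotomic_eq_minpoly_rat h3 hN]
    obtain ⟨g, hg⟩ := h1
    rw [hg, map_mul, ← h4, minpoly.aeval, zero_mul]
  rw [hf] at h2
  rw [← h2]
  congr 2
  funext i
  rw [← pow_mul, ← pow_mul, mul_comm]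

private theorem tq_pig (ζ : Fin 2 → ℂ) {N : ℕ} (hN : 0 < N) (hζ : ∀ i, ζ i ^ N = 1) :
    ∃ a : Fin 2 → ℤ, a ≠ 0 ∧ (∀ i, |a i| ≤ Nat.sqrt N) ∧ mon ζ a = 1 := by
  classical
  have hne : ∀ i, ζ i ≠ 0 := by
    intro i h0
    have := hζ i
    rw [h0, zero_pow hN.ne'] at this
    exact zero_ne_one this
  obtain ⟨r, hr⟩ : ∃ r, r = Nat.sqrt N := ⟨_, rfl⟩
  have hcard : (Polynomial.nthRootsFinset N (1 : ℂ)).card <
      (Finset.range (r + 1) ×ˢ Finset.range (r + 1)).card := by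
    rw [(Complex.isPrimitiveRoot_exp N hN.ne').card_nthRootsFinset, Finset.card_product,
      Finset.card_range, hr]
    exact Nat.lt_succ_sqrt N
  obtain ⟨p, hp, p', hp', hpp, heq⟩ := Finset.exists_ne_map_eq_of_card_lt_of_maps_to hcard
    (f := fun p : ℕ × ℕ => ζ 0 ^ p.1 * ζ 1 ^ p.2) (fun p _ => by
      rw [Finset.mem_coe, Polynomial.mem_nthRootsFinset hN, mul_pow, ← pow_mul, ← pow_mul,
        mul_comm p.1, mul_comm p.2, pow_mul, pow_mul, hζ, hζ, one_pow, one_pow, one_mul])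
  rw [Finset.mem_product, Finset.mem_range, Finset.mem_range] at hp hp'
  rw [← hr]
  refine ⟨![(p.1 : ℤ) - p'.1, (p.2 : ℤ) - p'.2], ?_, ?_, ?_⟩
  · intro h0
    apply hpp
    have e0 := congrFun h0 0
    have e1 := congrFun h0 1
    simp only [Matrix.cons_val_zero, Matrix.cons_val_one, Pi.zero_apply] at e0 e1
    exact Prod.ext (by omega) (by omega)
  · intro i
    fin_cases i
    · change |(p.1 : ℤ) - p'.1| ≤ r
      rw [abs_le]
      omega
    · change |(p.2 : ℤ) - p'.2| ≤ r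
      rw [abs_le]
      omega
  · unfold mon
    rw [Fin.prod_univ_two]
    change ζ 0 ^ ((p.1 : ℤ) - p'.1) * ζ 1 ^ ((p.2 : ℤ) - p'.2) = 1
    rw [zpow_sub₀ (hne 0), zpow_sub₀ (hne 1), zpow_natCast, zpow_natCast, zpow_natCast,
      zpow_natCast, div_mul_div_comm, heq]
    exact div_self (mul_ne_zero (pow_ne_zero _ (hne 0)) (pow_ne_zero _ (hne 1)))

private theorem tq_deg (a : Fin 2 → ℤ) {r : ℕ} (ha : ∀ i, |a i| ≤ r) (i : Fin 2) :
    degreeOf i (binom ℚ a 1) ≤ r := by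
  have hd : ∀ s t : ℕ, s ≤ r → t ≤ r →
      degreeOf i (X 0 ^ s * X 1 ^ t : MvPolynomial (Fin 2) ℚ) ≤ r := by
    intro s t hs ht
    refine (degreeOf_mul_le _ _ _).trans ((Nat.add_le_add (degreeOf_pow_le _ _ _)
      (degreeOf_pow_le _ _ _)).trans ?_)
    rw [degreeOf_X, degreeOf_X]
    fin_cases i <;> simp [hs, ht]
  unfold binom
  rw [map_one, one_mul, Fin.prod_univ_two, Fin.prod_univ_two]
  have h0 := abs_le.1 (ha 0)
  have h1 := abs_le.1 (ha 1)
  exact (degreeOf_sub_le _ _ _).trans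
    (max_le (hd _ _ (by omega) (by omega)) (hd _ _ (by omega) (by omega)))

private theorem tq_irr (Q : MvPolynomial (Fin 2) ℚ) (hQ : Irreducible Q) :
    ∃ E : Finset (Fin 2 → ℤ), 0 ∉ E ∧ ∀ ζ : Fin 2 → ℂ, (∀ i, RU (ζ i)) → aeval ζ Q = 0 →
      ∃ a ∈ E, mon ζ a = 1 := by
  classical
  by_cases hcase : ∃ a : Fin 2 → ℤ, a ≠ 0 ∧ Q ∣ binom ℚ a 1
  · obtain ⟨a, ha, g, hg⟩ := hcase
    refine ⟨{a}, fun h => ha (Finset.mem_singleton.1 h).symm, fun ζ hζ h0 =>
      ⟨a, Finset.mem_singleton_self a, ?_⟩⟩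
    have h1 : binom ℚ a 1 ∈ kr ℚ ζ := by
      rw [mem_kr, hg, map_mul, h0, zero_mul]
    rw [binom_mem_kr (fun i => (hζ i).ne_zero)] at h1
    rw [h1, map_one]
  · push Not at hcase
    obtain ⟨D, hD⟩ : ∃ D, D = max (degreeOf 0 Q) (degreeOf 1 Q) := ⟨_, rfl⟩
    refine ⟨{![((2 ^ (4096 * D ^ 2)).factorial : ℤ), 0]}, ?_,
      fun ζ hζ h0 => ⟨_, Finset.mem_singleton_self _, ?_⟩⟩
    · rw [Finset.mem_singleton]
      intro h
      have h1 := congrFun h 0
      change (0 : ℤ) = ((2 ^ (4096 * D ^ 2)).factorial : ℤ) at h1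
      exact Nat.factorial_ne_zero _ (by exact_mod_cast h1.symm)
    have hfin : ∀ i, IsOfFinOrder (ζ i) := fun i => by
      obtain ⟨m, hm, h⟩ := hζ i
      exact isOfFinOrder_iff_pow_eq_one.2 ⟨m, hm, h⟩
    have ho : ∀ i, 0 < orderOf (ζ i) := fun i => (hfin i).orderOf_pos
    obtain ⟨N, hN⟩ : ∃ N, N = Nat.lcm (orderOf (ζ 0)) (orderOf (ζ 1)) := ⟨_, rfl⟩
    have hNpos : 0 < N := by
      rw [hN]
      exact Nat.lcm_pos (ho 0) (ho 1)
    have hdvd : ∀ i, orderOf (ζ i) ∣ N := by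
      intro i
      rw [hN]
      fin_cases i
      · exact Nat.dvd_lcm_left _ _
      · exact Nat.dvd_lcm_right _ _
    have hpowN : ∀ i, ζ i ^ N = 1 := fun i => orderOf_dvd_iff_pow_eq_one.1 (hdvd i)
    have : NeZero N := ⟨hNpos.ne'⟩
    have hω := Complex.isPrimitiveRoot_exp N hNpos.ne'
    obtain ⟨ω, hω'⟩ : ∃ ω, ω = Complex.exp (2 * Real.pi * Complex.I / N) := ⟨_, rfl⟩
    rw [← hω'] at hω
    have hex : ∀ i, ∃ b : ℕ, ω ^ b = ζ i := fun i => by
      obtain ⟨b, -, hb⟩ := hω.eq_pow_of_pow_eq_one (hpowN i)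
      exact ⟨b, hb⟩
    choose b hb using hex
    have hb' : (fun i => ω ^ b i) = ζ := funext hb
    obtain ⟨a, ha0, har, ham⟩ := tq_pig ζ hNpos hpowN
    have hrel : IsRelPrime Q (binom ℚ a 1) := (hQ.isRelPrime_iff_not_dvd).2 (hcase a ha0)
    have hcardS : (((Finset.range N).filter N.Coprime).image
        (fun (u : ℕ) (i : Fin 2) => ζ i ^ u)).card = N.totient := by
      rw [Finset.card_image_of_injOn, Nat.totient_eq_card_coprime]
      have key : ∀ u u' : ℕ, u ≤ u' → u' < N →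
          (fun i : Fin 2 => ζ i ^ u) = (fun i => ζ i ^ u') → u = u' := by
        intro u u' hle hlt h
        have h1 : ∀ i, orderOf (ζ i) ∣ u' - u := by
          intro i
          rw [orderOf_dvd_iff_pow_eq_one]
          have h2 : ζ i ^ u = ζ i ^ u' := congrFun h i
          have h3 : ζ i ^ u' = ζ i ^ (u' - u) * ζ i ^ u := by
            rw [← pow_add, Nat.sub_add_cancel hle]
          rw [h3] at h2
          have h4 : ζ i ^ u ≠ 0 := pow_ne_zero _ (hζ i).ne_zero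
          exact (mul_right_cancel₀ h4 (by rw [one_mul]; exact h2)).symm
        have h2 : N ∣ u' - u := by
          rw [hN]
          exact Nat.lcm_dvd (h1 0) (h1 1)
        have h3 := Nat.eq_zero_of_dvd_of_lt h2 (by omega)
        omega
      intro u hu u' hu' h
      have hu1 := Finset.mem_range.1 (Finset.mem_filter.1 (Finset.mem_coe.1 hu)).1
      have hu1' := Finset.mem_range.1 (Finset.mem_filter.1 (Finset.mem_coe.1 hu')).1
      rcases le_total u u' with hle | hle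
      · exact key u u' hle hu1' h
      · exact (key u' u hle hu1 h.symm).symm
    have hbez := Pool.Agent.M05Full.bezout_card' hrel (L := ℂ) (a1 := D) (a2 := D)
      (b1 := Nat.sqrt N) (b2 := Nat.sqrt N) (by rw [hD]; exact le_max_left _ _)
      (by rw [hD]; exact le_max_right _ _) (tq_deg a har 0) (tq_deg a har 1)
      (((Finset.range N).filter N.Coprime).image (fun (u : ℕ) (i : Fin 2) => ζ i ^ u))
      (fun P hP => by
        obtain ⟨u, hu, rfl⟩ := Finset.mem_image.1 hP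
        have h1 := tq_conj Q hNpos hω b (by rw [hb']; exact h0)
          (Finset.mem_filter.1 hu).2.symm
        have h2 : (fun i => (ω ^ b i) ^ u) = fun i => ζ i ^ u := by
          funext i
          rw [hb]
        rwa [h2] at h1)
      (fun P hP => by
        obtain ⟨u, hu, rfl⟩ := Finset.mem_image.1 hP
        have h1 : binom ℚ a 1 ∈ kr ℚ (fun i => ζ i ^ u) := by
          rw [binom_mem_kr (fun i => pow_ne_zero _ (hζ i).ne_zero), map_one]
          have h2 : mon (fun i => ζ i ^ u) a = mon ζ a ^ u := by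
            unfold mon
            rw [← Finset.prod_pow]
            refine Finset.prod_congr rfl fun i _ => ?_
            change (ζ i ^ u) ^ a i = (ζ i ^ a i) ^ u
            rw [← zpow_natCast, ← zpow_natCast, ← zpow_mul, ← zpow_mul, mul_comm]
          rw [h2, ham, one_pow]
        rwa [mem_kr] at h1)
    rw [hcardS] at hbez
    have hNle := tq_bound D N hNpos hbez
    unfold mon
    rw [Fin.prod_univ_two]
    change ζ 0 ^ ((2 ^ (4096 * D ^ 2)).factorial : ℤ) * ζ 1 ^ (0 : ℤ) = 1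
    rw [zpow_zero, mul_one, zpow_natCast, ← orderOf_dvd_iff_pow_eq_one]
    exact (hdvd 0).trans (Nat.dvd_factorial hNpos hNle)

theorem tors_rat (Φ : MvPolynomial (Fin 2) ℚ) (h : Φ ≠ 0) :
    ∃ E : Finset (Fin 2 → ℤ), 0 ∉ E ∧ ∀ ζ : Fin 2 → ℂ, (∀ i, RU (ζ i)) → aeval ζ Φ = 0 →
      ∃ a ∈ E, mon ζ a = 1 := by
  revert h
  refine WfDvdMonoid.induction_on_irreducible Φ (fun h => absurd rfl h) ?_ ?_
  · intro u hu _
    refine ⟨∅, Finset.notMem_empty _, fun ζ _ h0 => ?_⟩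
    have h1 := hu.map (aeval ζ : MvPolynomial (Fin 2) ℚ →ₐ[ℚ] ℂ)
    rw [h0] at h1
    exact absurd h1 not_isUnit_zero
  · intro A q hA hq ih _
    obtain ⟨E, hE0, hE⟩ := ih hA
    obtain ⟨E', hE0', hE'⟩ := tq_irr q hq
    classical
    refine ⟨E' ∪ E, ?_, fun ζ hζ h0 => ?_⟩
    · rw [Finset.mem_union]
      exact fun h => h.elim hE0' hE0
    · rw [map_mul] at h0
      rcases mul_eq_zero.1 h0 with h1 | h1
      · obtain ⟨a, ha, h2⟩ := hE' ζ hζ h1
        exact ⟨a, Finset.mem_union_left _ ha, h2⟩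
      · obtain ⟨a, ha, h2⟩ := hE ζ hζ h1
        exact ⟨a, Finset.mem_union_right _ ha, h2⟩

end Pool.Agent.Srf5
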